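import Pool.Agent.LR.MM

set_option autoImplicit false
set_option linter.unusedSectionVars false

open Finset

namespace LR

variable {V : Type} [Fintype V] [DecidableEq V]

theorem A1_desc (N s : ℕ) (h : s ≤ N) (t : ℕ) :
    N ^ t * s.descFactorial t ≤ s ^ t * N.descFactorial t := by
  induction t with
  | zero => simp
  | succ t ih =>
    rw [Nat.descFactorial_succ, Nat.descFactorial_succ, pow_succ, pow_succ]
    have h1 : N * (s - t) ≤ s * (N - t) := by
      rw [Nat.mul_sub, Nat.mul_sub, Nat.mul_comm s N]
      exact Nat.sub_le_sub_left (Nat.mul_le_mul_right t h) _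
    calc N ^ t * N * ((s - t) * s.descFactorial t) = (N ^ t * s.descFactorial t) * (N * (s - t)) := by ring
      _ ≤ (s ^ t * N.descFactorial t) * (s * (N - t)) := Nat.mul_le_mul ih h1
      _ = _ := by ring

theorem A1_choose (N s : ℕ) (h : s ≤ N) (t : ℕ) :
    N ^ t * s.choose t ≤ s ^ t * N.choose t := by
  have h1 := A1_desc N s h t
  rw [Nat.descFactorial_eq_factorial_mul_choose, Nat.descFactorial_eq_factorial_mul_choose] at h1
  have h2 : t.factorial * (N ^ t * s.choose t) ≤ t.factorial * (s ^ t * N.choose t) := by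
    calc _ = N ^ t * (t.factorial * s.choose t) := by ring
      _ ≤ s ^ t * (t.factorial * N.choose t) := h1
      _ = _ := by ring
  exact Nat.le_of_mul_le_mul_left h2 (Nat.factorial_pos t)

omit [Fintype V] in
open Classical in
theorem A1_le_nC (H : SimpleGraph V) (t : ℕ) (Q : Finset V) :
    ((Q.powersetCard t).filter (fun C : Finset V => H.IsClique (C : Set V))).card ≤ nC H t Q := by
  unfold nC
  apply card_le_card_of_injOn (fun C : Finset V => (C : Set V))
  · intro C hC
    simp only [coe_filter, mem_powersetCard, Set.mem_ofPred_eq] at hC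
    simp only [coe_filter, Set.mem_ofPred_eq]
    refine ⟨?_, hC.2⟩
    simp only [bind, Finset.mem_sup, pure, mem_singleton]
    exact ⟨C, mem_powersetCard.mpr hC.1, rfl⟩
  · intro A _ B _ hAB
    exact Finset.coe_injective hAB

/-- TARGET A1 -/
theorem A1 (H : SimpleGraph V) (t : ℕ) (ht : 1 ≤ t)
    (hall : ∀ S : Finset V, t ^ 3 ≤ S.card → t ≤ om H S) (Q : Finset V) (hQ : t ^ 3 ≤ Q.card) :
    Q.card ^ t ≤ (t ^ 3) ^ t * nC H t Q := by
  classical
  set s := t ^ 3 with hs
  set N := Q.card with hN
  have hts : t ≤ s := by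
    rw [hs]; exact Nat.le_self_pow (by norm_num) t
  have hstep1 : N.choose s ≤ nC H t Q * (N - t).choose (s - t) := by
    have hsub : Q.powersetCard s ⊆ ((Q.powersetCard t).filter (fun C : Finset V => H.IsClique (C : Set V))).biUnion
        (fun T => ((Q \ T).powersetCard (s - t)).image (fun R => T ∪ R)) := by
      intro S hS
      rw [mem_powersetCard] at hS
      have h1 : t ≤ om H S := hall S (by rw [hS.2])
      obtain ⟨C, hCS, hC, hCc⟩ := exists_om H S
      rw [← hCc] at h1
      obtain ⟨T, hTC, hTc⟩ := exists_subset_card_eq h1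
      rw [mem_biUnion]
      refine ⟨T, ?_, ?_⟩
      · rw [mem_filter, mem_powersetCard]
        exact ⟨⟨hTC.trans (hCS.trans hS.1), hTc⟩, hC.subset (by exact_mod_cast hTC)⟩
      · rw [mem_image]
        refine ⟨S \ T, ?_, ?_⟩
        · rw [mem_powersetCard]
          refine ⟨sdiff_subset_sdiff hS.1 (Subset.refl _), ?_⟩
          rw [card_sdiff_of_subset (hTC.trans hCS), hS.2, hTc]
        · exact union_sdiff_of_subset (hTC.trans hCS)
    have hc := card_le_card hsub
    rw [card_powersetCard] at hc
    refine hc.trans (card_biUnion_le.trans ?_)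
    have : ∀ T ∈ ((Q.powersetCard t).filter (fun C : Finset V => H.IsClique (C : Set V))),
        (((Q \ T).powersetCard (s - t)).image (fun R => T ∪ R)).card ≤ (N - t).choose (s - t) := by
      intro T hT
      rw [mem_filter, mem_powersetCard] at hT
      refine card_image_le.trans ?_
      rw [card_powersetCard, card_sdiff_of_subset hT.1.1, hT.1.2]
    refine (sum_le_sum this).trans ?_
    rw [sum_const, smul_eq_mul]
    refine Nat.mul_le_mul_right _ ?_
    convert A1_le_nC H t Q
  have hmul := Nat.choose_mul (n := N) hts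
  have hpos1 : 0 < (N - t).choose (s - t) := Nat.choose_pos (Nat.sub_le_sub_right hQ t)
  have hpos2 : 0 < s.choose t := Nat.choose_pos hts
  have hstep2 : N.choose t ≤ nC H t Q * s.choose t := by
    have h1 : (N.choose t) * (N - t).choose (s - t) ≤ (nC H t Q * s.choose t) * (N - t).choose (s - t) := by
      rw [← hmul]
      calc N.choose s * s.choose t ≤ (nC H t Q * (N - t).choose (s - t)) * s.choose t :=
            Nat.mul_le_mul_right _ hstep1
        _ = _ := by ring
    exact Nat.le_of_mul_le_mul_right h1 hpos1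
  have h3 : N ^ t * s.choose t ≤ (s ^ t * nC H t Q) * s.choose t := by
    calc _ ≤ s ^ t * N.choose t := A1_choose N s hQ t
      _ ≤ s ^ t * (nC H t Q * s.choose t) := Nat.mul_le_mul_left _ hstep2
      _ = _ := by ring
  exact Nat.le_of_mul_le_mul_right h3 hpos2

end LR
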