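import Pool.Agent.LR.A1

set_option autoImplicit false
set_option linter.unusedSectionVars false

open Finset

namespace LR

variable {V : Type} [Fintype V] [DecidableEq V]

open Classical in
theorem A2_step (H : SimpleGraph V) (t : ℕ) (ht : 2 ≤ t) (Q : Finset V) (hQ : 1 ≤ Q.card)
    (hA : Q.card ^ t ≤ (t ^ 3) ^ t * nC H t Q) :
    ∃ T : Finset V, T ⊆ Q ∧ H.IsClique (T : Set V) ∧ T.card = t / 2 ∧
      Q.card ≤ t ^ 6 * (Q.filter (fun x => ∀ y ∈ T, H.Adj x y)).card := by
  set h := t / 2 with hh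
  set N := Q.card with hN
  by_contra hcon
  push Not at hcon
  set TT := (Q.powersetCard h).filter (fun C : Finset V => H.IsClique (C : Set V)) with hTT
  have hsub : (Q.powersetCard t).filter (fun C : Finset V => H.IsClique (C : Set V)) ⊆
      TT.biUnion (fun T : Finset V => ((Q.filter (fun x => ∀ y ∈ T, H.Adj x y)).powersetCard
        (t - h)).image (fun D => T ∪ D)) := by
    intro C hC
    rw [mem_filter, mem_powersetCard] at hC
    obtain ⟨⟨hCQ, hCc⟩, hCl⟩ := hC
    obtain ⟨T, hTC, hTc⟩ := exists_subset_card_eq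
      (show h ≤ C.card by rw [hCc]; exact Nat.div_le_self t 2)
    rw [mem_biUnion]
    refine ⟨T, ?_, ?_⟩
    · rw [hTT, mem_filter, mem_powersetCard]
      exact ⟨⟨hTC.trans hCQ, hTc⟩, hCl.subset (by exact_mod_cast hTC)⟩
    · rw [mem_image]
      refine ⟨C \ T, ?_, by rw [union_sdiff_of_subset hTC]⟩
      rw [mem_powersetCard]
      refine ⟨?_, by rw [card_sdiff_of_subset hTC, hCc, hTc]⟩
      intro x hx
      rw [mem_sdiff] at hx
      rw [mem_filter]
      refine ⟨hCQ hx.1, fun y hy => hCl (mem_coe.2 hx.1) (mem_coe.2 (hTC hy)) ?_⟩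
      rintro rfl
      exact hx.2 hy
  have hn : nC H t Q ≤
      ((Q.powersetCard t).filter (fun C : Finset V => H.IsClique (C : Set V))).card := by
    unfold nC
    refine (card_le_card (t := ((Q.powersetCard t).filter
      (fun C : Finset V => H.IsClique (C : Set V))).image (fun C : Finset V => (C : Set V)))
      ?_).trans card_image_le
    intro C hC
    rw [mem_filter] at hC
    rw [mem_image]
    obtain ⟨h1, h2⟩ := hC
    simp only [Finset.bind_def, Finset.pure_def, Finset.mem_sup, mem_singleton] at h1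
    obtain ⟨D, hD, rfl⟩ := h1
    exact ⟨D, mem_filter.2 ⟨hD, h2⟩, rfl⟩
  have hcard : nC H t Q ≤
      ∑ T ∈ TT, ((Q.filter (fun x => ∀ y ∈ T, H.Adj x y)).card).choose (t - h) := by
    refine hn.trans ?_
    refine (card_le_card hsub).trans (card_biUnion_le.trans (sum_le_sum fun T _ => ?_))
    exact card_image_le.trans (card_powersetCard _ _).le
  have hterm : ∀ T ∈ TT, (t ^ 6) ^ (t - h) *
      ((Q.filter (fun x => ∀ y ∈ T, H.Adj x y)).card).choose (t - h) ≤ (N - 1) ^ (t - h) := by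
    intro T hT
    rw [hTT, mem_filter, mem_powersetCard] at hT
    have h1 := hcon T hT.1.1 hT.2 hT.1.2
    calc (t ^ 6) ^ (t - h) * ((Q.filter (fun x => ∀ y ∈ T, H.Adj x y)).card).choose (t - h) ≤
          (t ^ 6) ^ (t - h) * (Q.filter (fun x => ∀ y ∈ T, H.Adj x y)).card ^ (t - h) :=
          Nat.mul_le_mul_left _ (Nat.choose_le_pow _ _)
      _ = (t ^ 6 * (Q.filter (fun x => ∀ y ∈ T, H.Adj x y)).card) ^ (t - h) := (mul_pow _ _ _).symm
      _ ≤ (N - 1) ^ (t - h) := Nat.pow_le_pow_left (by omega) _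
  have hTTc : TT.card ≤ N ^ h := by
    rw [hTT]
    refine (card_filter_le _ _).trans ?_
    rw [card_powersetCard]
    exact Nat.choose_le_pow _ _
  have h1 : (t ^ 6) ^ (t - h) * nC H t Q ≤ N ^ h * (N - 1) ^ (t - h) := by
    calc (t ^ 6) ^ (t - h) * nC H t Q ≤ (t ^ 6) ^ (t - h) *
          ∑ T ∈ TT, ((Q.filter (fun x => ∀ y ∈ T, H.Adj x y)).card).choose (t - h) :=
          Nat.mul_le_mul_left _ hcard
      _ = ∑ T ∈ TT, (t ^ 6) ^ (t - h) *
          ((Q.filter (fun x => ∀ y ∈ T, H.Adj x y)).card).choose (t - h) := mul_sum _ _ _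
      _ ≤ ∑ T ∈ TT, (N - 1) ^ (t - h) := sum_le_sum hterm
      _ = TT.card * (N - 1) ^ (t - h) := by rw [sum_const, smul_eq_mul]
      _ ≤ N ^ h * (N - 1) ^ (t - h) := Nat.mul_le_mul_right _ hTTc
  have h2 : (t ^ 3) ^ t ≤ (t ^ 6) ^ (t - h) := by
    rw [← pow_mul, ← pow_mul]
    exact Nat.pow_le_pow_right (by omega) (by omega)
  have h3 : N ^ t ≤ N ^ h * (N - 1) ^ (t - h) :=
    hA.trans ((Nat.mul_le_mul_right _ h2).trans h1)
  have h4 : N ^ h * (N - 1) ^ (t - h) < N ^ h * N ^ (t - h) := by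
    refine Nat.mul_lt_mul_of_pos_left (Nat.pow_lt_pow_left (by omega) (by omega)) ?_
    exact Nat.pos_of_ne_zero (pow_ne_zero _ (by omega))
  have h5 : N ^ h * N ^ (t - h) = N ^ t := by
    rw [← pow_add]
    congr 1
    omega
  omega

/-- TARGET A2 -/
theorem A2 (H : SimpleGraph V) (t : ℕ) (ht : 2 ≤ t)
    (hA1 : ∀ Q : Finset V, t ^ 3 ≤ Q.card → Q.card ^ t ≤ (t ^ 3) ^ t * nC H t Q) :
    ∀ (j : ℕ) (Q : Finset V), t ^ (6 * j + 3) ≤ Q.card → j * (t / 2) ≤ om H Q := by
  classical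
  intro j
  induction j with
  | zero => intro Q _; simp
  | succ j ih =>
    intro Q hQ
    have ht1 : 1 ≤ t := by omega
    have hQ1 : 1 ≤ Q.card := le_trans (Nat.one_le_pow _ _ ht1) hQ
    have hQ3 : t ^ 3 ≤ Q.card := (Nat.pow_le_pow_right ht1 (by omega)).trans hQ
    obtain ⟨T, hTQ, hTcl, hTc, hle⟩ := A2_step H t ht Q hQ1 (hA1 Q hQ3)
    set W := Q.filter (fun x => ∀ y ∈ T, H.Adj x y) with hW
    have hWc : t ^ (6 * j + 3) ≤ W.card := by
      have e : t ^ (6 * (j + 1) + 3) = t ^ 6 * t ^ (6 * j + 3) := by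
        rw [← pow_add]; congr 1; ring
      rw [e] at hQ
      exact Nat.le_of_mul_le_mul_left (hQ.trans hle) (Nat.pos_of_ne_zero (pow_ne_zero _ (by omega)))
    have h1 := ih W hWc
    obtain ⟨C, hCW, hCcl, hCc⟩ := exists_om H W
    have hadj : ∀ x ∈ C, ∀ y ∈ T, H.Adj x y := by
      intro x hx y hy
      have := hCW hx
      rw [hW, mem_filter] at this
      exact this.2 y hy
    have hdisj : Disjoint T C := by
      rw [disjoint_left]
      intro x hx hx'
      exact H.irrefl (hadj x hx' x hx)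
    have hcl : H.IsClique ((T ∪ C : Finset V) : Set V) := by
      intro x hx y hy hxy
      rw [mem_coe, mem_union] at hx hy
      rcases hx with hx | hx <;> rcases hy with hy | hy
      · exact hTcl (mem_coe.2 hx) (mem_coe.2 hy) hxy
      · exact (hadj y hy x hx).symm
      · exact hadj x hx y hy
      · exact hCcl (mem_coe.2 hx) (mem_coe.2 hy) hxy
    have hsub : T ∪ C ⊆ Q := union_subset hTQ (hCW.trans (filter_subset _ _))
    have h2 := le_om hsub hcl
    rw [card_union_of_disjoint hdisj, hTc, hCc] at h2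
    calc (j + 1) * (t / 2) = t / 2 + j * (t / 2) := by ring
      _ ≤ t / 2 + om H W := Nat.add_le_add_left h1 _
      _ ≤ om H Q := h2

end LR
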