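import Pool.Agent.LR.A2

set_option autoImplicit false
set_option linter.unusedSectionVars false

open Finset

namespace LR

variable {V : Type} [Fintype V] [DecidableEq V]

open Classical in
omit [Fintype V] in
theorem nC_eq (H : SimpleGraph V) (j : ℕ) (W : Finset V) : nC H j W =
    ((W.powersetCard j).filter (fun C : Finset V => H.IsClique (C : Set V))).card := by
  unfold nC
  have hmem : ∀ S : Set V, S ∈ (do let a ← powersetCard j W; pure (a : Set V) : Finset (Set V)) ↔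
      ∃ C ∈ W.powersetCard j, (C : Set V) = S := by
    intro S
    simp [Finset.bind_def]
  symm
  apply Finset.card_bij (fun (C : Finset V) _ => (C : Set V))
  · intro C hC
    rw [mem_filter] at hC ⊢
    exact ⟨(hmem _).2 ⟨C, hC.1, rfl⟩, hC.2⟩
  · intro C _ D _ h
    exact Finset.coe_injective h
  · intro S hS
    rw [mem_filter, hmem] at hS
    obtain ⟨⟨C, hC, rfl⟩, h2⟩ := hS
    exact ⟨C, mem_filter.2 ⟨hC, h2⟩, rfl⟩

omit [Fintype V] in
theorem A3_step (H : SimpleGraph V) (j : ℕ) (W : Finset V) :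
    nC H (j + 1) W ≤ ∑ x ∈ W, nC H j (nb H x W) := by
  classical
  simp only [nC_eq]
  have hsub : (W.powersetCard (j + 1)).filter (fun C : Finset V => H.IsClique (C : Set V)) ⊆
      W.biUnion (fun x => (((nb H x W).powersetCard j).filter
        (fun C : Finset V => H.IsClique (C : Set V))).image (fun C => insert x C)) := by
    intro C hC
    rw [mem_filter, mem_powersetCard] at hC
    obtain ⟨⟨hCW, hCc⟩, hcl⟩ := hC
    have hne : C.Nonempty := by
      rw [← card_pos]; omega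
    obtain ⟨x, hx⟩ := hne
    rw [mem_biUnion]
    refine ⟨x, hCW hx, ?_⟩
    rw [mem_image]
    refine ⟨C.erase x, ?_, insert_erase hx⟩
    rw [mem_filter, mem_powersetCard]
    refine ⟨⟨?_, ?_⟩, ?_⟩
    · intro y hy
      rw [mem_erase] at hy
      rw [mem_nb]
      exact ⟨hCW hy.2, hcl (mem_coe.2 hx) (mem_coe.2 hy.2) (Ne.symm hy.1)⟩
    · rw [card_erase_of_mem hx]; omega
    · apply hcl.subset
      exact_mod_cast erase_subset x C
  refine (card_le_card hsub).trans (card_biUnion_le.trans ?_)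
  exact Finset.sum_le_sum (fun x _ => card_image_le)

/-- the comparison function -/
noncomputable def gg (M ρ : ℝ) (a : ℕ) (w : ℝ) : ℝ :=
  if w < ρ * M then 1 else ρ⁻¹ * (w / (ρ * M)) ^ a

theorem gg_ge {M ρ : ℝ} (hM : 0 < M) (hρ : 0 < ρ) (a : ℕ) {w : ℝ} (hw : ρ * M ≤ w) :
    ρ⁻¹ ≤ gg M ρ a w := by
  unfold gg
  rw [if_neg (not_lt.2 hw)]
  have h1 : 1 ≤ w / (ρ * M) := by
    rw [le_div_iff₀ (by positivity), one_mul]; exact hw
  have h2 : 1 ≤ (w / (ρ * M)) ^ a := one_le_pow₀ h1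
  have h3 : 0 < ρ⁻¹ := inv_pos.2 hρ
  nlinarith

theorem gg_one {M ρ : ℝ} (hM : 0 < M) (hρ : 0 < ρ) (hρ1 : ρ ≤ 1) (a : ℕ) (w : ℝ) :
    1 ≤ gg M ρ a w := by
  by_cases h : w < ρ * M
  · unfold gg; rw [if_pos h]
  · exact ((one_le_inv₀ hρ).2 hρ1).trans (gg_ge hM hρ a (not_lt.1 h))

theorem gg_mono {M ρ : ℝ} (hM : 0 < M) (hρ : 0 < ρ) (hρ1 : ρ ≤ 1) (a : ℕ) {w w' : ℝ}
    (hw : 0 ≤ w) (hww : w ≤ w') : gg M ρ a w ≤ gg M ρ a w' := by
  by_cases h : w < ρ * M
  · have h1 : gg M ρ a w = 1 := by unfold gg; rw [if_pos h]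
    rw [h1]; exact gg_one hM hρ hρ1 a w'
  · have h' : ¬ w' < ρ * M := fun h2 => h (lt_of_le_of_lt hww h2)
    unfold gg
    rw [if_neg h, if_neg h']
    apply mul_le_mul_of_nonneg_left _ (inv_pos.2 hρ).le
    exact pow_le_pow_left₀ (by positivity) (div_le_div_of_nonneg_right hww (by positivity)) _

omit [Fintype V] in
theorem A3_claim (H : SimpleGraph V) (Q : Finset V) (M ρ η : ℝ) (a : ℕ) (hM : M = Q.card)
    (hM0 : 0 < M) (hρ : 0 < ρ) (hρ1 : ρ ≤ 1) (hdec : 0 ≤ 1 - η / 2 → (1 - η / 2) ^ a ≤ ρ)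
    (hno : ∀ W ⊆ Q, ρ * M ≤ W.card →
      ((W.filter (fun x => (W.card : ℝ) - (nb H x W).card < (η / 2) * W.card)).card : ℝ) ≤ ρ * M)
    (j : ℕ) : ∀ W ⊆ Q, (nC H j W : ℝ) ≤ (2 * M) ^ j * ρ ^ j * gg M ρ a W.card := by
  induction j with
  | zero =>
    intro W _
    have h1 : nC H 0 W ≤ 1 := by
      classical
      rw [nC_eq]
      refine (card_filter_le _ _).trans ?_
      rw [powersetCard_zero, card_singleton]
    have h2 : (nC H 0 W : ℝ) ≤ 1 := by exact_mod_cast h1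
    rw [pow_zero, pow_zero, one_mul, one_mul]
    exact h2.trans (gg_one hM0 hρ hρ1 a _)
  | succ j ih =>
    intro W hW
    have hWM : (W.card : ℝ) ≤ M := by
      rw [hM]; exact_mod_cast card_le_card hW
    have hstep : (nC H (j + 1) W : ℝ) ≤ ∑ x ∈ W, (nC H j (nb H x W) : ℝ) := by
      exact_mod_cast A3_step H j W
    have hterm : ∀ x ∈ W, (nC H j (nb H x W) : ℝ) ≤
        (2 * M) ^ j * ρ ^ j * gg M ρ a (nb H x W).card :=
      fun x _ => ih (nb H x W) (nb_subset.trans hW)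
    have hnbW : ∀ x, ((nb H x W).card : ℝ) ≤ W.card := fun x => by
      exact_mod_cast card_le_card nb_subset
    have hC0 : 0 ≤ (2 * M) ^ j * ρ ^ j := by positivity
    by_cases hsm : (W.card : ℝ) < ρ * M
    · have hg : gg M ρ a W.card = 1 := by unfold gg; rw [if_pos hsm]
      have hterm2 : ∀ x ∈ W, (nC H j (nb H x W) : ℝ) ≤ (2 * M) ^ j * ρ ^ j := by
        intro x hx
        have h1 := hterm x hx
        have h2 : gg M ρ a (nb H x W).card = 1 := by
          unfold gg; rw [if_pos (lt_of_le_of_lt (hnbW x) hsm)]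
        rwa [h2, mul_one] at h1
      rw [hg, mul_one]
      calc (nC H (j + 1) W : ℝ) ≤ ∑ x ∈ W, (nC H j (nb H x W) : ℝ) := hstep
        _ ≤ ∑ x ∈ W, (2 * M) ^ j * ρ ^ j := Finset.sum_le_sum hterm2
        _ = W.card * ((2 * M) ^ j * ρ ^ j) := by rw [sum_const, nsmul_eq_mul]
        _ ≤ (ρ * M) * ((2 * M) ^ j * ρ ^ j) := mul_le_mul_of_nonneg_right hsm.le hC0
        _ ≤ (2 * M) ^ (j + 1) * ρ ^ (j + 1) := by
            rw [pow_succ, pow_succ]
            have : 0 ≤ (ρ * M) * ((2 * M) ^ j * ρ ^ j) := by positivity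
            nlinarith
    · rw [not_lt] at hsm
      obtain ⟨G, hG⟩ : ∃ G, G = gg M ρ a W.card := ⟨_, rfl⟩
      have hGρ : ρ⁻¹ ≤ G := by rw [hG]; exact gg_ge hM0 hρ a hsm
      have hG0 : 0 < G := lt_of_lt_of_le (inv_pos.2 hρ) hGρ
      rw [← hG]
      have hW0 : 0 < (W.card : ℝ) := lt_of_lt_of_le (by positivity) hsm
      -- split
      have hsplit := Finset.sum_filter_add_sum_filter_not W
        (fun x => (W.card : ℝ) - (nb H x W).card < (η / 2) * W.card)
        (fun x => (nC H j (nb H x W) : ℝ))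
      have h1 : ∑ x ∈ W.filter (fun x => (W.card : ℝ) - (nb H x W).card < (η / 2) * W.card),
          (nC H j (nb H x W) : ℝ) ≤ (ρ * M) * ((2 * M) ^ j * ρ ^ j * G) := by
        calc _ ≤ ∑ x ∈ W.filter (fun x => (W.card : ℝ) - (nb H x W).card < (η / 2) * W.card),
              ((2 * M) ^ j * ρ ^ j * G) := by
              refine Finset.sum_le_sum (fun x hx => ?_)
              refine (hterm x (mem_of_mem_filter x hx)).trans ?_
              rw [hG]
              exact mul_le_mul_of_nonneg_left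
                (gg_mono hM0 hρ hρ1 a (Nat.cast_nonneg _) (hnbW x)) hC0
          _ = ((W.filter (fun x => (W.card : ℝ) - (nb H x W).card <
                (η / 2) * W.card)).card : ℝ) * ((2 * M) ^ j * ρ ^ j * G) := by
              rw [sum_const, nsmul_eq_mul]
          _ ≤ _ := mul_le_mul_of_nonneg_right (hno W hW hsm) (by positivity)
      have h2 : ∑ x ∈ W.filter (fun x => ¬ ((W.card : ℝ) - (nb H x W).card < (η / 2) * W.card)),
          (nC H j (nb H x W) : ℝ) ≤ M * ((2 * M) ^ j * ρ ^ j * (ρ * G)) := by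
        calc _ ≤ ∑ x ∈ W.filter (fun x => ¬ ((W.card : ℝ) - (nb H x W).card <
                (η / 2) * W.card)), ((2 * M) ^ j * ρ ^ j * (ρ * G)) := by
              refine Finset.sum_le_sum (fun x hx => ?_)
              refine (hterm x (mem_of_mem_filter x hx)).trans ?_
              refine mul_le_mul_of_nonneg_left ?_ hC0
              have hx2 := (mem_filter.1 hx).2
              rw [not_lt] at hx2
              have hx3 : ((nb H x W).card : ℝ) ≤ (1 - η / 2) * W.card := by linarith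
              have hpos : 0 ≤ 1 - η / 2 := by
                by_contra hneg
                rw [not_le] at hneg
                have h5 : (1 - η / 2) * W.card < 0 := mul_neg_of_neg_of_pos hneg hW0
                have h6 : (0 : ℝ) ≤ (nb H x W).card := Nat.cast_nonneg _
                linarith
              by_cases hs : ((nb H x W).card : ℝ) < ρ * M
              · have h5 : gg M ρ a (nb H x W).card = 1 := by unfold gg; rw [if_pos hs]
                rw [h5]
                have h6 : ρ * ρ⁻¹ ≤ ρ * G := mul_le_mul_of_nonneg_left hGρ hρ.le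
                rwa [mul_inv_cancel₀ hρ.ne'] at h6
              · have h5 : gg M ρ a (nb H x W).card =
                    ρ⁻¹ * ((nb H x W).card / (ρ * M)) ^ a := by unfold gg; rw [if_neg hs]
                have h6 : G = ρ⁻¹ * (W.card / (ρ * M)) ^ a := by
                  rw [hG]; unfold gg; rw [if_neg (not_lt.2 hsm)]
                rw [h5, h6]
                have h7 : ((nb H x W).card / (ρ * M) : ℝ) ^ a ≤
                    ((1 - η / 2) * (W.card / (ρ * M))) ^ a := by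
                  apply pow_le_pow_left₀ (by positivity)
                  rw [← mul_div_assoc]
                  exact div_le_div_of_nonneg_right hx3 (by positivity)
                rw [mul_pow] at h7
                have h8 : (1 - η / 2) ^ a * (W.card / (ρ * M)) ^ a ≤
                    ρ * (W.card / (ρ * M) : ℝ) ^ a :=
                  mul_le_mul_of_nonneg_right (hdec hpos) (by positivity)
                calc ρ⁻¹ * ((nb H x W).card / (ρ * M) : ℝ) ^ a
                    ≤ ρ⁻¹ * (ρ * (W.card / (ρ * M) : ℝ) ^ a) :=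
                      mul_le_mul_of_nonneg_left (h7.trans h8) (inv_pos.2 hρ).le
                  _ = ρ * (ρ⁻¹ * (W.card / (ρ * M)) ^ a) := by ring
          _ = ((W.filter (fun x => ¬ ((W.card : ℝ) - (nb H x W).card <
                (η / 2) * W.card))).card : ℝ) * ((2 * M) ^ j * ρ ^ j * (ρ * G)) := by
              rw [sum_const, nsmul_eq_mul]
          _ ≤ _ := by
              apply mul_le_mul_of_nonneg_right _ (by positivity)
              refine le_trans ?_ hWM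
              exact_mod_cast card_filter_le _ _
      calc (nC H (j + 1) W : ℝ) ≤ ∑ x ∈ W, (nC H j (nb H x W) : ℝ) := hstep
        _ ≤ (ρ * M) * ((2 * M) ^ j * ρ ^ j * G) + M * ((2 * M) ^ j * ρ ^ j * (ρ * G)) := by
            rw [← hsplit]; exact add_le_add h1 h2
        _ = (2 * M) ^ (j + 1) * ρ ^ (j + 1) * G := by
            rw [pow_succ, pow_succ]; ring

/-- TARGET A3 -/
theorem A3 (H : SimpleGraph V) (t : ℕ) (ht : 1000 ≤ t) (Q : Finset V) (hQ : t ^ 7 ≤ Q.card)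
    (hA1 : Q.card ^ t ≤ (t ^ 3) ^ t * nC H t Q) :
    ∃ A B : Finset V, A ⊆ Q ∧ B ⊆ Q ∧ Disjoint A B ∧ Q.card ≤ t ^ 6 * A.card ∧
      Q.card ≤ t ^ 6 * B.card ∧
      (eC Hᶜ A B : ℝ) ≤ (60 * Real.log t / t) * ((A.card : ℝ) * B.card) := by
  by_contra hcon
  obtain ⟨τ, hτ⟩ : ∃ τ : ℝ, τ = (t : ℝ) := ⟨_, rfl⟩
  have hτ1 : 1000 ≤ τ := by rw [hτ]; exact_mod_cast ht
  obtain ⟨M, hM⟩ : ∃ M : ℝ, M = (Q.card : ℝ) := ⟨_, rfl⟩
  have hMτ : τ ^ 7 ≤ M := by rw [hτ, hM]; exact_mod_cast hQ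
  have hτ0 : 0 < τ := by linarith
  have hM0 : 0 < M := lt_of_lt_of_le (by positivity) hMτ
  obtain ⟨ρ, hρd⟩ : ∃ ρ : ℝ, ρ = 2 / τ ^ 5 := ⟨_, rfl⟩
  have hρ : 0 < ρ := by rw [hρd]; positivity
  have hτ5 : (2 : ℝ) ≤ τ ^ 5 := by
    calc (2 : ℝ) ≤ 1000 ^ 5 := by norm_num
      _ ≤ τ ^ 5 := pow_le_pow_left₀ (by norm_num) hτ1 5
  have hρ1 : ρ ≤ 1 := by
    rw [hρd, div_le_one (by positivity)]
    exact hτ5
  have hlog : 0 ≤ Real.log τ := Real.log_nonneg (by linarith)
  obtain ⟨η, hη⟩ : ∃ η : ℝ, η = 60 * Real.log τ / τ := ⟨_, rfl⟩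
  have hη0 : 0 ≤ η := by rw [hη]; positivity
  obtain ⟨a, ha⟩ : ∃ a : ℕ, a = t / 5 - 1 := ⟨_, rfl⟩
  have haτ : τ / 6 ≤ (a : ℝ) := by
    have h1 : t ≤ 6 * a := by omega
    have h2 : τ ≤ 6 * (a : ℝ) := by rw [hτ]; exact_mod_cast h1
    linarith
  have hdec : 0 ≤ 1 - η / 2 → (1 - η / 2) ^ a ≤ ρ := by
    intro hpos
    have h1 : 1 - η / 2 ≤ Real.exp (-(η / 2)) := by
      have := Real.add_one_le_exp (-(η / 2))
      linarith
    have h2 : (1 - η / 2) ^ a ≤ Real.exp (-(η / 2)) ^ a := pow_le_pow_left₀ hpos h1 a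
    rw [← Real.exp_nat_mul] at h2
    refine h2.trans ?_
    have h3 : (a : ℝ) * (-(η / 2)) ≤ -(5 * Real.log τ) := by
      have h4 : η / 2 * (τ / 6) ≤ η / 2 * a := mul_le_mul_of_nonneg_left haτ (by linarith)
      have h5 : η / 2 * (τ / 6) = 5 * Real.log τ := by
        rw [hη]; field_simp; ring
      linarith
    refine (Real.exp_le_exp.2 h3).trans ?_
    have h6 : Real.exp (-(5 * Real.log τ)) = 1 / τ ^ 5 := by
      rw [Real.exp_neg, show (5 : ℝ) * Real.log τ = Real.log (τ ^ 5) by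
        rw [Real.log_pow]; norm_num, Real.exp_log (by positivity), one_div]
    rw [h6, hρd]
    exact div_le_div_of_nonneg_right (by norm_num) (by positivity)
  have hρM : ρ * M = 2 * M / τ ^ 5 := by rw [hρd]; ring
  have hno : ∀ W ⊆ Q, ρ * M ≤ W.card →
      ((W.filter (fun x => (W.card : ℝ) - (nb H x W).card < (η / 2) * W.card)).card : ℝ) ≤
        ρ * M := by
    intro W hW hWM
    by_contra hbig
    rw [not_le] at hbig
    obtain ⟨B, hB⟩ : ∃ B : Finset V,
      B = W.filter (fun x => (W.card : ℝ) - (nb H x W).card < (η / 2) * W.card) := ⟨_, rfl⟩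
    rw [← hB] at hbig
    have hBW : B ⊆ W := by rw [hB]; exact filter_subset _ _
    obtain ⟨A0, hA0B, hA0c⟩ := exists_subset_card_eq (Nat.div_le_self B.card 2)
    have hA0W : A0 ⊆ W := hA0B.trans hBW
    have hcB : (W \ A0).card = W.card - A0.card := card_sdiff_of_subset hA0W
    have hBWc : B.card ≤ W.card := card_le_card hBW
    have hA0le : A0.card ≤ W.card := card_le_card hA0W
    have n1 : W.card ≤ 2 * (W \ A0).card := by omega
    have n2 : B.card ≤ 2 * A0.card + 1 := by omega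
    have r1 : (W.card : ℝ) ≤ 2 * ((W \ A0).card : ℝ) := by exact_mod_cast n1
    have r2 : (B.card : ℝ) ≤ 2 * (A0.card : ℝ) + 1 := by exact_mod_cast n2
    rw [hρM] at hbig hWM
    have hT5 : 0 < τ ^ 5 := by positivity
    rw [div_lt_iff₀ hT5] at hbig
    rw [div_le_iff₀ hT5] at hWM
    apply hcon
    refine ⟨A0, W \ A0, hA0W.trans hW, sdiff_subset.trans hW, disjoint_sdiff, ?_, ?_, ?_⟩
    · have h1 : M ≤ τ ^ 6 * A0.card := by
        have h2 : 2 * M < (2 * (A0.card : ℝ) + 1) * τ ^ 5 :=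
          lt_of_lt_of_le hbig (mul_le_mul_of_nonneg_right r2 hT5.le)
        have h3 : τ * (2 * M) ≤ τ * ((2 * (A0.card : ℝ) + 1) * τ ^ 5) :=
          mul_le_mul_of_nonneg_left h2.le hτ0.le
        have h4 : τ * ((2 * (A0.card : ℝ) + 1) * τ ^ 5) = 2 * (τ ^ 6 * A0.card) + τ ^ 6 := by ring
        have h5 : τ ^ 6 ≤ τ ^ 7 := pow_le_pow_right₀ (by linarith) (by norm_num)
        have h6 : 1000 * (2 * M) ≤ τ * (2 * M) := mul_le_mul_of_nonneg_right hτ1 (by linarith)
        linarith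
      rw [hτ, hM] at h1
      exact_mod_cast h1
    · have h1 : M ≤ τ ^ 6 * ((W \ A0).card : ℝ) := by
        have h2 : 2 * M ≤ (2 * ((W \ A0).card : ℝ)) * τ ^ 5 :=
          hWM.trans (mul_le_mul_of_nonneg_right r1 hT5.le)
        have h3 : τ * (2 * M) ≤ τ * ((2 * ((W \ A0).card : ℝ)) * τ ^ 5) :=
          mul_le_mul_of_nonneg_left h2 hτ0.le
        have h4 : τ * ((2 * ((W \ A0).card : ℝ)) * τ ^ 5) = 2 * (τ ^ 6 * ((W \ A0).card : ℝ)) := by
          ring
        have h6 : 1000 * (2 * M) ≤ τ * (2 * M) := mul_le_mul_of_nonneg_right hτ1 (by linarith)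
        linarith
      rw [hτ, hM] at h1
      exact_mod_cast h1
    · rw [eC_eq_sum, ← hτ, ← hη]
      push_cast
      have hx : ∀ x ∈ A0, ((nb Hᶜ x (W \ A0)).card : ℝ) ≤ η / 2 * W.card := by
        intro x hx
        have hxB := hA0B hx
        rw [hB, mem_filter] at hxB
        have hs : nb Hᶜ x (W \ A0) ⊆ W \ nb H x W := by
          intro y hy
          rw [mem_nb, mem_sdiff] at hy
          rw [mem_sdiff, mem_nb]
          refine ⟨hy.1.1, fun h => ?_⟩
          exact ((SimpleGraph.compl_adj H x y).1 hy.2).2 h.2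
        have hc1 := card_le_card hs
        rw [card_sdiff_of_subset nb_subset] at hc1
        have hc2 : (nb H x W).card ≤ W.card := card_le_card nb_subset
        have hc3 : ((nb Hᶜ x (W \ A0)).card : ℝ) ≤ (W.card : ℝ) - (nb H x W).card := by
          rw [← Nat.cast_sub hc2]
          exact_mod_cast hc1
        exact hc3.trans hxB.2.le
      calc ∑ x ∈ A0, ((nb Hᶜ x (W \ A0)).card : ℝ) ≤ ∑ x ∈ A0, (η / 2 * W.card) :=
            Finset.sum_le_sum hx
        _ = A0.card * (η / 2 * W.card) := by rw [sum_const, nsmul_eq_mul]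
        _ ≤ A0.card * (η / 2 * (2 * ((W \ A0).card : ℝ))) := by
            apply mul_le_mul_of_nonneg_left _ (Nat.cast_nonneg _)
            exact mul_le_mul_of_nonneg_left r1 (by linarith)
        _ = η * (A0.card * ((W \ A0).card : ℝ)) := by ring
  have hclaim := A3_claim H Q M ρ η a hM hM0 hρ hρ1 hdec hno t Q (Subset.refl Q)
  have hg : gg M ρ a Q.card = ρ⁻¹ * (ρ⁻¹) ^ a := by
    unfold gg
    rw [← hM, if_neg]
    · congr 2
      field_simp
    · rw [not_lt]
      nlinarith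
  rw [hg] at hclaim
  have hA1' : M ^ t ≤ (τ ^ 3) ^ t * (nC H t Q : ℝ) := by
    rw [hM, hτ]; exact_mod_cast hA1
  obtain ⟨b, hb⟩ : ∃ b : ℕ, t = b + (a + 1) := ⟨t - (a + 1), by omega⟩
  have h5b : 4 * t ≤ 5 * b := by omega
  have hρt : ρ ^ t * (ρ⁻¹ * (ρ⁻¹) ^ a) = ρ ^ b := by
    have e1 : ρ ^ t = ρ ^ b * (ρ ^ a * ρ) := by
      rw [hb, pow_add, pow_succ]
    rw [e1]
    have e2 : ρ ^ a * (ρ⁻¹) ^ a = 1 := by rw [← mul_pow, mul_inv_cancel₀ hρ.ne', one_pow]
    have e3 : ρ * ρ⁻¹ = 1 := mul_inv_cancel₀ hρ.ne'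
    calc ρ ^ b * (ρ ^ a * ρ) * (ρ⁻¹ * (ρ⁻¹) ^ a) = ρ ^ b * (ρ ^ a * (ρ⁻¹) ^ a) * (ρ * ρ⁻¹) := by ring
      _ = ρ ^ b := by rw [e2, e3, mul_one, mul_one]
  have h1 : M ^ t ≤ M ^ t * ((τ ^ 3) ^ t * 2 ^ t * ρ ^ b) := by
    calc M ^ t ≤ (τ ^ 3) ^ t * (nC H t Q : ℝ) := hA1'
      _ ≤ (τ ^ 3) ^ t * ((2 * M) ^ t * ρ ^ t * (ρ⁻¹ * (ρ⁻¹) ^ a)) :=
          mul_le_mul_of_nonneg_left hclaim (by positivity)
      _ = M ^ t * ((τ ^ 3) ^ t * 2 ^ t * (ρ ^ t * (ρ⁻¹ * (ρ⁻¹) ^ a))) := by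
          rw [mul_pow 2 M]; ring
      _ = _ := by rw [hρt]
  have h2 : 1 ≤ (τ ^ 3) ^ t * 2 ^ t * ρ ^ b := by
    have hMt : 0 < M ^ t := by positivity
    by_contra h
    rw [not_le] at h
    have := mul_lt_mul_of_pos_left h hMt
    linarith
  have h3 : 1 ≤ ((τ ^ 3) ^ t * 2 ^ t * ρ ^ b) ^ 5 := one_le_pow₀ h2
  have h4 : ((τ ^ 3) ^ t * 2 ^ t * ρ ^ b) ^ 5 = (τ ^ 15 * 2 ^ 5) ^ t * ρ ^ (5 * b) := by
    have e1 : (τ ^ 15 * 2 ^ 5) ^ t = ((τ ^ 3) ^ t * 2 ^ t) ^ 5 := by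
      rw [← mul_pow, ← pow_mul _ t 5, mul_comm t 5, pow_mul _ 5 t]
      congr 1
      ring
    rw [e1, mul_pow _ (ρ ^ b), ← pow_mul ρ b 5, mul_comm b 5]
  have h5 : ρ ^ (5 * b) ≤ ρ ^ (4 * t) := pow_le_pow_of_le_one hρ.le hρ1 h5b
  have h6 : (τ ^ 15 * 2 ^ 5) ^ t * ρ ^ (5 * b) ≤ (τ ^ 15 * 2 ^ 5 * ρ ^ 4) ^ t := by
    rw [mul_pow _ (ρ ^ 4), ← pow_mul ρ 4 t]
    exact mul_le_mul_of_nonneg_left h5 (by positivity)
  have h7 : τ ^ 15 * 2 ^ 5 * ρ ^ 4 = 512 / τ ^ 5 := by
    rw [hρd]; field_simp; norm_num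
  have h8 : (512 / τ ^ 5) ^ t < 1 := by
    apply pow_lt_one₀ (by positivity) _ (by omega)
    rw [div_lt_one (by positivity)]
    calc (512 : ℝ) < 1000 ^ 5 := by norm_num
      _ ≤ τ ^ 5 := pow_le_pow_left₀ (by norm_num) hτ1 5
  rw [h4] at h3
  rw [h7] at h6
  exact absurd (h3.trans h6) (not_le.2 h8)

end LR
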