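import Pool.Agent.LR.A3

set_option autoImplicit false
set_option linter.unusedSectionVars false

open Finset

namespace LR

variable {V : Type} [Fintype V] [DecidableEq V]

/-- TARGET 1 -/
theorem cM_super (H : SimpleGraph V) (k m : ℕ) : ∀ (r : ℕ) (V0 : Finset V),
    (∀ Q ⊆ V0, V0.card ≤ Q.card + r * m → m ≤ cM H k Q) → r * m ≤ cM H (r * k) V0 := by
  intro r
  induction r with
  | zero => intro V0 _; simp
  | succ r ih =>
    intro V0 h
    obtain ⟨A, hA, ho, hc⟩ := exists_of_le_cM (h V0 (Subset.refl _) (Nat.le_add_right _ _))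
    have h1 : r * m ≤ cM H (r * k) (V0 \ A) := by
      refine ih _ fun Q hQ hcard => ?_
      refine h Q (hQ.trans sdiff_subset) ?_
      rw [card_sdiff_of_subset hA, hc] at hcard
      have h2 : (r + 1) * m = r * m + m := by ring
      omega
    have h2 := cM_add (k' := r * k) hA ho
    rw [hc] at h2
    have h3 : (r + 1) * m = m + r * m := by ring
    have h4 : (r + 1) * k = k + r * k := by ring
    rw [h3, h4]
    omega

/-- TARGET 2 -/
theorem om_compl_le (H : SimpleGraph V) (Q : Finset V) : om Hᶜ Q ≤ cM H 1 Q := by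
  obtain ⟨C, hC, hc, he⟩ := exists_om Hᶜ Q
  rw [← he]
  refine le_cM hC ?_
  obtain ⟨D, hD, hd, he'⟩ := exists_om H C
  rw [← he', Finset.card_le_one]
  intro a ha b hb
  by_contra hab
  have h1 : H.Adj a b := hd (mem_coe.2 ha) (mem_coe.2 hb) hab
  have h2 : Hᶜ.Adj a b := hc (mem_coe.2 (hD ha)) (mem_coe.2 (hD hb)) hab
  exact ((SimpleGraph.compl_adj _ _ _).1 h2).2 h1

/-- TARGET 3 -/
theorem pigeon (x : ℕ → ℝ) (L W : ℕ) (hW : 1 ≤ W) (ε δ a b : ℝ) (hε : 0 ≤ ε)
    (hstep : ∀ i < L, x i - ε ≤ x (i + 1)) (h0 : a ≤ x 0) (hL : x L ≤ b) (n : ℕ) (hn : 1 ≤ n)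
    (hnW : n * W ≤ L) (hδ : b - a + L * ε ≤ δ * n) :
    ∃ i0, i0 + W ≤ L ∧ ∀ i ≤ W, x i0 - W * ε ≤ x (i0 + i) ∧ x (i0 + i) ≤ x i0 + δ + W * ε := by
  have hit : ∀ (d i : ℕ), i + d ≤ L → x i - d * ε ≤ x (i + d) := by
    intro d
    induction d with
    | zero => intro i _; simp
    | succ d ih =>
      intro i hi
      have h1 := ih i (by omega)
      have h2 := hstep (i + d) (by omega)
      rw [← add_assoc]
      push_cast
      linarith
  obtain ⟨j, hj, hjx⟩ : ∃ j < n, x ((j + 1) * W) ≤ x (j * W) + δ := by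
    by_contra hcon
    push Not at hcon
    have h1 : ∑ j ∈ range n, (x ((j + 1) * W) - x (j * W)) = x (n * W) - x (0 * W) :=
      Finset.sum_range_sub (fun j => x (j * W)) n
    have h2 : ∑ _j ∈ range n, δ < ∑ j ∈ range n, (x ((j + 1) * W) - x (j * W)) := by
      refine Finset.sum_lt_sum_of_nonempty ⟨0, mem_range.2 (by omega)⟩ fun j hj => ?_
      have := hcon j (mem_range.1 hj)
      linarith
    rw [h1, Finset.sum_const, card_range, nsmul_eq_mul, zero_mul] at h2
    have h3 := hit (L - n * W) (n * W) (by omega)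
    rw [show n * W + (L - n * W) = L by omega] at h3
    have h4 : ((L - n * W : ℕ) : ℝ) * ε ≤ L * ε := by
      refine mul_le_mul_of_nonneg_right ?_ hε
      exact_mod_cast Nat.sub_le _ _
    linarith
  have hjL : (j + 1) * W ≤ L := (Nat.mul_le_mul_right W (by omega)).trans hnW
  have hjW : (j + 1) * W = j * W + W := by ring
  refine ⟨j * W, by omega, fun i hi => ?_⟩
  have hiW : (i : ℝ) ≤ W := by exact_mod_cast hi
  constructor
  · have h1 := hit i (j * W) (by omega)
    have h2 : (i : ℝ) * ε ≤ W * ε := mul_le_mul_of_nonneg_right hiW hε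
    linarith
  · have h1 := hit (W - i) (j * W + i) (by omega)
    rw [show j * W + i + (W - i) = (j + 1) * W by omega] at h1
    have h2 : ((W - i : ℕ) : ℝ) * ε ≤ W * ε := by
      refine mul_le_mul_of_nonneg_right ?_ hε
      exact_mod_cast Nat.sub_le _ _
    linarith

theorem one_le_cM (H : SimpleGraph V) (k : ℕ) (hk : 1 ≤ k) (Q : Finset V) (hQ : Q.Nonempty) :
    1 ≤ cM H k Q := by
  obtain ⟨v, hv⟩ := hQ
  have h1 : ({v} : Finset V) ⊆ Q := singleton_subset_iff.2 hv
  have h2 := le_cM (H := H) (k := k) h1 ((om_le_card H {v}).trans (by simpa using hk))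
  simpa using h2

/-- TARGET 4 -/
theorem exists_V0 [Nonempty V] (G : SimpleGraph V) (L q t : ℕ) (γ : ℝ) (hγ : 0 < γ) (hq : 1 ≤ q)
    (ht : 1 ≤ t)
    (hle : ∀ i ≤ L, cM G (q ^ i) Finset.univ ≤ t ^ 3 ∧ cM Gᶜ (q ^ i) Finset.univ ≤ t ^ 3) :
    ∃ V0 : Finset V, V0.Nonempty ∧
      (Fintype.card V : ℝ) * Real.exp (-(6 * ((L : ℝ) + 1) * Real.log t / γ)) ≤ V0.card ∧
      ∀ Q ⊆ V0, Q.Nonempty → ∀ i ≤ L,
        (cM G (q ^ i) V0 : ℝ) ≤ Real.exp (γ * (Real.log V0.card - Real.log Q.card)) *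
          cM G (q ^ i) Q ∧
        (cM Gᶜ (q ^ i) V0 : ℝ) ≤ Real.exp (γ * (Real.log V0.card - Real.log Q.card)) *
          cM Gᶜ (q ^ i) Q := by
  classical
  let S : Finset V → ℝ := fun Q => ∑ i ∈ range (L + 1),
    (Real.log (cM G (q ^ i) Q) + Real.log (cM Gᶜ (q ^ i) Q))
  have hqi : ∀ i : ℕ, 1 ≤ q ^ i := fun i => Nat.one_le_pow _ _ hq
  have hc1 : ∀ (H : SimpleGraph V) (i : ℕ) (Q : Finset V), Q.Nonempty → (1 : ℝ) ≤ cM H (q ^ i) Q := by
    intro H i Q hQ
    exact_mod_cast one_le_cM H (q ^ i) (hqi i) Q hQ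
  have hlog0 : ∀ (H : SimpleGraph V) (i : ℕ) (Q : Finset V), Q.Nonempty →
      0 ≤ Real.log (cM H (q ^ i) Q) := fun H i Q hQ => Real.log_nonneg (hc1 H i Q hQ)
  obtain ⟨V0, hV0, hmin⟩ := Finset.exists_min_image
    ((Finset.univ : Finset (Finset V)).filter Finset.Nonempty)
    (fun Q => S Q - γ * Real.log Q.card)
    ⟨Finset.univ, mem_filter.2 ⟨mem_univ _, Finset.univ_nonempty⟩⟩
  have hV0n : V0.Nonempty := (mem_filter.1 hV0).2
  have hV0c : (0 : ℝ) < V0.card := by exact_mod_cast hV0n.card_pos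
  refine ⟨V0, hV0n, ?_, ?_⟩
  · have h1 := hmin Finset.univ (mem_filter.2 ⟨mem_univ _, Finset.univ_nonempty⟩)
    have h2 : S Finset.univ ≤ (L + 1) * (6 * Real.log t) := by
      have h3 : ∀ i ∈ range (L + 1), Real.log (cM G (q ^ i) Finset.univ) +
          Real.log (cM Gᶜ (q ^ i) Finset.univ) ≤ 6 * Real.log t := by
        intro i hi
        have hi' : i ≤ L := by
          have := mem_range.1 hi
          omega
        have hlt : ∀ (H : SimpleGraph V), cM H (q ^ i) Finset.univ ≤ t ^ 3 →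
            Real.log (cM H (q ^ i) Finset.univ) ≤ 3 * Real.log t := by
          intro H hH
          have h4 : (cM H (q ^ i) Finset.univ : ℝ) ≤ (t : ℝ) ^ 3 := by exact_mod_cast hH
          have h5 := Real.log_le_log (lt_of_lt_of_le one_pos (hc1 H i _ Finset.univ_nonempty)) h4
          rw [Real.log_pow] at h5
          push_cast at h5
          exact h5
        have h6 := hlt G (hle i hi').1
        have h7 := hlt Gᶜ (hle i hi').2
        linarith
      refine (Finset.sum_le_card_nsmul _ _ _ h3).trans (le_of_eq ?_)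
      rw [card_range, nsmul_eq_mul]
      push_cast
      ring
    have h3 : 0 ≤ S V0 := Finset.sum_nonneg fun i _ =>
      add_nonneg (hlog0 _ _ _ hV0n) (hlog0 _ _ _ hV0n)
    rw [card_univ] at h1
    have hVc : (0 : ℝ) < Fintype.card V := by exact_mod_cast Fintype.card_pos
    have h4 : Real.log (Fintype.card V) - 6 * ((L : ℝ) + 1) * Real.log t / γ ≤
        Real.log V0.card := by
      have h5 : Real.log (Fintype.card V) - Real.log V0.card ≤
          6 * ((L : ℝ) + 1) * Real.log t / γ := by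
        rw [le_div_iff₀ hγ]
        linarith
      linarith
    have h5 := Real.exp_le_exp.2 h4
    rw [Real.exp_log hV0c, sub_eq_add_neg, Real.exp_add, Real.exp_log hVc] at h5
    exact h5
  · intro Q hQ hQn i hi
    have hQc : (0 : ℝ) < Q.card := by exact_mod_cast hQn.card_pos
    have h1 := hmin Q (mem_filter.2 ⟨mem_univ _, hQn⟩)
    have hmono : ∀ (H : SimpleGraph V) (i : ℕ), Real.log (cM H (q ^ i) Q) ≤
        Real.log (cM H (q ^ i) V0) := by
      intro H i
      refine Real.log_le_log (lt_of_lt_of_le one_pos (hc1 H i _ hQn)) ?_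
      exact_mod_cast cM_mono le_rfl hQ
    have h2 : (Real.log (cM G (q ^ i) V0) + Real.log (cM Gᶜ (q ^ i) V0)) -
        (Real.log (cM G (q ^ i) Q) + Real.log (cM Gᶜ (q ^ i) Q)) ≤ S V0 - S Q := by
      change _ ≤ ∑ i ∈ range (L + 1), _ - ∑ i ∈ range (L + 1), _
      rw [← Finset.sum_sub_distrib]
      refine Finset.single_le_sum (f := fun i => (Real.log (cM G (q ^ i) V0) +
        Real.log (cM Gᶜ (q ^ i) V0)) - (Real.log (cM G (q ^ i) Q) + Real.log (cM Gᶜ (q ^ i) Q)))
        (fun j _ => ?_) (mem_range.2 (by omega))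
      have h3 := hmono G j
      have h4 := hmono Gᶜ j
      change 0 ≤ (Real.log (cM G (q ^ j) V0) +
        Real.log (cM Gᶜ (q ^ j) V0)) - (Real.log (cM G (q ^ j) Q) + Real.log (cM Gᶜ (q ^ j) Q))
      linarith
    have h3 : S V0 - S Q ≤ γ * (Real.log V0.card - Real.log Q.card) := by linarith
    have hfin : ∀ (H : SimpleGraph V), Real.log (cM H (q ^ i) V0) - Real.log (cM H (q ^ i) Q) ≤
        γ * (Real.log V0.card - Real.log Q.card) →
        (cM H (q ^ i) V0 : ℝ) ≤ Real.exp (γ * (Real.log V0.card - Real.log Q.card)) *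
          cM H (q ^ i) Q := by
      intro H h
      have hp1 : (0 : ℝ) < cM H (q ^ i) V0 := lt_of_lt_of_le one_pos (hc1 H i _ hV0n)
      have hp2 : (0 : ℝ) < cM H (q ^ i) Q := lt_of_lt_of_le one_pos (hc1 H i _ hQn)
      have h4 : Real.log (cM H (q ^ i) V0) ≤
          γ * (Real.log V0.card - Real.log Q.card) + Real.log (cM H (q ^ i) Q) := by linarith
      have h5 := Real.exp_le_exp.2 h4
      rwa [Real.exp_add, Real.exp_log hp1, Real.exp_log hp2] at h5
    have h4 := hmono G i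
    have h5 := hmono Gᶜ i
    exact ⟨hfin G (by linarith), hfin Gᶜ (by linarith)⟩

end LR
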