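import Pool.Agent.LR.B1

set_option autoImplicit false
set_option linter.unusedSectionVars false

open Finset

namespace LR

variable {V : Type} [Fintype V] [DecidableEq V]

theorem cM_lt {H : SimpleGraph V} {t : ℕ} (hall : ∀ A : Finset V, t ^ 3 ≤ A.card → t ≤ om H A)
    {k : ℕ} (hk : k < t) (Q : Finset V) : cM H k Q < t ^ 3 := by
  obtain ⟨A, hA, ho, hc⟩ := exists_cM H k Q
  by_contra hcon
  rw [not_lt, ← hc] at hcon
  have := hall A hcon
  omega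

theorem near_card {t : ℕ} {β : ℝ} (hβ1 : β ≤ 1) {V0 Q : Finset V} (hV0 : 8 * t ^ 4 ≤ V0.card)
    {s : ℕ} (hs : s ≤ t ^ 4) (hQ : V0.card ≤ Q.card + s) :
    (β / 4) * (V0.card : ℝ) ≤ Q.card := by
  have h1 : (8 : ℝ) * (t : ℝ) ^ 4 ≤ V0.card := by exact_mod_cast hV0
  have h2 : (s : ℝ) ≤ (t : ℝ) ^ 4 := by exact_mod_cast hs
  have h3 : (V0.card : ℝ) ≤ Q.card + s := by exact_mod_cast hQ
  have h4 : (0 : ℝ) ≤ V0.card := by positivity
  nlinarith [mul_nonneg (sub_nonneg.2 hβ1) h4]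

theorem step_r {H : SimpleGraph V} {t q L : ℕ} {β δs : ℝ} {V0 : Finset V} (ht : 1 ≤ t)
    (hq : 1 ≤ q) (hβ1 : β ≤ 1) (hδs : 0 < δs)
    (hstab : ∀ Q ⊆ V0, (β / 4) * (V0.card : ℝ) ≤ Q.card → ∀ i ≤ L,
      (1 - δs) * (cM H (q ^ i) V0 : ℝ) ≤ cM H (q ^ i) Q)
    (hall : ∀ A : Finset V, t ^ 3 ≤ A.card → t ≤ om H A)
    (hV0 : 8 * t ^ 4 ≤ V0.card) (hqL : 8 * q ^ L ≤ t) {i : ℕ} (hi : i ≤ L) {r : ℕ} (hr : r ≤ t) :
    (r : ℝ) * ((1 - δs) * (cM H (q ^ i) V0 : ℝ)) ≤ cM H (r * q ^ i) V0 := by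
  have hqi : q ^ i ≤ q ^ L := Nat.pow_le_pow_right hq hi
  have hqi1 : 1 ≤ q ^ L := Nat.one_le_pow _ _ hq
  have hc := cM_lt hall (show q ^ i < t by omega) V0
  have hm1 : ⌈(1 - δs) * (cM H (q ^ i) V0 : ℝ)⌉₊ ≤ cM H (q ^ i) V0 := by
    apply Nat.ceil_le.2
    have : (0 : ℝ) ≤ cM H (q ^ i) V0 := by positivity
    nlinarith
  have hrm : r * ⌈(1 - δs) * (cM H (q ^ i) V0 : ℝ)⌉₊ ≤ t ^ 4 := by
    calc r * ⌈(1 - δs) * (cM H (q ^ i) V0 : ℝ)⌉₊ ≤ t * t ^ 3 := Nat.mul_le_mul hr (by omega)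
      _ = t ^ 4 := by ring
  have h := cM_super H (q ^ i) ⌈(1 - δs) * (cM H (q ^ i) V0 : ℝ)⌉₊ r V0 (by
    intro Q hQ hcard
    have h1 := hstab Q hQ (near_card hβ1 hV0 hrm hcard) i hi
    exact Nat.ceil_le.2 h1)
  have h2 : ((r * ⌈(1 - δs) * (cM H (q ^ i) V0 : ℝ)⌉₊ : ℕ) : ℝ) ≤ cM H (r * q ^ i) V0 := by
    exact_mod_cast h
  rw [Nat.cast_mul] at h2
  have h3 := Nat.le_ceil ((1 - δs) * (cM H (q ^ i) V0 : ℝ))
  exact le_trans (mul_le_mul_of_nonneg_left h3 (by positivity)) h2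

theorem Fi_le {H : SimpleGraph V} {t q L : ℕ} {β δs : ℝ} {V0 : Finset V} (ht : 1000 ≤ t)
    (hq : 1 ≤ q) (hβ1 : β ≤ 1) (hδs : 0 < δs) (hδs2 : δs ≤ 1 / 20)
    (hstab : ∀ Q ⊆ V0, (β / 4) * (V0.card : ℝ) ≤ Q.card → ∀ i ≤ L,
      (1 - δs) * (cM H (q ^ i) V0 : ℝ) ≤ cM H (q ^ i) Q)
    (hall : ∀ A : Finset V, t ^ 3 ≤ A.card → t ≤ om H A)
    (hV0 : 8 * t ^ 4 ≤ V0.card) (hqL : 8 * q ^ L ≤ t) {i : ℕ} (hi : i ≤ L) :
    (cM H (q ^ i) V0 : ℝ) ≤ (3 / 2) * (t : ℝ) ^ 2 * (q : ℝ) ^ i := by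
  have hqi : q ^ i ≤ q ^ L := Nat.pow_le_pow_right hq hi
  have hqi1 : 1 ≤ q ^ i := Nat.one_le_pow _ _ hq
  obtain ⟨r, hr1, hr2⟩ : ∃ r, r * q ^ i < t ∧ t ≤ r * q ^ i + q ^ i := by
    refine ⟨(t - 1) / q ^ i, ?_, ?_⟩
    · have := Nat.div_mul_le_self (t - 1) (q ^ i)
      omega
    · have := Nat.lt_div_mul_add (a := t - 1) (b := q ^ i) (by omega)
      omega
  have hrt : r ≤ t := by
    have : r * 1 ≤ r * q ^ i := Nat.mul_le_mul_left _ hqi1
    omega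
  have h1 := step_r (by omega : 1 ≤ t) hq hβ1 hδs hstab hall hV0 hqL hi hrt
  have h2 := cM_lt hall hr1 V0
  have h3 : (cM H (r * q ^ i) V0 : ℝ) ≤ (t : ℝ) ^ 3 := by exact_mod_cast h2.le
  have hQ : (8 : ℝ) * (q : ℝ) ^ i ≤ t := by exact_mod_cast (show 8 * q ^ i ≤ t by omega)
  have h4 : (t : ℝ) ≤ r * (q : ℝ) ^ i + (q : ℝ) ^ i := by exact_mod_cast hr2
  have hc0 : (0 : ℝ) ≤ cM H (q ^ i) V0 := by positivity
  have hQ0 : (0 : ℝ) < (q : ℝ) ^ i := by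
    have : (0 : ℝ) < q := by exact_mod_cast hq
    positivity
  have ht0 : (0 : ℝ) < t := by
    have : 0 < t := by omega
    exact_mod_cast this
  have hr0 : (0 : ℝ) ≤ r := by positivity
  generalize (cM H (q ^ i) V0 : ℝ) = c at *
  generalize (q : ℝ) ^ i = Q at *
  generalize (t : ℝ) = T at *
  generalize (r : ℝ) = R at *
  have h5 : 7 / 8 * T ≤ R * Q := by linarith
  have h6 : R * ((1 - δs) * c) ≤ T ^ 3 := h1.trans h3
  have h7 : (7 / 8 * T) * (19 / 20 * c) ≤ T ^ 3 * Q := by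
    calc (7 / 8 * T) * (19 / 20 * c) ≤ (R * Q) * ((1 - δs) * c) := by
          apply mul_le_mul h5 _ (by positivity) (by positivity)
          exact mul_le_mul_of_nonneg_right (by linarith) hc0
      _ = (R * ((1 - δs) * c)) * Q := by ring
      _ ≤ T ^ 3 * Q := mul_le_mul_of_nonneg_right h6 hQ0.le
  have h8 : T * (133 / 160 * c) ≤ T * (T ^ 2 * Q) := by
    have e1 : T * (133 / 160 * c) = (7 / 8 * T) * (19 / 20 * c) := by ring
    have e2 : T * (T ^ 2 * Q) = T ^ 3 * Q := by ring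
    rw [e1, e2]
    exact h7
  have h9 : 133 / 160 * c ≤ T ^ 2 * Q := le_of_mul_le_mul_left h8 ht0
  have h10 : 0 ≤ T ^ 2 * Q := by positivity
  linarith

theorem log_one_sub_ge {δ : ℝ} (h0 : 0 ≤ δ) (h1 : δ ≤ 1 / 2) : -(2 * δ) ≤ Real.log (1 - δ) := by
  have h2 : 0 < 1 - δ := by linarith
  have h3 := Real.one_sub_inv_le_log_of_pos h2
  have h4 : (1 - δ)⁻¹ ≤ 1 + 2 * δ := by
    rw [inv_le_iff_one_le_mul₀ h2]
    nlinarith
  linarith

theorem le_mul_exp_of_log {a b y : ℝ} (ha : 0 < a) (hb : 0 < b)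
    (h : Real.log a ≤ Real.log b + y) : a ≤ b * Real.exp y := by
  calc a = Real.exp (Real.log a) := (Real.exp_log ha).symm
    _ ≤ Real.exp (Real.log b + y) := Real.exp_le_exp.2 h
    _ = b * Real.exp y := by rw [Real.exp_add, Real.exp_log hb]

theorem exp_le_one_add_two {y : ℝ} (h0 : 0 ≤ y) (h1 : y ≤ 1 / 2) :
    Real.exp y ≤ 1 + 2 * y := by
  have h2 : 0 < 1 - y := by linarith
  have h3 : Real.exp y * (1 - y) ≤ 1 := by
    have h4 : 1 - y ≤ Real.exp (-y) := by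
      have := Real.add_one_le_exp (-y)
      linarith
    calc Real.exp y * (1 - y) ≤ Real.exp y * Real.exp (-y) :=
          mul_le_mul_of_nonneg_left h4 (Real.exp_pos _).le
      _ = 1 := by rw [← Real.exp_add, add_neg_cancel, Real.exp_zero]
  have h5 : Real.exp y * (1 - y) ≤ (1 + 2 * y) * (1 - y) := by nlinarith
  exact le_of_mul_le_mul_right h5 h2

theorem lev_N2 {H : SimpleGraph V} {t q W d φ k0 : ℕ} {β δ0 δ1 F : ℝ} {V0 : Finset V}
    (ht : 1000 ≤ t) (hq : 1 ≤ q) (hd : d ≤ q) (hβ1 : β ≤ 1) (hδ0 : 0 < δ0) (hδ1 : 0 < δ1)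
    (hk0 : 1 ≤ k0) (hφ2 : φ ≤ 2 * t ^ 2) (hktop : q ^ W * k0 ≤ t) (hF : 0 < F)
    (hV0 : 8 * t ^ 4 ≤ V0.card)
    (hφF : (1 - 2 * δ0) * F ≤ φ)
    (hN1 : ∀ Q ⊆ V0, (β / 4) * (V0.card : ℝ) ≤ Q.card → ∀ i ≤ W,
      (q ^ i * k0) * φ ≤ cM H (q ^ i * k0) Q)
    (htop : ∀ i ≤ W, (cM H (q ^ i * k0) V0 : ℝ) ≤
      ((q : ℝ) ^ i * k0) * (F * Real.exp (δ1 + δ0 / 2)))
    (hdq : 8 * (δ0 + δ1) * q ≤ d) (hsum : δ0 + δ1 ≤ 1 / 20)
    {i : ℕ} (hi : i < W) (Fs : Fin q → Finset V)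
    (hFs : ∀ j, Fs j ⊆ V0 ∧ om H (Fs j) ≤ q ^ i * k0 ∧ (Fs j).card = (q ^ i * k0) * φ)
    (hdisj : ∀ i j, i ≠ j → Disjoint (Fs i) (Fs j)) :
    (q - d) * (q ^ i * k0) < om H (Finset.univ.biUnion Fs) := by
  by_contra hcon
  rw [not_lt] at hcon
  have hUV : Finset.univ.biUnion Fs ⊆ V0 := by
    intro x hx
    rw [Finset.mem_biUnion] at hx
    obtain ⟨j, -, hj⟩ := hx
    exact (hFs j).1 hj
  have hUcard : (Finset.univ.biUnion Fs).card = q * ((q ^ i * k0) * φ) := by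
    rw [Finset.card_biUnion (fun a _ b _ hab => hdisj a b hab),
      Finset.sum_congr rfl (fun j _ => (hFs j).2.2)]
    simp
  generalize Finset.univ.biUnion Fs = U at *
  have hkk : q * (q ^ i * k0) = q ^ (i + 1) * k0 := by ring
  have hqk : q * (q ^ i * k0) ≤ t := by
    rw [hkk]
    exact (Nat.mul_le_mul_right _ (Nat.pow_le_pow_right hq hi)).trans hktop
  have hkpos : 1 ≤ q ^ i * k0 := Nat.mul_pos (Nat.one_le_pow _ _ hq) hk0
  have htop' := htop (i + 1) hi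
  have hN1' : ∀ Q ⊆ V0, (β / 4) * (V0.card : ℝ) ≤ Q.card →
      (q ^ i * k0) * φ ≤ cM H (q ^ i * k0) Q := fun Q hQ h => hN1 Q hQ h i hi.le
  have hcast : (q : ℝ) ^ (i + 1) * k0 = q * ((q ^ i * k0 : ℕ) : ℝ) := by
    push_cast
    ring
  rw [hcast, ← hkk] at htop'
  clear hN1 htop hFs
  generalize q ^ i * k0 = k at *
  have hsz : q * (k * φ) ≤ 2 * t ^ 3 := by
    calc q * (k * φ) = (q * k) * φ := by ring
      _ ≤ t * (2 * t ^ 2) := Nat.mul_le_mul hqk hφ2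
      _ = 2 * t ^ 3 := by ring
  have hdz : d * (k * φ) ≤ 2 * t ^ 3 := (Nat.mul_le_mul_right _ hd).trans hsz
  have ht4 : 4 * t ^ 3 ≤ t ^ 4 := by
    calc 4 * t ^ 3 ≤ t * t ^ 3 := Nat.mul_le_mul_right _ (by omega)
      _ = t ^ 4 := by ring
  have hsup := cM_super H k (k * φ) d (V0 \ U) (by
    intro Q hQ hcard
    have hQV : Q ⊆ V0 := hQ.trans sdiff_subset
    apply hN1' Q hQV
    apply near_card hβ1 hV0 (s := q * (k * φ) + d * (k * φ)) (by omega)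
    have h5 : (V0 \ U).card + U.card = V0.card := Finset.card_sdiff_add_card_eq_card hUV
    omega)
  have hadd := cM_add (k' := d * k) hUV hcon
  have heq : (q - d) * k + d * k = q * k := by
    rw [← Nat.add_mul, Nat.sub_add_cancel hd]
  rw [heq, hUcard] at hadd
  have h1 : (q + d) * (k * φ) ≤ cM H (q * k) V0 := by
    calc (q + d) * (k * φ) = q * (k * φ) + d * (k * φ) := by ring
      _ ≤ q * (k * φ) + cM H (d * k) (V0 \ U) := Nat.add_le_add_left hsup _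
      _ ≤ _ := hadd
  have h3 : ((q : ℝ) + d) * (k * φ) ≤ (q * (k : ℝ)) * (F * Real.exp (δ1 + δ0 / 2)) :=
    le_trans (by exact_mod_cast h1) htop'
  have hy : Real.exp (δ1 + δ0 / 2) ≤ 1 + 2 * (δ1 + δ0 / 2) :=
    exp_le_one_add_two (by linarith) (by linarith)
  have hk' : (0 : ℝ) < k := by exact_mod_cast hkpos
  have hq' : (0 : ℝ) < q := by exact_mod_cast hq
  have hd' : (0 : ℝ) ≤ d := by positivity
  clear hN1' hadd hsup
  have h6 : (k : ℝ) * F * (((q : ℝ) + d) * (1 - 2 * δ0)) ≤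
      (k : ℝ) * F * (q * (1 + 2 * (δ1 + δ0 / 2))) := by
    calc (k : ℝ) * F * (((q : ℝ) + d) * (1 - 2 * δ0)) =
          ((q : ℝ) + d) * (k * ((1 - 2 * δ0) * F)) := by ring
      _ ≤ ((q : ℝ) + d) * (k * φ) := by
          apply mul_le_mul_of_nonneg_left _ (by positivity)
          exact mul_le_mul_of_nonneg_left hφF hk'.le
      _ ≤ (q * (k : ℝ)) * (F * Real.exp (δ1 + δ0 / 2)) := h3
      _ ≤ (q * (k : ℝ)) * (F * (1 + 2 * (δ1 + δ0 / 2))) := by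
          apply mul_le_mul_of_nonneg_left _ (by positivity)
          exact mul_le_mul_of_nonneg_left hy hF.le
      _ = (k : ℝ) * F * (q * (1 + 2 * (δ1 + δ0 / 2))) := by ring
  have h7 : ((q : ℝ) + d) * (1 - 2 * δ0) ≤ q * (1 + 2 * (δ1 + δ0 / 2)) :=
    le_of_mul_le_mul_left h6 (by positivity)
  have h8 : ((q : ℝ) + 8 * (δ0 + δ1) * q) * (1 - 2 * δ0) ≤ ((q : ℝ) + d) * (1 - 2 * δ0) :=
    mul_le_mul_of_nonneg_right (by linarith) (by linarith)
  have h9 : (q : ℝ) * ((1 + 8 * (δ0 + δ1)) * (1 - 2 * δ0)) ≤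
      q * (1 + 2 * (δ1 + δ0 / 2)) := by
    have e : (q : ℝ) * ((1 + 8 * (δ0 + δ1)) * (1 - 2 * δ0)) =
      ((q : ℝ) + 8 * (δ0 + δ1) * q) * (1 - 2 * δ0) := by ring
    rw [e]
    exact h8.trans h7
  have h10 : (1 + 8 * (δ0 + δ1)) * (1 - 2 * δ0) ≤ 1 + 2 * (δ1 + δ0 / 2) :=
    le_of_mul_le_mul_left h9 hq'
  have h11 : δ0 * (δ0 + δ1) ≤ δ0 * (1 / 20) := mul_le_mul_of_nonneg_left hsum hδ0.le
  nlinarith

theorem lev_N3 {H : SimpleGraph V} {t φ k0 : ℕ} {β : ℝ} {V0 : Finset V}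
    (ht : 1000 ≤ t) (hβ : 0 < β) (hsz : k0 * φ ≤ 2 * t ^ 3)
    (hN1 : ∀ Q ⊆ V0, (β / 4) * (V0.card : ℝ) ≤ Q.card → k0 * φ ≤ cM H k0 Q)
    (h2 : cM H k0 V0 < 2 * (k0 * φ)) (A B : Finset V) (hA : A ⊆ V0) (hB : B ⊆ V0)
    (hAB : Disjoint A B) (hcA : β * (V0.card : ℝ) ≤ A.card)
    (hcB : β * (V0.card : ℝ) ≤ B.card) :
    (A.card : ℝ) * B.card ≤ (t : ℝ) ^ 10 * eC H A B := by
  classical
  by_contra hcon
  rw [not_le] at hcon
  have hcon' : t ^ 10 * eC H A B < A.card * B.card := by exact_mod_cast hcon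
  obtain ⟨e, he⟩ : ∃ e, e = eC H A B := ⟨_, rfl⟩
  rw [← he] at hcon'
  have hv : (0 : ℝ) ≤ V0.card := by positivity
  have hβv : 0 ≤ β * (V0.card : ℝ) := by positivity
  have hA'c : A.card ≤ 2 * (A.filter (fun a => (nb H a B).card * A.card ≤ 2 * e)).card := by
    have h1 : (A.filter (fun a => (nb H a B).card * A.card ≤ 2 * e)).card +
        (A.filter (fun a => ¬ ((nb H a B).card * A.card ≤ 2 * e))).card = A.card :=
      Finset.card_filter_add_card_filter_not _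
    have h3 : (A.filter (fun a => ¬ ((nb H a B).card * A.card ≤ 2 * e))).card * (2 * e + 1) ≤
        e * A.card := by
      calc (A.filter (fun a => ¬ ((nb H a B).card * A.card ≤ 2 * e))).card * (2 * e + 1)
          = ∑ a ∈ A.filter (fun a => ¬ ((nb H a B).card * A.card ≤ 2 * e)), (2 * e + 1) := by
            rw [Finset.sum_const, smul_eq_mul]
        _ ≤ ∑ a ∈ A.filter (fun a => ¬ ((nb H a B).card * A.card ≤ 2 * e)),
              (nb H a B).card * A.card :=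
            Finset.sum_le_sum (fun a ha => by
              have := (mem_filter.1 ha).2
              omega)
        _ ≤ ∑ a ∈ A, (nb H a B).card * A.card :=
            Finset.sum_le_sum_of_subset (filter_subset _ _)
        _ = e * A.card := by rw [← Finset.sum_mul, he, eC_eq_sum]
    generalize (A.filter (fun a => (nb H a B).card * A.card ≤ 2 * e)).card = a1 at *
    generalize (A.filter (fun a => ¬ ((nb H a B).card * A.card ≤ 2 * e))).card = a2 at *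
    by_contra hlt
    have h4 : A.card < 2 * a2 := by omega
    have h5 : e * A.card ≤ e * (2 * a2) := Nat.mul_le_mul_left _ h4.le
    have h6 : a2 * (2 * e + 1) = e * (2 * a2) + a2 := by ring
    omega
  have hA's : A.filter (fun a => (nb H a B).card * A.card ≤ 2 * e) ⊆ A := filter_subset _ _
  have hA'b : (β / 4) * (V0.card : ℝ) ≤
      ((A.filter (fun a => (nb H a B).card * A.card ≤ 2 * e)).card : ℝ) := by
    have h3 : (A.card : ℝ) ≤
        2 * ((A.filter (fun a => (nb H a B).card * A.card ≤ 2 * e)).card : ℝ) := by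
      exact_mod_cast hA'c
    linarith
  obtain ⟨As, hAs, hAso, hAsc⟩ := exists_of_le_cM (hN1 _ (hA's.trans hA) hA'b)
  -- the neighbours of `As`
  have hN : (As.biUnion (fun a => nb H a B)).card * A.card ≤ (k0 * φ) * (2 * e) := by
    calc (As.biUnion (fun a => nb H a B)).card * A.card
        ≤ (∑ a ∈ As, (nb H a B).card) * A.card := Nat.mul_le_mul_right _ Finset.card_biUnion_le
      _ = ∑ a ∈ As, (nb H a B).card * A.card := Finset.sum_mul _ _ _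
      _ ≤ ∑ a ∈ As, 2 * e := Finset.sum_le_sum (fun a ha => (mem_filter.1 (hAs ha)).2)
      _ = (k0 * φ) * (2 * e) := by rw [Finset.sum_const, smul_eq_mul, hAsc]
  have hN2 : 2 * (As.biUnion (fun a => nb H a B)).card ≤ B.card := by
    by_contra hlt
    rw [not_le] at hlt
    have h3 : A.card * B.card ≤ A.card * (2 * (As.biUnion (fun a => nb H a B)).card) :=
      Nat.mul_le_mul_left _ hlt.le
    have h4 : A.card * (2 * (As.biUnion (fun a => nb H a B)).card) =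
        2 * ((As.biUnion (fun a => nb H a B)).card * A.card) := by ring
    have h5 : (k0 * φ) * (2 * e) ≤ (2 * t ^ 3) * (2 * e) := Nat.mul_le_mul_right _ hsz
    have h6 : 2 * ((2 * t ^ 3) * (2 * e)) ≤ t ^ 10 * e := by
      calc 2 * ((2 * t ^ 3) * (2 * e)) = 8 * (t ^ 3 * e) := by ring
        _ ≤ t ^ 7 * (t ^ 3 * e) := by
            apply Nat.mul_le_mul_right
            calc 8 ≤ t ^ 1 := by rw [pow_one]; omega
              _ ≤ t ^ 7 := Nat.pow_le_pow_right (by omega) (by norm_num)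
        _ = t ^ 10 * e := by ring
    omega
  have hB'c : B.card ≤ 2 * (B \ As.biUnion (fun a => nb H a B)).card := by
    have h3 : B.card - (As.biUnion (fun a => nb H a B)).card ≤
        (B \ As.biUnion (fun a => nb H a B)).card := Finset.le_card_sdiff _ _
    omega
  have hB'b : (β / 4) * (V0.card : ℝ) ≤
      ((B \ As.biUnion (fun a => nb H a B)).card : ℝ) := by
    have h3 : (B.card : ℝ) ≤ 2 * ((B \ As.biUnion (fun a => nb H a B)).card : ℝ) := by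
      exact_mod_cast hB'c
    linarith
  obtain ⟨Bs, hBs, hBso, hBsc⟩ := exists_of_le_cM (hN1 _ (sdiff_subset.trans hB) hB'b)
  have hom : om H (As ∪ Bs) ≤ k0 := by
    apply om_union_le_max _ hAso hBso
    intro a ha b hb _ hadj
    have h3 := Finset.mem_sdiff.1 (hBs hb)
    exact h3.2 (Finset.mem_biUnion.2 ⟨a, ha, mem_nb.2 ⟨h3.1, hadj⟩⟩)
  have hAsA : As ⊆ A := hAs.trans hA's
  have hBsB : Bs ⊆ B := hBs.trans sdiff_subset
  have hdisj : Disjoint As Bs := Finset.disjoint_of_subset_left hAsA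
    (Finset.disjoint_of_subset_right hBsB hAB)
  have hfin := le_cM (H := H) (Finset.union_subset (hAsA.trans hA) (hBsB.trans hB)) hom
  rw [Finset.card_union_of_disjoint hdisj, hAsc, hBsc] at hfin
  omega

/-- TARGET -/
theorem exists_lev (H : SimpleGraph V) (t q L W d n : ℕ) (β δs δ1 Flow : ℝ) (V0 : Finset V)
    (ht : 1000 ≤ t) (hq : 1 ≤ q) (hW : 1 ≤ W) (hd : d ≤ q) (hβ : 0 < β) (hβ1 : β ≤ 1)
    (hδs : 0 < δs) (hδ1 : 0 < δ1)
    (hstab : ∀ Q ⊆ V0, (β / 4) * (V0.card : ℝ) ≤ Q.card → ∀ i ≤ L,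
      (1 - δs) * (cM H (q ^ i) V0 : ℝ) ≤ cM H (q ^ i) Q)
    (hall : ∀ A : Finset V, t ^ 3 ≤ A.card → t ≤ om H A)
    (hFlow : 1 ≤ Flow) (hlow : Flow ≤ cM H 1 V0)
    (hV0 : 8 * t ^ 4 ≤ V0.card)
    (hqL : 8 * q ^ L ≤ t)
    (hn : 1 ≤ n) (hnW : n * W ≤ L)
    (hLs : (L : ℝ) * δs ≤ 1 / 20)
    (hpig : Real.log (3 / 2 * (t : ℝ) ^ 2) - Real.log Flow + L * (2 * δs) ≤ δ1 * n)
    (hWF : 1 ≤ 4 * W * δs * (Flow / 2))
    (hdq : 8 * (4 * W * δs + δ1) * q ≤ d) (hsum : 4 * W * δs + δ1 ≤ 1 / 20) :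
    ∃ φ k0, Lev H t q W d φ k0 β V0 := by
  have hL1 : 1 ≤ L := le_trans (Nat.mul_pos hn hW) hnW
  have hL1' : (1 : ℝ) ≤ L := by exact_mod_cast hL1
  have hW' : (1 : ℝ) ≤ W := by exact_mod_cast hW
  have hδs20 : δs ≤ 1 / 20 := by nlinarith
  have hq0 : (0 : ℝ) < q := by exact_mod_cast hq
  have ht0 : (0 : ℝ) < t := by
    have : 0 < t := by omega
    exact_mod_cast this
  have hδ0 : 0 < 4 * (W : ℝ) * δs := by positivity
  have hδW : δs ≤ W * δs := by nlinarith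
  generalize hδ0def : 4 * (W : ℝ) * δs = δ0 at *
  have hqt : q ≤ t := by
    have h1 : q ^ 1 ≤ q ^ L := Nat.pow_le_pow_right hq hL1
    rw [pow_one] at h1
    omega
  have hlow' : ∀ i, Flow ≤ (cM H (q ^ i) V0 : ℝ) := by
    intro i
    have h1 : cM H 1 V0 ≤ cM H (q ^ i) V0 := cM_mono (Nat.one_le_pow _ _ hq) (Subset.refl _)
    have h2 : (cM H 1 V0 : ℝ) ≤ (cM H (q ^ i) V0 : ℝ) := by exact_mod_cast h1
    linarith
  have hup : ∀ i ≤ L, (cM H (q ^ i) V0 : ℝ) ≤ (3 / 2) * (t : ℝ) ^ 2 * (q : ℝ) ^ i := fun i hi =>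
    Fi_le ht hq hβ1 hδs hδs20 hstab hall hV0 hqL hi
  have hstep : ∀ i < L, (q : ℝ) * ((1 - δs) * (cM H (q ^ i) V0 : ℝ)) ≤
      (cM H (q ^ (i + 1)) V0 : ℝ) := by
    intro i hi
    have h1 := step_r (by omega : 1 ≤ t) hq hβ1 hδs hstab hall hV0 hqL hi.le hqt
    have e : q * q ^ i = q ^ (i + 1) := by ring
    rw [e] at h1
    exact h1
  have hcpos : ∀ i, 0 < (cM H (q ^ i) V0 : ℝ) := fun i => lt_of_lt_of_le (by linarith) (hlow' i)
  have hxpos : ∀ i, 0 < (cM H (q ^ i) V0 : ℝ) / (q : ℝ) ^ i := fun i =>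
    div_pos (hcpos i) (pow_pos hq0 i)
  have hxstep : ∀ i < L, Real.log ((cM H (q ^ i) V0 : ℝ) / (q : ℝ) ^ i) - 2 * δs ≤
      Real.log ((cM H (q ^ (i + 1)) V0 : ℝ) / (q : ℝ) ^ (i + 1)) := by
    intro i hi
    have h1 : (1 - δs) * ((cM H (q ^ i) V0 : ℝ) / (q : ℝ) ^ i) ≤
        (cM H (q ^ (i + 1)) V0 : ℝ) / (q : ℝ) ^ (i + 1) := by
      rw [le_div_iff₀ (pow_pos hq0 _)]
      have h2 : (1 - δs) * ((cM H (q ^ i) V0 : ℝ) / (q : ℝ) ^ i) * (q : ℝ) ^ (i + 1) =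
          (q : ℝ) * ((1 - δs) * (cM H (q ^ i) V0 : ℝ)) := by
        rw [pow_succ]
        field_simp
      rw [h2]
      exact hstep i hi
    have h2 := Real.log_le_log (mul_pos (by linarith) (hxpos i)) h1
    rw [Real.log_mul (by linarith) (hxpos i).ne'] at h2
    have h3 := log_one_sub_ge hδs.le (by linarith)
    linarith
  have hx0 : Real.log Flow ≤ Real.log ((cM H (q ^ 0) V0 : ℝ) / (q : ℝ) ^ 0) := by
    apply Real.log_le_log (by linarith)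
    rw [pow_zero, pow_zero, div_one]
    exact hlow
  have hxL : Real.log ((cM H (q ^ L) V0 : ℝ) / (q : ℝ) ^ L) ≤ Real.log (3 / 2 * (t : ℝ) ^ 2) := by
    apply Real.log_le_log (hxpos L)
    rw [div_le_iff₀ (pow_pos hq0 _)]
    exact hup L le_rfl
  obtain ⟨i0, hi0, hpp⟩ := pigeon (fun i => Real.log ((cM H (q ^ i) V0 : ℝ) / (q : ℝ) ^ i)) L W hW
    (2 * δs) δ1 (Real.log Flow) (Real.log (3 / 2 * (t : ℝ) ^ 2)) (by positivity) hxstep hx0 hxL n hn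
    hnW hpig
  have hxlow : ∀ i : ℕ, i ≤ L → Real.log Flow - i * (2 * δs) ≤
      Real.log ((cM H (q ^ i) V0 : ℝ) / (q : ℝ) ^ i) := by
    intro i
    induction i with
    | zero => intro _; simpa using hx0
    | succ i ih =>
      intro hi
      have h1 := ih (by omega)
      have h2 := hxstep i (by omega)
      push_cast
      linarith
  have hi0L : i0 ≤ L := by omega
  have hi0L' : (i0 : ℝ) ≤ L := by exact_mod_cast hi0L
  obtain ⟨F, hFdef⟩ : ∃ F, F = (cM H (q ^ i0) V0 : ℝ) / (q : ℝ) ^ i0 := ⟨_, rfl⟩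
  have hFpos : 0 < F := by rw [hFdef]; exact hxpos i0
  have hcF : (cM H (q ^ i0) V0 : ℝ) = (q : ℝ) ^ i0 * F := by
    rw [hFdef, mul_div_cancel₀]
    exact (pow_pos hq0 _).ne'
  have hFlow2 : Flow / 2 ≤ F := by
    have h1 := hxlow i0 hi0L
    rw [← hFdef] at h1
    have h2 : (i0 : ℝ) * (2 * δs) ≤ 1 / 10 := by
      have : (i0 : ℝ) * δs ≤ L * δs := mul_le_mul_of_nonneg_right hi0L' hδs.le
      linarith
    have h3 : Flow ≤ F * Real.exp (1 / 10) :=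
      le_mul_exp_of_log (by linarith) hFpos (by linarith)
    have h4 : Real.exp (1 / 10) ≤ 1 + 2 * (1 / 10) := exp_le_one_add_two (by norm_num) (by norm_num)
    have h5 : F * Real.exp (1 / 10) ≤ F * (1 + 2 * (1 / 10)) := mul_le_mul_of_nonneg_left h4 hFpos.le
    linarith
  have hδF : 1 ≤ δ0 * F := le_trans hWF (mul_le_mul_of_nonneg_left hFlow2 hδ0.le)
  have hFup : F ≤ 3 / 2 * (t : ℝ) ^ 2 := by
    rw [hFdef, div_le_iff₀ (pow_pos hq0 _)]
    exact hup i0 hi0L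
  have hφnn : 0 ≤ (1 - δ0) * F := mul_nonneg (by linarith) hFpos.le
  obtain ⟨φ, hφdef⟩ : ∃ φ, φ = ⌊(1 - δ0) * F⌋₊ := ⟨_, rfl⟩
  have hφ_le : (φ : ℝ) ≤ (1 - δ0) * F := by rw [hφdef]; exact Nat.floor_le hφnn
  have hφ_ge : (1 - 2 * δ0) * F ≤ φ := by
    have h1 : (1 - δ0) * F < φ + 1 := by rw [hφdef]; exact Nat.lt_floor_add_one _
    linarith
  have hF20 : 20 ≤ F := by
    by_contra h
    rw [not_le] at h
    have h1 : δ0 * F < δ0 * 20 := mul_lt_mul_of_pos_left h hδ0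
    linarith
  have hφ09 : 0.9 * F ≤ φ := by
    have h1 : δ0 * F ≤ 1 / 20 * F := mul_le_mul_of_nonneg_right (by linarith) hFpos.le
    linarith
  have hφ1 : 1 ≤ φ := by
    have : (1 : ℝ) ≤ φ := by linarith
    exact_mod_cast this
  have hφ2 : φ ≤ 2 * t ^ 2 := by
    have h0 : (0 : ℝ) ≤ (t : ℝ) ^ 2 := by positivity
    have h1 : (φ : ℝ) ≤ F := by
      have : 0 ≤ δ0 * F := by positivity
      linarith
    have : (φ : ℝ) ≤ 2 * (t : ℝ) ^ 2 := by linarith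
    exact_mod_cast this
  have hk : ∀ i, q ^ i * q ^ i0 = q ^ (i0 + i) := fun i => by rw [← pow_add, add_comm]
  have hlo : ∀ i ≤ W, (q : ℝ) ^ (i0 + i) * ((1 - δ0) * F) ≤
      (1 - δs) * (cM H (q ^ (i0 + i)) V0 : ℝ) := by
    intro i hi
    have h1 := (hpp i hi).1
    have h1' : Real.log F - W * (2 * δs) ≤
        Real.log ((cM H (q ^ (i0 + i)) V0 : ℝ) / (q : ℝ) ^ (i0 + i)) := by
      rw [hFdef]; exact h1
    have h2 : F * Real.exp (-(W * (2 * δs))) ≤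
        (cM H (q ^ (i0 + i)) V0 : ℝ) / (q : ℝ) ^ (i0 + i) := by
      have h3 : F ≤ (cM H (q ^ (i0 + i)) V0 : ℝ) / (q : ℝ) ^ (i0 + i) *
          Real.exp (W * (2 * δs)) := le_mul_exp_of_log hFpos (hxpos _) (by linarith)
      calc F * Real.exp (-(W * (2 * δs))) ≤ ((cM H (q ^ (i0 + i)) V0 : ℝ) / (q : ℝ) ^ (i0 + i) *
          Real.exp (W * (2 * δs))) * Real.exp (-(W * (2 * δs))) :=
            mul_le_mul_of_nonneg_right h3 (Real.exp_pos _).le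
        _ = (cM H (q ^ (i0 + i)) V0 : ℝ) / (q : ℝ) ^ (i0 + i) := by
          rw [mul_assoc, ← Real.exp_add, add_neg_cancel, Real.exp_zero, mul_one]
    rw [le_div_iff₀ (pow_pos hq0 _)] at h2
    have h4 : 1 - W * (2 * δs) ≤ Real.exp (-(W * (2 * δs))) := by
      have := Real.add_one_le_exp (-(W * (2 * δs)))
      linarith
    have h5 : (1 - δ0) ≤ (1 - δs) * Real.exp (-(W * (2 * δs))) := by
      have h6 : (1 - δs) * (1 - W * (2 * δs)) ≤ (1 - δs) * Real.exp (-(W * (2 * δs))) :=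
        mul_le_mul_of_nonneg_left h4 (by linarith)
      have h7 : 0 ≤ δs * (W * (2 * δs)) := by positivity
      have h8 : (1 - δs) * (1 - W * (2 * δs)) = 1 - δs - 2 * (W * δs) + δs * (W * (2 * δs)) := by
        ring
      have h9 : δ0 = 4 * (W * δs) := by rw [← hδ0def]; ring
      linarith
    have hQ : 0 ≤ (q : ℝ) ^ (i0 + i) * F := by positivity
    calc (q : ℝ) ^ (i0 + i) * ((1 - δ0) * F) = (1 - δ0) * ((q : ℝ) ^ (i0 + i) * F) := by ring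
      _ ≤ ((1 - δs) * Real.exp (-(W * (2 * δs)))) * ((q : ℝ) ^ (i0 + i) * F) :=
        mul_le_mul_of_nonneg_right h5 hQ
      _ = (1 - δs) * (F * Real.exp (-(W * (2 * δs))) * (q : ℝ) ^ (i0 + i)) := by ring
      _ ≤ (1 - δs) * (cM H (q ^ (i0 + i)) V0 : ℝ) := mul_le_mul_of_nonneg_left h2 (by linarith)
  have hN1' : ∀ Q ⊆ V0, (β / 4) * (V0.card : ℝ) ≤ Q.card → ∀ i ≤ W,
      (q ^ i * q ^ i0) * φ ≤ cM H (q ^ i * q ^ i0) Q := by
    intro Q hQ hQc i hi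
    rw [hk i]
    have h1 := hstab Q hQ hQc (i0 + i) (by omega)
    have h2 := hlo i hi
    have h3 : (q : ℝ) ^ (i0 + i) * φ ≤ (q : ℝ) ^ (i0 + i) * ((1 - δ0) * F) :=
      mul_le_mul_of_nonneg_left hφ_le (by positivity)
    have h4 : (q : ℝ) ^ (i0 + i) * φ ≤ (cM H (q ^ (i0 + i)) Q : ℝ) := by linarith
    exact_mod_cast h4
  have hktop8 : 8 * (q ^ W * q ^ i0) ≤ t := by
    rw [hk W]
    have : q ^ (i0 + W) ≤ q ^ L := Nat.pow_le_pow_right hq hi0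
    omega
  have hktop : q ^ W * q ^ i0 ≤ t := by omega
  refine ⟨φ, q ^ i0, ⟨Nat.one_le_pow _ _ hq, hφ1, hφ2, hktop, ?_, ?_, ?_⟩⟩
  · intro Q hQ hQc i hi
    have hv : (0 : ℝ) ≤ V0.card := Nat.cast_nonneg _
    have hv2 : 0 ≤ β * (V0.card : ℝ) := mul_nonneg hβ.le hv
    exact exists_of_le_cM (hN1' Q hQ (by linarith) i hi)
  · intro i hi Fs hFs hdisj
    refine lev_N2 ht hq hd hβ1 hδ0 hδ1 (Nat.one_le_pow _ _ hq) hφ2 hktop hFpos hV0 hφ_ge hN1'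
      ?_ hdq hsum hi Fs hFs hdisj
    intro j hj
    have h1 := (hpp j hj).2
    have h1' : Real.log ((cM H (q ^ (i0 + j)) V0 : ℝ) / (q : ℝ) ^ (i0 + j)) ≤
        Real.log F + (δ1 + δ0 / 2) := by
      rw [hFdef, ← hδ0def]
      have h2 : Real.log ((cM H (q ^ (i0 + j)) V0 : ℝ) / (q : ℝ) ^ (i0 + j)) ≤
        Real.log ((cM H (q ^ i0) V0 : ℝ) / (q : ℝ) ^ i0) + δ1 + W * (2 * δs) := h1
      linarith
    have h2 := le_mul_exp_of_log (hxpos _) hFpos h1'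
    rw [div_le_iff₀ (pow_pos hq0 _)] at h2
    rw [hk j]
    have h3 : (q : ℝ) ^ j * ((q ^ i0 : ℕ) : ℝ) = (q : ℝ) ^ (i0 + j) := by
      push_cast
      rw [← pow_add, add_comm]
    rw [h3]
    linarith
  · intro A B hA hB hAB hcA hcB
    have h0 := hN1'
    have hsz : q ^ i0 * φ ≤ 2 * t ^ 3 := by
      have h1 : q ^ i0 ≤ t := by
        have : q ^ i0 ≤ q ^ L := Nat.pow_le_pow_right hq hi0L
        omega
      calc q ^ i0 * φ ≤ t * (2 * t ^ 2) := Nat.mul_le_mul h1 hφ2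
        _ = 2 * t ^ 3 := by ring
    refine lev_N3 ht hβ hsz ?_ ?_ A B hA hB hAB hcA hcB
    · intro Q hQ hQc
      have h1 := hN1' Q hQ hQc 0 (by omega)
      rw [pow_zero, one_mul] at h1
      exact h1
    · have h1 : (cM H (q ^ i0) V0 : ℝ) < 2 * ((q : ℝ) ^ i0 * φ) := by
        rw [hcF]
        have h2 : 0 < (q : ℝ) ^ i0 := pow_pos hq0 _
        have h3 : (q : ℝ) ^ i0 * F < (q : ℝ) ^ i0 * (2 * φ) := mul_lt_mul_of_pos_left (by linarith) h2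
        linarith
      exact_mod_cast h1

end LR
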