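import Pool.Agent.LR.B4

set_option autoImplicit false
set_option linter.unusedSectionVars false

open Finset

namespace LR

variable {V : Type} [Fintype V] [DecidableEq V]

omit [Fintype V] in
theorem C_pair_split (H : SimpleGraph V) {X X' Y Y' : Finset V} (hX : X' ⊆ X) (hY : Y' ⊆ Y) :
    eC H X Y = eC H X' Y' + eC H (X \ X') Y' + eC H X (Y \ Y') := by
  classical
  have h : ∀ A B : Finset V, eC H A B = ∑ a ∈ A, ∑ b ∈ B, if H.Adj a b then 1 else 0 := by
    intro A B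
    rw [eC_eq_sum]
    apply Finset.sum_congr rfl
    intro a _
    unfold nb
    rw [Finset.card_filter]
  rw [h, h, h, h]
  have h1 : ∑ a ∈ X, ∑ b ∈ Y, (if H.Adj a b then 1 else 0) =
      ∑ a ∈ X, ∑ b ∈ Y', (if H.Adj a b then 1 else 0) +
      ∑ a ∈ X, ∑ b ∈ Y \ Y', (if H.Adj a b then 1 else 0) := by
    rw [← Finset.sum_add_distrib]
    apply Finset.sum_congr rfl
    intro a _
    rw [← Finset.sum_sdiff hY, add_comm]
  rw [h1, ← Finset.sum_sdiff hX, add_comm (∑ a ∈ X \ X', _)]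

theorem C_pair_e2 (x y x' y' γ η' T tt e2 : ℝ) (hx : 0 < x) (hy : 0 < y)
    (hy' : 0 < y') (hγ : 0 < γ) (hη' : 0 < η')
    (hT' : T = Real.log tt) (htt : 0 < tt) (hx4 : x' ≤ x / 4)
    (h16 : y ≤ 16 * tt ^ 2 * y')
    (h2 : η' * (x * y) * (((x - x') * y') / (x * y)) ^ (1 + γ) ≤ e2) :
    η' * ((x - x') * y') * (1 - γ * (2 * T + Real.log 32)) ≤ e2 := by
  have hxx : 0 < x - x' := by linarith
  have hxy : 0 < x * y := mul_pos hx hy
  have hs0 : 0 < ((x - x') * y') / (x * y) := div_pos (mul_pos hxx hy') hxy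
  have hs1 : 1 / (32 * tt ^ 2) ≤ ((x - x') * y') / (x * y) := by
    rw [div_le_div_iff₀ (by positivity) hxy, one_mul]
    have h5 : x * y ≤ x * (16 * tt ^ 2 * y') := mul_le_mul_of_nonneg_left h16 hx.le
    have h6 : x / 2 * (32 * tt ^ 2 * y') ≤ (x - x') * (32 * tt ^ 2 * y') :=
      mul_le_mul_of_nonneg_right (by linarith) (by positivity)
    have h7 : x / 2 * (32 * tt ^ 2 * y') = x * (16 * tt ^ 2 * y') := by ring
    have h8 : (x - x') * (32 * tt ^ 2 * y') = (x - x') * y' * (32 * tt ^ 2) := by ring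
    linarith
  have hlogs : -(2 * T + Real.log 32) ≤ Real.log (((x - x') * y') / (x * y)) := by
    have h5 := Real.log_le_log (by positivity) hs1
    have h6 : Real.log (1 / (32 * tt ^ 2)) = -(2 * T + Real.log 32) := by
      rw [one_div, Real.log_inv, Real.log_mul (by norm_num) (by positivity), Real.log_pow, hT']
      push_cast
      ring
    rwa [h6] at h5
  have hpow : ((x - x') * y') / (x * y) * (1 - γ * (2 * T + Real.log 32)) ≤
      (((x - x') * y') / (x * y)) ^ (1 + γ) := by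
    rw [Real.rpow_add hs0, Real.rpow_one]
    apply mul_le_mul_of_nonneg_left _ hs0.le
    rw [Real.rpow_def_of_pos hs0]
    have h5 := Real.add_one_le_exp (Real.log (((x - x') * y') / (x * y)) * γ)
    have h6 : -(2 * T + Real.log 32) * γ ≤ Real.log (((x - x') * y') / (x * y)) * γ :=
      mul_le_mul_of_nonneg_right hlogs hγ.le
    linarith
  refine le_trans ?_ h2
  have h5 := mul_le_mul_of_nonneg_left hpow (mul_nonneg hη'.le hxy.le)
  refine le_trans (le_of_eq ?_) h5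
  rw [mul_assoc η' (x * y), ← mul_assoc (x * y), mul_div_cancel₀ _ hxy.ne', mul_assoc]

theorem C_pair_e3 (x y y' N γ η' e3 : ℝ) (hx : 0 < x) (hy : 0 < y)
    (hyy : y' ≤ y) (hγ : 0 < γ) (hη' : 0 < η')
    (h3 : η' * (x * y) * ((x * (y - y')) / (x * y)) ^ (1 + γ) - η' * x * N ≤ e3) :
    η' * (x * y) - η' * (1 + γ) * (x * y') - η' * x * N ≤ e3 := by
  have hr : (x * (y - y')) / (x * y) = 1 + (-(y' / y)) := by
    rw [mul_div_mul_left _ _ hx.ne', sub_div, div_self hy.ne']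
    ring
  have hpow2 : 1 + (1 + γ) * (-(y' / y)) ≤ ((x * (y - y')) / (x * y)) ^ (1 + γ) := by
    rw [hr]
    apply one_add_mul_self_le_rpow_one_add
    · have : y' / y ≤ 1 := (div_le_one hy).2 hyy
      linarith
    · linarith
  refine le_trans ?_ h3
  have h5 := mul_le_mul_of_nonneg_left hpow2 (mul_nonneg hη'.le (mul_pos hx hy).le)
  have h6 : η' * (x * y) * (1 + (1 + γ) * (-(y' / y))) =
      η' * (x * y) - η' * (1 + γ) * (x * (y * (y' / y))) := by ring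
  rw [mul_div_cancel₀ _ hy.ne'] at h6
  linarith

theorem C_pair_fin (x x' y y' N γ η η' lam T L : ℝ) (hx : 0 < x)
    (hx' : 0 ≤ x') (hy' : 0 < y') (hγ : 0 < γ) (hη' : 0 < η') (hη1 : η' ≤ 1 / 4)
    (hη2 : η' ≤ 2 * η) (hlam : lam = 30 * η * γ * T) (hL : L = 2 * T + Real.log 32)
    (hT : 2 + Real.log 32 ≤ T) (hlx : lam * x ≤ x')
    (hlam0 : 0 < lam) (hNy' : N ≤ γ * y')
    (e1 e2 e3 : ℝ) (he : η' * (x * y) = e1 + e2 + e3) (h1 : x' * y' / 2 ≤ e1)
    (he2 : η' * ((x - x') * y') * (1 - γ * L) ≤ e2)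
    (he3 : η' * (x * y) - η' * (1 + γ) * (x * y') - η' * x * N ≤ e3) : False := by
  have hlog32 : 0 < Real.log 32 := Real.log_pos (by norm_num)
  have hT0 : 0 < T := by linarith
  have hL0 : 0 ≤ L := by linarith
  have h7 : η' * x * N ≤ η' * x * (γ * y') :=
    mul_le_mul_of_nonneg_left hNy' (mul_nonneg hη'.le hx.le)
  have h8 : 0 ≤ η' * (x' * y') * (γ * L) :=
    mul_nonneg (mul_nonneg hη'.le (mul_nonneg hx' hy'.le)) (mul_nonneg hγ.le hL0)
  have h9 : y' * (x' / 2) ≤ y' * (η' * (x' + γ * x * (2 + L))) := by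
    have e1' : η' * ((x - x') * y') * (1 - γ * L) =
        η' * x * y' - η' * x' * y' - η' * x * y' * (γ * L) + η' * (x' * y') * (γ * L) := by ring
    have e2' : y' * (η' * (x' + γ * x * (2 + L))) =
        η' * x' * y' + 2 * (η' * x * (γ * y')) + η' * x * y' * (γ * L) := by ring
    have e3' : η' * (1 + γ) * (x * y') = η' * x * y' + η' * x * (γ * y') := by ring
    rw [e2']
    rw [e1'] at he2
    rw [e3'] at he3
    linarith
  have h10 : x' / 2 ≤ η' * (x' + γ * x * (2 + L)) := le_of_mul_le_mul_left h9 hy'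
  have h11 : η' * x' ≤ 1 / 4 * x' := mul_le_mul_of_nonneg_right hη1 hx'
  have hη0 : 0 < η := by linarith
  have h12 : η' * (γ * x * (2 + L)) ≤ 2 * η * (γ * x * (3 * T)) := by
    apply mul_le_mul hη2 _ (mul_nonneg (mul_nonneg hγ.le hx.le) (by linarith)) (by linarith)
    apply mul_le_mul_of_nonneg_left _ (mul_nonneg hγ.le hx.le)
    linarith
  have h13 : x' ≤ 24 * (η * γ * T * x) := by
    have e1' : η' * (x' + γ * x * (2 + L)) = η' * x' + η' * (γ * x * (2 + L)) := by ring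
    have e2' : 2 * η * (γ * x * (3 * T)) = 6 * (η * γ * T * x) := by ring
    rw [e1'] at h10
    rw [e2'] at h12
    linarith
  have h14 : lam * x = 30 * (η * γ * T * x) := by rw [hlam]; ring
  have h16 : 0 < η * γ * T * x := mul_pos (mul_pos (mul_pos hη0 hγ) hT0) hx
  linarith

theorem C_pair_sizes (x y a0 b0 R eXY e00 γ η T t : ℝ) (hx : 0 < x) (hy : 0 < y) (ha0 : 0 < a0)
    (hb0 : 0 < b0) (hR : 0 < R) (hxR : x ≤ R) (hyR : y ≤ R) (hT : T = Real.log t) (ht0 : 0 < t)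
    (hγ : 0 < γ) (hγ1 : 12 * γ * T ≤ Real.log 2) (hη1 : η ≤ 1 / 8)
    (hA0' : Real.exp (-(6 * T)) * R ≤ a0) (hB0' : Real.exp (-(6 * T)) * R ≤ b0)
    (key : eXY * ((a0 * b0) / (x * y)) ^ (1 + γ) ≤ e00) (he0 : e00 ≤ η * (a0 * b0))
    (hN3 : x * y ≤ t ^ 10 * eXY) :
    0 < eXY / (x * y) ∧ eXY / (x * y) ≤ 2 * η ∧ Real.exp (-(12 + 10 / γ) * T) * R ≤ x ∧
      Real.exp (-(12 + 10 / γ) * T) * R ≤ y := by
  have hxy0 : 0 < x * y := mul_pos hx hy
  have hq0 : 0 < (a0 * b0) / (x * y) := div_pos (mul_pos ha0 hb0) hxy0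
  obtain ⟨η', hη'⟩ : ∃ η', η' = eXY / (x * y) := ⟨_, rfl⟩
  have hη'def : eXY = η' * (x * y) := by rw [hη', div_mul_cancel₀ _ hxy0.ne']
  have ht10 : 0 < t ^ 10 := pow_pos ht0 10
  have hη'low : 1 / t ^ 10 ≤ η' := by
    rw [hη', div_le_div_iff₀ ht10 hxy0, one_mul]
    linarith
  have hη'0 : 0 < η' := lt_of_lt_of_le (one_div_pos.2 ht10) hη'low
  have hqγ : η' * ((a0 * b0) / (x * y)) ^ γ ≤ η := by
    have h1 := key.trans he0
    rw [hη'def, Real.rpow_add hq0, Real.rpow_one] at h1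
    have h2 : η' * (x * y) * ((a0 * b0) / (x * y) * ((a0 * b0) / (x * y)) ^ γ) =
        (η' * ((a0 * b0) / (x * y)) ^ γ) * ((x * y) * ((a0 * b0) / (x * y))) := by ring
    rw [h2, mul_div_cancel₀ _ hxy0.ne'] at h1
    exact le_of_mul_le_mul_right h1 (mul_pos ha0 hb0)
  have hqγ0 : 0 < ((a0 * b0) / (x * y)) ^ γ := Real.rpow_pos_of_pos hq0 γ
  have hab : Real.exp (-(12 * T)) * (R * R) ≤ a0 * b0 := by
    have h1 := mul_le_mul hA0' hB0' (mul_nonneg (Real.exp_pos _).le hR.le) ha0.le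
    refine le_trans (le_of_eq ?_) h1
    rw [show -(12 * T) = -(6 * T) + -(6 * T) by ring, Real.exp_add]
    ring
  have hqlow : Real.exp (-(12 * T)) ≤ (a0 * b0) / (x * y) := by
    rw [le_div_iff₀ hxy0]
    refine le_trans ?_ hab
    apply mul_le_mul_of_nonneg_left _ (Real.exp_pos _).le
    exact mul_le_mul hxR hyR hy.le hR.le
  have hqγlow : 1 / 2 ≤ ((a0 * b0) / (x * y)) ^ γ := by
    have h1 := Real.rpow_le_rpow (Real.exp_pos _).le hqlow hγ.le
    refine le_trans ?_ h1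
    rw [← Real.exp_mul, show (1:ℝ) / 2 = Real.exp (-Real.log 2) by
      rw [Real.exp_neg, Real.exp_log (by norm_num)]; norm_num]
    apply Real.exp_le_exp.2
    linarith
  have hη'2 : η' ≤ 2 * η := by
    have h1 : η' * (1 / 2) ≤ η := (mul_le_mul_of_nonneg_left hqγlow hη'0.le).trans hqγ
    linarith
  have hqup : (a0 * b0) / (x * y) ≤ Real.exp (10 / γ * T) := by
    have h1 : ((a0 * b0) / (x * y)) ^ γ ≤ t ^ 10 := by
      have h2 : 1 / t ^ 10 * ((a0 * b0) / (x * y)) ^ γ ≤ 1 := by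
        refine (mul_le_mul_of_nonneg_right hη'low hqγ0.le).trans (hqγ.trans ?_)
        linarith
      rw [one_div, inv_mul_le_iff₀ ht10, mul_one] at h2
      exact h2
    have h2 := Real.rpow_le_rpow hqγ0.le h1 (one_div_pos.2 hγ).le
    rw [← Real.rpow_mul hq0.le, mul_one_div_cancel hγ.ne', Real.rpow_one] at h2
    refine h2.trans (le_of_eq ?_)
    rw [← Real.rpow_natCast, ← Real.rpow_mul ht0.le, Real.rpow_def_of_pos ht0, hT]
    congr 1
    push_cast
    ring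
  have hxylow : Real.exp (-(12 + 10 / γ) * T) * (R * R) ≤ x * y := by
    rw [div_le_iff₀ hxy0] at hqup
    have h1 := hab.trans hqup
    have h2 := mul_le_mul_of_nonneg_left h1 (Real.exp_pos (-(10 / γ * T))).le
    have h3 : Real.exp (-(10 / γ * T)) * (Real.exp (-(12 * T)) * (R * R)) =
        Real.exp (-(12 + 10 / γ) * T) * (R * R) := by
      rw [← mul_assoc, ← Real.exp_add]
      congr 2
      ring
    have h4 : Real.exp (-(10 / γ * T)) * (Real.exp (10 / γ * T) * (x * y)) = x * y := by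
      rw [← mul_assoc, ← Real.exp_add, neg_add_cancel, Real.exp_zero, one_mul]
    rw [h3, h4] at h2
    exact h2
  refine ⟨hη' ▸ hη'0, hη' ▸ hη'2, ?_, ?_⟩
  · have h1 : x * y ≤ x * R := mul_le_mul_of_nonneg_left hyR hx.le
    have h2 := hxylow.trans h1
    rw [← mul_assoc] at h2
    exact le_of_mul_le_mul_right h2 hR
  · have h1 : x * y ≤ R * y := mul_le_mul_of_nonneg_right hxR hy.le
    have h2 := hxylow.trans h1
    have h3 : Real.exp (-(12 + 10 / γ) * T) * R * R ≤ y * R := by linarith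
    exact le_of_mul_le_mul_right h3 hR

theorem C_pair_N (N γ lam t E R : ℝ) (hN : 1 ≤ N) (hγ : 0 < γ) (hlam : 0 < lam) (ht : 0 < t)
    (hR : 0 ≤ R)
    (hsize : N * (16 * t ^ 2 / γ + 4 / lam + 16 * t ^ 2) ≤ E * R) :
    0 < R ∧ ∀ z : ℝ, E * R ≤ z →
      16 * t ^ 2 * N / γ ≤ z ∧ 4 * N ≤ lam * z ∧ N * (16 * t ^ 2) ≤ z := by
  have h2 : 0 < N * (16 * t ^ 2 / γ) := by positivity
  have h3 : 0 < N * (4 / lam) := by positivity
  have h4 : 0 < N * (16 * t ^ 2) := by positivity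
  have h5 : N * (16 * t ^ 2 / γ + 4 / lam + 16 * t ^ 2) =
    N * (16 * t ^ 2 / γ) + N * (4 / lam) + N * (16 * t ^ 2) := by ring
  rw [h5] at hsize
  constructor
  · rcases hR.eq_or_lt with h | h
    · rw [← h, mul_zero] at hsize
      linarith
    · exact h
  · intro z hz
    refine ⟨?_, ?_, ?_⟩
    · have : 16 * t ^ 2 * N / γ = N * (16 * t ^ 2 / γ) := by ring
      rw [this]
      linarith
    · have h6 : N * (4 / lam) ≤ z := by linarith
      have h7 : lam * (N * (4 / lam)) ≤ lam * z := mul_le_mul_of_nonneg_left h6 hlam.le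
      have h8 : lam * (N * (4 / lam)) = 4 * N := by field_simp
      linarith
    · linarith

theorem C_pair_min (H : SimpleGraph V) (R : Finset V) (γ N : ℝ)
    (hN : 1 ≤ N) (A0 B0 : Finset V) (hA0 : A0 ⊆ R) (hB0 : B0 ⊆ R) (hd0 : Disjoint A0 B0)
    (hNA : N ≤ (A0.card : ℝ)) (hNB : N ≤ (B0.card : ℝ)) :
    ∃ X Y : Finset V, X ⊆ R ∧ Y ⊆ R ∧ Disjoint X Y ∧ N ≤ (X.card : ℝ) ∧ N ≤ (Y.card : ℝ) ∧
      ∀ A B : Finset V, A ⊆ R → B ⊆ R → Disjoint A B → N ≤ (A.card : ℝ) →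
      N ≤ (B.card : ℝ) → (eC H X Y : ℝ) *
        (((A.card : ℝ) * B.card) / ((X.card : ℝ) * Y.card)) ^ (1 + γ) ≤ eC H A B := by
  classical
  obtain ⟨⟨X, Y⟩, hXY, hmin⟩ := Finset.exists_min_image
    ((Finset.univ : Finset (Finset V × Finset V)).filter (fun p => p.1 ⊆ R ∧ p.2 ⊆ R ∧
      Disjoint p.1 p.2 ∧ N ≤ (p.1.card : ℝ) ∧ N ≤ (p.2.card : ℝ)))
    (fun p => (eC H p.1 p.2 : ℝ) / ((p.1.card : ℝ) * p.2.card) ^ (1 + γ))
    ⟨(A0, B0), by
      simp only [mem_filter, mem_univ, true_and]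
      exact ⟨hA0, hB0, hd0, hNA, hNB⟩⟩
  simp only [mem_filter, mem_univ, true_and] at hXY
  obtain ⟨hXR, hYR, hXYd, hNX, hNY⟩ := hXY
  refine ⟨X, Y, hXR, hYR, hXYd, hNX, hNY, ?_⟩
  intro A B hA hB hAB hNA hNB
  have h1 := hmin (A, B) (by
    simp only [mem_filter, mem_univ, true_and]
    exact ⟨hA, hB, hAB, hNA, hNB⟩)
  simp only at h1
  revert h1
  generalize (eC H X Y : ℝ) = e
  generalize (eC H A B : ℝ) = e'
  have hx0 : 0 < (X.card : ℝ) := by linarith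
  have hy0 : 0 < (Y.card : ℝ) := by linarith
  have ha0 : 0 < (A.card : ℝ) := by linarith
  have hb0 : 0 < (B.card : ℝ) := by linarith
  have hxy : 0 < (X.card : ℝ) * Y.card := mul_pos hx0 hy0
  have hab : 0 < (A.card : ℝ) * B.card := mul_pos ha0 hb0
  revert hxy hab
  generalize (X.card : ℝ) * Y.card = u
  generalize (A.card : ℝ) * B.card = v
  intro hu hv h1
  rw [div_le_div_iff₀ (Real.rpow_pos_of_pos hu _) (Real.rpow_pos_of_pos hv _)] at h1
  rw [Real.div_rpow hv.le hu.le, mul_div_assoc', div_le_iff₀ (Real.rpow_pos_of_pos hu _)]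
  exact h1

theorem C_pair_e3' (x y y' N γ η' e : ℝ) (hx : 0 < x) (hy : 0 < y) (hyy : y' ≤ y)
    (hy'0 : 0 < y') (hγ : 0 < γ)
    (hη' : 0 < η') (hc : y - y' < N) (he : 0 ≤ e) :
    η' * (x * y) * ((x * (y - y')) / (x * y)) ^ (1 + γ) - η' * x * N ≤ e := by
  have h0 : 0 ≤ y - y' := by linarith
  have hxy0 : 0 < x * y := mul_pos hx hy
  have h1 : (x * (y - y')) / (x * y) ≤ 1 := by
    rw [div_le_one hxy0]
    apply mul_le_mul_of_nonneg_left _ hx.le
    linarith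
  have h1' : 0 ≤ (x * (y - y')) / (x * y) := div_nonneg (mul_nonneg hx.le h0) hxy0.le
  have h2 : ((x * (y - y')) / (x * y)) ^ (1 + γ) ≤ (x * (y - y')) / (x * y) := by
    have h3 := Real.rpow_le_rpow_of_exponent_ge' h1' h1 (by norm_num : (0:ℝ) ≤ 1)
      (by linarith : (1:ℝ) ≤ 1 + γ)
    rwa [Real.rpow_one] at h3
  have h4 := mul_le_mul_of_nonneg_left h2 (mul_nonneg hη'.le hxy0.le)
  rw [mul_assoc η' (x * y) ((x * (y - y')) / (x * y)), mul_div_cancel₀ _ hxy0.ne'] at h4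
  have h6 : η' * (x * (y - y')) ≤ η' * (x * N) :=
    mul_le_mul_of_nonneg_left (mul_le_mul_of_nonneg_left hc.le hx.le) hη'.le
  linarith

/-- TARGET: a pair minimising density * (|A||B|)^(-γ) -/
theorem C_pair (H : SimpleGraph V) (t : ℕ) (ht : 1000 ≤ t) (R : Finset V) (γ N η lam : ℝ)
    (hγ : 0 < γ) (hγ1 : 12 * γ * Real.log t ≤ Real.log 2) (hη : 0 < η) (hη1 : η ≤ 1 / 8)
    (hN : 1 ≤ N) (A0 B0 : Finset V) (hA0 : A0 ⊆ R) (hB0 : B0 ⊆ R) (hd0 : Disjoint A0 B0)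
    (hA0c : R.card ≤ t ^ 6 * A0.card) (hB0c : R.card ≤ t ^ 6 * B0.card)
    (he0 : (eC H A0 B0 : ℝ) ≤ η * ((A0.card : ℝ) * B0.card))
    (hN3 : ∀ A B : Finset V, A ⊆ R → B ⊆ R → Disjoint A B → N ≤ A.card → N ≤ B.card →
      (A.card : ℝ) * B.card ≤ (t : ℝ) ^ 10 * eC H A B)
    (hlam : lam = 30 * η * γ * Real.log t) (hlam1 : lam ≤ 1 / 8)
    (hsize : N * (16 * (t : ℝ) ^ 2 / γ + 4 / lam + 16 * (t : ℝ) ^ 2) ≤
      Real.exp (-(12 + 10 / γ) * Real.log t) * R.card) :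
    ∃ X Y : Finset V, X ⊆ R ∧ Y ⊆ R ∧ Disjoint X Y ∧
      Real.exp (-(12 + 10 / γ) * Real.log t) * R.card ≤ X.card ∧
      Real.exp (-(12 + 10 / γ) * Real.log t) * R.card ≤ Y.card ∧
      ∀ Y' ⊆ Y, Y.card ≤ 16 * t ^ 2 * Y'.card →
        (((X.filter (fun x => Y'.card ≤ 2 * (nb H x Y').card)).card : ℕ) : ℝ) ≤
          lam * X.card := by
  classical
  have ht0 : (0:ℝ) < t := by
    have : 0 < t := by omega
    exact_mod_cast this
  have ht1 : (1000:ℝ) ≤ t := by exact_mod_cast ht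
  have hTlow : 9 * Real.log 2 ≤ Real.log t := by
    have h1 : Real.log ((2:ℝ) ^ 9) ≤ Real.log t := Real.log_le_log (by norm_num) (by linarith)
    rw [Real.log_pow] at h1
    push_cast at h1
    exact h1
  have hlog2 : (0.6931471803 : ℝ) < Real.log 2 := Real.log_two_gt_d9
  have hT0 : 0 < Real.log t := by linarith
  have hlog32 : Real.log 32 = 5 * Real.log 2 := by
    rw [show (32:ℝ) = 2 ^ 5 by norm_num, Real.log_pow]
    push_cast
    ring
  have hT32 : 2 + Real.log 32 ≤ Real.log t := by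
    rw [hlog32]
    linarith
  have hlam0 : 0 < lam := by
    rw [hlam]
    positivity
  obtain ⟨hRpos, hNbig⟩ := C_pair_N N γ lam t _ R.card hN hγ hlam0 ht0 (Nat.cast_nonneg _) hsize
  have ht16 : (2:ℝ) ≤ 16 * (t : ℝ) ^ 2 := by nlinarith
  have hN16 : 2 * N ≤ N * (16 * (t : ℝ) ^ 2) := by
    have h1 := mul_le_mul_of_nonneg_left ht16 (by linarith : 0 ≤ N)
    linarith
  have ht6 : Real.exp (6 * Real.log t) = (t:ℝ) ^ 6 := by
    rw [show (6:ℝ) * Real.log t = ((6:ℕ):ℝ) * Real.log t by norm_num, ← Real.log_pow,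
      Real.exp_log (pow_pos ht0 6)]
  have hexp6 : ∀ C : Finset V, R.card ≤ t ^ 6 * C.card →
      Real.exp (-(6 * Real.log t)) * R.card ≤ C.card := by
    intro C hC
    have h1 : (R.card : ℝ) ≤ (t:ℝ) ^ 6 * C.card := by exact_mod_cast hC
    rw [Real.exp_neg, ht6, inv_mul_le_iff₀ (pow_pos ht0 6)]
    exact h1
  have hE1 : Real.exp (-(12 + 10 / γ) * Real.log t) ≤ Real.exp (-(6 * Real.log t)) := by
    apply Real.exp_le_exp.2
    have h1 : 0 ≤ 10 / γ * Real.log t := by positivity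
    linarith
  have hNC : ∀ C : Finset V, R.card ≤ t ^ 6 * C.card → N ≤ C.card := by
    intro C hC
    have h1 := (mul_le_mul_of_nonneg_right hE1 hRpos.le).trans (hexp6 C hC)
    have h2 := (hNbig _ h1).2.2
    linarith
  have hNA := hNC A0 hA0c
  have hNB := hNC B0 hB0c
  obtain ⟨X, Y, hXR, hYR, hXYd, hNX, hNY, key⟩ :=
    C_pair_min H R γ N hN A0 B0 hA0 hB0 hd0 hNA hNB
  have hx0 : 0 < (X.card : ℝ) := by linarith
  have hy0 : 0 < (Y.card : ℝ) := by linarith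
  have hxy0 : 0 < (X.card : ℝ) * Y.card := mul_pos hx0 hy0
  obtain ⟨hη'0, hη'2, hXlow, hYlow⟩ := C_pair_sizes X.card Y.card A0.card B0.card R.card
    (eC H X Y) (eC H A0 B0) γ η (Real.log t) t hx0 hy0 (by linarith) (by linarith) hRpos
    (by exact_mod_cast card_le_card hXR) (by exact_mod_cast card_le_card hYR) rfl ht0 hγ hγ1
    hη1 (hexp6 A0 hA0c) (hexp6 B0 hB0c) (key A0 B0 hA0 hB0 hd0 hNA hNB) he0
    (hN3 X Y hXR hYR hXYd hNX hNY)
  obtain ⟨η', hη'⟩ : ∃ η' : ℝ, η' = (eC H X Y : ℝ) / ((X.card : ℝ) * Y.card) := ⟨_, rfl⟩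
  rw [← hη'] at hη'0 hη'2
  have hη'def : (eC H X Y : ℝ) = η' * ((X.card : ℝ) * Y.card) := by
    rw [hη', div_mul_cancel₀ _ hxy0.ne']
  refine ⟨X, Y, hXR, hYR, hXYd, hXlow, hYlow, ?_⟩
  intro Y' hY' hYc
  by_contra hcon
  push Not at hcon
  obtain ⟨hNx1, hNx2, hNx3⟩ := hNbig _ hXlow
  obtain ⟨hNy1, hNy2, hNy3⟩ := hNbig _ hYlow
  have hceil : ⌈lam * X.card⌉₊ ≤ (X.filter (fun x => Y'.card ≤ 2 * (nb H x Y').card)).card :=
    Nat.ceil_le.2 hcon.le
  obtain ⟨X', hX', hX'c⟩ := exists_subset_card_eq hceil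
  have hX'X : X' ⊆ X := hX'.trans (filter_subset _ _)
  have hx'lo : lam * X.card ≤ (X'.card : ℝ) := by
    rw [hX'c]
    exact Nat.le_ceil _
  have hx'hi : (X'.card : ℝ) ≤ X.card / 4 := by
    have h1 : (X'.card : ℝ) < lam * X.card + 1 := by
      rw [hX'c]
      exact Nat.ceil_lt_add_one (mul_nonneg hlam0.le hx0.le)
    have h2 : lam * X.card ≤ 1 / 8 * X.card := mul_le_mul_of_nonneg_right hlam1 hx0.le
    linarith
  have hYc' : (Y.card : ℝ) ≤ 16 * (t:ℝ) ^ 2 * Y'.card := by exact_mod_cast hYc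
  have h16pos : 0 < 16 * (t:ℝ) ^ 2 := by linarith
  have hNY' : N ≤ (Y'.card : ℝ) := by
    have h1 : N * (16 * (t:ℝ) ^ 2) ≤ (Y'.card : ℝ) * (16 * (t:ℝ) ^ 2) := by linarith
    exact le_of_mul_le_mul_right h1 h16pos
  have hy'0 : 0 < (Y'.card : ℝ) := by linarith
  have hyy : (Y'.card : ℝ) ≤ Y.card := by exact_mod_cast card_le_card hY'
  have hXsd : ((X \ X').card : ℝ) = X.card - X'.card := by
    rw [card_sdiff_of_subset hX'X, Nat.cast_sub (card_le_card hX'X)]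
  have hYsd : ((Y \ Y').card : ℝ) = Y.card - Y'.card := by
    rw [card_sdiff_of_subset hY', Nat.cast_sub (card_le_card hY')]
  have hNX' : N ≤ ((X \ X').card : ℝ) := by
    rw [hXsd]
    linarith
  have hsplit' : (eC H X Y : ℝ) = (eC H X' Y' : ℝ) + (eC H (X \ X') Y' : ℝ) +
      (eC H X (Y \ Y') : ℝ) := by exact_mod_cast C_pair_split H hX'X hY'
  rw [hη'def] at hsplit'
  have h2 := key (X \ X') Y' (sdiff_subset.trans hXR) (hY'.trans hYR)
      (disjoint_of_subset_left sdiff_subset (disjoint_of_subset_right hY' hXYd)) hNX' hNY'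
  rw [hXsd, hη'def] at h2
  have h3 : η' * ((X.card : ℝ) * Y.card) *
      (((X.card : ℝ) * (Y.card - Y'.card)) / (X.card * Y.card)) ^ (1 + γ) - η' * X.card * N ≤
      (eC H X (Y \ Y') : ℝ) := by
    by_cases hc : N ≤ ((Y \ Y').card : ℝ)
    · have h1 := key X (Y \ Y') hXR (sdiff_subset.trans hYR)
        (disjoint_of_subset_right sdiff_subset hXYd) hNX hc
      rw [hYsd, hη'def] at h1
      have h2 : 0 ≤ η' * X.card * N := mul_nonneg (mul_nonneg hη'0.le hx0.le) (by linarith)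
      linarith
    · push Not at hc
      rw [hYsd] at hc
      exact C_pair_e3' X.card Y.card Y'.card N γ η' _ hx0 hy0 hyy hy'0 hγ hη'0 hc
        (Nat.cast_nonneg _)
  have h1 : (X'.card : ℝ) * Y'.card / 2 ≤ (eC H X' Y' : ℝ) := by
    rw [eC_eq_sum]
    push_cast
    have h1 : ∀ a ∈ X', (Y'.card : ℝ) / 2 ≤ ((nb H a Y').card : ℝ) := by
      intro a ha
      have h2 := (mem_filter.1 (hX' ha)).2
      have h3 : (Y'.card : ℝ) ≤ 2 * (nb H a Y').card := by exact_mod_cast h2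
      linarith
    have h2 := Finset.sum_le_sum h1
    rw [Finset.sum_const, nsmul_eq_mul] at h2
    linarith
  have hNy' : N ≤ γ * Y'.card := by
    rw [div_le_iff₀ hγ] at hNy1
    have h5 : (Y.card : ℝ) * γ ≤ 16 * (t:ℝ) ^ 2 * Y'.card * γ :=
      mul_le_mul_of_nonneg_right hYc' hγ.le
    have h6 : 16 * (t:ℝ) ^ 2 * N ≤ 16 * (t:ℝ) ^ 2 * (γ * Y'.card) := by linarith
    exact le_of_mul_le_mul_left h6 h16pos
  exact C_pair_fin X.card X'.card Y.card Y'.card N γ η η' lam (Real.log t) _ hx0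
    (Nat.cast_nonneg _) hy'0 hγ hη'0 (by linarith) hη'2 hlam rfl hT32 hx'lo hlam0 hNy'
    _ _ _ hsplit' h1
    (C_pair_e2 X.card Y.card X'.card Y'.card γ η' (Real.log t) t _ hx0 hy0 hy'0 hγ hη'0 rfl ht0
      hx'hi hYc' h2)
    (C_pair_e3 X.card Y.card Y'.card N γ η' _ hx0 hy0 hyy hγ hη'0 h3)

end LR
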