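import Pool.Agent.LR.E1

set_option autoImplicit false
set_option linter.unusedSectionVars false

open Finset

namespace LR

variable {V : Type} [Fintype V] [DecidableEq V]

/-- TARGET 1 -/
theorem exists_isD (H : SimpleGraph V) (φ k : ℕ) (hk : 1 ≤ k) (hφ : 1 ≤ φ) (Q : Finset V)
    (hQ : Q.Nonempty)
    (hex : ∀ Q' ⊆ Q, Q.card ≤ 2 * Q'.card → ∃ A ⊆ Q', om H A ≤ k ∧ A.card = k * φ) :
    ∃ D, IsD H φ k 2 Q D := by
  classical
  set Fam : Finset (Finset (Finset V)) := (Finset.univ : Finset (Finset (Finset V))).filter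
    (fun F => (∀ A ∈ F, A ⊆ Q ∧ om H A ≤ k ∧ A.card = k * φ) ∧
      ∀ A ∈ F, ∀ B ∈ F, A ≠ B → Disjoint A B) with hFam
  have hmem : ∀ F, F ∈ Fam ↔ ((∀ A ∈ F, A ⊆ Q ∧ om H A ≤ k ∧ A.card = k * φ) ∧
      ∀ A ∈ F, ∀ B ∈ F, A ≠ B → Disjoint A B) := by
    intro F; rw [hFam, mem_filter]; simp
  have hne : Fam.Nonempty := ⟨∅, (hmem ∅).2 ⟨by simp, by simp⟩⟩
  obtain ⟨F, hF, hmax⟩ := Finset.exists_max_image Fam Finset.card hne
  obtain ⟨hF1, hF2⟩ := (hmem F).1 hF
  have hkφ : 1 ≤ k * φ := Nat.mul_pos hk hφ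
  set U : Finset V := F.biUnion id with hU
  have hUQ : U ⊆ Q := by
    rw [hU, biUnion_subset]
    intro A hA
    exact (hF1 A hA).1
  have hUc : U.card = F.card * (k * φ) := by
    have h0 : (F.biUnion id).card = ∑ A ∈ F, (id A : Finset V).card :=
      card_biUnion (fun A hA B hB hAB => hF2 A hA B hB hAB)
    have h00 : ∑ A ∈ F, (id A : Finset V).card = ∑ A ∈ F, (k * φ) :=
      Finset.sum_congr rfl (fun A hA => (hF1 A hA).2.2)
    rw [hU, h0, h00, Finset.sum_const, smul_eq_mul]
  have hlt : Q.card < 2 * (F.card * (k * φ)) := by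
    by_contra hcon
    push Not at hcon
    have h1 : (Q \ U).card = Q.card - U.card := card_sdiff_of_subset hUQ
    have h2 : Q.card ≤ 2 * (Q \ U).card := by omega
    obtain ⟨A, hA, hA2, hA3⟩ := hex (Q \ U) sdiff_subset h2
    have hAU : Disjoint A U := disjoint_of_subset_left hA sdiff_disjoint
    have hdis : ∀ B ∈ F, Disjoint A B := fun B hB =>
      disjoint_of_subset_right (subset_biUnion_of_mem id hB) hAU
    have hAne : A.Nonempty := card_pos.1 (by omega)
    have hAF : A ∉ F := by
      intro h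
      have := hdis A h
      rw [disjoint_self_iff_empty] at this
      exact hAne.ne_empty this
    have hins : insert A F ∈ Fam := by
      rw [hmem]
      constructor
      · intro B hB
        rcases mem_insert.1 hB with rfl | hB
        · exact ⟨hA.trans sdiff_subset, hA2, hA3⟩
        · exact hF1 B hB
      · intro B hB C hC hBC
        rcases mem_insert.1 hB with hB' | hB' <;> rcases mem_insert.1 hC with hC' | hC'
        · exact absurd (hB'.trans hC'.symm) hBC
        · rw [hB']; exact hdis C hC'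
        · rw [hC']; exact (hdis B hB').symm
        · exact hF2 B hB' C hC' hBC
    have := hmax _ hins
    rw [card_insert_of_notMem hAF] at this
    omega
  have hFpos : 0 < F.card := by
    rcases Nat.eq_zero_or_pos F.card with h | h
    · rw [h] at hlt; simp at hlt
    · exact h
  have hFr : (0 : ℝ) < F.card := by exact_mod_cast hFpos
  refine ⟨fun A => if A ∈ F then 1 / (F.card : ℝ) else 0, ?_, ?_, ?_, ?_⟩
  · intro A
    split_ifs
    · positivity
    · exact le_rfl
  · rw [Finset.sum_ite_mem, Finset.univ_inter, Finset.sum_const, nsmul_eq_mul]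
    field_simp
  · intro A hA
    have : A ∈ F := by
      by_contra h
      exact hA (if_neg h)
    exact hF1 A this
  · intro x _
    have h1 : (∑ A, if x ∈ A then (if A ∈ F then 1 / (F.card : ℝ) else 0) else 0) ≤
        1 / (F.card : ℝ) := by
      have h2 : (∑ A, if x ∈ A then (if A ∈ F then 1 / (F.card : ℝ) else 0) else 0) =
          ∑ A ∈ F.filter (fun A => x ∈ A), 1 / (F.card : ℝ) := by
        rw [Finset.sum_filter, ← Finset.sum_filter_add_sum_filter_not Finset.univ (fun A => A ∈ F)]
        have h3 : ∑ A ∈ Finset.univ.filter (fun A => ¬ A ∈ F),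
            (if x ∈ A then (if A ∈ F then 1 / (F.card : ℝ) else 0) else 0) = 0 := by
          refine Finset.sum_eq_zero fun A hA => ?_
          rw [mem_filter] at hA
          rw [if_neg hA.2]; simp
        rw [h3, add_zero, Finset.filter_mem_eq_inter, Finset.univ_inter]
        refine Finset.sum_congr rfl fun A hA => ?_
        rw [if_pos hA]
      rw [h2, Finset.sum_const, nsmul_eq_mul]
      have h4 : (F.filter (fun A => x ∈ A)).card ≤ 1 := by
        rw [card_le_one]
        intro A hA B hB
        rw [mem_filter] at hA hB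
        by_contra hAB
        exact disjoint_left.1 (hF2 A hA.1 B hB.1 hAB) hA.2 hB.2
      have h5 : ((F.filter (fun A => x ∈ A)).card : ℝ) ≤ 1 := by exact_mod_cast h4
      have h6 : (0 : ℝ) ≤ 1 / (F.card : ℝ) := by positivity
      nlinarith
    have h7 : (Q.card : ℝ) ≤ 2 * ((F.card : ℝ) * ((k : ℝ) * φ)) := by
      exact_mod_cast hlt.le
    calc _ ≤ 1 / (F.card : ℝ) * (Q.card : ℝ) :=
          mul_le_mul_of_nonneg_right h1 (Nat.cast_nonneg _)
      _ ≤ 1 / (F.card : ℝ) * (2 * ((F.card : ℝ) * ((k : ℝ) * φ))) :=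
          mul_le_mul_of_nonneg_left h7 (by positivity)
      _ = 2 * ((k : ℝ) * φ) := by field_simp

end LR
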