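import Pool.Agent.LR.X1

set_option autoImplicit false
set_option linter.unusedSectionVars false

open Finset

namespace LR

variable {V : Type} [Fintype V] [DecidableEq V]

/-- TARGET 1 -/
theorem hit_le (H : SimpleGraph V) (φ k : ℕ) (a : ℝ) (hk : 1 ≤ k) (Q : Finset V) (hQ : Q.Nonempty)
    (D : Finset V → ℝ) (hD : IsD H φ k a Q D) (P : Finset V) :
    hit H k D P ≤ a * φ * (((P ∩ Q).card : ℝ) / Q.card) := by
  have hQ0 : (0:ℝ) < Q.card := by exact_mod_cast hQ.card_pos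
  have hk0 : (0:ℝ) < k := by exact_mod_cast hk
  have h1 : ∀ A : Finset V, D A * (om H (A ∩ P) : ℝ) ≤ ∑ x ∈ P ∩ Q, (if x ∈ A then D A else 0) := by
    intro A
    rcases eq_or_ne (D A) 0 with h0 | h0
    · simp [h0]
    · obtain ⟨hAQ, -, -⟩ := hD.supp A h0
      have h2 : ((om H (A ∩ P) : ℕ) : ℝ) ≤ ((A ∩ P).card : ℝ) := by
        exact_mod_cast om_le_card H (A ∩ P)
      have h3 : ∑ x ∈ P ∩ Q, (if x ∈ A then D A else 0) = ((A ∩ P).card : ℝ) * D A := by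
        rw [← Finset.sum_filter, Finset.sum_const, nsmul_eq_mul]
        congr 2
        apply congrArg
        ext x
        simp only [mem_filter, mem_inter]
        constructor
        · rintro ⟨⟨h1, h2⟩, h3⟩; exact ⟨h3, h1⟩
        · rintro ⟨h1, h2⟩; exact ⟨⟨h2, hAQ h1⟩, h1⟩
      rw [h3, mul_comm]
      exact mul_le_mul_of_nonneg_right h2 (hD.nonneg A)
  have h2 : ∑ A, D A * (om H (A ∩ P) : ℝ) ≤
      ∑ x ∈ P ∩ Q, ∑ A, (if x ∈ A then D A else 0) := by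
    rw [Finset.sum_comm]
    exact Finset.sum_le_sum (fun A _ => h1 A)
  have h3 : ∑ x ∈ P ∩ Q, ∑ A, (if x ∈ A then D A else 0) ≤
      ∑ x ∈ P ∩ Q, (a * ((k : ℝ) * φ) / Q.card) := by
    apply Finset.sum_le_sum
    intro x hx
    rw [le_div_iff₀ hQ0]
    exact hD.marg x (mem_inter.1 hx).2
  rw [Finset.sum_const, nsmul_eq_mul] at h3
  unfold hit
  rw [div_le_iff₀ hk0]
  refine (h2.trans h3).trans (le_of_eq ?_)
  field_simp

/-- TARGET 2 -/
theorem hit_nonneg (H : SimpleGraph V) (k : ℕ) (D : Finset V → ℝ) (hD : ∀ A, 0 ≤ D A)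
    (P : Finset V) : 0 ≤ hit H k D P := by
  unfold hit
  apply div_nonneg _ (Nat.cast_nonneg k)
  exact Finset.sum_nonneg (fun A _ => mul_nonneg (hD A) (Nat.cast_nonneg _))

/-- TARGET 3 -/
theorem hit_le_one (H : SimpleGraph V) (φ k : ℕ) (a : ℝ) (hk : 1 ≤ k) (Q : Finset V)
    (D : Finset V → ℝ) (hD : IsD H φ k a Q D) (P : Finset V) : hit H k D P ≤ 1 := by
  have hk0 : (0:ℝ) < k := by exact_mod_cast hk
  unfold hit
  rw [div_le_one hk0]
  calc ∑ A, D A * (om H (A ∩ P) : ℝ) ≤ ∑ A, D A * (k : ℝ) := by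
        apply Finset.sum_le_sum
        intro A _
        rcases eq_or_ne (D A) 0 with h0 | h0
        · simp [h0]
        · obtain ⟨-, ho, -⟩ := hD.supp A h0
          apply mul_le_mul_of_nonneg_left _ (hD.nonneg A)
          exact_mod_cast (om_mono inter_subset_left).trans ho
    _ = k := by rw [← Finset.sum_mul, hD.sum_one, one_mul]

/-- TARGET 4 -/
theorem valD_ge (H : SimpleGraph V) (φ k t : ℕ) (a M : ℝ) (ht : 1 ≤ t) (hM : 0 ≤ M) (hk : 1 ≤ k)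
    (Q : Finset V) (D : Finset V → ℝ) (hD : IsD H φ k a Q D) :
    -2 * Real.log t ≤ valD H k t M Q D := by
  unfold valD
  apply Finset.le_inf'
  intro P _
  unfold Phi
  have ht0 : (0:ℝ) < t := by exact_mod_cast ht
  have h1 : Real.log (1 / (t:ℝ)^2) ≤
      Real.log (((P ∩ Q).card : ℝ) / Q.card + 1 / (t : ℝ) ^ 2) := by
    apply Real.log_le_log (by positivity)
    have : (0:ℝ) ≤ ((P ∩ Q).card : ℝ) / Q.card := by positivity
    linarith
  have h2 : Real.log (1 / (t:ℝ)^2) = -2 * Real.log t := by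
    rw [one_div, Real.log_inv, Real.log_pow]; push_cast; ring
  have h3 : 0 ≤ M * (1 - hit H k D P) :=
    mul_nonneg hM (by linarith [hit_le_one H φ k a hk Q D hD P])
  linarith

/-- TARGET 6 -/
theorem valD_le_Phi (H : SimpleGraph V) (k t : ℕ) (M : ℝ)
    (Q : Finset V) (D : Finset V → ℝ) (P : Finset V) :
    valD H k t M Q D ≤ Phi H k t M Q D P := by
  unfold valD
  exact Finset.inf'_le _ (mem_univ P)

/-- TARGET 5 -/
theorem valD_le (H : SimpleGraph V) (k t : ℕ) (M : ℝ) (ht : 1 ≤ t) (hM : 0 ≤ M)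
    (Q : Finset V) (D : Finset V → ℝ) (hD : ∀ A, 0 ≤ D A) :
    valD H k t M Q D ≤ M + 1 := by
  refine (valD_le_Phi H k t M Q D Q).trans ?_
  unfold Phi
  have ht1 : (1:ℝ) ≤ t := by exact_mod_cast ht
  have ht0 : (0:ℝ) < t := by linarith
  have h0 : ((Q ∩ Q).card : ℝ) / Q.card ≤ 1 := by
    rw [inter_self]
    exact div_self_le_one _
  have h1 : 1 / (t:ℝ)^2 ≤ 1 := by
    rw [div_le_one (by positivity)]
    nlinarith
  have h2 : Real.log (((Q ∩ Q).card : ℝ) / Q.card + 1 / (t : ℝ) ^ 2) ≤ 1 := by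
    have hpos : 0 < ((Q ∩ Q).card : ℝ) / Q.card + 1 / (t : ℝ) ^ 2 := by positivity
    have := Real.log_le_sub_one_of_pos hpos
    linarith
  have h3 : M * (1 - hit H k D Q) ≤ M := by
    have := hit_nonneg H k D hD Q
    nlinarith
  linarith

/-- TARGET 7 -/
theorem exists_min_Phi (H : SimpleGraph V) (k t : ℕ) (M : ℝ)
    (Q : Finset V) (D : Finset V → ℝ) :
    ∃ P ⊆ Q, (∀ A, D A ≠ 0 → A ⊆ Q) → Phi H k t M Q D P = valD H k t M Q D := by
  obtain ⟨P0, -, hP0⟩ := Finset.exists_mem_eq_inf' (s := (Finset.univ : Finset (Finset V)))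
    Finset.univ_nonempty (fun P => Phi H k t M Q D P)
  refine ⟨P0 ∩ Q, inter_subset_right, fun hA => ?_⟩
  unfold valD
  rw [hP0]
  unfold Phi
  have h1 : P0 ∩ Q ∩ Q = P0 ∩ Q := by rw [inter_assoc, inter_self]
  have h2 : hit H k D (P0 ∩ Q) = hit H k D P0 := by
    unfold hit
    congr 1
    apply Finset.sum_congr rfl
    intro A _
    rcases eq_or_ne (D A) 0 with h0 | h0
    · simp [h0]
    · have : A ∩ (P0 ∩ Q) = A ∩ P0 := by
        ext x
        simp only [mem_inter]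
        constructor
        · rintro ⟨h1, h2, h3⟩; exact ⟨h1, h2⟩
        · rintro ⟨h1, h2⟩; exact ⟨h1, h2, hA A h0 h1⟩
      rw [this]
  rw [h1, h2]

theorem j8894_bdd (H : SimpleGraph V) (φ k t : ℕ) (M : ℝ) (ht : 1 ≤ t) (hM : 0 ≤ M)
    (Q : Finset V) :
    BddAbove {v : ℝ | ∃ D, IsD H φ k 4 Q D ∧ v = valD H k t M Q D} := by
  refine ⟨M + 1, ?_⟩
  rintro v ⟨D, hD, rfl⟩
  exact valD_le H k t M ht hM Q D hD.nonneg

/-- TARGET 8 -/
theorem valD_le_J (H : SimpleGraph V) (φ k t : ℕ) (M : ℝ) (ht : 1 ≤ t) (hM : 0 ≤ M)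
    (Q : Finset V) (D : Finset V → ℝ) (hD : IsD H φ k 4 Q D) :
    valD H k t M Q D ≤ J H φ k t M Q :=
  le_csSup (j8894_bdd H φ k t M ht hM Q) ⟨D, hD, rfl⟩

/-- TARGET 9 -/
theorem exists_near_J (H : SimpleGraph V) (φ k t : ℕ) (M : ℝ) (Q : Finset V)
    (hne : ∃ D, IsD H φ k 4 Q D) (ε : ℝ) (hε : 0 < ε) :
    ∃ D, IsD H φ k 4 Q D ∧ J H φ k t M Q - ε ≤ valD H k t M Q D := by
  obtain ⟨D0, hD0⟩ := hne
  have hne' : {v : ℝ | ∃ D, IsD H φ k 4 Q D ∧ v = valD H k t M Q D}.Nonempty :=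
    ⟨_, D0, hD0, rfl⟩
  obtain ⟨v, ⟨D, hD, rfl⟩, hv⟩ := exists_lt_of_lt_csSup hne'
    (show J H φ k t M Q - ε < sSup _ from sub_lt_self _ hε)
  exact ⟨D, hD, hv.le⟩

/-- TARGET 10 -/
theorem J_ge (H : SimpleGraph V) (φ k t : ℕ) (M : ℝ) (ht : 1 ≤ t) (hM : 0 ≤ M) (hk : 1 ≤ k)
    (Q : Finset V) (hne : ∃ D, IsD H φ k 4 Q D) :
    -2 * Real.log t ≤ J H φ k t M Q := by
  obtain ⟨D, hD⟩ := hne
  exact (valD_ge H φ k t 4 M ht hM hk Q D hD).trans (valD_le_J H φ k t M ht hM Q D hD)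

/-- TARGET 11 -/
theorem J_le (H : SimpleGraph V) (φ k t : ℕ) (M : ℝ) (ht : 1 ≤ t) (hM : 0 ≤ M)
    (Q : Finset V) (hne : ∃ D, IsD H φ k 4 Q D) (v : ℝ)
    (hv : ∀ D, IsD H φ k 4 Q D → valD H k t M Q D ≤ v) :
    J H φ k t M Q ≤ v := by
  obtain ⟨D0, hD0⟩ := hne
  have hne' : {v : ℝ | ∃ D, IsD H φ k 4 Q D ∧ v = valD H k t M Q D}.Nonempty :=
    ⟨_, D0, hD0, rfl⟩
  apply csSup_le hne'
  rintro w ⟨D, hD, rfl⟩
  exact hv D hD

end LR
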