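import Mathlib

set_option autoImplicit false
set_option linter.unusedSectionVars false

open Finset

namespace LR

variable {V : Type} [Fintype V] [DecidableEq V]

open Classical in
/-- clique number of `H` inside `S` -/
noncomputable def om (H : SimpleGraph V) (S : Finset V) : ℕ :=
  (S.powerset.filter (fun C : Finset V => H.IsClique (C : Set V))).sup Finset.card

open Classical in
/-- largest size of a subset `A ⊆ Q` with clique number at most `k` -/
noncomputable def cM (H : SimpleGraph V) (k : ℕ) (Q : Finset V) : ℕ :=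
  (Q.powerset.filter (fun A => om H A ≤ k)).sup Finset.card

open Classical in
/-- the `H`-neighbours of `v` inside `P` -/
noncomputable def nb (H : SimpleGraph V) (v : V) (P : Finset V) : Finset V :=
  P.filter (fun y => H.Adj v y)

open Classical in
/-- number of `H`-adjacent ordered pairs in `A × B` -/
noncomputable def eC (H : SimpleGraph V) (A B : Finset V) : ℕ :=
  ((A ×ˢ B).filter (fun p => H.Adj p.1 p.2)).card

omit [Fintype V] in
theorem le_om {H : SimpleGraph V} {S C : Finset V} (hC : C ⊆ S) (h : H.IsClique (C : Set V)) :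
    C.card ≤ om H S := by
  classical
  unfold om
  apply Finset.le_sup (f := Finset.card)
  simp only [mem_filter, mem_powerset]
  exact ⟨hC, h⟩

omit [Fintype V] in
theorem exists_om (H : SimpleGraph V) (S : Finset V) :
    ∃ C : Finset V, C ⊆ S ∧ H.IsClique (C : Set V) ∧ C.card = om H S := by
  classical
  unfold om
  have hne : (S.powerset.filter (fun C : Finset V => H.IsClique (C : Set V))).Nonempty :=
    ⟨∅, by simp⟩
  obtain ⟨C, hC, hC2⟩ := Finset.exists_mem_eq_sup _ hne Finset.card
  simp only [mem_filter, mem_powerset] at hC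
  exact ⟨C, hC.1, hC.2, hC2.symm⟩

omit [Fintype V] in
theorem om_mono {H : SimpleGraph V} {S T : Finset V} (h : S ⊆ T) : om H S ≤ om H T := by
  obtain ⟨C, hC, hc, he⟩ := exists_om H S
  rw [← he]; exact le_om (hC.trans h) hc

omit [Fintype V] in
theorem om_le_card (H : SimpleGraph V) (S : Finset V) : om H S ≤ S.card := by
  obtain ⟨C, hC, hc, he⟩ := exists_om H S
  rw [← he]; exact card_le_card hC

omit [Fintype V] in
@[simp] theorem om_empty (H : SimpleGraph V) : om H (∅ : Finset V) = 0 := by
  have := om_le_card H (∅ : Finset V); simpa using this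

omit [Fintype V] in
theorem om_union_le (H : SimpleGraph V) (S T : Finset V) : om H (S ∪ T) ≤ om H S + om H T := by
  obtain ⟨C, hC, hc, he⟩ := exists_om H (S ∪ T)
  rw [← he]
  have h1 : C = (C ∩ S) ∪ (C ∩ T) := by
    rw [← inter_union_distrib_left]; exact (inter_eq_left.2 hC).symm
  calc C.card = ((C ∩ S) ∪ (C ∩ T)).card := by rw [← h1]
    _ ≤ (C ∩ S).card + (C ∩ T).card := card_union_le _ _
    _ ≤ _ := Nat.add_le_add
      (le_om inter_subset_right (hc.subset (by push_cast; exact Set.inter_subset_left)))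
      (le_om inter_subset_right (hc.subset (by push_cast; exact Set.inter_subset_left)))

omit [Fintype V] in
theorem om_biUnion_le {ι : Type*} [DecidableEq ι] (H : SimpleGraph V) (s : Finset ι)
    (f : ι → Finset V) : om H (s.biUnion f) ≤ ∑ i ∈ s, om H (f i) := by
  induction s using Finset.induction_on with
  | empty => simp
  | insert a s ha ih =>
    rw [biUnion_insert, sum_insert ha]
    exact (om_union_le H _ _).trans (Nat.add_le_add_left ih _)

omit [Fintype V] in
/-- no `H`-edges between `A` and `B` -/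
theorem om_union_le_max {H : SimpleGraph V} {A B : Finset V}
    (h : ∀ a ∈ A, ∀ b ∈ B, a ≠ b → ¬ H.Adj a b) {k : ℕ} (hA : om H A ≤ k) (hB : om H B ≤ k) :
    om H (A ∪ B) ≤ k := by
  obtain ⟨C, hC, hc, he⟩ := exists_om H (A ∪ B)
  rw [← he]
  by_cases h1 : C ⊆ A
  · exact (le_om h1 hc).trans hA
  · have h2 : C ⊆ B := by
      intro y hy
      obtain ⟨x, hx, hxA⟩ := not_subset.1 h1
      have hxB : x ∈ B := by
        rcases mem_union.1 (hC hx) with h | h
        · exact absurd h hxA
        · exact h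
      rcases mem_union.1 (hC hy) with h3 | h3
      · by_cases hxy : y = x
        · rw [hxy]; exact hxB
        · exact absurd (hc (mem_coe.2 hy) (mem_coe.2 hx) hxy) (h y h3 x hxB hxy)
      · exact h3
    exact (le_om h2 hc).trans hB

omit [Fintype V] in
theorem exists_cM (H : SimpleGraph V) (k : ℕ) (Q : Finset V) :
    ∃ A : Finset V, A ⊆ Q ∧ om H A ≤ k ∧ A.card = cM H k Q := by
  classical
  unfold cM
  have hne : (Q.powerset.filter (fun A => om H A ≤ k)).Nonempty :=
    ⟨∅, by simp⟩
  obtain ⟨C, hC, hC2⟩ := Finset.exists_mem_eq_sup _ hne Finset.card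
  simp only [mem_filter, mem_powerset] at hC
  exact ⟨C, hC.1, hC.2, hC2.symm⟩

omit [Fintype V] in
theorem le_cM {H : SimpleGraph V} {k : ℕ} {Q A : Finset V} (hA : A ⊆ Q) (h : om H A ≤ k) :
    A.card ≤ cM H k Q := by
  classical
  unfold cM
  apply Finset.le_sup (f := Finset.card)
  simp only [mem_filter, mem_powerset]
  exact ⟨hA, h⟩

omit [Fintype V] in
theorem exists_of_le_cM {H : SimpleGraph V} {k m : ℕ} {Q : Finset V} (h : m ≤ cM H k Q) :
    ∃ A : Finset V, A ⊆ Q ∧ om H A ≤ k ∧ A.card = m := by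
  obtain ⟨A, hA, ho, hc⟩ := exists_cM H k Q
  obtain ⟨B, hB, hBc⟩ := exists_subset_card_eq (hc ▸ h : m ≤ A.card)
  exact ⟨B, hB.trans hA, (om_mono hB).trans ho, hBc⟩

omit [Fintype V] in
theorem cM_mono {H : SimpleGraph V} {k k' : ℕ} {Q Q' : Finset V} (hk : k ≤ k') (hQ : Q ⊆ Q') :
    cM H k Q ≤ cM H k' Q' := by
  obtain ⟨A, hA, ho, hc⟩ := exists_cM H k Q
  rw [← hc]; exact le_cM (hA.trans hQ) (ho.trans hk)

omit [Fintype V] in
theorem cM_add {H : SimpleGraph V} {k k' : ℕ} {Q A : Finset V} (hA : A ⊆ Q) (hk : om H A ≤ k) :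
    A.card + cM H k' (Q \ A) ≤ cM H (k + k') Q := by
  obtain ⟨B, hB, ho, hc⟩ := exists_cM H k' (Q \ A)
  have hd : Disjoint A B := disjoint_of_subset_right hB disjoint_sdiff
  rw [← hc, ← card_union_of_disjoint hd]
  exact le_cM (union_subset hA (hB.trans sdiff_subset))
    ((om_union_le H A B).trans (Nat.add_le_add hk ho))

omit [Fintype V] in
theorem mem_nb {H : SimpleGraph V} {v y : V} {P : Finset V} :
    y ∈ nb H v P ↔ y ∈ P ∧ H.Adj v y := by
  classical
  simp [nb]

omit [Fintype V] in
theorem nb_subset {H : SimpleGraph V} {v : V} {P : Finset V} : nb H v P ⊆ P := by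
  intro y hy; exact (mem_nb.1 hy).1

omit [Fintype V] in
theorem eC_eq_sum (H : SimpleGraph V) (A B : Finset V) :
    eC H A B = ∑ a ∈ A, (nb H a B).card := by
  classical
  unfold eC nb
  rw [Finset.card_filter, Finset.sum_product]
  apply Finset.sum_congr rfl
  intro a _
  rw [Finset.card_filter]

omit [Fintype V] in
theorem eC_comm (H : SimpleGraph V) (A B : Finset V) : eC H A B = eC H B A := by
  classical
  unfold eC
  apply Finset.card_bij (fun p _ => (p.2, p.1))
  · intro p hp; simp only [mem_filter, mem_product] at hp ⊢; exact ⟨⟨hp.1.2, hp.1.1⟩, hp.2.symm⟩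
  · rintro ⟨a, b⟩ _ ⟨c, d⟩ _ h; simp only [Prod.mk.injEq] at h ⊢; exact ⟨h.2, h.1⟩
  · rintro ⟨a, b⟩ hp; simp only [mem_filter, mem_product] at hp
    exact ⟨(b, a), by simp only [mem_filter, mem_product]; exact ⟨⟨hp.1.2, hp.1.1⟩, hp.2.symm⟩, rfl⟩

omit [Fintype V] in
theorem eC_le (H : SimpleGraph V) (A B : Finset V) : eC H A B ≤ A.card * B.card := by
  classical
  unfold eC
  exact (card_filter_le _ _).trans (by rw [card_product])

/-- distributions on near-extremal sets of level `k` inside `Q` with marginals at most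
`a * kφ / |Q|` -/
structure IsD (H : SimpleGraph V) (φ k : ℕ) (a : ℝ) (Q : Finset V) (D : Finset V → ℝ) : Prop where
  nonneg : ∀ A, 0 ≤ D A
  sum_one : ∑ A, D A = 1
  supp : ∀ A, D A ≠ 0 → A ⊆ Q ∧ om H A ≤ k ∧ A.card = k * φ
  marg : ∀ x ∈ Q, (∑ A, if x ∈ A then D A else 0) * (Q.card : ℝ) ≤ a * ((k : ℝ) * φ)

/-- expected normalised clique number of the part of a random set lying in `P` -/
noncomputable def hit (H : SimpleGraph V) (k : ℕ) (D : Finset V → ℝ) (P : Finset V) : ℝ :=
  (∑ A, D A * (om H (A ∩ P) : ℝ)) / k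

/-- the functional -/
noncomputable def Phi (H : SimpleGraph V) (k t : ℕ) (M : ℝ) (Q : Finset V) (D : Finset V → ℝ)
    (P : Finset V) : ℝ :=
  Real.log (((P ∩ Q).card : ℝ) / Q.card + 1 / (t : ℝ) ^ 2) + M * (1 - hit H k D P)

/-- value of a distribution -/
noncomputable def valD (H : SimpleGraph V) (k t : ℕ) (M : ℝ) (Q : Finset V)
    (D : Finset V → ℝ) : ℝ :=
  (Finset.univ : Finset (Finset V)).inf' Finset.univ_nonempty (fun P => Phi H k t M Q D P)

/-- the potential -/
noncomputable def J (H : SimpleGraph V) (φ k t : ℕ) (M : ℝ) (Q : Finset V) : ℝ :=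
  sSup {v : ℝ | ∃ D, IsD H φ k 4 Q D ∧ v = valD H k t M Q D}

end LR
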