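import Pool.Agent.LR.Defs

set_option autoImplicit false
set_option linter.unusedSectionVars false

open Finset

namespace LR

variable {V : Type} [Fintype V] [DecidableEq V]

open Classical in
/-- law of the union of `q` independent disjoint samples -/
noncomputable def powD (q : ℕ) (D : Finset V → ℝ) (U : Finset V) : ℝ :=
  (∑ a : Fin q → Finset V, if (∀ i j, i ≠ j → Disjoint (a i) (a j)) ∧
      Finset.univ.biUnion a = U then ∏ i, D (a i) else 0) /
  (∑ a : Fin q → Finset V, if (∀ i j, i ≠ j → Disjoint (a i) (a j)) then ∏ i, D (a i) else 0)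

/-- expected normalised clique number of the part in `P` of the union of `q` iid samples -/
noncomputable def iid (H : SimpleGraph V) (k q : ℕ) (D : Finset V → ℝ) (P : Finset V) : ℝ :=
  (∑ a : Fin q → Finset V, (∏ i, D (a i)) * (om H (P ∩ Finset.univ.biUnion a) : ℝ)) /
    ((q : ℝ) * k)

/-- payoff contribution of a set `P` against a labelling `g` -/
noncomputable def payP {N : ℕ} (H : SimpleGraph V) (P : Finset V) (g : V → Fin N) : ℝ :=
  ∑ c, (eC H (P.filter (fun x => g x = c)) (P.filter (fun x => g x = c)) : ℝ) /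
    ((P.filter (fun x => g x = c)).card : ℝ)

/-- payoff of two labellings on `V'` -/
noncomputable def pay {N : ℕ} (H : SimpleGraph V) (V' : Finset V) (f g : V → Fin N) : ℝ :=
  ∑ b, payP H (V'.filter (fun x => f x = b)) g

/-- part of `R` with label `j.2` under `j.1` -/
def part {N : ℕ} (R : Finset V) (j : (V → Fin N) × Fin N) : Finset V :=
  R.filter (fun x => j.1 x = j.2)

open Classical in
/-- weight of the big parts -/
noncomputable def bigW {N : ℕ} (t : ℕ) (R : Finset V) (μ : (V → Fin N) → ℝ)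
    (j : (V → Fin N) × Fin N) : ℝ :=
  if R.card ≤ t ^ 8 * (part R j).card then μ j.1 * ((part R j).card : ℝ) / R.card else 0

/-- total weight of the big parts -/
noncomputable def totW {N : ℕ} (t : ℕ) (R : Finset V) (μ : (V → Fin N) → ℝ) : ℝ :=
  ∑ j, bigW t R μ j

/-- normalised weight -/
noncomputable def nW {N : ℕ} (t : ℕ) (R : Finset V) (μ : (V → Fin N) → ℝ)
    (j : (V → Fin N) × Fin N) : ℝ := bigW t R μ j / totW t R μ

/-- average stability of the potential at level `k` at the set `V'` -/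
def StabAt (H : SimpleGraph V) (φ k t : ℕ) (M β τ ε : ℝ) (V' : Finset V) : Prop :=
  ∀ (ι : Type) [Fintype ι] (w : ι → ℝ) (Qs : ι → Finset V), (∀ j, 0 ≤ w j) → ∑ j, w j = 1 →
    (∀ j, w j ≠ 0 → Qs j ⊆ V' ∧ β * (V'.card : ℝ) ≤ (Qs j).card) →
    (∀ x ∈ V', (∑ j, if x ∈ Qs j then w j / ((Qs j).card : ℝ) else 0) ≤
      (1 + τ) / (V'.card : ℝ)) →
    J H φ k t M V' ≤ ∑ j, w j * J H φ k t M (Qs j) + ε

/-- near-extremal level structure on `V0` -/
structure Lev (H : SimpleGraph V) (t q W d φ k0 : ℕ) (β : ℝ) (V0 : Finset V) : Prop where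
  k0pos : 1 ≤ k0
  φpos : 1 ≤ φ
  φle : φ ≤ 2 * t ^ 2
  ktop : q ^ W * k0 ≤ t
  N1 : ∀ Q ⊆ V0, β * (V0.card : ℝ) ≤ Q.card → ∀ i ≤ W, ∃ A ⊆ Q, om H A ≤ q ^ i * k0 ∧
    A.card = (q ^ i * k0) * φ
  N2 : ∀ i < W, ∀ F : Fin q → Finset V,
    (∀ j, F j ⊆ V0 ∧ om H (F j) ≤ q ^ i * k0 ∧ (F j).card = (q ^ i * k0) * φ) →
    (∀ i j, i ≠ j → Disjoint (F i) (F j)) →
    (q - d) * (q ^ i * k0) < om H (Finset.univ.biUnion F)
  N3 : ∀ A B : Finset V, A ⊆ V0 → B ⊆ V0 → Disjoint A B → β * (V0.card : ℝ) ≤ A.card →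
    β * (V0.card : ℝ) ≤ B.card → (A.card : ℝ) * B.card ≤ (t : ℝ) ^ 10 * eC H A B

open Classical in
/-- number of `j`-cliques inside `W` -/
noncomputable def nC (H : SimpleGraph V) (j : ℕ) (W : Finset V) : ℕ :=
  ((W.powersetCard j).filter (fun C => H.IsClique (C : Set V))).card

end LR
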