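import Pool.Agent.LR.X2

set_option autoImplicit false
set_option linter.unusedSectionVars false

open Finset

namespace LR

variable {V : Type} [Fintype V] [DecidableEq V]

theorem cus_marg2 {α : Type} [Fintype α] (r : ℕ) (D : α → ℝ) (h1 : ∑ a, D a = 1)
    (f g : α → ℝ) (i0 j0 : Fin r) (hij : i0 ≠ j0) :
    ∑ a : Fin r → α, (∏ i, D (a i)) * (f (a i0) * g (a j0)) = (∑ A, D A * f A) * ∑ A, D A * g A := by
  classical
  have key := Finset.prod_univ_sum (fun _ : Fin r => (Finset.univ : Finset α))
    (fun i A => D A * ((if i = i0 then f A else 1) * (if i = j0 then g A else 1)))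
  rw [Fintype.piFinset_univ] at key
  have hl : ∀ i : Fin r, (∑ A, D A * ((if i = i0 then f A else 1) * (if i = j0 then g A else 1)))
      = (if i = i0 then (∑ A, D A * f A) else 1) * (if i = j0 then (∑ A, D A * g A) else 1) := by
    intro i
    by_cases hi : i = i0
    · have hj : ¬ i = j0 := by rw [hi]; exact hij
      simp [hi, hij]
    · by_cases hj : i = j0
      · have : ¬ j0 = i0 := fun h => hij h.symm
        simp [hj, this]
      · simp [hi, hj, h1]
  rw [Finset.prod_congr rfl (fun i _ => hl i)] at key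
  rw [Finset.prod_mul_distrib, Finset.prod_ite_eq' , Finset.prod_ite_eq'] at key
  simp only [Finset.mem_univ, if_true] at key
  rw [key]
  refine Finset.sum_congr rfl fun a _ => ?_
  rw [Finset.prod_mul_distrib, Finset.prod_mul_distrib, Finset.prod_ite_eq', Finset.prod_ite_eq']
  simp

theorem cus_marg0 {α : Type} [Fintype α] (r : ℕ) (D : α → ℝ) (h1 : ∑ a, D a = 1) :
    ∑ a : Fin r → α, (∏ i, D (a i)) = 1 := by
  classical
  have key := Finset.prod_univ_sum (fun _ : Fin r => (Finset.univ : Finset α))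
    (fun _ A => D A)
  rw [Fintype.piFinset_univ] at key
  rw [← key]
  simp [h1]

theorem cus_marg1 {α : Type} [Fintype α] (r : ℕ) (D : α → ℝ) (h1 : ∑ a, D a = 1)
    (f : α → ℝ) (i0 : Fin r) :
    ∑ a : Fin r → α, (∏ i, D (a i)) * f (a i0) = ∑ A, D A * f A := by
  classical
  have key := Finset.prod_univ_sum (fun _ : Fin r => (Finset.univ : Finset α))
    (fun i A => D A * (if i = i0 then f A else 1))
  rw [Fintype.piFinset_univ] at key
  have hl : ∀ i : Fin r, (∑ A, D A * (if i = i0 then f A else 1))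
      = (if i = i0 then (∑ A, D A * f A) else 1) := by
    intro i
    by_cases hi : i = i0
    · simp [hi]
    · simp [hi, h1]
  rw [Finset.prod_congr rfl (fun i _ => hl i)] at key
  rw [Finset.prod_ite_eq'] at key
  simp only [Finset.mem_univ, if_true] at key
  rw [key]
  refine Finset.sum_congr rfl fun a _ => ?_
  rw [Finset.prod_mul_distrib, Finset.prod_ite_eq']
  simp

/-- TARGET sampling -/
theorem sampling (H : SimpleGraph V) (k r m : ℕ) (hk : 1 ≤ k) (D : Finset V → ℝ)
    (hD : ∀ A, 0 ≤ D A) (h1 : ∑ A, D A = 1)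
    (hsupp : ∀ A, D A ≠ 0 → om H A ≤ k ∧ A.card ≤ m) (p : ℝ)
    (hp : ∀ x, (∑ A, if x ∈ A then D A else 0) ≤ p) (Z : Finset V)
    (𝓣 : Finset (Finset V)) (κ : ℝ) (hκ : 0 < κ) (hκ1 : κ ≤ 1)
    (hnum : (𝓣.card : ℝ) * Real.exp (-(κ ^ 2) * r / 4) +
      ((r : ℝ) * Z.card + (r : ℝ) ^ 2 * m) * p < 1) :
    ∃ a : Fin r → Finset V, (∀ i, D (a i) ≠ 0) ∧ (∀ i j, i ≠ j → Disjoint (a i) (a j)) ∧
      (∀ i, Disjoint (a i) Z) ∧
      ∀ T ∈ 𝓣, (∑ i, (om H (a i ∩ T) : ℝ)) ≤ r * k * (hit H k D T + κ) := by
  classical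
  have hk0 : (0 : ℝ) < k := by exact_mod_cast hk
  have hhit : ∀ T, 0 ≤ hit H k D T := by
    intro T
    unfold hit
    exact div_nonneg (Finset.sum_nonneg fun A _ => mul_nonneg (hD A) (Nat.cast_nonneg _)) hk0.le
  rcases isEmpty_or_nonempty V with hV | hV
  · -- trivial case
    have hD0 : D ∅ ≠ 0 := by
      intro h0
      have : ∑ A, D A = 0 := Finset.sum_eq_zero fun A _ => by
        rw [Finset.eq_empty_of_isEmpty A]; exact h0
      linarith
    refine ⟨fun _ => ∅, fun _ => hD0, fun _ _ _ => Finset.disjoint_empty_left _,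
      fun _ => Finset.disjoint_empty_left _, fun T _ => ?_⟩
    have : (∑ i : Fin r, (om H (∅ ∩ T) : ℝ)) = 0 := by simp
    rw [this]
    exact mul_nonneg (mul_nonneg (Nat.cast_nonneg _) hk0.le) (add_nonneg (hhit T) hκ.le)
  -- main case
  obtain ⟨v0⟩ := hV
  have hPx : ∀ x, 0 ≤ (∑ A, if x ∈ A then D A else 0) := fun x =>
    Finset.sum_nonneg fun A _ => by split_ifs; exacts [hD A, le_rfl]
  have hp0 : 0 ≤ p := (hPx v0).trans (hp v0)
  by_contra hcon
  push Not at hcon
  set W : (Fin r → Finset V) → ℝ := fun a => ∏ i, D (a i) with hW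
  have hWn : ∀ a, 0 ≤ W a := fun a => Finset.prod_nonneg fun i _ => hD _
  set B1 : Finset V → (Fin r → Finset V) → ℝ := fun T a =>
    if (r : ℝ) * k * (hit H k D T + κ) < ∑ i, (om H (a i ∩ T) : ℝ) then 1 else 0 with hB1
  have hB1n : ∀ T a, 0 ≤ B1 T a := fun T a => by simp only [hB1]; split_ifs <;> norm_num
  set I : V → Finset V → ℝ := fun x A => if x ∈ A then 1 else 0 with hI
  have hIn : ∀ x A, 0 ≤ I x A := fun x A => by simp only [hI]; split_ifs <;> norm_num
  -- pointwise estimate
  have hpt : ∀ a, W a ≤ (∑ T ∈ 𝓣, W a * B1 T a) + (∑ i, ∑ x ∈ Z, W a * I x (a i))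
      + ∑ i, ∑ j ∈ Finset.univ.erase i, ∑ x, W a * (I x (a i) * I x (a j)) := by
    intro a
    have n1 : 0 ≤ ∑ T ∈ 𝓣, W a * B1 T a := Finset.sum_nonneg fun T _ => mul_nonneg (hWn a) (hB1n T a)
    have n2 : 0 ≤ ∑ i, ∑ x ∈ Z, W a * I x (a i) :=
      Finset.sum_nonneg fun i _ => Finset.sum_nonneg fun x _ => mul_nonneg (hWn a) (hIn _ _)
    have n3 : 0 ≤ ∑ i, ∑ j ∈ Finset.univ.erase i, ∑ x, W a * (I x (a i) * I x (a j)) :=
      Finset.sum_nonneg fun i _ => Finset.sum_nonneg fun j _ => Finset.sum_nonneg fun x _ =>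
        mul_nonneg (hWn a) (mul_nonneg (hIn _ _) (hIn _ _))
    by_cases h0 : ∀ i, D (a i) ≠ 0
    · by_cases hd : ∀ i j, i ≠ j → Disjoint (a i) (a j)
      · by_cases hz : ∀ i, Disjoint (a i) Z
        · obtain ⟨T, hT, hlt⟩ := hcon a h0 hd hz
          have : W a ≤ ∑ T ∈ 𝓣, W a * B1 T a := by
            have h2 : W a * B1 T a ≤ ∑ T ∈ 𝓣, W a * B1 T a :=
              Finset.single_le_sum (f := fun T => W a * B1 T a)
                (fun T _ => mul_nonneg (hWn a) (hB1n T a)) hT
            have h3 : B1 T a = 1 := by simp only [hB1]; rw [if_pos hlt]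
            rw [h3, mul_one] at h2
            exact h2
          linarith
        · push Not at hz
          obtain ⟨i, hi⟩ := hz
          rw [Finset.not_disjoint_iff] at hi
          obtain ⟨x, hxa, hxZ⟩ := hi
          have : W a ≤ ∑ i, ∑ x ∈ Z, W a * I x (a i) := by
            have h2 : W a * I x (a i) ≤ ∑ x ∈ Z, W a * I x (a i) :=
              Finset.single_le_sum (f := fun x => W a * I x (a i))
                (fun x _ => mul_nonneg (hWn a) (hIn _ _)) hxZ
            have h3 : ∑ x ∈ Z, W a * I x (a i) ≤ ∑ i, ∑ x ∈ Z, W a * I x (a i) :=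
              Finset.single_le_sum (f := fun i => ∑ x ∈ Z, W a * I x (a i))
                (fun i _ => Finset.sum_nonneg fun x _ => mul_nonneg (hWn a) (hIn _ _))
                (Finset.mem_univ i)
            have h4 : I x (a i) = 1 := by simp only [hI]; rw [if_pos hxa]
            rw [h4, mul_one] at h2
            exact h2.trans h3
          linarith
      · push Not at hd
        obtain ⟨i, j, hij, hnd⟩ := hd
        rw [Finset.not_disjoint_iff] at hnd
        obtain ⟨x, hxi, hxj⟩ := hnd
        have : W a ≤ ∑ i, ∑ j ∈ Finset.univ.erase i, ∑ x, W a * (I x (a i) * I x (a j)) := by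
          have h2 : W a * (I x (a i) * I x (a j)) ≤ ∑ x, W a * (I x (a i) * I x (a j)) :=
            Finset.single_le_sum (f := fun x => W a * (I x (a i) * I x (a j)))
              (fun x _ => mul_nonneg (hWn a) (mul_nonneg (hIn _ _) (hIn _ _))) (Finset.mem_univ x)
          have h3 : ∑ x, W a * (I x (a i) * I x (a j))
              ≤ ∑ j ∈ Finset.univ.erase i, ∑ x, W a * (I x (a i) * I x (a j)) :=
            Finset.single_le_sum (f := fun j => ∑ x, W a * (I x (a i) * I x (a j)))
              (fun j _ => Finset.sum_nonneg fun x _ =>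
                mul_nonneg (hWn a) (mul_nonneg (hIn _ _) (hIn _ _)))
              (Finset.mem_erase.mpr ⟨hij.symm, Finset.mem_univ j⟩)
          have h4 : ∑ j ∈ Finset.univ.erase i, ∑ x, W a * (I x (a i) * I x (a j))
              ≤ ∑ i, ∑ j ∈ Finset.univ.erase i, ∑ x, W a * (I x (a i) * I x (a j)) :=
            Finset.single_le_sum
              (f := fun i => ∑ j ∈ Finset.univ.erase i, ∑ x, W a * (I x (a i) * I x (a j)))
              (fun i _ => Finset.sum_nonneg fun j _ => Finset.sum_nonneg fun x _ =>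
                mul_nonneg (hWn a) (mul_nonneg (hIn _ _) (hIn _ _)))
              (Finset.mem_univ i)
          have h5 : I x (a i) = 1 := by simp only [hI]; rw [if_pos hxi]
          have h6 : I x (a j) = 1 := by simp only [hI]; rw [if_pos hxj]
          rw [h5, h6, mul_one, mul_one] at h2
          exact h2.trans (h3.trans h4)
        linarith
    · push Not at h0
      obtain ⟨i, hi⟩ := h0
      have : W a = 0 := Finset.prod_eq_zero (Finset.mem_univ i) hi
      linarith
  -- total weight
  have htot : ∑ a, W a = 1 := cus_marg0 r D h1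
  -- term 1
  have t1 : ∀ T, ∑ a, W a * B1 T a ≤ Real.exp (-(κ ^ 2) * r / 4) := by
    intro T
    set g : Finset V → ℝ := fun A => if D A = 0 then 0 else (om H (A ∩ T) : ℝ) / k with hg
    have hg01 : ∀ A, 0 ≤ g A ∧ g A ≤ 1 := by
      intro A
      simp only [hg]
      split_ifs with h
      · exact ⟨le_rfl, zero_le_one⟩
      · refine ⟨by positivity, ?_⟩
        rw [div_le_one hk0]
        have h2 : om H (A ∩ T) ≤ k := (om_mono Finset.inter_subset_left).trans (hsupp A h).1
        exact_mod_cast h2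
    have hDg : ∑ A, D A * g A = hit H k D T := by
      unfold hit
      rw [Finset.sum_div]
      refine Finset.sum_congr rfl fun A _ => ?_
      simp only [hg]
      split_ifs with h
      · rw [h]; simp
      · rw [mul_div_assoc]
    have hch := chernoff r D hD h1 g hg01 κ hκ.le hκ1
    refine le_trans (Finset.sum_le_sum fun a _ => ?_) hch
    rcases (hWn a).lt_or_eq with hpos | hzero
    · apply mul_le_mul_of_nonneg_left _ (hWn a)
      have hne : ∀ i, D (a i) ≠ 0 := by
        intro i hi
        have : W a = 0 := Finset.prod_eq_zero (Finset.mem_univ i) hi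
        linarith
      simp only [hB1]
      split_ifs with h2 h3
      · exact le_rfl
      · exfalso
        apply h3
        rw [hDg]
        have h4 : ∑ i, g (a i) = (∑ i, (om H (a i ∩ T) : ℝ)) / k := by
          rw [Finset.sum_div]
          refine Finset.sum_congr rfl fun i _ => ?_
          simp only [hg]
          rw [if_neg (hne i)]
        rw [h4, le_div_iff₀ hk0]
        linarith
      · norm_num
      · norm_num
    · have h5 : W a * B1 T a = 0 := by rw [← hzero, zero_mul]
      rw [h5]
      exact mul_nonneg (hWn a) (by split_ifs <;> norm_num)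
  -- marginals
  have hmI : ∀ x, ∑ A, D A * I x A = ∑ A, if x ∈ A then D A else 0 := by
    intro x
    refine Finset.sum_congr rfl fun A _ => ?_
    simp only [hI]
    split_ifs <;> simp
  have t2 : ∀ (i : Fin r) x, ∑ a, W a * I x (a i) ≤ p := by
    intro i x
    have := cus_marg1 r D h1 (fun A => I x A) i
    simp only [hW]
    rw [this, hmI]
    exact hp x
  have hsumP : ∑ x, (∑ A, if x ∈ A then D A else 0) ≤ m := by
    rw [Finset.sum_comm]
    calc ∑ A, ∑ x, (if x ∈ A then D A else 0) = ∑ A, D A * (A.card : ℝ) := by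
          refine Finset.sum_congr rfl fun A _ => ?_
          rw [← Finset.sum_filter, Finset.sum_const, nsmul_eq_mul, mul_comm]
          congr 3
          ext x; simp
      _ ≤ ∑ A, D A * (m : ℝ) := by
          refine Finset.sum_le_sum fun A _ => ?_
          by_cases h : D A = 0
          · rw [h]; simp
          · apply mul_le_mul_of_nonneg_left _ (hD A)
            exact_mod_cast (hsupp A h).2
      _ = m := by rw [← Finset.sum_mul, h1, one_mul]
  have t3 : ∀ i j : Fin r, i ≠ j → ∑ x, ∑ a, W a * (I x (a i) * I x (a j)) ≤ p * m := by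
    intro i j hij
    have h2 : ∀ x, ∑ a, W a * (I x (a i) * I x (a j)) ≤ p * (∑ A, if x ∈ A then D A else 0) := by
      intro x
      have := cus_marg2 r D h1 (fun A => I x A) (fun A => I x A) i j hij
      simp only [hW]
      rw [this, hmI]
      exact mul_le_mul_of_nonneg_right (hp x) (hPx x)
    calc ∑ x, ∑ a, W a * (I x (a i) * I x (a j))
        ≤ ∑ x, p * (∑ A, if x ∈ A then D A else 0) := Finset.sum_le_sum fun x _ => h2 x
      _ = p * ∑ x, (∑ A, if x ∈ A then D A else 0) := by rw [Finset.mul_sum]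
      _ ≤ p * m := mul_le_mul_of_nonneg_left hsumP hp0
  -- sum up
  have hsum := Finset.sum_le_sum (s := (Finset.univ : Finset (Fin r → Finset V))) fun a _ => hpt a
  rw [htot, Finset.sum_add_distrib, Finset.sum_add_distrib] at hsum
  have s1 : ∑ a, ∑ T ∈ 𝓣, W a * B1 T a ≤ (𝓣.card : ℝ) * Real.exp (-(κ ^ 2) * r / 4) := by
    rw [Finset.sum_comm]
    refine (Finset.sum_le_sum fun T _ => t1 T).trans ?_
    rw [Finset.sum_const, nsmul_eq_mul]
  have s2 : ∑ a, ∑ i, ∑ x ∈ Z, W a * I x (a i) ≤ (r : ℝ) * Z.card * p := by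
    rw [Finset.sum_comm]
    have : ∀ i : Fin r, ∑ a, ∑ x ∈ Z, W a * I x (a i) ≤ Z.card * p := by
      intro i
      rw [Finset.sum_comm]
      refine (Finset.sum_le_sum fun x _ => t2 i x).trans ?_
      rw [Finset.sum_const, nsmul_eq_mul]
    refine (Finset.sum_le_sum fun i _ => this i).trans ?_
    rw [Finset.sum_const, nsmul_eq_mul, Finset.card_univ, Fintype.card_fin]
    exact le_of_eq (by ring)
  have s3 : ∑ a, ∑ i, ∑ j ∈ Finset.univ.erase i, ∑ x, W a * (I x (a i) * I x (a j))
      ≤ (r : ℝ) ^ 2 * m * p := by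
    rw [Finset.sum_comm]
    have h3 : ∀ i : Fin r, ∑ a, ∑ j ∈ Finset.univ.erase i, ∑ x, W a * (I x (a i) * I x (a j))
        ≤ (r : ℝ) * (p * m) := by
      intro i
      rw [Finset.sum_comm]
      have h4 : ∀ j ∈ Finset.univ.erase i, ∑ a, ∑ x, W a * (I x (a i) * I x (a j)) ≤ p * m := by
        intro j hj
        rw [Finset.sum_comm]
        exact t3 i j (Finset.ne_of_mem_erase hj).symm
      refine (Finset.sum_le_sum h4).trans ?_
      rw [Finset.sum_const, nsmul_eq_mul]
      apply mul_le_mul_of_nonneg_right _ (mul_nonneg hp0 (Nat.cast_nonneg _))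
      have h5 : (Finset.univ.erase i).card ≤ r := by
        calc (Finset.univ.erase i).card ≤ (Finset.univ : Finset (Fin r)).card :=
              Finset.card_le_card (Finset.erase_subset _ _)
          _ = r := by simp
      exact_mod_cast h5
    refine (Finset.sum_le_sum fun i _ => h3 i).trans ?_
    rw [Finset.sum_const, nsmul_eq_mul, Finset.card_univ, Fintype.card_fin]
    exact le_of_eq (by ring)
  linarith

end LR
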