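import Pool.Agent.LR.D1

set_option autoImplicit false
set_option linter.unusedSectionVars false

open Finset

namespace LR

variable {V : Type} [Fintype V] [DecidableEq V]

omit [Fintype V] in
theorem small_card (Z : Finset V) (u : ℕ) :
    (Z.powerset.filter (fun S => S.card ≤ u)).card ≤ (Z.card + 1) ^ u := by
  classical
  induction u with
  | zero =>
    have h : Z.powerset.filter (fun S => S.card ≤ 0) ⊆ {∅} := by
      intro S hS
      simp only [mem_filter, Nat.le_zero, card_eq_zero] at hS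
      simp [hS.2]
    simpa using card_le_card h
  | succ u ih =>
    have h : Z.powerset.filter (fun S => S.card ≤ u + 1) ⊆
        ((Z.powerset.filter (fun S => S.card ≤ u)) ×ˢ (insertNone Z)).image
          (fun p => p.2.elim p.1 (fun x => insert x p.1)) := by
      intro S hS
      rw [mem_filter, mem_powerset] at hS
      rw [mem_image]
      rcases S.eq_empty_or_nonempty with rfl | ⟨x, hx⟩
      · refine ⟨(∅, none), ?_, rfl⟩
        simp
      · refine ⟨(S.erase x, some x), ?_, ?_⟩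
        · rw [mem_product, mem_filter, mem_powerset]
          refine ⟨⟨(erase_subset _ _).trans hS.1, ?_⟩, ?_⟩
          · rw [card_erase_of_mem hx]; omega
          · simpa using hS.1 hx
        · simp [insert_erase hx]
    calc _ ≤ _ := card_le_card h
      _ ≤ _ := card_image_le
      _ = (Z.powerset.filter (fun S => S.card ≤ u)).card * (Z.card + 1) := by
          rw [card_product, card_insertNone]
      _ ≤ (Z.card + 1) ^ u * (Z.card + 1) := Nat.mul_le_mul_right _ ih
      _ = _ := (pow_succ _ _).symm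

open Classical in
/-- common neighbours in `Y` of the vertices of `S` -/
noncomputable def YS (H : SimpleGraph V) (Y S : Finset V) : Finset V :=
  Y.filter (fun y => ∀ x ∈ S, H.Adj x y)

/-- vertices of `X` adjacent to at least half of `YS` -/
noncomputable def TS (H : SimpleGraph V) (X Y S : Finset V) : Finset V :=
  X.filter (fun x => (YS H Y S).card ≤ 2 * (nb H x (YS H Y S)).card)

/-- union of the earlier blocks -/
def Zf {r : ℕ} (a : ℕ → Fin r → Finset V) (i : ℕ) : Finset V :=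
  (range i).biUnion (fun j => Finset.univ.biUnion (a j))

omit [Fintype V] in
theorem mem_Zf {r : ℕ} {a : ℕ → Fin r → Finset V} {i : ℕ} {x : V} :
    x ∈ Zf a i ↔ ∃ j < i, ∃ l, x ∈ a j l := by
  simp [Zf]

omit [Fintype V] in
theorem Zf_mono {r : ℕ} {a : ℕ → Fin r → Finset V} {i j : ℕ} (h : i ≤ j) : Zf a i ⊆ Zf a j := by
  intro x hx
  obtain ⟨l, hl, m, hm⟩ := mem_Zf.1 hx
  exact mem_Zf.2 ⟨l, hl.trans_le h, m, hm⟩

omit [Fintype V] in
theorem Zf_card {r : ℕ} {a : ℕ → Fin r → Finset V} {i m : ℕ}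
    (h : ∀ j < i, ∀ l, (a j l).card ≤ m) : (Zf a i).card ≤ i * (r * m) := by
  unfold Zf
  calc _ ≤ ∑ j ∈ range i, (Finset.univ.biUnion (a j)).card := card_biUnion_le
    _ ≤ ∑ j ∈ range i, (r * m) := by
        apply sum_le_sum
        intro j hj
        calc _ ≤ ∑ l, (a j l).card := card_biUnion_le
          _ ≤ ∑ _l : Fin r, m := sum_le_sum (fun l _ => h j (mem_range.1 hj) l)
          _ = r * m := by simp
    _ = _ := by simp

omit [Fintype V] in
theorem Zf_congr {r : ℕ} {a a' : ℕ → Fin r → Finset V} {i : ℕ} (h : ∀ j < i, a j = a' j) :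
    Zf a i = Zf a' i := by
  ext x
  rw [mem_Zf, mem_Zf]
  constructor
  · rintro ⟨j, hj, l, hl⟩; exact ⟨j, hj, l, by rw [← h j hj]; exact hl⟩
  · rintro ⟨j, hj, l, hl⟩; exact ⟨j, hj, l, by rw [h j hj]; exact hl⟩

theorem marg_le {H : SimpleGraph V} {φ k : ℕ} {Q : Finset V} (hQ : Q.Nonempty)
    {D : Finset V → ℝ} (hD : IsD H φ k 4 Q D) (x : V) :
    (∑ A, if x ∈ A then D A else 0) ≤ 4 * ((k : ℝ) * φ) / Q.card := by
  have hc : (0 : ℝ) < Q.card := by exact_mod_cast card_pos.2 hQ
  by_cases hx : x ∈ Q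
  · rw [le_div_iff₀ hc]
    exact hD.marg x hx
  · have h0 : (∑ A, if x ∈ A then D A else 0) = 0 := by
      apply sum_eq_zero
      intro A _
      by_cases hA : x ∈ A
      · rw [if_pos hA]
        by_contra hne
        exact hx ((hD.supp A hne).1 hA)
      · rw [if_neg hA]
    rw [h0]
    positivity

/-- one block -/
theorem one_block (H : SimpleGraph V) (φ k q r u : ℕ) (κ R : ℝ) (Q : Finset V)
    (hQ : Q.Nonempty) (hk : 1 ≤ k) (hκ : 0 < κ) (hκ1 : κ ≤ 1)
    (D : Finset V → ℝ) (hD : IsD H φ k 4 Q D) (Z W : Finset V) (T : Finset V → Finset V)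
    (hr : R ≤ r) (hrq : r ≤ q)
    (hZ : Z.card ≤ q * (k * φ)) (hW : W.card ≤ q * (k * φ))
    (hnum : ((q : ℝ) * ((k : ℝ) * φ) + 1) ^ u * Real.exp (-(κ ^ 2) * R / 4) +
      ((r : ℝ) * ((q : ℝ) * ((k : ℝ) * φ)) + (r : ℝ) ^ 2 * ((k : ℝ) * φ)) *
        (4 * ((k : ℝ) * φ) / Q.card) < 1) :
    ∃ a : Fin r → Finset V, (∀ i, D (a i) ≠ 0) ∧ (∀ i j, i ≠ j → Disjoint (a i) (a j)) ∧
      (∀ i, Disjoint (a i) Z) ∧
      ∀ S ⊆ W, S.card ≤ u → (∑ i, (om H (a i ∩ T S) : ℝ)) ≤ r * k * (hit H k D (T S) + κ) := by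
  classical
  have hc : (0 : ℝ) < Q.card := by exact_mod_cast card_pos.2 hQ
  have hp0 : (0 : ℝ) ≤ 4 * ((k : ℝ) * φ) / Q.card := by positivity
  obtain ⟨a, h1, h2, h3, h4⟩ := sampling H k r (k * φ) hk D hD.nonneg hD.sum_one
    (fun A hA => ⟨(hD.supp A hA).2.1, (hD.supp A hA).2.2.le⟩) (4 * ((k : ℝ) * φ) / Q.card)
    (marg_le hQ hD) Z ((W.powerset.filter (fun S => S.card ≤ u)).image T) κ hκ hκ1 (by
      refine lt_of_le_of_lt ?_ hnum
      have e1 : ((((W.powerset.filter (fun S => S.card ≤ u)).image T).card : ℕ) : ℝ) ≤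
          ((q : ℝ) * ((k : ℝ) * φ) + 1) ^ u := by
        have e2 : ((W.powerset.filter (fun S => S.card ≤ u)).image T).card ≤
            (q * (k * φ) + 1) ^ u :=
          (card_image_le.trans (small_card W u)).trans (Nat.pow_le_pow_left (by omega) _)
        exact_mod_cast e2
      have e3 : Real.exp (-(κ ^ 2) * r / 4) ≤ Real.exp (-(κ ^ 2) * R / 4) := by
        apply Real.exp_le_exp.2
        have : κ ^ 2 * R ≤ κ ^ 2 * r := mul_le_mul_of_nonneg_left hr (sq_nonneg κ)
        linarith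
      have e4 : ((Z.card : ℕ) : ℝ) ≤ (q : ℝ) * ((k : ℝ) * φ) := by exact_mod_cast hZ
      have e5 : ((k * φ : ℕ) : ℝ) = (k : ℝ) * φ := by push_cast; ring
      rw [e5]
      refine add_le_add ?_ ?_
      · exact mul_le_mul e1 e3 (Real.exp_nonneg _) (by positivity)
      · apply mul_le_mul_of_nonneg_right _ hp0
        have : (r : ℝ) * Z.card ≤ (r : ℝ) * ((q : ℝ) * ((k : ℝ) * φ)) :=
          mul_le_mul_of_nonneg_left e4 (by positivity)
        linarith)
  refine ⟨a, h1, h2, h3, fun S hS hSu => h4 _ ?_⟩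
  exact mem_image_of_mem _ (mem_filter.2 ⟨mem_powerset.2 hS, hSu⟩)

/-- all blocks -/
theorem all_blocks (H : SimpleGraph V) (φ k q b r u : ℕ) (κ : ℝ) (X : Finset V)
    (hX : X.Nonempty) (hk : 1 ≤ k) (hκ : 0 < κ) (hκ1 : κ ≤ 1)
    (D : Finset V → ℝ) (hD : IsD H φ k 4 X D) (T : Finset V → Finset V)
    (hbr : b * r ≤ q) (hb : 1 ≤ b)
    (hnum : ((q : ℝ) * ((k : ℝ) * φ) + 1) ^ u * Real.exp (-(κ ^ 2) * r / 4) +
      ((r : ℝ) * ((q : ℝ) * ((k : ℝ) * φ)) + (r : ℝ) ^ 2 * ((k : ℝ) * φ)) *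
        (4 * ((k : ℝ) * φ) / X.card) < 1) (n : ℕ) (hn : n ≤ b) :
    ∃ a : ℕ → Fin r → Finset V, ∀ i < n, (∀ j, D (a i j) ≠ 0) ∧
      (∀ j l, j ≠ l → Disjoint (a i j) (a i l)) ∧ (∀ j, Disjoint (a i j) (Zf a i)) ∧
      ∀ S ⊆ Zf a i, S.card ≤ u →
        (∑ j, (om H (a i j ∩ T S) : ℝ)) ≤ r * k * (hit H k D (T S) + κ) := by
  classical
  induction n with
  | zero => exact ⟨fun _ _ => ∅, fun i hi => absurd hi (Nat.not_lt_zero _)⟩
  | succ n ih =>
    obtain ⟨a, ha⟩ := ih (by omega)
    have hrq : r ≤ q := le_trans (Nat.le_mul_of_pos_left r (by omega)) hbr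
    have hZ : (Zf a n).card ≤ q * (k * φ) := by
      have h1 : (Zf a n).card ≤ n * (r * (k * φ)) :=
        Zf_card (fun j hj l => ((hD.supp _ ((ha j hj).1 l)).2.2).le)
      refine h1.trans ?_
      rw [← mul_assoc]
      apply Nat.mul_le_mul_right
      exact (Nat.mul_le_mul_right r (by omega)).trans hbr
    obtain ⟨c, h1, h2, h3, h4⟩ := one_block H φ k q r u κ r X hX hk hκ hκ1 D hD (Zf a n) (Zf a n)
      T le_rfl hrq hZ hZ hnum
    refine ⟨Function.update a n c, fun i hi => ?_⟩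
    have hZi : Zf (Function.update a n c) i = Zf a i := by
      apply Zf_congr
      intro j hj
      rw [Function.update_of_ne (by omega)]
    rcases Nat.lt_succ_iff_lt_or_eq.1 hi with hlt | rfl
    · rw [hZi, Function.update_of_ne (by omega)]
      exact ha i hlt
    · rw [hZi, Function.update_self]
      exact ⟨h1, h2, h3, h4⟩

theorem YS_empty (H : SimpleGraph V) (Y : Finset V) : YS H Y ∅ = Y := by
  classical
  simp [YS]

theorem YS_insert (H : SimpleGraph V) (Y S : Finset V) (x : V) :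
    YS H Y (insert x S) = nb H x (YS H Y S) := by
  classical
  ext y
  simp only [YS, mem_filter, mem_insert, forall_eq_or_imp, mem_nb]
  tauto

/-- TARGET -/
theorem E_step (H : SimpleGraph V) (t φ k q d b r u : ℕ) (M lam : ℝ) (X Y : Finset V)
    (hXY : Disjoint X Y) (hX : X.Nonempty) (hY : Y.Nonempty)
    (ht : 1 ≤ t) (hk : 1 ≤ k) (hφ : 1 ≤ φ) (hφt : φ ≤ 2 * t ^ 2) (hM : 1 ≤ M)
    (D D' : Finset V → ℝ) (hD : IsD H φ k 4 X D) (hD' : IsD H φ k 4 Y D')
    (hstar : ∀ Y' ⊆ Y, Y.card ≤ 16 * t ^ 2 * Y'.card →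
        (((X.filter (fun x => Y'.card ≤ 2 * (nb H x Y').card)).card : ℕ) : ℝ) ≤
          lam * X.card)
    (hN2 : ∀ F : Fin q → Finset V,
      (∀ j, (F j ⊆ X ∨ F j ⊆ Y) ∧ om H (F j) ≤ k ∧ (F j).card = k * φ) →
      (∀ i j, i ≠ j → Disjoint (F i) (F j)) → (q - d) * k < om H (Finset.univ.biUnion F))
    (hb : 2 * u ≤ b) (hu : 16 * t ^ 2 ≤ 2 ^ u) (hbr : 2 * b * r ≤ q) (hd : 8 * d ≤ q)
    (hdM : 4 * M * d ≤ (b : ℝ) * r)
    (hnumX : ((q : ℝ) * ((k : ℝ) * φ) + 1) ^ u * Real.exp (-((1 / (2 * M)) ^ 2) * r / 4) +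
      ((r : ℝ) * ((q : ℝ) * ((k : ℝ) * φ)) + (r : ℝ) ^ 2 * ((k : ℝ) * φ)) *
        (4 * ((k : ℝ) * φ) / X.card) < 1)
    (hnumY : ((q : ℝ) * ((k : ℝ) * φ) + 1) ^ u * Real.exp (-((1 / 8 : ℝ) ^ 2) * ((q : ℝ) / 2) / 4) +
      ((q : ℝ) * ((q : ℝ) * ((k : ℝ) * φ)) + (q : ℝ) ^ 2 * ((k : ℝ) * φ)) *
        (4 * ((k : ℝ) * φ) / Y.card) < 1) :
    ∃ P ⊆ X, (P.card : ℝ) ≤ lam * X.card ∧ 1 - 1 / M ≤ hit H k D P := by
  classical
  by_contra hcon
  push Not at hcon
  have hu0 : 1 ≤ u := by
    rcases Nat.eq_zero_or_pos u with h | h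
    · subst h
      have : 1 ≤ t ^ 2 := Nat.one_le_pow _ _ ht
      simp at hu
      omega
    · exact h
  have hb1 : 1 ≤ b := by omega
  have hMpos : (0 : ℝ) < M := by linarith
  have hkpos : (0 : ℝ) < k := by exact_mod_cast hk
  have hκ : (0 : ℝ) < 1 / (2 * M) := by positivity
  have hκ1 : 1 / (2 * M) ≤ (1 : ℝ) := by
    rw [div_le_one (by positivity)]; linarith
  have hbrq : b * r ≤ q := by nlinarith
  have hYpos : 0 < Y.card := card_pos.2 hY
  have hYposR : (0 : ℝ) < Y.card := by exact_mod_cast hYpos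
  obtain ⟨a, ha⟩ := all_blocks H φ k q b r u (1 / (2 * M)) X hX hk hκ hκ1 D hD (TS H X Y)
    hbrq hb1 hnumX b le_rfl
  have haX : ∀ i < b, ∀ j, a i j ⊆ X ∧ om H (a i j) ≤ k ∧ (a i j).card = k * φ :=
    fun i hi j => hD.supp _ ((ha i hi).1 j)
  have hZX : Zf a b ⊆ X := by
    intro x hx
    obtain ⟨i, hi, j, hj⟩ := mem_Zf.1 hx
    exact (haX i hi j).1 hj
  have hZc : (Zf a b).card ≤ q * (k * φ) := by
    have h1 : (Zf a b).card ≤ b * (r * (k * φ)) :=
      Zf_card (fun j hj l => ((haX j hj l).2.2).le)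
    refine h1.trans ?_
    rw [← mul_assoc]
    exact Nat.mul_le_mul_right _ hbrq
  obtain ⟨r', hr'⟩ : ∃ r', r' = q - b * r := ⟨_, rfl⟩
  have hr'q : b * r + r' = q := by omega
  have hr'2 : q ≤ 2 * r' := by
    have : 2 * (b * r) ≤ q := by rw [← mul_assoc]; exact hbr
    omega
  have hr'2R : (q : ℝ) / 2 ≤ r' := by
    have : (q : ℝ) ≤ 2 * r' := by exact_mod_cast hr'2
    linarith
  have hr'le : (r' : ℝ) ≤ q := by
    have : r' ≤ q := by omega
    exact_mod_cast this
  obtain ⟨B, hB1, hB2, -, hB4⟩ := one_block H φ k q r' u (1 / 8) ((q : ℝ) / 2) Y hY hk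
    (by norm_num) (by norm_num) D' hD' ∅ (Zf a b) (YS H Y) hr'2R (by omega) (by simp) hZc (by
      refine lt_of_le_of_lt ?_ hnumY
      have hpY : (0 : ℝ) ≤ 4 * ((k : ℝ) * φ) / Y.card := by positivity
      have e1 : (r' : ℝ) * ((q : ℝ) * ((k : ℝ) * φ)) + (r' : ℝ) ^ 2 * ((k : ℝ) * φ) ≤
          (q : ℝ) * ((q : ℝ) * ((k : ℝ) * φ)) + (q : ℝ) ^ 2 * ((k : ℝ) * φ) := by
        gcongr
      have := mul_le_mul_of_nonneg_right e1 hpY
      linarith)
  have hBY : ∀ j, B j ⊆ Y ∧ om H (B j) ≤ k ∧ (B j).card = k * φ :=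
    fun j => hD'.supp _ (hB1 j)
  -- the family
  obtain ⟨e⟩ : Nonempty (Fin q ≃ (Fin b × Fin r) ⊕ Fin r') := by
    apply Nonempty.intro
    apply Fintype.equivOfCardEq
    simp [hr'q]
  set G : (Fin b × Fin r) ⊕ Fin r' → Finset V := Sum.elim (fun p => a p.1 p.2) B with hG
  have hGdisj : ∀ z w, z ≠ w → Disjoint (G z) (G w) := by
    have hblk : ∀ (i j : Fin b) (l m : Fin r), (i : ℕ) < j → Disjoint (a i l) (a j m) := by
      intro i j l m hij
      refine Disjoint.symm (disjoint_of_subset_right ?_ ((ha j j.2).2.2.1 m))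
      intro x hx
      exact mem_Zf.2 ⟨i, hij, l, hx⟩
    rintro (⟨i, l⟩ | l) (⟨j, m⟩ | m) hne
    · simp only [hG, Sum.elim_inl]
      rcases lt_trichotomy (i : ℕ) j with h | h | h
      · exact hblk i j l m h
      · have hij : i = j := Fin.ext h
        subst hij
        apply (ha i i.2).2.1
        rintro rfl
        exact hne rfl
      · exact (hblk j i m l h).symm
    · simp only [hG, Sum.elim_inl, Sum.elim_inr]
      exact disjoint_of_subset_left (haX i i.2 l).1 (disjoint_of_subset_right (hBY m).1 hXY)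
    · simp only [hG, Sum.elim_inl, Sum.elim_inr]
      exact (disjoint_of_subset_left (haX j j.2 m).1
        (disjoint_of_subset_right (hBY l).1 hXY)).symm
    · simp only [hG, Sum.elim_inr]
      apply hB2
      rintro rfl
      exact hne rfl
  have hN := hN2 (fun i => G (e i)) (by
      intro i
      rcases h : e i with ⟨p⟩ | l
      · simp only [hG, Sum.elim_inl]
        exact ⟨Or.inl (haX p.1 p.1.2 p.2).1, (haX p.1 p.1.2 p.2).2⟩
      · simp only [hG, Sum.elim_inr]
        exact ⟨Or.inr (hBY l).1, (hBY l).2⟩)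
    (fun i j hij => hGdisj _ _ (fun h => hij (e.injective h)))
  obtain ⟨C, hCsub, hCcl, hCcard⟩ := exists_om H (Finset.univ.biUnion (fun i => G (e i)))
  rw [← hCcard] at hN
  -- decomposition of the clique
  have hCle : C.card ≤ ∑ i ∈ range b, ∑ j, (C ∩ a i j).card + ∑ j, (C ∩ B j).card := by
    have h1 : C ⊆ Finset.univ.biUnion (fun z => C ∩ G z) := by
      intro x hx
      obtain ⟨i, -, hi⟩ := mem_biUnion.1 (hCsub hx)
      exact mem_biUnion.2 ⟨e i, mem_univ _, mem_inter.2 ⟨hx, hi⟩⟩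
    calc C.card ≤ _ := card_le_card h1
      _ ≤ ∑ z, (C ∩ G z).card := card_biUnion_le
      _ = _ := by
        rw [Fintype.sum_sum_type, Fintype.sum_prod_type, Finset.sum_range]
        rfl
  have hcl : ∀ A : Finset V, H.IsClique ((C ∩ A : Finset V) : Set V) := by
    intro A
    exact hCcl.subset (by push_cast; exact Set.inter_subset_left)
  have hCa : ∀ i < b, ∀ j, (C ∩ a i j).card ≤ k := fun i hi j =>
    (le_om inter_subset_right (hcl _)).trans (haX i hi j).2.1
  have hCB : ∀ j, (C ∩ B j).card ≤ k := fun j =>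
    (le_om inter_subset_right (hcl _)).trans (hBY j).2.1
  have hNR : ((q : ℝ) - d) * k < C.card := by
    have h1 : (((q - d) * k : ℕ) : ℝ) < (C.card : ℝ) := by exact_mod_cast hN
    rw [Nat.cast_mul, Nat.cast_sub (by omega)] at h1
    exact h1
  have hqR : (q : ℝ) = b * r + r' := by exact_mod_cast hr'q.symm
  have hdR : 8 * (d : ℝ) ≤ q := by exact_mod_cast hd
  have hCleR : (C.card : ℝ) ≤ ∑ i ∈ range b, ∑ j, ((C ∩ a i j).card : ℝ) +
      ∑ j, ((C ∩ B j).card : ℝ) := by exact_mod_cast hCle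
  -- step 2
  have hstep2 : ∀ S ⊆ C ∩ Zf a b, S.card ≤ u → Y.card ≤ 16 * t ^ 2 * (YS H Y S).card := by
    intro S hS hSu
    have hSC : S ⊆ C := hS.trans inter_subset_left
    have hSZ : S ⊆ Zf a b := hS.trans inter_subset_right
    have h1 : ∀ j, ((C ∩ B j).card : ℝ) ≤ (om H (B j ∩ YS H Y S) : ℝ) := by
      intro j
      have h2 : C ∩ B j ⊆ B j ∩ YS H Y S := by
        intro y hy
        obtain ⟨hyC, hyB⟩ := mem_inter.1 hy
        refine mem_inter.2 ⟨hyB, ?_⟩
        simp only [YS, mem_filter]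
        refine ⟨(hBY j).1 hyB, fun x hx => ?_⟩
        apply hCcl (mem_coe.2 (hSC hx)) (mem_coe.2 hyC)
        rintro rfl
        exact (disjoint_left.1 hXY) (hZX (hSZ hx)) ((hBY j).1 hyB)
      exact_mod_cast le_om h2 (hcl _)
    have h3 := hB4 S hSZ hSu
    have h4 : ∑ i ∈ range b, ∑ j, ((C ∩ a i j).card : ℝ) ≤ b * (r * k) := by
      calc _ ≤ ∑ i ∈ range b, ((r : ℝ) * k) := by
            apply sum_le_sum
            intro i hi
            calc _ ≤ ∑ _j : Fin r, (k : ℝ) :=
                  sum_le_sum (fun j _ => by exact_mod_cast hCa i (mem_range.1 hi) j)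
              _ = (r : ℝ) * k := by simp
        _ = _ := by simp
    have h5 : ∑ j, ((C ∩ B j).card : ℝ) ≤ r' * k * (hit H k D' (YS H Y S) + 1 / 8) :=
      (sum_le_sum (fun j _ => h1 j)).trans h3
    have h6 := hit_le H φ k 4 hk Y hY D' hD' (YS H Y S)
    have h7 : YS H Y S ∩ Y = YS H Y S := by
      apply inter_eq_left.2
      intro y hy
      simp only [YS, mem_filter] at hy
      exact hy.1
    rw [h7] at h6
    set hh := hit H k D' (YS H Y S) with hhdef
    have h8 : ((q : ℝ) - d) * k < b * (r * k) + r' * k * (hh + 1 / 8) := by linarith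
    have h9 : (q : ℝ) - d < b * r + r' * (hh + 1 / 8) := by
      have : ((q : ℝ) - d) * k < (b * r + r' * (hh + 1 / 8)) * k := by linarith
      exact lt_of_mul_lt_mul_right this hkpos.le
    have h10 : 5 / 8 < hh := by
      by_contra hle
      push Not at hle
      have hr0 : (0 : ℝ) ≤ r' := by positivity
      have : (r' : ℝ) * (hh + 1 / 8) ≤ r' * (5 / 8 + 1 / 8) :=
        mul_le_mul_of_nonneg_left (by linarith) hr0
      have h11 : (r' : ℝ) - d < r' * (3 / 4) := by
        rw [hqR] at h9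
        linarith
      linarith
    have h12 : (5 / 8 : ℝ) * Y.card < 4 * φ * (YS H Y S).card := by
      have : (5 / 8 : ℝ) < 4 * φ * (((YS H Y S).card : ℝ) / Y.card) := lt_of_lt_of_le h10 h6
      rw [← mul_div_assoc, lt_div_iff₀ hYposR] at this
      exact this
    have h13 : (φ : ℝ) ≤ 2 * t ^ 2 := by exact_mod_cast hφt
    have h14 : (φ : ℝ) * (YS H Y S).card ≤ 2 * t ^ 2 * (YS H Y S).card :=
      mul_le_mul_of_nonneg_right h13 (by positivity)
    have h15 : (Y.card : ℝ) ≤ 16 * t ^ 2 * (YS H Y S).card := by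
      have : (0 : ℝ) ≤ (t : ℝ) ^ 2 * (YS H Y S).card := by positivity
      nlinarith
    exact_mod_cast h15
  -- step 3
  have hgreedy : ∀ n ≤ b, ∃ S ⊆ C ∩ Zf a n, S.card ≤ u ∧
      (S = ∅ ∨ 2 ^ S.card * (YS H Y S).card < Y.card) ∧
      ∑ i ∈ range n, ∑ j, ((C ∩ a i j).card : ℝ) ≤
        n * (r * k) - (n - S.card) * (r * k / (2 * M)) := by
    intro n
    induction n with
    | zero =>
      intro _
      refine ⟨∅, by simp, by simp, Or.inl rfl, by simp⟩
    | succ n ih =>
      intro hn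
      obtain ⟨S, hS, hSu, hSs, hSb⟩ := ih (by omega)
      have hSb' : S ⊆ C ∩ Zf a b :=
        hS.trans (inter_subset_inter_left (Zf_mono (by omega)))
      have hY16 := hstep2 S hSb' hSu
      have hlt : S.card < u := by
        rcases hSs with rfl | hlt
        · rw [card_empty]; exact hu0
        · by_contra hge
          push Not at hge
          have h1 : Y.card ≤ 2 ^ u * (YS H Y S).card :=
            hY16.trans (Nat.mul_le_mul_right _ hu)
          have h2 : 2 ^ u * (YS H Y S).card ≤ 2 ^ S.card * (YS H Y S).card :=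
            Nat.mul_le_mul_right _ (Nat.pow_le_pow_right (by norm_num) hge)
          omega
      have hweak : 2 ^ S.card * (YS H Y S).card ≤ Y.card := by
        rcases hSs with rfl | hlt
        · simp [YS_empty]
        · exact hlt.le
      obtain ⟨hn1, hn2, hn3, hn4⟩ := ha n (by omega)
      by_cases hcase : ∀ j, C ∩ a n j ⊆ TS H X Y S
      · refine ⟨S, hS.trans (inter_subset_inter_left (Zf_mono (by omega))), hSu, hSs, ?_⟩
        rw [sum_range_succ]
        have h1 : ∑ j, ((C ∩ a n j).card : ℝ) ≤ r * k * (hit H k D (TS H X Y S) + 1 / (2 * M)) := by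
          refine (sum_le_sum (fun j _ => ?_)).trans (hn4 S (hS.trans inter_subset_right) hSu)
          have : C ∩ a n j ⊆ a n j ∩ TS H X Y S :=
            subset_inter inter_subset_right (hcase j)
          exact_mod_cast le_om this (hcl _)
        have h2 : hit H k D (TS H X Y S) < 1 - 1 / M := by
          apply hcon
          · intro x hx
            simp only [TS, mem_filter] at hx
            exact hx.1
          · exact hstar (YS H Y S) (by
              intro y hy
              simp only [YS, mem_filter] at hy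
              exact hy.1) hY16
        have h3 : (1 : ℝ) / M = 2 * (1 / (2 * M)) := by field_simp
        have h4 : (r : ℝ) * k * (hit H k D (TS H X Y S) + 1 / (2 * M)) ≤
            r * k * (1 - 1 / (2 * M)) := by
          apply mul_le_mul_of_nonneg_left _ (by positivity)
          rw [h3] at h2
          linarith
        have h5 : (r : ℝ) * k * (1 - 1 / (2 * M)) = r * k - r * k / (2 * M) := by ring
        push_cast
        rw [h5] at h4
        linarith
      · push Not at hcase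
        obtain ⟨j, hj⟩ := hcase
        obtain ⟨x, hx, hxT⟩ := not_subset.1 hj
        obtain ⟨hxC, hxa⟩ := mem_inter.1 hx
        have hxX : x ∈ X := (haX n (by omega) j).1 hxa
        have hxS : x ∉ S := by
          intro hxS
          exact (disjoint_left.1 (hn3 j)) hxa (mem_inter.1 (hS hxS)).2
        have hnb : 2 * (nb H x (YS H Y S)).card < (YS H Y S).card := by
          by_contra hge
          push Not at hge
          exact hxT (by simp only [TS, mem_filter]; exact ⟨hxX, hge⟩)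
        refine ⟨insert x S, ?_, ?_, Or.inr ?_, ?_⟩
        · intro y hy
          rcases mem_insert.1 hy with rfl | hy
          · exact mem_inter.2 ⟨hxC, mem_Zf.2 ⟨n, by omega, j, hxa⟩⟩
          · exact inter_subset_inter_left (Zf_mono (by omega)) (hS hy)
        · rw [card_insert_of_notMem hxS]; omega
        · rw [card_insert_of_notMem hxS, YS_insert, pow_succ, mul_assoc]
          calc 2 ^ S.card * (2 * (nb H x (YS H Y S)).card)
              < 2 ^ S.card * (YS H Y S).card :=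
                Nat.mul_lt_mul_of_pos_left hnb (by positivity)
            _ ≤ Y.card := hweak
        · rw [sum_range_succ, card_insert_of_notMem hxS]
          have h1 : ∑ j, ((C ∩ a n j).card : ℝ) ≤ r * k := by
            calc _ ≤ ∑ _j : Fin r, (k : ℝ) :=
                  sum_le_sum (fun j _ => by exact_mod_cast hCa n (by omega) j)
              _ = (r : ℝ) * k := by simp
          push_cast
          linarith
  obtain ⟨S, -, hSu, -, hSb⟩ := hgreedy b le_rfl
  have hBk : ∑ j, ((C ∩ B j).card : ℝ) ≤ r' * k := by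
    calc _ ≤ ∑ _j : Fin r', (k : ℝ) := sum_le_sum (fun j _ => by exact_mod_cast hCB j)
      _ = (r' : ℝ) * k := by simp
  have hbu : (b : ℝ) / 2 ≤ b - S.card := by
    have h1 : 2 * (u : ℝ) ≤ b := by exact_mod_cast hb
    have h2 : (S.card : ℝ) ≤ u := by exact_mod_cast hSu
    linarith
  have hfin1 : (b : ℝ) / 2 * (r * k / (2 * M)) ≤ (b - S.card) * (r * k / (2 * M)) :=
    mul_le_mul_of_nonneg_right hbu (by positivity)
  have hfin2 : (b : ℝ) / 2 * (r * k / (2 * M)) = (b * r / (4 * M)) * k := by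
    field_simp
    ring
  have hfin3 : (d : ℝ) ≤ b * r / (4 * M) := by
    rw [le_div_iff₀ (by positivity)]
    linarith
  have hfin4 : (d : ℝ) * k ≤ (b * r / (4 * M)) * k := mul_le_mul_of_nonneg_right hfin3 hkpos.le
  have hfin5 : (C.card : ℝ) ≤ b * (r * k) - d * k + r' * k := by linarith
  rw [hqR] at hNR
  nlinarith

end LR
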