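import Pool.Agent.LR.G2

set_option autoImplicit false
set_option linter.unusedSectionVars false

open Finset

namespace LR

variable {V : Type} [Fintype V] [DecidableEq V]

theorem IsD_two_four (H : SimpleGraph V) (φ k : ℕ) (Q : Finset V) (D : Finset V → ℝ)
    (hD : IsD H φ k 2 Q D) : IsD H φ k 4 Q D where
  nonneg := hD.nonneg
  sum_one := hD.sum_one
  supp := hD.supp
  marg := fun x hx => by
    have h := hD.marg x hx
    have h2 : (0 : ℝ) ≤ (k : ℝ) * φ := by positivity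
    linarith

/-- TARGET -/
theorem exists_node {Λ : Type} [Fintype Λ] (Hs : Λ → SimpleGraph V) (φs ks : Λ → ℕ) (t : ℕ)
    (M τ β γ N1 : ℝ) (ht : 1 ≤ t) (hM : 0 ≤ M) (hks : ∀ l, 1 ≤ ks l) (hτ : 0 ≤ τ)
    (hτ1 : τ ≤ 1 / 2) (hβ : 0 < β) (hβ1 : β ≤ 1) (hγ : 0 < γ) (hN1 : 1 ≤ N1) (V0 : Finset V)
    (hex : ∀ Q ⊆ V0, N1 ≤ (Q.card : ℝ) → ∀ l, ∃ D, IsD (Hs l) (φs l) (ks l) 2 Q D)
    (hsize : N1 ≤ β * (Real.exp (-((Fintype.card Λ : ℝ) * (M + 1 + 2 * Real.log t) / γ)) *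
      V0.card)) :
    ∃ V' ⊆ V0, Real.exp (-((Fintype.card Λ : ℝ) * (M + 1 + 2 * Real.log t) / γ)) * V0.card ≤
        (V'.card : ℝ) ∧
      ∀ l, StabAt (Hs l) (φs l) (ks l) t M β τ
        (γ * Real.log (1 / β) + (Fintype.card Λ : ℝ) * (τ * (1 + 2 * M))) V' := by
  classical
  have hlogt : 0 ≤ Real.log t := Real.log_nonneg (by exact_mod_cast ht)
  have hK0 : 0 ≤ (Fintype.card Λ : ℝ) * (M + 1 + 2 * Real.log t) / γ := by positivity
  set K : ℝ := (Fintype.card Λ : ℝ) * (M + 1 + 2 * Real.log t) / γ with hK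
  have hexp1 : Real.exp (-K) ≤ 1 := Real.exp_le_one_iff.mpr (by linarith)
  have hexp0 : 0 < Real.exp (-K) := Real.exp_pos _
  have hV0c : N1 ≤ (V0.card : ℝ) := by
    have h0 : (0 : ℝ) ≤ (V0.card : ℝ) := by positivity
    have h1 : Real.exp (-K) * V0.card ≤ 1 * V0.card := mul_le_mul_of_nonneg_right hexp1 h0
    have h2 : β * (Real.exp (-K) * V0.card) ≤ 1 * (Real.exp (-K) * V0.card) :=
      mul_le_mul_of_nonneg_right hβ1 (by positivity)
    linarith
  -- bounds for J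
  have hJge : ∀ Q ⊆ V0, N1 ≤ (Q.card : ℝ) → ∀ l, -2 * Real.log t ≤ J (Hs l) (φs l) (ks l) t M Q := by
    intro Q hQ hQc l
    obtain ⟨D, hD⟩ := hex Q hQ hQc l
    exact J_ge _ _ _ _ _ ht hM (hks l) Q ⟨D, IsD_two_four _ _ _ _ _ hD⟩
  have hJle : ∀ Q ⊆ V0, N1 ≤ (Q.card : ℝ) → ∀ l, J (Hs l) (φs l) (ks l) t M Q ≤ M + 1 := by
    intro Q hQ hQc l
    obtain ⟨D, hD⟩ := hex Q hQ hQc l
    exact J_le _ _ _ _ _ ht hM Q ⟨D, IsD_two_four _ _ _ _ _ hD⟩ _
      (fun D' hD' => valD_le _ _ _ _ ht hM Q D' hD'.nonneg)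
  -- the minimiser
  have hne : (V0.powerset.filter (fun Q : Finset V => N1 ≤ (Q.card : ℝ))).Nonempty :=
    ⟨V0, by simp [hV0c]⟩
  obtain ⟨V', hV'mem, hV'min⟩ := Finset.exists_min_image _
    (fun Q : Finset V => (∑ l, J (Hs l) (φs l) (ks l) t M Q) - γ * Real.log (Q.card : ℝ)) hne
  rw [Finset.mem_filter, Finset.mem_powerset] at hV'mem
  obtain ⟨hV'sub, hV'c⟩ := hV'mem
  have hmin : ∀ Q ⊆ V0, N1 ≤ (Q.card : ℝ) →
      (∑ l, J (Hs l) (φs l) (ks l) t M V') - γ * Real.log (V'.card : ℝ) ≤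
      (∑ l, J (Hs l) (φs l) (ks l) t M Q) - γ * Real.log (Q.card : ℝ) := by
    intro Q hQ hQc
    exact hV'min Q (by rw [Finset.mem_filter, Finset.mem_powerset]; exact ⟨hQ, hQc⟩)
  have hV'pos : (0 : ℝ) < (V'.card : ℝ) := by linarith
  have hV0pos : (0 : ℝ) < (V0.card : ℝ) := by linarith
  have hsz : Real.exp (-K) * V0.card ≤ (V'.card : ℝ) := by
    have h1 := hmin V0 (Finset.Subset.refl _) hV0c
    have h2 : (∑ l, J (Hs l) (φs l) (ks l) t M V0) ≤ (Fintype.card Λ : ℝ) * (M + 1) := by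
      calc (∑ l, J (Hs l) (φs l) (ks l) t M V0) ≤ ∑ _l : Λ, (M + 1) :=
            Finset.sum_le_sum (fun l _ => hJle V0 (Finset.Subset.refl _) hV0c l)
        _ = (Fintype.card Λ : ℝ) * (M + 1) := by
            rw [Finset.sum_const, Finset.card_univ, nsmul_eq_mul]
    have h3 : (Fintype.card Λ : ℝ) * (-2 * Real.log t) ≤ ∑ l, J (Hs l) (φs l) (ks l) t M V' := by
      calc (Fintype.card Λ : ℝ) * (-2 * Real.log t) = ∑ _l : Λ, (-2 * Real.log t) := by
            rw [Finset.sum_const, Finset.card_univ, nsmul_eq_mul]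
        _ ≤ _ := Finset.sum_le_sum (fun l _ => hJge V' hV'sub hV'c l)
    have h4 : γ * Real.log (V0.card : ℝ) - γ * Real.log (V'.card : ℝ) ≤ γ * K := by
      have : γ * K = (Fintype.card Λ : ℝ) * (M + 1 + 2 * Real.log t) := by
        rw [hK]; field_simp
      rw [this]
      linarith
    have h5 : Real.log (V0.card : ℝ) - K ≤ Real.log (V'.card : ℝ) := by
      have : γ * (Real.log (V0.card : ℝ) - K) ≤ γ * Real.log (V'.card : ℝ) := by linarith
      exact le_of_mul_le_mul_left this hγ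
    have h6 := Real.exp_le_exp.mpr h5
    rw [Real.exp_log hV'pos, sub_eq_neg_add, Real.exp_add, Real.exp_log hV0pos] at h6
    exact h6
  refine ⟨V', hV'sub, hsz, ?_⟩
  intro l ι _ w Qs hw hw1 hsub hmarg
  have hQN : ∀ j, w j ≠ 0 → N1 ≤ ((Qs j).card : ℝ) := by
    intro j hj
    have h1 := (hsub j hj).2
    have h2 : β * (Real.exp (-K) * V0.card) ≤ β * (V'.card : ℝ) :=
      mul_le_mul_of_nonneg_left hsz hβ.le
    linarith
  have hQsub : ∀ j, w j ≠ 0 → Qs j ⊆ V0 := fun j hj => (hsub j hj).1.trans hV'sub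
  have hV'ne : V'.Nonempty := by
    rw [← Finset.card_pos]
    exact_mod_cast hV'pos
  -- the sum over all levels
  have hpt : ∀ j, w j * (∑ l, J (Hs l) (φs l) (ks l) t M V') ≤
      w j * ((∑ l, J (Hs l) (φs l) (ks l) t M (Qs j)) + γ * Real.log (1 / β)) := by
    intro j
    by_cases hj : w j = 0
    · rw [hj, zero_mul, zero_mul]
    · apply mul_le_mul_of_nonneg_left _ (hw j)
      have h1 := hmin (Qs j) (hQsub j hj) (hQN j hj)
      have h2 : Real.log β + Real.log (V'.card : ℝ) ≤ Real.log ((Qs j).card : ℝ) := by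
        rw [← Real.log_mul hβ.ne' hV'pos.ne']
        exact Real.log_le_log (by positivity) (hsub j hj).2
      have h3 : Real.log (1 / β) = -Real.log β := by
        rw [one_div, Real.log_inv]
      have h4 : γ * (Real.log β + Real.log (V'.card : ℝ)) ≤ γ * Real.log ((Qs j).card : ℝ) :=
        mul_le_mul_of_nonneg_left h2 hγ.le
      rw [h3]
      linarith
  have hsum : (∑ l, J (Hs l) (φs l) (ks l) t M V') ≤
      (∑ l, ∑ j, w j * J (Hs l) (φs l) (ks l) t M (Qs j)) + γ * Real.log (1 / β) := by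
    have h1 := Finset.sum_le_sum (fun j (_ : j ∈ (Finset.univ : Finset ι)) => hpt j)
    rw [← Finset.sum_mul, hw1, one_mul] at h1
    refine h1.trans (le_of_eq ?_)
    have h2 : ∀ j, w j * ((∑ l, J (Hs l) (φs l) (ks l) t M (Qs j)) + γ * Real.log (1 / β)) =
        (∑ l, w j * J (Hs l) (φs l) (ks l) t M (Qs j)) + w j * (γ * Real.log (1 / β)) := by
      intro j
      rw [mul_add, Finset.mul_sum]
    rw [Finset.sum_congr rfl (fun j _ => h2 j), Finset.sum_add_distrib, ← Finset.sum_mul, hw1,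
      one_mul, Finset.sum_comm]
  have hsup : ∀ l', ∑ j, w j * J (Hs l') (φs l') (ks l') t M (Qs j) ≤
      J (Hs l') (φs l') (ks l') t M V' + τ * (1 + 2 * M) := by
    intro l'
    refine J_super (Hs l') (φs l') (ks l') t M ht hM (hks l') V' hV'ne w Qs τ hτ hτ1 hw hw1 ?_
      hmarg (hex V' hV'sub hV'c l')
    intro j hj
    refine ⟨(hsub j hj).1, ?_, ?_⟩
    · rw [← Finset.card_pos]
      have : (0 : ℝ) < ((Qs j).card : ℝ) := by linarith [hQN j hj]
      exact_mod_cast this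
    · obtain ⟨D, hD⟩ := hex (Qs j) (hQsub j hj) (hQN j hj) l'
      exact ⟨D, IsD_two_four _ _ _ _ _ hD⟩
  have hfin := Finset.single_le_sum
    (f := fun l' => J (Hs l') (φs l') (ks l') t M V' + τ * (1 + 2 * M)
      - ∑ j, w j * J (Hs l') (φs l') (ks l') t M (Qs j))
    (s := (Finset.univ : Finset Λ)) (fun l' _ => by linarith [hsup l']) (Finset.mem_univ l)
  rw [Finset.sum_sub_distrib, Finset.sum_add_distrib, Finset.sum_const, Finset.card_univ,
    nsmul_eq_mul] at hfin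
  have hc0 : 0 ≤ τ * (1 + 2 * M) := by positivity
  linarith

end LR
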