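import Pool.Agent.LR.F1

set_option autoImplicit false
set_option linter.unusedSectionVars false

open Finset

namespace LR

variable {V : Type} [Fintype V] [DecidableEq V]

/-- TARGET 1: greedy decomposition -/
theorem greedy_parts (W : Finset V) (good : Finset V → Prop) (s : ℕ)
    (hs : ∀ R ⊆ W, s ≤ R.card → ∃ X ⊆ R, X.Nonempty ∧ good X) :
    ∃ (n : ℕ) (X : Fin n → Finset V), (∀ i, X i ⊆ W ∧ (X i).Nonempty ∧ good (X i)) ∧
      (∀ i j, i ≠ j → Disjoint (X i) (X j)) ∧
      (W \ Finset.univ.biUnion X).card < s := by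
  induction W using Finset.strongInduction with
  | H W ih =>
    by_cases hW : W.card < s
    · refine ⟨0, Fin.elim0, fun i => i.elim0, fun i => i.elim0, ?_⟩
      have h0 : (Finset.univ : Finset (Fin 0)).biUnion (Fin.elim0 : Fin 0 → Finset V) = ∅ := by
        simp
      rw [h0]; simpa using hW
    · obtain ⟨X0, hX0, hne, hg⟩ := hs W Subset.rfl (by omega)
      obtain ⟨n, X, h1, h2, h3⟩ := ih (W \ X0) (sdiff_ssubset hX0 hne)
        (fun R hR => hs R (hR.trans sdiff_subset))
      have hd : ∀ i, Disjoint X0 (X i) := fun i =>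
        disjoint_of_subset_right (h1 i).1 disjoint_sdiff
      refine ⟨n + 1, Fin.cons X0 X, ?_, ?_, ?_⟩
      · intro i
        refine Fin.cases ?_ (fun i => ?_) i
        · simpa using ⟨hX0, hne, hg⟩
        · simpa using ⟨(h1 i).1.trans sdiff_subset, (h1 i).2.1, (h1 i).2.2⟩
      · intro i j
        refine Fin.cases ?_ (fun i => ?_) i
        · refine Fin.cases ?_ (fun j => ?_) j
          · intro h; exact absurd rfl h
          · intro _; simpa using hd j
        · refine Fin.cases ?_ (fun j => ?_) j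
          · intro _; simpa using (hd i).symm
          · intro h
            have hij : i ≠ j := fun he => h (by rw [he])
            simpa using h2 i j hij
      · have hE : W \ (Finset.univ : Finset (Fin (n + 1))).biUnion
            (Fin.cons X0 X : Fin (n + 1) → Finset V) =
            (W \ X0) \ Finset.univ.biUnion X := by
          ext x
          simp only [mem_sdiff, mem_biUnion, mem_univ, true_and, Fin.exists_fin_succ,
            Fin.cons_zero, Fin.cons_succ, not_or, not_exists]
          tauto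
        rw [hE]; exact h3

/-- TARGET 2 -/
theorem J_small (H : SimpleGraph V) (φ k t : ℕ) (M β τ ε v : ℝ) (ht : 1 ≤ t) (hM : 0 ≤ M)
    (hk : 1 ≤ k) (hτ : 0 ≤ τ) (hβ : 0 < β) (V' : Finset V) (hV' : V'.Nonempty)
    (hstab : StabAt H φ k t M β τ ε V')
    (hex : ∀ Q ⊆ V', β * (V'.card : ℝ) ≤ Q.card → ∃ D, IsD H φ k 4 Q D)
    (s : ℕ) (hs1 : 1 ≤ s) (hsβ : β * (V'.card : ℝ) ≤ s) (hsV : s ≤ V'.card)
    (hv : v ≤ M + 1)
    (hs : ∀ R ⊆ V', s ≤ R.card → ∃ X ⊆ R, X.Nonempty ∧ β * (V'.card : ℝ) ≤ X.card ∧
      J H φ k t M X ≤ v) :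
    J H φ k t M V' ≤ v + (2 * s / V'.card) * (M + 1 - v) + ε := by
  classical
  have hVpos : (0 : ℝ) < (V'.card : ℝ) := by exact_mod_cast hV'.card_pos
  obtain ⟨R0, hR0, hR0c⟩ := exists_subset_card_eq hsV
  obtain ⟨n, X, h1, h2, h3⟩ := greedy_parts (V' \ R0)
    (fun X => β * (V'.card : ℝ) ≤ X.card ∧ J H φ k t M X ≤ v) s
    (fun R hR hRs => by
      obtain ⟨X, hX, hX1, hX2, hX3⟩ := hs R (hR.trans sdiff_subset) hRs
      exact ⟨X, hX, hX1, hX2, hX3⟩)
  obtain ⟨Rest, hRest⟩ : ∃ R : Finset V, R = V' \ Finset.univ.biUnion X := ⟨_, rfl⟩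
  have hXV : ∀ i, X i ⊆ V' := fun i => (h1 i).1.trans sdiff_subset
  have hUV : Finset.univ.biUnion X ⊆ V' := by
    intro x hx
    obtain ⟨i, _, hi⟩ := mem_biUnion.1 hx
    exact hXV i hi
  have hRV : Rest ⊆ V' := by rw [hRest]; exact sdiff_subset
  have hRR : R0 ⊆ Rest := by
    intro x hx
    rw [hRest, mem_sdiff]
    refine ⟨hR0 hx, fun hx2 => ?_⟩
    obtain ⟨i, _, hi⟩ := mem_biUnion.1 hx2
    exact (mem_sdiff.1 ((h1 i).1 hi)).2 hx
  have hRc1 : s ≤ Rest.card := by rw [← hR0c]; exact card_le_card hRR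
  have hRc2 : Rest.card ≤ 2 * s := by
    have hsub : Rest ⊆ R0 ∪ ((V' \ R0) \ Finset.univ.biUnion X) := by
      intro x hx
      rw [hRest, mem_sdiff] at hx
      rw [mem_union, mem_sdiff, mem_sdiff]
      by_cases hx0 : x ∈ R0
      · exact Or.inl hx0
      · exact Or.inr ⟨⟨hx.1, hx0⟩, hx.2⟩
    have := (card_le_card hsub).trans (card_union_le _ _)
    omega
  have hRpos : 0 < Rest.card := by omega
  -- cardinalities
  have hcardU : (Finset.univ.biUnion X).card = ∑ i, (X i).card :=
    card_biUnion (fun i _ j _ hij => h2 i j hij)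
  have hcardV : (V'.card : ℝ) = (Rest.card : ℝ) + ∑ i, ((X i).card : ℝ) := by
    have h4 : Rest.card + (Finset.univ.biUnion X).card = V'.card := by
      rw [hRest]; exact card_sdiff_add_card_eq_card hUV
    rw [← h4, hcardU]; push_cast; ring
  -- the mixture
  obtain ⟨Qs, hQs⟩ : ∃ Qs : Option (Fin n) → Finset V,
    Qs = fun j => Option.elim j Rest X := ⟨_, rfl⟩
  have hQn : Qs none = Rest := by rw [hQs]; rfl
  have hQso : ∀ i, Qs (some i) = X i := fun i => by rw [hQs]; rfl
  have hst := hstab (Option (Fin n)) (fun j => ((Qs j).card : ℝ) / V'.card) Qs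
    (fun j => by positivity)
    (by
      rw [← Finset.sum_div, Fintype.sum_option, hQn]
      simp only [hQso]
      rw [← hcardV, div_self hVpos.ne'])
    (by
      intro j _
      cases j with
      | none =>
        rw [hQn]
        exact ⟨hRV, hsβ.trans (by exact_mod_cast hRc1)⟩
      | some i =>
        rw [hQso]
        exact ⟨hXV i, (h1 i).2.2.1⟩)
    (by
      intro x hx
      have hdisj : ∀ j j', j ≠ j' → Disjoint (Qs j) (Qs j') := by
        have hd0 : ∀ i, Disjoint Rest (X i) := by
          intro i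
          rw [hRest]
          exact disjoint_of_subset_right (subset_biUnion_of_mem X (mem_univ i)) sdiff_disjoint
        intro j j' hjj
        cases j with
        | none =>
          cases j' with
          | none => exact absurd rfl hjj
          | some i => rw [hQn, hQso]; exact hd0 i
        | some i =>
          cases j' with
          | none => rw [hQn, hQso]; exact (hd0 i).symm
          | some i' =>
            rw [hQso, hQso]
            exact h2 i i' (fun h => hjj (by rw [h]))
      have hb : (∑ j, if x ∈ Qs j then ((Qs j).card : ℝ) / V'.card / ((Qs j).card : ℝ) else 0) ≤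
          1 / (V'.card : ℝ) := by
        have he : (∑ j, if x ∈ Qs j then ((Qs j).card : ℝ) / V'.card / ((Qs j).card : ℝ) else 0) =
            ∑ j ∈ Finset.univ.filter (fun j => x ∈ Qs j), 1 / (V'.card : ℝ) := by
          rw [Finset.sum_filter]
          apply Finset.sum_congr rfl
          intro j _
          split_ifs with hxj
          · have hpos : (0 : ℝ) < ((Qs j).card : ℝ) := by
              exact_mod_cast card_pos.2 ⟨x, hxj⟩
            field_simp
          · rfl
        rw [he, sum_const, nsmul_eq_mul]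
        have hc : (Finset.univ.filter (fun j => x ∈ Qs j)).card ≤ 1 := by
          rw [card_le_one]
          intro a ha b hb
          by_contra hab
          exact Finset.disjoint_left.1 (hdisj a b hab) (mem_filter.1 ha).2 (mem_filter.1 hb).2
        have hc' : ((Finset.univ.filter (fun j => x ∈ Qs j)).card : ℝ) ≤ 1 := by exact_mod_cast hc
        have hp : (0 : ℝ) ≤ 1 / (V'.card : ℝ) := by positivity
        nlinarith [mul_le_mul_of_nonneg_right hc' hp]
      refine hb.trans ?_
      apply div_le_div_of_nonneg_right _ hVpos.le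
      linarith)
  rw [Fintype.sum_option, hQn] at hst
  simp only [hQso] at hst
  have hJR : J H φ k t M Rest ≤ M + 1 := by
    apply J_le H φ k t M ht hM Rest
      (hex Rest hRV (hsβ.trans (by exact_mod_cast hRc1)))
    intro D hD
    exact valD_le H k t M ht hM Rest D hD.nonneg
  have hs1' : ∑ i, ((X i).card : ℝ) / V'.card * J H φ k t M (X i) ≤
      ∑ i, ((X i).card : ℝ) / V'.card * v := by
    apply Finset.sum_le_sum
    intro i _
    exact mul_le_mul_of_nonneg_left (h1 i).2.2.2 (by positivity)
  rw [← Finset.sum_mul, ← Finset.sum_div] at hs1'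
  have hs2 : (∑ i, ((X i).card : ℝ)) / V'.card = 1 - (Rest.card : ℝ) / V'.card := by
    have : ∑ i, ((X i).card : ℝ) = V'.card - Rest.card := by linarith
    rw [this, sub_div, div_self hVpos.ne']
  rw [hs2] at hs1'
  have hw0 : (0 : ℝ) ≤ (Rest.card : ℝ) / V'.card := by positivity
  have hs3 : (Rest.card : ℝ) / V'.card * J H φ k t M Rest ≤ (Rest.card : ℝ) / V'.card * (M + 1) :=
    mul_le_mul_of_nonneg_left hJR hw0
  have hw1 : (Rest.card : ℝ) / V'.card ≤ 2 * s / V'.card := by
    apply div_le_div_of_nonneg_right _ hVpos.le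
    exact_mod_cast hRc2
  have hs4 : (Rest.card : ℝ) / V'.card * (M + 1 - v) ≤ (2 * s / V'.card) * (M + 1 - v) :=
    mul_le_mul_of_nonneg_right hw1 (by linarith)
  nlinarith [hst, hs1', hs3, hs4]


end LR
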