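import Pool.Agent.LR.Params

set_option autoImplicit false

open Finset

namespace LR.NumA


/-- TARGET -/
theorem num_a : ∀ᶠ t : ℕ in Filter.atTop, 1000 ≤ t ∧ 1 ≤ qq t ∧ 3 ≤ WW t ∧ 1 ≤ nn t ∧
    nn t * WW t ≤ LL t ∧ 8 * (qq t) ^ (LL t) ≤ t ∧ qq t ≤ t ∧ 1 ≤ MM t := by
  have hT : Filter.Tendsto TT Filter.atTop Filter.atTop :=
    Real.tendsto_log_atTop.comp tendsto_natCast_atTop_atTop
  have hl : Filter.Tendsto ll Filter.atTop Filter.atTop := Real.tendsto_log_atTop.comp hT
  filter_upwards [hT.eventually_ge_atTop 14, hl.eventually_ge_atTop 2,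
    Filter.eventually_ge_atTop 1000] with t hT14 hl2 ht
  have ht0 : (0 : ℝ) < t := by
    have : (1000 : ℝ) ≤ t := by exact_mod_cast ht
    linarith
  have hexp : Real.exp (TT t) = t := Real.exp_log ht0
  have hT0 : 0 ≤ TT t := by linarith
  have hl0 : 0 < ll t := by linarith
  have hl1 : 1 ≤ ll t := by linarith
  have hW3 : 3 ≤ WW t := by
    apply Nat.le_floor
    push_cast
    nlinarith
  have hWL : WW t ≤ LL t := by
    apply Nat.floor_mono
    exact pow_le_pow_right₀ hl1 (by norm_num)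
  have hq : (qq t : ℝ) ≤ Real.exp (TT t / (ll t) ^ 10) := Nat.floor_le (Real.exp_pos _).le
  have hL : (LL t : ℝ) ≤ (ll t) ^ 9 := Nat.floor_le (by positivity)
  refine ⟨ht, ?_, hW3, ?_, Nat.div_mul_le_self _ _, ?_, ?_, ?_⟩
  · apply Nat.le_floor
    push_cast
    exact Real.one_le_exp (by positivity)
  · exact Nat.div_pos hWL (by omega)
  · have h1 : ((8 * (qq t) ^ (LL t) : ℕ) : ℝ) ≤ (t : ℝ) := by
      push_cast
      have h2 : (qq t : ℝ) ^ (LL t) ≤ Real.exp (TT t / 2) := by
        calc (qq t : ℝ) ^ (LL t) ≤ (Real.exp (TT t / (ll t) ^ 10)) ^ (LL t) :=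
              pow_le_pow_left₀ (Nat.cast_nonneg _) hq _
          _ = Real.exp (LL t * (TT t / (ll t) ^ 10)) := by rw [← Real.exp_nat_mul]
          _ ≤ Real.exp (TT t / 2) := by
              apply Real.exp_le_exp.mpr
              calc (LL t : ℝ) * (TT t / (ll t) ^ 10) ≤ (ll t) ^ 9 * (TT t / (ll t) ^ 10) :=
                    mul_le_mul_of_nonneg_right hL (by positivity)
                _ = TT t / ll t := by field_simp
                _ ≤ TT t / 2 := div_le_div_of_nonneg_left hT0 (by norm_num) hl2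
      have h3 : (8 : ℝ) ≤ Real.exp (TT t / 2) := by
        have := Real.add_one_le_exp (TT t / 2)
        linarith
      calc 8 * (qq t : ℝ) ^ (LL t) ≤ Real.exp (TT t / 2) * Real.exp (TT t / 2) :=
            mul_le_mul h3 h2 (by positivity) (by positivity)
        _ = t := by rw [← Real.exp_add, add_halves, hexp]
    exact_mod_cast h1
  · have h1 : (qq t : ℝ) ≤ (t : ℝ) := by
      refine hq.trans ?_
      rw [← hexp]
      apply Real.exp_le_exp.mpr
      exact div_le_self hT0 (one_le_pow₀ hl1)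
    exact_mod_cast h1
  · exact one_le_pow₀ hl1

end LR.NumA
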