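import Pool.Agent.LR.Params

set_option autoImplicit false

open Finset

namespace LR.NumB


theorem j9814_exp (n : ℕ) (C : ℝ) : ∀ᶠ x : ℝ in Filter.atTop, C * x ^ n ≤ Real.exp x := by
  have h := (Real.tendsto_exp_div_pow_atTop n).eventually (Filter.eventually_ge_atTop C)
  filter_upwards [h, Filter.eventually_gt_atTop 0] with x hx hx0
  rwa [le_div_iff₀ (by positivity)] at hx

/-- TARGET -/
theorem num_b : ∀ᶠ t : ℕ in Filter.atTop, 0 < delS t ∧ (LL t : ℝ) * delS t ≤ 1 / 20 ∧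
    4 * (WW t : ℝ) * delS t + del1 t ≤ 1 / 20 ∧ 0 < del1 t ∧ 0 < gamS t ∧
    6 * ((LL t : ℝ) + 1) * Real.log t / gamS t ≤ (t : ℝ) / 10 := by
  have hT : Filter.Tendsto TT Filter.atTop Filter.atTop :=
    Real.tendsto_log_atTop.comp tendsto_natCast_atTop_atTop
  have hx : Filter.Tendsto ll Filter.atTop Filter.atTop := Real.tendsto_log_atTop.comp hT
  filter_upwards [hT.eventually (Filter.eventually_ge_atTop 1), hT.eventually (j9814_exp 3 1),
    hx.eventually (Filter.eventually_ge_atTop 40), hx.eventually (j9814_exp 10 1000),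
    Filter.eventually_gt_atTop 0] with t h1 h2 h3 h4 h5
  have ht0 : (0 : ℝ) < t := by exact_mod_cast h5
  have hT0 : 0 < TT t := by linarith
  have hx0 : 0 < ll t := by linarith
  have eT : Real.exp (TT t) = t := Real.exp_log ht0
  have eX : Real.exp (ll t) = TT t := Real.exp_log hT0
  rw [eT, one_mul] at h2
  rw [eX] at h4
  set T := TT t with hTd
  set x := ll t with hxd
  have hL : (LL t : ℝ) ≤ x ^ 9 := Nat.floor_le (by positivity)
  have hW : (WW t : ℝ) ≤ x ^ 2 := Nat.floor_le (by positivity)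
  have hL0 : (0 : ℝ) ≤ LL t := Nat.cast_nonneg _
  have hW0 : (0 : ℝ) ≤ WW t := Nat.cast_nonneg _
  have hlog4 : 0 < Real.log 4 := Real.log_pos (by norm_num)
  have hlog4' : Real.log 4 ≤ 2 := by
    have := Real.log_two_lt_d9
    have e : Real.log 4 = 2 * Real.log 2 := by
      rw [show (4 : ℝ) = 2 ^ 2 by norm_num, Real.log_pow]; norm_num
    rw [e]; linarith
  have hgam : gamS t = 60 * ((LL t : ℝ) + 1) * T / t := rfl
  have hgam0 : 0 < gamS t := by rw [hgam]; positivity
  have hdel : delS t = gamS t * ((t : ℝ) / T ^ 3 + Real.log 4) := rfl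
  have hdel0 : 0 < delS t := by rw [hdel]; positivity
  have hx1 : 1 ≤ x := by linarith
  have hx9 : 1 ≤ x ^ 9 := one_le_pow₀ hx1
  -- main bound
  have hTt : T / t ≤ 1 / T ^ 2 := by
    rw [div_le_div_iff₀ ht0 (by positivity)]
    nlinarith
  have hd1 : delS t ≤ 360 * x ^ 9 / T ^ 2 := by
    have e1 : delS t = 60 * ((LL t : ℝ) + 1) * (1 / T ^ 2 + T / t * Real.log 4) := by
      rw [hdel, hgam]
      field_simp
    rw [e1]
    have e2 : T / t * Real.log 4 ≤ 1 / T ^ 2 * 2 :=
      mul_le_mul hTt hlog4' hlog4.le (by positivity)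
    have e3 : (60 : ℝ) * ((LL t : ℝ) + 1) ≤ 120 * x ^ 9 := by linarith
    calc 60 * ((LL t : ℝ) + 1) * (1 / T ^ 2 + T / t * Real.log 4)
        ≤ 120 * x ^ 9 * (1 / T ^ 2 + 1 / T ^ 2 * 2) :=
          mul_le_mul e3 (by linarith) (by positivity) (by positivity)
      _ = 360 * x ^ 9 / T ^ 2 := by ring
  have hT2 : 1000000 * x ^ 20 ≤ T ^ 2 := by
    have := pow_le_pow_left₀ (by positivity) h4 2
    nlinarith
  have hT2p : 0 < T ^ 2 := by positivity
  have hd2 : x ^ 9 * delS t ≤ 1 / 80 := by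
    have e1 : x ^ 9 * delS t ≤ x ^ 9 * (360 * x ^ 9 / T ^ 2) :=
      mul_le_mul_of_nonneg_left hd1 (by positivity)
    refine e1.trans ?_
    rw [← mul_div_assoc, div_le_div_iff₀ hT2p (by norm_num)]
    have e2 : x ^ 18 ≤ x ^ 20 := pow_le_pow_right₀ hx1 (by norm_num)
    nlinarith
  have hx2 : x ^ 2 ≤ x ^ 9 := pow_le_pow_right₀ hx1 (by norm_num)
  refine ⟨hdel0, ?_, ?_, ?_, hgam0, ?_⟩
  · have := mul_le_mul_of_nonneg_right hL hdel0.le
    linarith
  · have e1 : (WW t : ℝ) * delS t ≤ 1 / 80 / x ^ 2 := by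
      rw [le_div_iff₀ (by positivity)]
      have e2 : (WW t : ℝ) * delS t * x ^ 2 ≤ x ^ 2 * delS t * x ^ 2 := by
        have := mul_le_mul_of_nonneg_right hW hdel0.le
        exact mul_le_mul_of_nonneg_right this (by positivity)
      have e3 : x ^ 2 * delS t * x ^ 2 ≤ x ^ 9 * delS t := by
        have : x ^ 2 * x ^ 2 ≤ x ^ 9 := by
          rw [← pow_add]
          exact pow_le_pow_right₀ hx1 (by norm_num)
        nlinarith
      linarith
    have e4 : 1 / 80 / x ^ 2 ≤ 1 / 160 := by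
      rw [div_le_iff₀ (by positivity)]
      nlinarith
    have e5 : del1 t ≤ 1 / 40 := by
      show 1 / x ^ 5 ≤ 1 / 40
      apply one_div_le_one_div_of_le (by norm_num)
      calc (40 : ℝ) ≤ x := h3
        _ = x ^ 1 := (pow_one x).symm
        _ ≤ x ^ 5 := pow_le_pow_right₀ hx1 (by norm_num)
    nlinarith
  · show 0 < 1 / x ^ 5
    positivity
  · have e1 : 6 * ((LL t : ℝ) + 1) * Real.log t / gamS t = (t : ℝ) / 10 := by
      have e0 : Real.log t = T := rfl
      rw [e0, hgam]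
      field_simp
      norm_num
    rw [e1]

end LR.NumB
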