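import Pool.Agent.LR.Params

set_option autoImplicit false

open Finset

namespace LR.NumC


theorem pow_log_le (n : ℕ) : ∀ᶠ x : ℝ in Filter.atTop, (Real.log x) ^ n ≤ x := by
  have h := (Real.isLittleO_pow_log_id_atTop (n := n)).bound (c := 1) one_pos
  filter_upwards [h, Filter.eventually_ge_atTop (0 : ℝ)] with x hx hx0
  have h1 : ‖Real.log x ^ n‖ ≤ x := by simpa [abs_of_nonneg hx0] using hx
  exact (le_abs_self _).trans h1

/-- TARGET -/
theorem num_c : ∀ᶠ t : ℕ in Filter.atTop,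
    Real.log (3 / 2 * (t : ℝ) ^ 2) - Real.log (((jj t * (t / 2) : ℕ) : ℝ)) +
      LL t * (2 * delS t) ≤ del1 t * nn t ∧
    1 ≤ 4 * (WW t : ℝ) * delS t * ((((jj t * (t / 2) : ℕ) : ℝ)) / 2) ∧
    1 ≤ ((jj t * (t / 2) : ℕ) : ℝ) ∧
    ((t : ℝ) ^ (6 * jj t + 3)) ≤ Real.exp (2 / 5 * (t : ℝ)) := by
  have hT : Filter.Tendsto TT Filter.atTop Filter.atTop :=
    Real.tendsto_log_atTop.comp tendsto_natCast_atTop_atTop
  have hl : Filter.Tendsto ll Filter.atTop Filter.atTop := Real.tendsto_log_atTop.comp hT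
  filter_upwards [hT.eventually_ge_atTop 720, hl.eventually_ge_atTop 4,
    hT.eventually (pow_log_le 20), tendsto_natCast_atTop_atTop.eventually (pow_log_le 4),
    Filter.eventually_ge_atTop 1] with t h1 h2 h3 h4 h5
  have h3' : (ll t) ^ 20 ≤ TT t := h3
  have h4' : (TT t) ^ 4 ≤ (t : ℝ) := h4
  have ht0 : (0 : ℝ) < t := by exact_mod_cast h5
  obtain ⟨T, hTd⟩ : ∃ T, T = TT t := ⟨_, rfl⟩
  obtain ⟨l, hld⟩ : ∃ l, l = ll t := ⟨_, rfl⟩
  have hTexp : Real.exp T = t := by rw [hTd]; exact Real.exp_log ht0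
  have hlT : l = Real.log T := by rw [hld, hTd]; rfl
  rw [← hTd] at h1 h3' h4'
  rw [← hld] at h2 h3'
  have hT0 : 0 < T := by linarith
  have hl0 : 0 < l := by linarith
  have htT : T ^ 3 * 720 ≤ t := by
    have : T ^ 3 * 720 ≤ T ^ 4 := by
      have := mul_le_mul_of_nonneg_left h1 (by positivity : 0 ≤ T ^ 3)
      calc T ^ 3 * 720 ≤ T ^ 3 * T := this
        _ = T ^ 4 := by ring
    linarith
  have hT1 : 1 ≤ T := by linarith
  have hT3 : T ≤ T ^ 3 := by
    have : 1 ≤ T ^ 2 := one_le_pow₀ hT1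
    nlinarith
  have ht720 : 720 * T ≤ t := by nlinarith
  -- the integer `j`
  obtain ⟨j, hj⟩ : ∃ j, j = jj t := ⟨_, rfl⟩
  have hj1 : (j : ℝ) ≤ t / (20 * T) := by
    rw [hj, hTd]; exact Nat.floor_le (by rw [← hTd]; positivity)
  have hj2 : (t : ℝ) / (25 * T) ≤ j := by
    have h := Nat.lt_floor_add_one ((t : ℝ) / (20 * TT t))
    have h' : (t : ℝ) / (20 * T) < j + 1 := by rw [hj, hTd]; exact h
    have e1 : (t : ℝ) / (20 * T) = (t : ℝ) / (25 * T) + (t : ℝ) / (100 * T) := by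
      field_simp; norm_num
    have e2 : 1 ≤ (t : ℝ) / (100 * T) := by
      rw [le_div_iff₀ (by positivity)]; linarith
    linarith
  have hhalf : (t : ℝ) / 4 ≤ ((t / 2 : ℕ) : ℝ) := by
    have h6 : t ≤ 2 * (t / 2) + 1 := by omega
    have h7 : (t : ℝ) ≤ 2 * ((t / 2 : ℕ) : ℝ) + 1 := by exact_mod_cast h6
    have h8 : (2 : ℝ) ≤ t := by linarith
    linarith
  obtain ⟨P, hP⟩ : ∃ P : ℝ, P = ((jj t * (t / 2) : ℕ) : ℝ) := ⟨_, rfl⟩
  have hPge : (t : ℝ) ^ 2 / (100 * T) ≤ P := by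
    rw [hP, Nat.cast_mul, ← hj]
    calc (t : ℝ) ^ 2 / (100 * T) = (t : ℝ) / (25 * T) * ((t : ℝ) / 4) := by
          field_simp; norm_num
      _ ≤ j * ((t / 2 : ℕ) : ℝ) := by
          apply mul_le_mul hj2 hhalf (by positivity) (by positivity)
  have hP1 : 1 ≤ P := by
    refine le_trans ?_ hPge
    rw [le_div_iff₀ (by positivity)]
    nlinarith
  rw [← hP]
  -- `LL`, `WW`
  have hLL1 : (LL t : ℝ) ≤ l ^ 9 := by
    rw [hld]; exact Nat.floor_le (by rw [← hld]; positivity)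
  have hLL2 : l ^ 9 - 1 ≤ (LL t : ℝ) := by
    have h := Nat.lt_floor_add_one ((ll t) ^ 9)
    have : (ll t) ^ 9 < (LL t : ℝ) + 1 := h
    rw [hld]; linarith
  have hWW1 : (WW t : ℝ) ≤ l ^ 2 := by
    rw [hld]; exact Nat.floor_le (by rw [← hld]; positivity)
  have hWW2 : (1 : ℝ) ≤ (WW t : ℝ) := by
    have : 1 ≤ WW t := by
      apply Nat.le_floor
      rw [← hld]
      push_cast
      exact one_le_pow₀ (by linarith)
    exact_mod_cast this
  have hl9 : 1 ≤ l ^ 9 := one_le_pow₀ (by linarith)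
  -- `delS`
  have hlog4 : Real.log 4 ≤ 2 := by
    have : Real.log 4 = 2 * Real.log 2 := by
      rw [show (4 : ℝ) = 2 ^ 2 by norm_num, Real.log_pow]; norm_num
    rw [this]
    have := Real.log_two_lt_d9
    linarith
  have hlog4' : 0 ≤ Real.log 4 := Real.log_nonneg (by norm_num)
  have hdS : delS t = 60 * ((LL t : ℝ) + 1) * (1 / T ^ 2 + T * Real.log 4 / t) := by
    unfold delS gamS
    rw [← hTd]
    field_simp
  have hdSle : delS t ≤ 360 * l ^ 9 / T ^ 2 := by
    rw [hdS]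
    have e1 : T * Real.log 4 / t ≤ 2 / T ^ 2 := by
      rw [div_le_div_iff₀ ht0 (by positivity)]
      have : T * Real.log 4 * T ^ 2 ≤ T * 2 * T ^ 2 := by gcongr
      nlinarith
    calc 60 * ((LL t : ℝ) + 1) * (1 / T ^ 2 + T * Real.log 4 / t)
        ≤ 60 * (l ^ 9 + l ^ 9) * (1 / T ^ 2 + 2 / T ^ 2) := by gcongr
      _ = 360 * l ^ 9 / T ^ 2 := by ring
  have hdSge : 60 / T ^ 2 ≤ delS t := by
    rw [hdS]
    have e0 : (0 : ℝ) ≤ LL t := by positivity
    calc 60 / T ^ 2 = 60 * (0 + 1) * (1 / T ^ 2 + 0) := by ring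
      _ ≤ 60 * ((LL t : ℝ) + 1) * (1 / T ^ 2 + T * Real.log 4 / t) := by
        gcongr
        positivity
  refine ⟨?_, ?_, hP1, ?_⟩
  · -- first inequality
    have hlogP : Real.log (3 / 2 * (t : ℝ) ^ 2) - Real.log P ≤ l + 6 := by
      have e1 : Real.log ((t : ℝ) ^ 2 / (100 * T)) ≤ Real.log P :=
        Real.log_le_log (by positivity) hPge
      have e2 : Real.log (3 / 2 * (t : ℝ) ^ 2) = Real.log ((t : ℝ) ^ 2 / (100 * T)) + Real.log (150 * T) := by
        rw [← Real.log_mul (by positivity) (by positivity)]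
        congr 1
        field_simp; norm_num
      have e3 : Real.log (150 * T) = Real.log 150 + l := by
        rw [Real.log_mul (by norm_num) hT0.ne', hlT]
      have e4 : Real.log 150 ≤ 6 := by
        rw [Real.log_le_iff_le_exp (by norm_num)]
        have : Real.exp 6 = Real.exp 1 ^ 6 := by
          rw [← Real.exp_nat_mul]; norm_num
        rw [this]
        have h27 : (2.7 : ℝ) ≤ Real.exp 1 := by
          have := Real.exp_one_gt_d9; linarith
        calc (150 : ℝ) ≤ 2.7 ^ 6 := by norm_num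
          _ ≤ Real.exp 1 ^ 6 := pow_le_pow_left₀ (by norm_num) h27 6
      linarith
    have hLd : (LL t : ℝ) * (2 * delS t) ≤ 1 := by
      have hd0 : 0 ≤ delS t := le_trans (by positivity) hdSge
      calc (LL t : ℝ) * (2 * delS t) ≤ l ^ 9 * (2 * (360 * l ^ 9 / T ^ 2)) := by gcongr
        _ = 720 * l ^ 18 / T ^ 2 := by ring
        _ ≤ 720 * T / T ^ 2 := by
          gcongr
          refine le_trans ?_ h3'
          exact pow_le_pow_right₀ (by linarith) (by norm_num)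
        _ = 720 / T := by field_simp
        _ ≤ 1 := by rw [div_le_one hT0]; exact h1
    have hnn : (l ^ 9 - 1) / l ^ 2 - 1 ≤ (nn t : ℝ) := by
      have hW : 0 < WW t := by
        have : (0 : ℝ) < WW t := by linarith
        exact_mod_cast this
      have e1 : LL t < WW t * (nn t + 1) := by
        have := Nat.lt_mul_div_succ (LL t) hW
        exact this
      have e2 : (LL t : ℝ) < WW t * ((nn t : ℝ) + 1) := by exact_mod_cast e1
      have e3 : l ^ 9 - 1 < l ^ 2 * ((nn t : ℝ) + 1) := by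
        have : (WW t : ℝ) * ((nn t : ℝ) + 1) ≤ l ^ 2 * ((nn t : ℝ) + 1) := by gcongr
        linarith
      have e4 : (l ^ 9 - 1) / l ^ 2 < (nn t : ℝ) + 1 := by
        rw [div_lt_iff₀ (by positivity)]; linarith
      linarith
    have hR : l ^ 2 - 2 ≤ del1 t * nn t := by
      unfold del1
      rw [← hld]
      have e1 : 1 / l ^ 5 * ((l ^ 9 - 1) / l ^ 2 - 1) ≤ 1 / l ^ 5 * nn t := by gcongr
      have e2 : 1 / l ^ 5 * ((l ^ 9 - 1) / l ^ 2 - 1) = l ^ 2 - 1 / l ^ 7 - 1 / l ^ 5 := by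
        field_simp
      have e3 : 1 / l ^ 7 ≤ 1 := by
        rw [div_le_one (by positivity)]; exact one_le_pow₀ (by linarith)
      have e4 : 1 / l ^ 5 ≤ 1 := by
        rw [div_le_one (by positivity)]; exact one_le_pow₀ (by linarith)
      linarith
    nlinarith
  · -- second
    have hd0 : 0 ≤ 60 / T ^ 2 := by positivity
    calc (1 : ℝ) ≤ 4 * 1 * (60 / T ^ 2) * ((t : ℝ) ^ 2 / (100 * T) / 2) := by
          have e1 : 4 * 1 * (60 / T ^ 2) * ((t : ℝ) ^ 2 / (100 * T) / 2) = 6 / 5 * (t : ℝ) ^ 2 / T ^ 3 := by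
            field_simp; norm_num
          rw [e1, le_div_iff₀ (by positivity)]
          have : T ^ 3 ≤ t := by nlinarith [pow_pos hT0 3]
          have h1t : (1 : ℝ) ≤ t := by linarith
          nlinarith
      _ ≤ 4 * (WW t : ℝ) * delS t * (P / 2) := by
          have hd1 : 0 ≤ delS t := hd0.trans hdSge
          have hd2 : 0 ≤ 4 * (WW t : ℝ) * delS t := by positivity
          gcongr
  · -- third
    rw [← hTexp, ← Real.exp_nat_mul]
    apply Real.exp_le_exp.mpr
    rw [hTexp]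
    push_cast
    rw [← hj]
    have e1 : (j : ℝ) * T ≤ t / 20 := by
      calc (j : ℝ) * T ≤ t / (20 * T) * T := by gcongr
        _ = t / 20 := by field_simp
    nlinarith

end LR.NumC
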