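import Pool.Agent.LR.Params

set_option autoImplicit false

open Finset

namespace LR.NumD


theorem j9816_F1 : ∀ᶠ x : ℝ in Filter.atTop, 2 * x ≤ Real.exp x / x ^ 10 := by
  filter_upwards [(Real.tendsto_exp_div_pow_atTop 11).eventually (Filter.eventually_ge_atTop 2),
    Filter.eventually_gt_atTop 0] with x hx h0
  rw [le_div_iff₀ (by positivity)] at hx ⊢
  calc 2 * x * x ^ 10 = 2 * x ^ 11 := by ring
    _ ≤ _ := hx

theorem j9816_F2 : ∀ᶠ x : ℝ in Filter.atTop,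
    4 * x ^ 2 + 8 * Real.exp x + 2 ≤ 3 / 8 * (Real.exp (2 * x) - 1) ∧ 16 ≤ Real.exp (2 * x) - 1 := by
  filter_upwards [(Real.tendsto_exp_div_pow_atTop 2).eventually (Filter.eventually_ge_atTop 1),
    Filter.eventually_ge_atTop 50] with x hx h0
  rw [le_div_iff₀ (by positivity)] at hx
  have h1 : x + 1 ≤ Real.exp x := Real.add_one_le_exp x
  have h2 : Real.exp (2 * x) = Real.exp x * Real.exp x := by rw [← Real.exp_add]; ring_nf
  rw [h2]
  constructor <;> nlinarith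

theorem j9816_F3 : ∀ᶠ x : ℝ in Filter.atTop, x ^ 13 * Real.exp (-x) ≤ 1 / (64 * 11520) := by
  have h := (Real.tendsto_pow_mul_exp_neg_atTop_nhds_zero 13)
  exact h.eventually (ge_mem_nhds (by norm_num))

theorem j9816_F4 (T : ℝ) (hT : 20 ≤ T) : 16 * Real.exp (2 * T) ≤ Real.exp (Real.log 2 * (4 * T)) := by
  have h1 : Real.log 2 * (4 * T) = (4 * Real.log 2 - 2) * T + 2 * T := by ring
  rw [h1, Real.exp_add]
  apply mul_le_mul_of_nonneg_right _ (Real.exp_pos _).le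
  have h2 := Real.add_one_le_exp ((4 * Real.log 2 - 2) * T)
  have h3 := Real.log_two_gt_d9
  nlinarith

theorem j9816_F5 : ∀ᶠ x : ℝ in Filter.atTop, 3 * x ≤ Real.exp x := by
  filter_upwards [(Real.tendsto_exp_div_pow_atTop 1).eventually (Filter.eventually_ge_atTop 3),
    Filter.eventually_gt_atTop 0] with x hx h0
  rw [le_div_iff₀ (by positivity), pow_one] at hx
  exact hx

theorem j9816_K (x W L : ℝ) (hx : 8 ≤ x) (_hW0 : 0 ≤ W) (hW : W ≤ x ^ 2) (hL0 : 0 ≤ L)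
    (hL : L ≤ x ^ 9) (h3 : 3 * x ≤ Real.exp x) (h13 : x ^ 13 * Real.exp (-x) ≤ 1 / (64 * 11520)) :
    x ^ 2 * (8 * (4 * W * (60 * (L + 1) * Real.exp x / Real.exp (Real.exp x) *
      (Real.exp (Real.exp x) / (Real.exp x) ^ 3 + Real.log 4)) + 1 / x ^ 5)) ≤ 1 / 32 := by
  have hx0 : 0 < x := by linarith
  set E := Real.exp x with hE
  have hE0 : 0 < E := Real.exp_pos _
  have hEE : 0 < Real.exp E := Real.exp_pos _
  -- the bracket
  have hb : 60 * (L + 1) * E / Real.exp E * (Real.exp E / E ^ 3 + Real.log 4) =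
      60 * (L + 1) * (1 / E ^ 2 + Real.log 4 * (E / Real.exp E)) := by
    field_simp
  have h1 : 1 / E ^ 2 ≤ Real.exp (-x) := by
    rw [Real.exp_neg, ← hE, one_div]
    apply inv_anti₀ hE0
    have : 1 ≤ E := by linarith
    nlinarith
  have h2 : E / Real.exp E ≤ Real.exp (-x) := by
    rw [hE, ← Real.exp_sub]
    apply Real.exp_le_exp.2
    rw [← hE]
    linarith
  have hlog : Real.log 4 ≤ 2 := by
    have e1 : Real.log 4 = 2 * Real.log 2 := by
      rw [show (4 : ℝ) = 2 ^ 2 by norm_num, Real.log_pow]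
      push_cast
      ring
    have := Real.log_two_lt_d9
    rw [e1]
    linarith
  have hlog0 : 0 ≤ Real.log 4 := Real.log_nonneg (by norm_num)
  have hb2 : 1 / E ^ 2 + Real.log 4 * (E / Real.exp E) ≤ 3 * Real.exp (-x) := by
    have e1 : Real.log 4 * (E / Real.exp E) ≤ 2 * Real.exp (-x) :=
      mul_le_mul hlog h2 (by positivity) (by norm_num)
    linarith
  have hb0 : 0 ≤ 1 / E ^ 2 + Real.log 4 * (E / Real.exp E) := by positivity
  have hL1 : L + 1 ≤ 2 * x ^ 9 := by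
    have : (1 : ℝ) ≤ x ^ 9 := one_le_pow₀ (by linarith)
    linarith
  have hexp0 : 0 < Real.exp (-x) := Real.exp_pos _
  have hA : 60 * (L + 1) * (1 / E ^ 2 + Real.log 4 * (E / Real.exp E)) ≤
      60 * (2 * x ^ 9) * (3 * Real.exp (-x)) := by
    apply mul_le_mul _ hb2 hb0 (by positivity)
    linarith
  have hA0 : 0 ≤ 60 * (L + 1) * (1 / E ^ 2 + Real.log 4 * (E / Real.exp E)) := by positivity
  have hB : 4 * W * (60 * (L + 1) * (1 / E ^ 2 + Real.log 4 * (E / Real.exp E))) ≤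
      4 * x ^ 2 * (60 * (2 * x ^ 9) * (3 * Real.exp (-x))) :=
    mul_le_mul (by linarith) hA hA0 (by positivity)
  rw [hb]
  have hC : x ^ 2 * (8 * (4 * x ^ 2 * (60 * (2 * x ^ 9) * (3 * Real.exp (-x))))) =
      11520 * (x ^ 13 * Real.exp (-x)) := by ring
  have hD : x ^ 2 * (8 * (1 / x ^ 5)) = 8 / x ^ 3 := by
    field_simp
  have hD2 : 8 / x ^ 3 ≤ 1 / 64 := by
    rw [div_le_div_iff₀ (by positivity) (by norm_num)]
    have : (8 : ℝ) ^ 3 ≤ x ^ 3 := pow_le_pow_left₀ (by norm_num) hx 3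
    linarith
  have hF : x ^ 2 * (8 * (4 * W * (60 * (L + 1) * (1 / E ^ 2 + Real.log 4 * (E / Real.exp E))) +
      1 / x ^ 5)) =
      x ^ 2 * (8 * (4 * W * (60 * (L + 1) * (1 / E ^ 2 + Real.log 4 * (E / Real.exp E))))) +
      x ^ 2 * (8 * (1 / x ^ 5)) := by ring
  rw [hF, hD]
  have hG : x ^ 2 * (8 * (4 * W * (60 * (L + 1) * (1 / E ^ 2 + Real.log 4 * (E / Real.exp E))))) ≤
      x ^ 2 * (8 * (4 * x ^ 2 * (60 * (2 * x ^ 9) * (3 * Real.exp (-x))))) := by
    apply mul_le_mul_of_nonneg_left _ (by positivity)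
    linarith
  rw [hC] at hG
  linarith

/-- TARGET -/
theorem num_d : ∀ᶠ t : ℕ in Filter.atTop, dd t ≤ qq t ∧ 8 * dd t ≤ qq t ∧
    8 * (4 * (WW t : ℝ) * delS t + del1 t) * (qq t : ℝ) ≤ dd t ∧
    4 * MM t * (dd t : ℝ) ≤ (bb t : ℝ) * rr t ∧ 2 * bb t * rr t ≤ qq t ∧
    16 * t ^ 2 ≤ 2 ^ uu t ∧ 2 * uu t ≤ bb t := by
  have hTT : Filter.Tendsto TT Filter.atTop Filter.atTop :=
    Real.tendsto_log_atTop.comp tendsto_natCast_atTop_atTop
  have hll : Filter.Tendsto ll Filter.atTop Filter.atTop := Real.tendsto_log_atTop.comp hTT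
  filter_upwards [hll.eventually (Filter.eventually_ge_atTop 8), hll.eventually j9816_F1,
    hll.eventually j9816_F2, hll.eventually j9816_F3, hll.eventually j9816_F5,
    hTT.eventually (Filter.eventually_ge_atTop 20), Filter.eventually_gt_atTop 0] with
    t hx8 hF1 hF2 hF3 hF5 hT20 ht0
  have hT0 : 0 < TT t := by linarith
  have ht0' : (0 : ℝ) < t := by exact_mod_cast ht0
  have hTx : TT t = Real.exp (ll t) := (Real.exp_log hT0).symm
  have htT : (t : ℝ) = Real.exp (TT t) := (Real.exp_log ht0').symm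
  have hx0 : 0 < ll t := by linarith
  -- W and L
  have hW : (WW t : ℝ) ≤ (ll t) ^ 2 := Nat.floor_le (by positivity)
  have hL : (LL t : ℝ) ≤ (ll t) ^ 9 := Nat.floor_le (by positivity)
  set κ : ℝ := 8 * (4 * (WW t : ℝ) * delS t + del1 t) with hκ
  have hκx : (ll t) ^ 2 * κ ≤ 1 / 32 := by
    have h := j9816_K (ll t) (WW t) (LL t) hx8 (Nat.cast_nonneg _) hW (Nat.cast_nonneg _) hL hF5 hF3
    rw [hκ, delS, gamS, del1, htT, hTx]
    exact h
  have hdelS0 : 0 ≤ delS t := by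
    unfold delS gamS
    have : 0 ≤ Real.log 4 := Real.log_nonneg (by norm_num)
    positivity
  have hdel10 : 0 ≤ del1 t := by
    unfold del1
    positivity
  have hκ0 : 0 ≤ κ := by
    rw [hκ]
    positivity
  have hκ1 : κ ≤ 1 / 2048 := by
    have h1 : (64 : ℝ) ≤ (ll t) ^ 2 := by nlinarith
    have h2 : 64 * κ ≤ (ll t) ^ 2 * κ := mul_le_mul_of_nonneg_right h1 hκ0
    linarith
  -- q
  have hq : Real.exp (2 * ll t) - 1 ≤ (qq t : ℝ) := by
    have h1 : Real.exp (TT t / (ll t) ^ 10) - 1 < (qq t : ℝ) := Nat.sub_one_lt_floor _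
    have h2 : Real.exp (2 * ll t) ≤ Real.exp (TT t / (ll t) ^ 10) := by
      apply Real.exp_le_exp.2
      rw [hTx]
      exact hF1
    linarith
  have hq16 : (16 : ℝ) ≤ qq t := hF2.2.trans hq
  have hdlt : (dd t : ℝ) < κ * (qq t : ℝ) + 1 := by
    have h1 : 0 ≤ κ * (qq t : ℝ) := mul_nonneg hκ0 (Nat.cast_nonneg _)
    exact Nat.ceil_lt_add_one h1
  have hκq : κ * (qq t : ℝ) ≤ 1 / 2048 * (qq t : ℝ) :=
    mul_le_mul_of_nonneg_right hκ1 (Nat.cast_nonneg _)
  have h2 : 8 * dd t ≤ qq t := by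
    have : (8 : ℝ) * (dd t : ℝ) ≤ (qq t : ℝ) := by linarith
    exact_mod_cast this
  -- b
  have hu1 : 4 * TT t ≤ (uu t : ℝ) := Nat.le_ceil _
  have hu2 : (uu t : ℝ) < 4 * TT t + 1 := Nat.ceil_lt_add_one (by linarith)
  have hu0 : 0 < uu t := by
    have : (0 : ℝ) < (uu t : ℝ) := by linarith
    exact_mod_cast this
  have hb0 : 0 < 2 * bb t := by unfold bb; omega
  have hbr : (qq t : ℝ) ≤ 2 * ((bb t : ℝ) * rr t) + 2 * bb t := by
    have h3 : qq t ≤ 2 * bb t * (qq t / (2 * bb t)) + 2 * bb t := by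
      have h4 := Nat.div_add_mod (qq t) (2 * bb t)
      have h5 := Nat.mod_lt (qq t) hb0
      omega
    have h4 : ((qq t : ℕ) : ℝ) ≤ ((2 * bb t * (qq t / (2 * bb t)) + 2 * bb t : ℕ) : ℝ) := by
      exact_mod_cast h3
    rw [Nat.cast_add, Nat.cast_mul, Nat.cast_mul] at h4
    have h5 : ((qq t / (2 * bb t) : ℕ) : ℝ) = (rr t : ℝ) := rfl
    rw [h5] at h4
    push_cast at h4
    linarith
  have hbT : (bb t : ℝ) ≤ 8 * Real.exp (ll t) + 2 := by
    have h3 : (bb t : ℝ) = 2 * (uu t : ℝ) := by unfold bb; push_cast; ring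
    rw [h3, ← hTx]
    linarith
  refine ⟨by omega, h2, Nat.le_ceil _, ?_, ?_, ?_, le_refl _⟩
  · unfold MM
    have h3 : 4 * (ll t) ^ 2 * (dd t : ℝ) ≤ 4 * (ll t) ^ 2 * (κ * (qq t : ℝ) + 1) :=
      mul_le_mul_of_nonneg_left hdlt.le (by positivity)
    have h4 : 4 * (ll t) ^ 2 * (κ * (qq t : ℝ) + 1) =
        4 * ((ll t) ^ 2 * κ) * (qq t : ℝ) + 4 * (ll t) ^ 2 := by ring
    have h5 : 4 * ((ll t) ^ 2 * κ) * (qq t : ℝ) ≤ 4 * (1 / 32) * (qq t : ℝ) :=
      mul_le_mul_of_nonneg_right (by linarith) (Nat.cast_nonneg _)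
    have h6 := hF2.1
    linarith
  · unfold rr
    exact Nat.mul_div_le _ _
  · have h3 : (16 : ℝ) * (t : ℝ) ^ 2 ≤ (2 : ℝ) ^ (uu t) := by
      have h4 : (t : ℝ) ^ 2 = Real.exp (2 * TT t) := by
        rw [htT, ← Real.exp_nat_mul]
        norm_num
      have h5 : Real.exp (Real.log 2 * (4 * TT t)) ≤ (2 : ℝ) ^ (uu t) := by
        rw [← Real.rpow_natCast, Real.rpow_def_of_pos (by norm_num)]
        apply Real.exp_le_exp.2
        exact mul_le_mul_of_nonneg_left hu1 (Real.log_nonneg (by norm_num))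
      rw [h4]
      exact (j9816_F4 _ hT20).trans h5
    exact_mod_cast h3

end LR.NumD
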