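import Pool.Agent.LR.Params

set_option autoImplicit false

open Finset

namespace LR.NumE


theorem num_e_aux1 : Filter.Tendsto TT Filter.atTop Filter.atTop :=
  Real.tendsto_log_atTop.comp tendsto_natCast_atTop_atTop

theorem num_e_aux2 : Filter.Tendsto ll Filter.atTop Filter.atTop :=
  Real.tendsto_log_atTop.comp num_e_aux1

theorem num_e_aux3 : ∀ᶠ t : ℕ in Filter.atTop,
    3 ≤ t ∧ 10000 ≤ TT t ∧ 6 ≤ ll t ∧ (ll t) ^ 12 ≤ TT t := by
  have h1 : ∀ᶠ t : ℕ in Filter.atTop, 1 ≤ Real.exp (ll t) / (ll t) ^ 12 :=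
    ((Real.tendsto_exp_div_pow_atTop 12).comp num_e_aux2).eventually_ge_atTop 1
  filter_upwards [Filter.eventually_ge_atTop 3, num_e_aux1.eventually_ge_atTop 10000,
    num_e_aux2.eventually_ge_atTop 6, h1] with t ht1 ht2 ht3 ht4
  refine ⟨ht1, ht2, ht3, ?_⟩
  have hl : 0 < (ll t) ^ 12 := by positivity
  rw [le_div_iff₀ hl, one_mul] at ht4
  have he : Real.exp (ll t) = TT t := by
    unfold ll
    exact Real.exp_log (by linarith)
  rwa [he] at ht4

/-- TARGET -/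
theorem num_e : ∀ᶠ t : ℕ in Filter.atTop,
    (2 * (t : ℝ) ^ 3 + 1) ^ uu t * Real.exp (-((1 / (2 * MM t)) ^ 2) * rr t / 4) ≤ 1 / 2 ∧
    (2 * (t : ℝ) ^ 3 + 1) ^ uu t *
      Real.exp (-((1 / 8 : ℝ) ^ 2) * ((qq t : ℝ) / 2) / 4) ≤ 1 / 2 := by
  filter_upwards [num_e_aux3] with t ht
  obtain ⟨ht3, hT, hl, hlT⟩ := ht
  have hl0 : 0 < ll t := by linarith
  have hT0 : 0 < TT t := by linarith
  have ht3' : (3 : ℝ) ≤ t := by exact_mod_cast ht3
  have ht0 : (0 : ℝ) < t := by linarith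
  -- the base
  have hbase : 2 * (t : ℝ) ^ 3 + 1 ≤ Real.exp (4 * TT t) := by
    have h1 : Real.exp (4 * TT t) = (t : ℝ) ^ 4 := by
      have h2 : Real.exp (TT t) = t := by
        unfold TT
        exact Real.exp_log ht0
      rw [← h2, ← Real.exp_nat_mul]
      norm_num
    rw [h1]
    have h3 : (27 : ℝ) ≤ (t : ℝ) ^ 3 := by
      calc (27 : ℝ) = 3 ^ 3 := by norm_num
        _ ≤ (t : ℝ) ^ 3 := by gcongr
    nlinarith
  have huu : (uu t : ℝ) ≤ 5 * TT t := by
    have h1 : (uu t : ℝ) < 4 * TT t + 1 := by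
      unfold uu
      exact Nat.ceil_lt_add_one (by positivity)
    linarith
  have huu1 : 1 ≤ uu t := by
    unfold uu
    exact Nat.one_le_iff_ne_zero.2 (by
      have : 0 < ⌈4 * TT t⌉₊ := Nat.ceil_pos.2 (by positivity)
      omega)
  have hpow : (2 * (t : ℝ) ^ 3 + 1) ^ uu t ≤ Real.exp (20 * (TT t) ^ 2) := by
    calc (2 * (t : ℝ) ^ 3 + 1) ^ uu t ≤ (Real.exp (4 * TT t)) ^ uu t := by gcongr
      _ = Real.exp ((uu t : ℝ) * (4 * TT t)) := by rw [← Real.exp_nat_mul]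
      _ ≤ Real.exp (20 * (TT t) ^ 2) := by
        apply Real.exp_le_exp.2
        nlinarith
  have hqq : (TT t) ^ 5 ≤ (qq t : ℝ) := by
    have h1 : 5 * ll t + 1 ≤ TT t / (ll t) ^ 10 := by
      rw [le_div_iff₀ (by positivity)]
      have h2 : 5 * ll t + 1 ≤ (ll t) ^ 2 := by nlinarith
      calc (5 * ll t + 1) * (ll t) ^ 10 ≤ (ll t) ^ 2 * (ll t) ^ 10 := by gcongr
        _ = (ll t) ^ 12 := by ring
        _ ≤ TT t := hlT
    have he : Real.exp (ll t) = TT t := by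
      unfold ll
      exact Real.exp_log (by linarith)
    have h2 : Real.exp (5 * ll t + 1) ≤ Real.exp (TT t / (ll t) ^ 10) := Real.exp_le_exp.2 h1
    have h3 : Real.exp (5 * ll t + 1) = (TT t) ^ 5 * Real.exp 1 := by
      rw [Real.exp_add, ← he, ← Real.exp_nat_mul]
      norm_num
    have h4 : (2 : ℝ) ≤ Real.exp 1 := by
      have := Real.add_one_le_exp (1 : ℝ)
      linarith
    have h5 : Real.exp (TT t / (ll t) ^ 10) < (qq t : ℝ) + 1 := by
      unfold qq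
      exact Nat.lt_floor_add_one _
    have h6 : (1 : ℝ) ≤ (TT t) ^ 5 := one_le_pow₀ (by linarith)
    nlinarith
  have hT2 : 0 < (TT t) ^ 2 := by positivity
  have hlog : Real.exp (-1) ≤ 1 / 2 := by
    rw [Real.exp_neg, one_div]
    apply inv_anti₀ (by norm_num)
    have := Real.add_one_le_exp (1 : ℝ)
    linarith
  constructor
  · have hrr : (TT t) ^ 4 / 20 - 1 ≤ (rr t : ℝ) := by
      have hb : 0 < 2 * bb t := by unfold bb; omega
      have h1 : qq t < 2 * bb t * (rr t + 1) := by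
        unfold rr
        exact Nat.lt_mul_div_succ _ hb
      have h2 : (qq t : ℝ) < 4 * (uu t : ℝ) * ((rr t : ℝ) + 1) := by
        have h3 : 2 * bb t * (rr t + 1) = 4 * uu t * (rr t + 1) := by unfold bb; ring
        rw [h3] at h1
        exact_mod_cast h1
      have h4 : (TT t) ^ 5 < 20 * TT t * ((rr t : ℝ) + 1) := by
        calc (TT t) ^ 5 ≤ (qq t : ℝ) := hqq
          _ < 4 * (uu t : ℝ) * ((rr t : ℝ) + 1) := h2
          _ ≤ 4 * (5 * TT t) * ((rr t : ℝ) + 1) := by gcongr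
          _ = 20 * TT t * ((rr t : ℝ) + 1) := by ring
      have h5 : (TT t) ^ 4 < 20 * ((rr t : ℝ) + 1) := by
        have h6 : TT t * (TT t) ^ 4 < TT t * (20 * ((rr t : ℝ) + 1)) := by
          calc TT t * (TT t) ^ 4 = (TT t) ^ 5 := by ring
            _ < 20 * TT t * ((rr t : ℝ) + 1) := h4
            _ = TT t * (20 * ((rr t : ℝ) + 1)) := by ring
        exact lt_of_mul_lt_mul_left h6 hT0.le
      linarith
    have hl4 : (ll t) ^ 4 ≤ TT t := by
      calc (ll t) ^ 4 ≤ (ll t) ^ 12 := by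
            apply pow_le_pow_right₀ (by linarith) (by norm_num)
        _ ≤ TT t := hlT
    have hl4p : 0 < (ll t) ^ 4 := by positivity
    have hexp : -((1 / (2 * MM t)) ^ 2) * (rr t : ℝ) / 4 ≤ -(20 * (TT t) ^ 2) - 1 := by
      have h1 : -((1 / (2 * MM t)) ^ 2) * (rr t : ℝ) / 4 = -((rr t : ℝ) / (16 * (ll t) ^ 4)) := by
        unfold MM
        field_simp
        ring
      rw [h1]
      have h2 : 20 * (TT t) ^ 2 + 1 ≤ (rr t : ℝ) / (16 * (ll t) ^ 4) := by
        rw [le_div_iff₀ (by positivity)]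
        calc (20 * (TT t) ^ 2 + 1) * (16 * (ll t) ^ 4) ≤ (20 * (TT t) ^ 2 + 1) * (16 * TT t) := by
              gcongr
          _ ≤ (TT t) ^ 4 / 20 - 1 := by
            have h3 : 0 < (TT t) ^ 3 := by positivity
            have h4 : (TT t) ^ 4 = TT t * (TT t) ^ 3 := by ring
            have h5 : 10000 * (TT t) ^ 3 ≤ TT t * (TT t) ^ 3 := by gcongr
            have h6 : (TT t) ^ 3 = TT t * (TT t) ^ 2 := by ring
            have h7 : 10000 * (TT t) ^ 2 ≤ TT t * (TT t) ^ 2 := by gcongr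
            have h8 : TT t ≤ (TT t) ^ 2 := by nlinarith
            nlinarith
          _ ≤ (rr t : ℝ) := hrr
      linarith
    calc (2 * (t : ℝ) ^ 3 + 1) ^ uu t * Real.exp (-((1 / (2 * MM t)) ^ 2) * rr t / 4)
        ≤ Real.exp (20 * (TT t) ^ 2) * Real.exp (-(20 * (TT t) ^ 2) - 1) := by
          apply mul_le_mul hpow (Real.exp_le_exp.2 hexp) (Real.exp_pos _).le (Real.exp_pos _).le
      _ = Real.exp (-1) := by
          rw [← Real.exp_add]
          congr 1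
          ring
      _ ≤ 1 / 2 := hlog
  · have hexp : -((1 / 8 : ℝ) ^ 2) * ((qq t : ℝ) / 2) / 4 ≤ -(20 * (TT t) ^ 2) - 1 := by
      have h1 : -((1 / 8 : ℝ) ^ 2) * ((qq t : ℝ) / 2) / 4 = -((qq t : ℝ) / 512) := by ring
      rw [h1]
      have h3 : 0 < (TT t) ^ 3 := by positivity
      have h5 : (1 : ℝ) ≤ (TT t) ^ 2 := one_le_pow₀ (by linarith)
      have h6 : (TT t) ^ 5 = (TT t) ^ 3 * (TT t) ^ 2 := by ring
      have h7 : (10000 : ℝ) ^ 3 ≤ (TT t) ^ 3 := by gcongr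
      have h8 : (10000 : ℝ) ^ 3 * (TT t) ^ 2 ≤ (TT t) ^ 3 * (TT t) ^ 2 := by gcongr
      nlinarith
    calc (2 * (t : ℝ) ^ 3 + 1) ^ uu t * Real.exp (-((1 / 8 : ℝ) ^ 2) * ((qq t : ℝ) / 2) / 4)
        ≤ Real.exp (20 * (TT t) ^ 2) * Real.exp (-(20 * (TT t) ^ 2) - 1) := by
          apply mul_le_mul hpow (Real.exp_le_exp.2 hexp) (Real.exp_pos _).le (Real.exp_pos _).le
      _ = Real.exp (-1) := by
          rw [← Real.exp_add]
          congr 1
          ring
      _ ≤ 1 / 2 := hlog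

end LR.NumE
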