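import Pool.Agent.LR.Params

set_option autoImplicit false

open Finset

namespace LR.NumF


lemma tendsto_TT : Filter.Tendsto TT Filter.atTop Filter.atTop :=
  Real.tendsto_log_atTop.comp tendsto_natCast_atTop_atTop

lemma tendsto_ll : Filter.Tendsto ll Filter.atTop Filter.atTop :=
  Real.tendsto_log_atTop.comp tendsto_TT

lemma ev_l : ∀ᶠ t : ℕ in Filter.atTop, 8 * ll t * ((ll t) ^ 2 + 1) ≤ TT t := by
  -- l = log T, so polynomial in log T ≤ T
  have h3 : ∀ᶠ x : ℝ in Filter.atTop, ‖Real.log x ^ 4‖ ≤ 1 * ‖x‖ :=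
    (Real.isLittleO_pow_log_id_atTop (n := 4)).def one_pos
  have h3' := tendsto_TT.eventually h3
  filter_upwards [h3', tendsto_ll.eventually (Filter.eventually_ge_atTop (16 : ℝ)),
    tendsto_TT.eventually (Filter.eventually_ge_atTop (1 : ℝ))] with t h1 h2 h4
  have e : Real.log (TT t) = ll t := rfl
  rw [e] at h1
  rw [Real.norm_of_nonneg (by positivity), Real.norm_of_nonneg (by linarith), one_mul] at h1
  refine le_trans ?_ h1
  have : (ll t)^4 = ll t * (ll t)^3 := by ring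
  nlinarith [pow_pos (show (0:ℝ) < ll t by linarith) 2, pow_pos (show (0:ℝ) < ll t by linarith) 3]

lemma ev_t : ∀ᶠ t : ℕ in Filter.atTop, 28 * (TT t) ^ 7 ≤ (t : ℝ) := by
  have h3 : ∀ᶠ x : ℝ in Filter.atTop, ‖Real.log x ^ 7‖ ≤ (1 / 28) * ‖x‖ :=
    (Real.isLittleO_pow_log_id_atTop (n := 7)).def (by norm_num)
  have h3' := tendsto_natCast_atTop_atTop.eventually h3
  filter_upwards [h3', tendsto_TT.eventually (Filter.eventually_ge_atTop (1 : ℝ))] with t h1 h4
  have e : Real.log (t : ℝ) = TT t := rfl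
  rw [e] at h1
  rw [Real.norm_of_nonneg (by positivity), Real.norm_of_nonneg (by positivity)] at h1
  linarith

/-- TARGET -/
theorem num_f : ∀ᶠ t : ℕ in Filter.atTop, 0 < gamJ t ∧
    2 * beta t ≤ betaP t * Real.exp (-(xV t)) ∧ xV t ≤ (t : ℝ) / 20 ∧ 0 < betaP t ∧
    betaP t ≤ 1 ∧ betaP t * (20 * (t : ℝ) ^ 8) ≤ 1 ∧ 0 < beta t ∧ beta t ≤ 1 := by
  filter_upwards [ev_l, ev_t, tendsto_TT.eventually (Filter.eventually_ge_atTop (20 : ℝ)),
    tendsto_ll.eventually (Filter.eventually_ge_atTop (1 : ℝ)),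
    Filter.eventually_ge_atTop 1] with t h1 h2 hT hl ht
  have htpos : (0:ℝ) < t := by exact_mod_cast ht
  have hTpos : (0:ℝ) < TT t := by linarith
  have hlpos : (0:ℝ) < ll t := by linarith
  have hg : 0 < gamJ t := by unfold gamJ; positivity
  have hexp : Real.exp (TT t) = t := Real.exp_log htpos
  -- bound of xV
  have hW : (WW t : ℝ) ≤ (ll t)^2 := Nat.floor_le (by positivity)
  have hM : MM t + 1 + 2 * TT t ≤ 4 * TT t := by
    unfold MM
    nlinarith
  have hxV : xV t ≤ (t:ℝ) / (TT t)^4 := by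
    have a1 : 2 * ((WW t : ℝ) + 1) * (MM t + 1 + 2 * TT t) ≤ 2 * ((ll t)^2 + 1) * (4 * TT t) := by
      have : (0:ℝ) ≤ (WW t : ℝ) := Nat.cast_nonneg _
      have hM0 : 0 ≤ MM t + 1 + 2 * TT t := by unfold MM; positivity
      apply mul_le_mul (by linarith) hM hM0 (by positivity)
    unfold xV
    rw [div_le_div_iff₀ hg (by positivity)]
    have e1 : (t:ℝ) * gamJ t * ll t = (TT t)^6 := by
      unfold gamJ; field_simp
    have a2 : (2 * ((WW t : ℝ) + 1) * (MM t + 1 + 2 * TT t) * (TT t)^4) * ll t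
        ≤ ((t:ℝ) * gamJ t) * ll t := by
      rw [e1]
      calc (2 * ((WW t : ℝ) + 1) * (MM t + 1 + 2 * TT t) * (TT t)^4) * ll t
          ≤ (2 * ((ll t)^2 + 1) * (4 * TT t) * (TT t)^4) * ll t := by gcongr
        _ = (8 * ll t * ((ll t)^2 + 1)) * (TT t)^5 := by ring
        _ ≤ TT t * (TT t)^5 := by gcongr
        _ = (TT t)^6 := by ring
    exact le_of_mul_le_mul_right a2 hlpos
  have hT4 : (20:ℝ) ≤ (TT t)^4 := by
    calc (20:ℝ) ≤ TT t := hT
      _ = (TT t)^1 := (pow_one _).symm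
      _ ≤ (TT t)^4 := pow_le_pow_right₀ (by linarith) (by norm_num)
  have hbig : 28 * TT t ≤ (t:ℝ) / (TT t)^6 := by
    rw [le_div_iff₀ (by positivity)]
    have e5 : 28 * TT t * (TT t)^6 = 28 * (TT t)^7 := by ring
    rw [e5]; exact h2
  refine ⟨hg, ?_, ?_, Real.exp_pos _, ?_, ?_, Real.exp_pos _, ?_⟩
  · unfold beta betaP
    rw [← Real.exp_add]
    have h2e : (2:ℝ) = Real.exp (Real.log 2) := (Real.exp_log (by norm_num)).symm
    rw [h2e, ← Real.exp_add]
    apply Real.exp_le_exp.mpr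
    have hl2 : Real.log 2 ≤ 1 := by
      have := Real.log_two_lt_d9; linarith
    -- set y = t / T^6
    set y : ℝ := (t:ℝ) / (TT t)^6 with hy
    have e3 : (t:ℝ) / (TT t)^3 = y * (TT t)^3 := by rw [hy]; field_simp
    have e4 : (t:ℝ) / (TT t)^4 = y * (TT t)^2 := by rw [hy]; field_simp
    have hypos : 560 ≤ y := by linarith
    rw [e3]
    rw [e4] at hxV
    have : y * (TT t)^3 = y * (TT t)^2 * TT t := by ring
    have hq : (400:ℝ) ≤ (TT t)^2 := by nlinarith
    have hq2 : 560 * 400 ≤ y * (TT t)^2 := by nlinarith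
    nlinarith
  · refine hxV.trans ?_
    gcongr
  · unfold betaP
    rw [Real.exp_le_one_iff]
    have : 0 ≤ (t : ℝ) / (TT t) ^ 6 := by positivity
    linarith
  · unfold betaP
    have h20 : (20:ℝ) ≤ Real.exp 20 := by
      have := Real.add_one_le_exp (20:ℝ); linarith
    have ht8 : (t:ℝ)^8 = Real.exp (8 * TT t) := by
      rw [← hexp, ← Real.exp_nat_mul]; norm_num
      try rw [hexp]
      try rfl
    calc Real.exp (-((t : ℝ) / (TT t) ^ 6)) * (20 * (t : ℝ) ^ 8)
        ≤ Real.exp (-((t : ℝ) / (TT t) ^ 6)) * (Real.exp 20 * Real.exp (8 * TT t)) := by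
          rw [← ht8]; gcongr
      _ = Real.exp (-((t : ℝ) / (TT t) ^ 6) + (20 + 8 * TT t)) := by
          rw [Real.exp_add, Real.exp_add]
      _ ≤ 1 := by
          rw [Real.exp_le_one_iff]; linarith
  · unfold beta
    rw [Real.exp_le_one_iff]
    have : 0 ≤ (t : ℝ) / (TT t) ^ 3 := by positivity
    linarith

end LR.NumF
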