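import Pool.Agent.LR.Params

set_option autoImplicit false

open Finset

namespace LR.NumG


theorem ev_pow_log (n : ℕ) : ∀ᶠ x : ℝ in Filter.atTop, (Real.log x) ^ n ≤ x := by
  have h := (Real.isLittleO_pow_log_id_atTop (n := n)).def (c := 1) one_pos
  filter_upwards [h, Filter.eventually_ge_atTop (0 : ℝ)] with x hx hx0
  rw [one_mul, id_eq, Real.norm_eq_abs, Real.norm_eq_abs, abs_of_nonneg hx0] at hx
  exact (le_abs_self _).trans hx

theorem num_g_aux (t : ℕ) (h1 : 100 ≤ TT t) (h2 : (TT t) ^ 12 ≤ (t : ℝ)) (h3 : 16 ≤ ll t)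
    (h4 : (ll t) ^ 4 ≤ TT t) : 0 < gamC t ∧
    12 * gamC t * Real.log t ≤ Real.log 2 ∧
    60 * Real.log t / t ≤ 1 / 8 ∧ 0 < lam t ∧ lam t ≤ 1 / 8 ∧
    beta t * (16 * (t : ℝ) ^ 2 / gamC t + 4 / lam t + 16 * (t : ℝ) ^ 2) ≤
      Real.exp (-(xE t)) * (Real.exp (-(xV t)) / t) ∧
    betaP t ≤ Real.exp (-(xE t)) / t := by
  have hTT : Real.log (t : ℝ) = TT t := rfl
  rw [hTT]
  have hT0 : 0 < TT t := by linarith
  have hx1 : (1 : ℝ) ≤ t := by
    refine le_trans ?_ h2
    exact one_le_pow₀ (by linarith)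
  have hx0 : (0 : ℝ) < t := by linarith
  have hexp : Real.exp (TT t) = (t : ℝ) := by
    rw [← hTT]; exact Real.exp_log hx0
  have hl0 : 0 < ll t := by linarith
  have hW : (WW t : ℝ) ≤ (ll t) ^ 2 := by
    unfold WW
    exact Nat.floor_le (by positivity)
  have hxVdef : xV t = 2 * ((WW t : ℝ) + 1) * (MM t + 1 + 2 * TT t) / gamJ t := rfl
  have hxEdef : xE t = (12 + 10 / gamC t) * TT t := rfl
  have hgC : gamC t = (TT t) ^ 8 / t := rfl
  have hgJ : gamJ t = (TT t) ^ 6 / (t * ll t) := rfl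
  have hMM : MM t = (ll t) ^ 2 := rfl
  have hlam : lam t = 30 * (60 * TT t / t) * gamC t * TT t := rfl
  have hb : beta t = Real.exp (-((t : ℝ) / (TT t) ^ 3)) := rfl
  have hbP : betaP t = Real.exp (-((t : ℝ) / (TT t) ^ 6)) := rfl
  generalize (WW t : ℝ) = W at *
  generalize TT t = T at *
  generalize ll t = l at *
  generalize (t : ℝ) = x at *
  have hk : ∀ k : ℕ, k ≤ 10 → 10 ^ 4 * T ^ k ≤ x := by
    intro k hk
    have e1 : T ^ k ≤ T ^ 10 := pow_le_pow_right₀ (by linarith) hk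
    have e2 : (10 : ℝ) ^ 4 ≤ T ^ 2 := by nlinarith
    calc 10 ^ 4 * T ^ k ≤ T ^ 2 * T ^ 10 := mul_le_mul e2 e1 (by positivity) (by positivity)
      _ = T ^ 12 := by ring
      _ ≤ x := h2
  have hgC0 : 0 < gamC t := by rw [hgC]; positivity
  have hlam' : lam t = 1800 * T ^ 10 / x ^ 2 := by
    rw [hlam, hgC]
    field_simp
    ring
  have hlam0 : 0 < lam t := by rw [hlam']; positivity
  have hxE : xE t = 12 * T + 10 * x / T ^ 7 := by
    rw [hxEdef, hgC]
    field_simp
  have hgJ0 : 0 < gamJ t := by rw [hgJ]; positivity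
  have hxV : xV t ≤ x / T ^ 4 := by
    rw [hxVdef, div_le_iff₀ hgJ0, hgJ, hMM]
    have e0 : x / T ^ 4 * (T ^ 6 / (x * l)) = T ^ 2 / l := by
      field_simp
    rw [e0, le_div_iff₀ hl0]
    have e1 : W + 1 ≤ 2 * l ^ 2 := by nlinarith
    have e2 : l ^ 2 + 1 ≤ T := by
      have g1 : (256 : ℝ) ≤ l ^ 2 := by nlinarith
      have g2 : 256 * l ^ 2 ≤ l ^ 2 * l ^ 2 := mul_le_mul_of_nonneg_right g1 (by positivity)
      have g3 : l ^ 2 * l ^ 2 = l ^ 4 := by ring
      linarith
    have e3 : l ^ 2 + 1 + 2 * T ≤ 4 * T := by linarith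
    calc 2 * (W + 1) * (l ^ 2 + 1 + 2 * T) * l ≤ 2 * (2 * l ^ 2) * (4 * T) * l := by
          gcongr
      _ = 16 * (l ^ 3 * T) := by ring
      _ ≤ l * (l ^ 3 * T) := mul_le_mul_of_nonneg_right h3 (by positivity)
      _ = l ^ 4 * T := by ring
      _ ≤ T * T := mul_le_mul_of_nonneg_right h4 hT0.le
      _ = T ^ 2 := by ring
  refine ⟨hgC0, ?_, ?_, hlam0, ?_, ?_, ?_⟩
  · have hl2 : (1 : ℝ) / 2 ≤ Real.log 2 := by linarith [Real.log_two_gt_d9]
    refine le_trans ?_ hl2
    have e : 12 * gamC t * T = 12 * T ^ 9 / x := by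
      rw [hgC]; ring
    rw [e, div_le_iff₀ hx0]
    have := hk 9 (by norm_num)
    linarith
  · rw [div_le_iff₀ hx0]
    have := hk 1 (by norm_num)
    rw [pow_one] at this
    linarith
  · rw [hlam', div_le_iff₀ (by positivity)]
    have e1 := hk 10 le_rfl
    have e0 := hk 0 (by norm_num)
    have e2 : x * 10 ^ 4 ≤ x * x := mul_le_mul_of_nonneg_left (by linarith) hx0.le
    have e3 : x ^ 2 = x * x := by ring
    rw [e3]
    linarith
  · -- the main inequality
    have p1 : 16 * x ^ 2 / gamC t ≤ 16 * x ^ 3 := by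
      rw [hgC]
      have e : 16 * x ^ 2 / (T ^ 8 / x) = 16 * x ^ 3 / T ^ 8 := by
        field_simp
      rw [e]
      exact div_le_self (by positivity) (one_le_pow₀ (by linarith))
    have hx23 : x ^ 2 ≤ x ^ 3 := pow_le_pow_right₀ hx1 (by norm_num)
    have p2 : 4 / lam t ≤ x ^ 3 := by
      rw [hlam']
      have e : 4 / (1800 * T ^ 10 / x ^ 2) = (x ^ 2) / (450 * T ^ 10) := by
        field_simp
        norm_num
      rw [e]
      refine (div_le_self (by positivity) ?_).trans hx23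
      have : (1 : ℝ) ≤ T ^ 10 := one_le_pow₀ (by linarith)
      linarith
    have p3 : 16 * x ^ 2 ≤ 16 * x ^ 3 := by linarith
    have hP : 16 * x ^ 2 / gamC t + 4 / lam t + 16 * x ^ 2 ≤ 33 * x ^ 3 := by linarith
    have h33 : (33 : ℝ) ≤ Real.exp T := by
      have := Real.add_one_le_exp T
      linarith
    have hx3 : x ^ 3 = Real.exp (3 * T) := by
      rw [← hexp, ← Real.exp_nat_mul]
      norm_num
    have hP' : 16 * x ^ 2 / gamC t + 4 / lam t + 16 * x ^ 2 ≤ Real.exp (T + 3 * T) := by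
      refine hP.trans ?_
      rw [Real.exp_add, ← hx3]
      exact mul_le_mul_of_nonneg_right h33 (by positivity)
    have hR : Real.exp (-(xE t)) * (Real.exp (-(xV t)) / x) =
        Real.exp (-(xE t) + (-(xV t) - T)) := by
      rw [Real.exp_add, Real.exp_sub, hexp]
    rw [hR, hb]
    calc Real.exp (-(x / T ^ 3)) * (16 * x ^ 2 / gamC t + 4 / lam t + 16 * x ^ 2)
        ≤ Real.exp (-(x / T ^ 3)) * Real.exp (T + 3 * T) :=
          mul_le_mul_of_nonneg_left hP' (Real.exp_pos _).le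
      _ = Real.exp (-(x / T ^ 3) + (T + 3 * T)) := (Real.exp_add _ _).symm
      _ ≤ _ := by
          apply Real.exp_le_exp.mpr
          have key : 17 * T + 10 * x / T ^ 7 + x / T ^ 4 ≤ x / T ^ 3 := by
            have e1 : 17 * T + 10 * x / T ^ 7 + x / T ^ 4 =
                (17 * T ^ 8 + 10 * x + x * T ^ 3) / T ^ 7 := by
              field_simp
            have e2 : x / T ^ 3 = (x * T ^ 4) / T ^ 7 := by
              field_simp
            rw [e1, e2]
            apply div_le_div_of_nonneg_right _ (by positivity)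
            have f1 := hk 8 (by norm_num)
            have f2 : (100 : ℝ) * (x * T ^ 3) ≤ T * (x * T ^ 3) :=
              mul_le_mul_of_nonneg_right h1 (by positivity)
            have f3 : T * (x * T ^ 3) = x * T ^ 4 := by ring
            have f4 : (1 : ℝ) ≤ T ^ 3 := one_le_pow₀ (by linarith)
            have f5 : x * 1 ≤ x * T ^ 3 := mul_le_mul_of_nonneg_left f4 hx0.le
            linarith [f1, f2, f3, f5]
          rw [hxE]
          linarith
  · have hR : Real.exp (-(xE t)) / x = Real.exp (-(xE t) - T) := by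
      rw [Real.exp_sub, hexp]
    rw [hR, hbP]
    apply Real.exp_le_exp.mpr
    rw [hxE]
    have key : 13 * T + 10 * x / T ^ 7 ≤ x / T ^ 6 := by
      have e1 : 13 * T + 10 * x / T ^ 7 = (13 * T ^ 8 + 10 * x) / T ^ 7 := by
        field_simp
      have e2 : x / T ^ 6 = (x * T) / T ^ 7 := by
        field_simp
      rw [e1, e2]
      apply div_le_div_of_nonneg_right _ (by positivity)
      have f1 := hk 8 (by norm_num)
      have f2 : x * 100 ≤ x * T := mul_le_mul_of_nonneg_left h1 hx0.le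
      linarith
    linarith

/-- TARGET -/
theorem num_g : ∀ᶠ t : ℕ in Filter.atTop, 0 < gamC t ∧
    12 * gamC t * Real.log t ≤ Real.log 2 ∧
    60 * Real.log t / t ≤ 1 / 8 ∧ 0 < lam t ∧ lam t ≤ 1 / 8 ∧
    beta t * (16 * (t : ℝ) ^ 2 / gamC t + 4 / lam t + 16 * (t : ℝ) ^ 2) ≤
      Real.exp (-(xE t)) * (Real.exp (-(xV t)) / t) ∧
    betaP t ≤ Real.exp (-(xE t)) / t := by
  have hnat : Filter.Tendsto (fun t : ℕ => (t : ℝ)) Filter.atTop Filter.atTop :=
    tendsto_natCast_atTop_atTop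
  have hT : Filter.Tendsto TT Filter.atTop Filter.atTop := Real.tendsto_log_atTop.comp hnat
  have hl : Filter.Tendsto ll Filter.atTop Filter.atTop := Real.tendsto_log_atTop.comp hT
  filter_upwards [hT.eventually_ge_atTop 100, hnat.eventually (ev_pow_log 12),
    hl.eventually_ge_atTop 16, hT.eventually (ev_pow_log 4)] with t h1 h2 h3 h4
  exact num_g_aux t h1 h2 h3 h4

end LR.NumG
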