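import Pool.Agent.LR.Params

set_option autoImplicit false

open Finset

namespace LR.NumH


theorem num_h_aux (t T l W M q xv bP b : ℝ) (ht : 20 ≤ t) (hT : 5 ≤ T) (hl : 1 ≤ l)
    (hlT : l ^ 2 + 1 ≤ T) (hW0 : 0 ≤ W) (hW : W ≤ l ^ 2) (hM : M = l ^ 2) (hq0 : 0 ≤ q) (hq : q ≤ t)
    (hxv : xv = 2 * (W + 1) * (M + 1 + 2 * T) / (T ^ 6 / (t * l)))
    (hbP : bP = Real.exp (-(t / T ^ 6))) (hb : b = Real.exp (-(t / T ^ 3)))
    (he : 65 * t ^ 12 ≤ Real.exp (t / 20)) :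
    1 ≤ b * Real.exp (2 / 5 * t) ∧
    32 * t ^ 8 / (b * Real.exp (2 / 5 * t)) < 1 / 2 ∧
    8 * t ^ 4 ≤ Real.exp (2 / 5 * t) ∧
    t ^ 7 ≤ Real.exp (-xv) * Real.exp (2 / 5 * t) / t ∧
    20 ≤ Real.exp (-xv) * Real.exp (2 / 5 * t) ∧
    q ^ 2 * (4 * (2 * t ^ 3)) * (2 * t ^ 3) ≤
      (1 / t ^ 4 / 2) * (bP * (Real.exp (-xv) * Real.exp (2 / 5 * t))) := by
  have ht0 : 0 < t := by linarith
  have hT0 : 0 < T := by linarith
  have hl0 : 0 < l := by linarith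
  have hT3 : 125 ≤ T ^ 3 := by
    have : (5 : ℝ) ^ 3 ≤ T ^ 3 := by gcongr
    linarith
  have hT6 : 125 ≤ T ^ 6 := by
    have h1 : (5 : ℝ) ^ 6 ≤ T ^ 6 := by gcongr
    have h2 : (5 : ℝ) ^ 6 = 15625 := by norm_num
    linarith
  have hlT' : l ≤ T := by nlinarith
  have hxv' : xv ≤ t / 20 := by
    rw [hxv]
    have hg : 0 < T ^ 6 / (t * l) := by positivity
    rw [div_le_iff₀ hg]
    have h1 : 2 * (W + 1) * (M + 1 + 2 * T) ≤ 6 * T ^ 2 := by
      have ha : W + 1 ≤ T := by linarith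
      have hb : M + 1 + 2 * T ≤ 3 * T := by rw [hM]; linarith
      have hb0 : 0 ≤ M + 1 + 2 * T := by rw [hM]; positivity
      calc 2 * (W + 1) * (M + 1 + 2 * T) ≤ 2 * T * (3 * T) := by gcongr
        _ = 6 * T ^ 2 := by ring
    have h2 : t / 20 * (T ^ 6 / (t * l)) = T ^ 6 / (20 * l) := by field_simp
    rw [h2, le_div_iff₀ (by positivity)]
    have h3 : 2 * (W + 1) * (M + 1 + 2 * T) * (20 * l) ≤ 6 * T ^ 2 * (20 * T) := by
      gcongr
    have h4 : 6 * T ^ 2 * (20 * T) = 120 * T ^ 3 := by ring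
    have h5 : T ^ 6 = T ^ 3 * T ^ 3 := by ring
    rw [h4] at h3
    rw [h5]
    nlinarith [hT3]
  have hb1 : Real.exp (-(t / 20)) ≤ b := by
    rw [hb]
    apply Real.exp_le_exp.2
    have : t / T ^ 3 ≤ t / 20 := by gcongr; linarith
    linarith
  have hbP1 : Real.exp (-(t / 20)) ≤ bP := by
    rw [hbP]
    apply Real.exp_le_exp.2
    have : t / T ^ 6 ≤ t / 20 := by gcongr; linarith
    linarith
  have e2 : Real.exp (t / 20) ≤ Real.exp (7 / 20 * t) := Real.exp_le_exp.2 (by linarith)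
  have e2' : Real.exp (t / 20) ≤ Real.exp (6 / 20 * t) := Real.exp_le_exp.2 (by linarith)
  have e3 : Real.exp (t / 20) ≤ Real.exp (2 / 5 * t) := Real.exp_le_exp.2 (by linarith)
  have e4 : Real.exp (7 / 20 * t) ≤ b * Real.exp (2 / 5 * t) := by
    calc Real.exp (7 / 20 * t) = Real.exp (-(t / 20)) * Real.exp (2 / 5 * t) := by
          rw [← Real.exp_add]; congr 1; ring
      _ ≤ _ := by gcongr
  have e5 : Real.exp (7 / 20 * t) ≤ Real.exp (-xv) * Real.exp (2 / 5 * t) := by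
    rw [← Real.exp_add]
    apply Real.exp_le_exp.2
    linarith
  have e6 : Real.exp (6 / 20 * t) ≤ bP * (Real.exp (-xv) * Real.exp (2 / 5 * t)) := by
    calc Real.exp (6 / 20 * t) = Real.exp (-(t / 20)) * Real.exp (7 / 20 * t) := by
          rw [← Real.exp_add]; congr 1; ring
      _ ≤ _ := mul_le_mul hbP1 e5 (Real.exp_pos _).le ((Real.exp_pos _).le.trans hbP1)
  have p1 : (1 : ℝ) ≤ t := by linarith
  have pk : ∀ k ≤ 12, t ^ k ≤ t ^ 12 := fun k hk => pow_le_pow_right₀ p1 hk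
  have p0 : (1 : ℝ) ≤ t ^ 12 := one_le_pow₀ p1
  have p8 := pk 8 (by norm_num)
  have p4 := pk 4 (by norm_num)
  have pt : t ≤ t ^ 12 := by simpa using pk 1 (by norm_num)
  have hpos : 0 < b * Real.exp (2 / 5 * t) := lt_of_lt_of_le (Real.exp_pos _) e4
  refine ⟨by linarith, ?_, by linarith, ?_, by linarith, ?_⟩
  · rw [div_lt_iff₀ hpos]
    have : 0 < t ^ 8 := by positivity
    linarith
  · rw [le_div_iff₀ ht0]
    have : t ^ 7 * t = t ^ 8 := by ring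
    rw [this]
    linarith
  · have h1 : q ^ 2 * (4 * (2 * t ^ 3)) * (2 * t ^ 3) ≤ t ^ 2 * (4 * (2 * t ^ 3)) * (2 * t ^ 3) := by
      gcongr
    have h2 : t ^ 2 * (4 * (2 * t ^ 3)) * (2 * t ^ 3) = 16 * t ^ 8 := by ring
    have h3 : (1 / t ^ 4 / 2) * (65 * t ^ 12) ≤
        (1 / t ^ 4 / 2) * (bP * (Real.exp (-xv) * Real.exp (2 / 5 * t))) := by
      apply mul_le_mul_of_nonneg_left _ (by positivity)
      linarith
    have h4 : (1 / t ^ 4 / 2) * (65 * t ^ 12) = 65 / 2 * t ^ 8 := by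
      field_simp
    have : 0 < t ^ 8 := by positivity
    linarith

/-- TARGET -/
theorem num_h : ∀ᶠ t : ℕ in Filter.atTop,
    1 ≤ beta t * Real.exp (2 / 5 * (t : ℝ)) ∧
    32 * (t : ℝ) ^ 8 / (beta t * Real.exp (2 / 5 * (t : ℝ))) < 1 / 2 ∧
    8 * (t : ℝ) ^ 4 ≤ Real.exp (2 / 5 * (t : ℝ)) ∧
    (t : ℝ) ^ 7 ≤ Real.exp (-(xV t)) * Real.exp (2 / 5 * (t : ℝ)) / t ∧
    20 ≤ Real.exp (-(xV t)) * Real.exp (2 / 5 * (t : ℝ)) ∧
    (qq t : ℝ) ^ 2 * (4 * (2 * (t : ℝ) ^ 3)) * (2 * (t : ℝ) ^ 3) ≤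
      (tau t / 2) * (betaP t * (Real.exp (-(xV t)) * Real.exp (2 / 5 * (t : ℝ)))) := by
  have hcast : Filter.Tendsto (fun t : ℕ => (t : ℝ)) Filter.atTop Filter.atTop :=
    tendsto_natCast_atTop_atTop
  have hTT : Filter.Tendsto TT Filter.atTop Filter.atTop := Real.tendsto_log_atTop.comp hcast
  have hll : Filter.Tendsto ll Filter.atTop Filter.atTop := Real.tendsto_log_atTop.comp hTT
  have h1 : ∀ᶠ t in Filter.atTop, 1 ≤ ll t := hll.eventually_ge_atTop 1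
  have h2 : ∀ᶠ t in Filter.atTop, 5 ≤ TT t := hTT.eventually_ge_atTop 5
  have h3 : ∀ᶠ t in Filter.atTop, (ll t) ^ 2 + 1 ≤ TT t := by
    have ho := (Real.isLittleO_pow_log_id_atTop (n := 2)).def (c := 1 / 2) (by norm_num)
    have ho' := hTT.eventually ho
    filter_upwards [ho', h2] with t h4 h5
    have h6 : ‖Real.log (TT t) ^ 2‖ = (ll t) ^ 2 := by
      rw [Real.norm_of_nonneg (by positivity)]; rfl
    rw [h6, id, Real.norm_of_nonneg (by linarith)] at h4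
    linarith
  have h4 : ∀ᶠ t : ℕ in Filter.atTop, 65 * (t : ℝ) ^ 12 ≤ Real.exp ((t : ℝ) / 20) := by
    have h := Real.tendsto_exp_div_pow_atTop 12
    have h5 : Filter.Tendsto (fun t : ℕ => (t : ℝ) / 20) Filter.atTop Filter.atTop :=
      hcast.atTop_div_const (by norm_num)
    have h6 := (h.comp h5).eventually_ge_atTop (65 * 20 ^ 12)
    filter_upwards [h6, Filter.eventually_ge_atTop 1] with t h7 h8
    have h9 : (0 : ℝ) < (t : ℝ) := by exact_mod_cast h8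
    simp only [Function.comp] at h7
    rw [le_div_iff₀ (by positivity)] at h7
    calc 65 * (t : ℝ) ^ 12 = 65 * 20 ^ 12 * ((t : ℝ) / 20) ^ 12 := by ring
      _ ≤ _ := h7
  filter_upwards [h1, h2, h3, h4, Filter.eventually_ge_atTop 20] with t h1 h2 h3 h4 h5
  have ht : (20 : ℝ) ≤ (t : ℝ) := by exact_mod_cast h5
  have ht0 : (0 : ℝ) < (t : ℝ) := by linarith
  have hq : (qq t : ℝ) ≤ t := by
    have h6 : (qq t : ℝ) ≤ Real.exp (TT t / (ll t) ^ 10) := Nat.floor_le (Real.exp_pos _).le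
    have h7 : TT t / (ll t) ^ 10 ≤ TT t := div_le_self (by linarith) (one_le_pow₀ h1)
    calc (qq t : ℝ) ≤ Real.exp (TT t / (ll t) ^ 10) := h6
      _ ≤ Real.exp (TT t) := Real.exp_le_exp.2 h7
      _ = t := Real.exp_log ht0
  exact num_h_aux t (TT t) (ll t) (WW t) (MM t) (qq t) (xV t) (betaP t) (beta t) ht h2 h1 h3
    (Nat.cast_nonneg _) (Nat.floor_le (by positivity)) rfl (Nat.cast_nonneg _) hq rfl rfl rfl h4

end LR.NumH
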