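import Pool.Agent.LR.Params

set_option autoImplicit false

open Finset

namespace LR.NumI


/-- TARGET -/
theorem num_i : ∀ᶠ t : ℕ in Filter.atTop, vv t ≤ MM t + 1 ∧
    (4 / (t : ℝ)) * (MM t + 1 - vv t) + eps3 t ≤ 1 ∧ vv t + 1 + 2 * Real.log t ≤ G0 t ∧
    0 ≤ G0 t ∧ 0 ≤ eps3 t ∧ 0 < tau t ∧ tau t ≤ 1 / 16 := by
  have hT : Filter.Tendsto (fun t : ℕ => TT t) Filter.atTop Filter.atTop :=
    Real.tendsto_log_atTop.comp tendsto_natCast_atTop_atTop
  have hl : Filter.Tendsto (fun t : ℕ => ll t) Filter.atTop Filter.atTop :=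
    Real.tendsto_log_atTop.comp hT
  have e2 : ∀ᶠ t : ℕ in Filter.atTop, (TT t) ^ 4 ≤ 1 / 1000 * (t : ℝ) := by
    have h := (Real.isLittleO_pow_log_id_atTop (n := 4)).def (show (0 : ℝ) < 1 / 1000 by norm_num)
    have h' := tendsto_natCast_atTop_atTop (R := ℝ) |>.eventually h
    filter_upwards [h'] with t ht
    have h3 : ‖(t : ℝ)‖ = t := by rw [Real.norm_eq_abs, abs_of_nonneg (Nat.cast_nonneg t)]
    have h4 : Real.log (t : ℝ) ^ 4 ≤ ‖Real.log (t : ℝ) ^ 4‖ := Real.le_norm_self _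
    unfold TT
    simp only [id] at ht
    rw [h3] at ht
    linarith
  filter_upwards [hl.eventually_ge_atTop 11, e2, Filter.eventually_ge_atTop 3] with t h1 h2 h3
  have ht : (3 : ℝ) ≤ t := by exact_mod_cast h3
  have ht0 : (0 : ℝ) < t := by linarith
  have hTnn : 0 ≤ TT t := Real.log_nonneg (by linarith)
  have hT0 : 0 < TT t := by
    rcases hTnn.lt_or_eq with h | h
    · exact h
    · exfalso
      unfold ll at h1
      rw [← h, Real.log_zero] at h1
      linarith
  have hlT : ll t ≤ TT t := by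
    have := Real.log_le_sub_one_of_pos hT0
    unfold ll
    linarith
  have hT1 : 1 ≤ TT t := by linarith
  have hl0 : 0 < ll t := by linarith
  have hexpl : Real.exp (ll t) = TT t := Real.exp_log hT0
  have hexpT : Real.exp (TT t) = t := Real.exp_log ht0
  -- the value of `lam`
  have hlam : lam t + 1 / (t : ℝ) ^ 2 = (1800 * TT t ^ 10 + 1) / (t : ℝ) ^ 2 := by
    unfold lam gamC
    field_simp
    ring
  have hlog1801 : Real.log 1801 ≤ 10 := by
    rw [Real.log_le_iff_le_exp (by norm_num)]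
    have h5 : Real.exp 10 = Real.exp 1 ^ 10 := by
      rw [← Real.exp_nat_mul]
      norm_num
    rw [h5]
    have h6 : (2.7 : ℝ) ≤ Real.exp 1 := by
      have := Real.exp_one_gt_d9
      linarith
    calc (1801 : ℝ) ≤ 2.7 ^ 10 := by norm_num
      _ ≤ Real.exp 1 ^ 10 := by gcongr
  have hvu : vv t ≤ 10 + 10 * ll t - 2 * TT t + 1 := by
    unfold vv
    rw [hlam]
    have h5 : (1800 * TT t ^ 10 + 1) / (t : ℝ) ^ 2 ≤ 1801 * TT t ^ 10 / (t : ℝ) ^ 2 := by
      apply div_le_div_of_nonneg_right _ (by positivity)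
      have : 1 ≤ TT t ^ 10 := one_le_pow₀ hT1
      linarith
    have h6 := Real.log_le_log (by positivity) h5
    have h9 : Real.log (1801 * TT t ^ 10 / (t : ℝ) ^ 2) =
        Real.log 1801 + 10 * ll t - 2 * TT t := by
      rw [Real.log_div (by positivity) (by positivity), Real.log_mul (by norm_num) (by positivity),
        Real.log_pow, Real.log_pow]
      have h7 : Real.log (TT t) = ll t := rfl
      have h8 : Real.log (t : ℝ) = TT t := rfl
      rw [h7, h8]
      push_cast
      ring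
    linarith
  have hvl : -2 * TT t + 1 ≤ vv t := by
    unfold vv
    rw [hlam]
    have h5 : 1 / (t : ℝ) ^ 2 ≤ (1800 * TT t ^ 10 + 1) / (t : ℝ) ^ 2 := by
      apply div_le_div_of_nonneg_right _ (by positivity)
      have : 0 ≤ TT t ^ 10 := by positivity
      linarith
    have h6 := Real.log_le_log (by positivity) h5
    have h9 : Real.log (1 / (t : ℝ) ^ 2) = - 2 * TT t := by
      rw [Real.log_div (by norm_num) (by positivity), Real.log_one, Real.log_pow]
      have h8 : Real.log (t : ℝ) = TT t := rfl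
      rw [h8]
      push_cast
      ring
    linarith
  have heps1 : gamJ t * Real.log (1 / betaP t) = 1 / ll t := by
    unfold gamJ betaP
    rw [one_div (Real.exp _), ← Real.exp_neg, Real.log_exp]
    field_simp
  have hW : (WW t : ℝ) ≤ TT t ^ 2 := by
    have h5 : (WW t : ℝ) ≤ (ll t) ^ 2 := Nat.floor_le (by positivity)
    have h6 : (ll t) ^ 2 ≤ TT t ^ 2 := pow_le_pow_left₀ hl0.le hlT 2
    linarith
  have hl2 : (ll t) ^ 2 ≤ TT t ^ 2 := pow_le_pow_left₀ hl0.le hlT 2
  have hTT : TT t ≤ TT t ^ 2 := by nlinarith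
  have hT12 : 1 ≤ TT t ^ 2 := one_le_pow₀ hT1
  have hT24 : TT t ^ 2 ≤ TT t ^ 4 := pow_le_pow_right₀ hT1 (by norm_num)
  have htau0 : 0 < tau t := by unfold tau; positivity
  have htau1 : tau t ≤ 1 / t := by
    unfold tau
    apply one_div_le_one_div_of_le ht0
    calc (t : ℝ) = (t : ℝ) ^ 1 := (pow_one _).symm
      _ ≤ (t : ℝ) ^ 4 := pow_le_pow_right₀ (by linarith) (by norm_num)
  have hWnn : (0 : ℝ) ≤ WW t := Nat.cast_nonneg _
  have hMnn : 0 ≤ MM t := by unfold MM; positivity
  have heps2nn : 0 ≤ 2 * ((WW t : ℝ) + 1) * (tau t * (1 + 2 * MM t)) := by positivity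
  have heps2 : 2 * ((WW t : ℝ) + 1) * (tau t * (1 + 2 * MM t)) ≤ 12 / 1000 := by
    have h5 : 2 * ((WW t : ℝ) + 1) ≤ 4 * TT t ^ 2 := by linarith
    have h6 : 1 + 2 * MM t ≤ 3 * TT t ^ 2 := by unfold MM; linarith
    calc 2 * ((WW t : ℝ) + 1) * (tau t * (1 + 2 * MM t)) ≤
          (4 * TT t ^ 2) * ((1 / t) * (3 * TT t ^ 2)) := by
            apply mul_le_mul h5 _ (by positivity) (by positivity)
            exact mul_le_mul htau1 h6 (by positivity) (by positivity)
      _ = 12 * (TT t ^ 4 / t) := by ring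
      _ ≤ 12 * (1 / 1000) := by
          apply mul_le_mul_of_nonneg_left _ (by norm_num)
          rw [div_le_iff₀ ht0]
          exact h2
      _ = 12 / 1000 := by norm_num
  have hfirst : (4 / (t : ℝ)) * (MM t + 1 - vv t) ≤ 12 / 1000 := by
    have h5 : MM t + 1 - vv t ≤ 3 * TT t ^ 4 := by unfold MM; linarith
    calc (4 / (t : ℝ)) * (MM t + 1 - vv t) ≤ (4 / (t : ℝ)) * (3 * TT t ^ 4) :=
          mul_le_mul_of_nonneg_left h5 (by positivity)
      _ = 12 * (TT t ^ 4 / t) := by ring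
      _ ≤ 12 * (1 / 1000) := by
          apply mul_le_mul_of_nonneg_left _ (by norm_num)
          rw [div_le_iff₀ ht0]
          exact h2
      _ = 12 / 1000 := by norm_num
  have hinv : 1 / ll t ≤ 1 / 11 := one_div_le_one_div_of_le (by norm_num) h1
  have hinv0 : 0 < 1 / ll t := by positivity
  refine ⟨?_, ?_, ?_, ?_, ?_, htau0, ?_⟩
  · unfold MM
    nlinarith
  · unfold eps3
    rw [heps1]
    linarith
  · have h8 : Real.log (t : ℝ) = TT t := rfl
    rw [h8]
    unfold G0
    linarith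
  · unfold G0
    linarith
  · unfold eps3
    rw [heps1]
    linarith
  · unfold tau
    apply one_div_le_one_div_of_le (by norm_num)
    have h5 : (3 : ℝ) ^ 4 ≤ (t : ℝ) ^ 4 := pow_le_pow_left₀ (by norm_num) ht 4
    linarith

end LR.NumI
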