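import Pool.Agent.LR.Params

set_option autoImplicit false

open Finset

namespace LR.NumJ

set_option maxHeartbeats 2000000
theorem TT_tendsto_9827 : Filter.Tendsto TT Filter.atTop Filter.atTop :=
  Real.tendsto_log_atTop.comp tendsto_natCast_atTop_atTop

theorem ll_tendsto_9827 : Filter.Tendsto ll Filter.atTop Filter.atTop :=
  Real.tendsto_log_atTop.comp TT_tendsto_9827

theorem exp_pow_9827 : ∀ᶠ x : ℝ in Filter.atTop, 6 * x ^ 11 ≤ Real.exp x := by
  have h := (Real.isLittleO_pow_exp_atTop (n := 11)).bound (c := 1/6) (by norm_num)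
  filter_upwards [h, Filter.eventually_ge_atTop (0:ℝ)] with x hx hx0
  rw [Real.norm_of_nonneg (by positivity), Real.norm_of_nonneg (Real.exp_pos x).le] at hx
  linarith

/-- TARGET -/
theorem num_j : ∀ᶠ t : ℕ in Filter.atTop,
    (((t ^ 3 : ℕ) : ℝ)) / (t : ℝ) ^ 8 ≤ tau t / 2 ∧ 400 * t ^ 2 ≤ t ^ 3 ∧
    20 * (G0 t + tau t * (1 + 2 * MM t)) +
      (20 * (eps3 t + G0 t / ((WW t : ℝ) - 1) + 3 * tau t * MM t) + 8 * tau t * MM t +
        2 * tau t) ≤ MM t / 2 ∧
    2 ≤ theta / MM t * ((qq t : ℝ) - 1) ∧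
    (2 * (t : ℝ) ^ 3 + 1) * Real.exp (-((theta / MM t) ^ 2) * ((qq t : ℝ) - 1) / 4) <
      theta / MM t := by
  filter_upwards [Filter.eventually_ge_atTop 20000, ll_tendsto_9827.eventually_ge_atTop 1000,
    ll_tendsto_9827.eventually exp_pow_9827, TT_tendsto_9827.eventually_ge_atTop 1000]
    with t ht hl hexp hT
  set T := TT t with hTdef
  set l := ll t with hldef
  have htR : (20000:ℝ) ≤ (t:ℝ) := by exact_mod_cast ht
  have hTl : T = Real.exp l := by
    rw [hldef]; unfold ll; rw [Real.exp_log (by linarith)]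
  have htT : (t:ℝ) = Real.exp T := by
    rw [hTdef]; unfold TT; rw [Real.exp_log (by linarith)]
  have hlpos : 0 < l := by linarith
  have hTpos : 0 < T := by linarith
  have hTbig : 500 * l ≤ T := by
    have := Real.quadratic_le_exp_of_nonneg hlpos.le
    rw [hTl]
    nlinarith
  have htbig : l ^ 2 ≤ (t:ℝ) := by
    have := Real.quadratic_le_exp_of_nonneg hTpos.le
    rw [htT]
    nlinarith
  have hq : T ^ 5 ≤ (qq t : ℝ) - 1 := by
    have h1 : Real.exp (T / l ^ 10) < (qq t : ℝ) + 1 := Nat.lt_floor_add_one _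
    have h2 : 6 * l ≤ T / l ^ 10 := by
      rw [le_div_iff₀ (by positivity), hTl]
      calc 6 * l * l ^ 10 = 6 * l ^ 11 := by ring
        _ ≤ _ := hexp
    have h3 : Real.exp (6 * l) ≤ Real.exp (T / l ^ 10) := Real.exp_le_exp.mpr h2
    have h4 : Real.exp (6 * l) = T ^ 6 := by
      rw [hTl, ← Real.exp_nat_mul]; norm_num
    have h5 : T ^ 5 + 2 ≤ T ^ 6 := by
      have h6 : (1:ℝ) ≤ T ^ 5 := one_le_pow₀ (by linarith)
      nlinarith
    linarith
  have hW1 : l ^ 2 - 1 < (WW t : ℝ) := by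
    have h1 : l ^ 2 < (WW t : ℝ) + 1 := Nat.lt_floor_add_one _
    linarith
  have hW2 : (WW t : ℝ) ≤ l ^ 2 := Nat.floor_le (by positivity)
  have hMM : MM t = l ^ 2 := rfl
  have htpos : (0:ℝ) < (t:ℝ) := by linarith
  have htau : tau t = 1 / (t:ℝ) ^ 4 := rfl
  have heps3 : eps3 t = 1 / l + 2 * ((WW t : ℝ) + 1) * (tau t * (1 + 2 * MM t)) := by
    unfold eps3
    have h1 : gamJ t * Real.log (1 / betaP t) = 1 / l := by
      unfold gamJ betaP
      rw [one_div, ← Real.exp_neg, neg_neg, Real.log_exp, ← hTdef, ← hldef]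
      field_simp
    rw [h1]
  have hG0 : G0 t = 10 * l + 12 := rfl
  have hth : theta = 1 / 6000 := rfl
  -- tau bounds
  have htaupos : 0 < tau t := by rw [htau]; positivity
  have htau1 : tau t * (t:ℝ) ^ 2 ≤ 1 / 100 := by
    rw [htau, div_mul_eq_mul_div, div_le_div_iff₀ (by positivity) (by norm_num)]
    have : (100:ℝ) ≤ (t:ℝ) ^ 2 := by nlinarith
    nlinarith [sq_nonneg ((t:ℝ)^2), pow_pos htpos 2]
  have hM1 : tau t * (1 + 2 * MM t) * ((WW t : ℝ) + 1) ≤ 1 / 10 := by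
    have h1 : (1 + 2 * MM t) * ((WW t : ℝ) + 1) ≤ 6 * (t:ℝ) ^ 2 := by
      rw [hMM]
      have h2 : 1 + 2 * l ^ 2 ≤ 3 * (t:ℝ) := by linarith
      have h3 : (WW t : ℝ) + 1 ≤ 2 * (t:ℝ) := by linarith
      have h4 : (0:ℝ) ≤ (WW t : ℝ) := by positivity
      calc (1 + 2 * l ^ 2) * ((WW t : ℝ) + 1) ≤ (3 * (t:ℝ)) * (2 * (t:ℝ)) := by
            apply mul_le_mul h2 h3 (by positivity) (by positivity)
        _ = 6 * (t:ℝ) ^ 2 := by ring
    calc tau t * (1 + 2 * MM t) * ((WW t : ℝ) + 1)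
        = tau t * ((1 + 2 * MM t) * ((WW t : ℝ) + 1)) := by ring
      _ ≤ tau t * (6 * (t:ℝ) ^ 2) := by gcongr
      _ = 6 * (tau t * (t:ℝ) ^ 2) := by ring
      _ ≤ 1 / 10 := by linarith
  have hM2 : tau t * (1 + 2 * MM t) ≤ 1 / 10 := by
    have h1 : (1:ℝ) ≤ (WW t : ℝ) + 1 := by
      have : (0:ℝ) ≤ (WW t : ℝ) := by positivity
      linarith
    have h2 : 0 ≤ tau t * (1 + 2 * MM t) := by rw [hMM]; positivity
    calc tau t * (1 + 2 * MM t) = tau t * (1 + 2 * MM t) * 1 := by ring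
      _ ≤ tau t * (1 + 2 * MM t) * ((WW t : ℝ) + 1) := by gcongr
      _ ≤ _ := hM1
  have hM3 : tau t * MM t ≤ 1 / 10 := by
    have : 0 ≤ tau t * MM t := by rw [hMM]; positivity
    nlinarith
  have hM4 : tau t ≤ 1 / 10 := by
    have : 0 ≤ tau t * MM t := by rw [hMM]; positivity
    nlinarith
  refine ⟨?_, ?_, ?_, ?_, ?_⟩
  · push_cast
    rw [htau, div_div, div_le_div_iff₀ (by positivity) (by positivity)]
    have : (2:ℝ) ≤ (t:ℝ) := by linarith
    nlinarith [pow_pos htpos 7, pow_pos htpos 8, mul_le_mul_of_nonneg_right this (pow_pos htpos 7).le]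
  · have h1 : 400 ≤ t := by omega
    calc 400 * t ^ 2 ≤ t * t ^ 2 := Nat.mul_le_mul_right _ h1
      _ = t ^ 3 := by ring
  · have hG : G0 t / ((WW t : ℝ) - 1) ≤ 1 := by
      rw [div_le_one (by nlinarith), hG0]
      nlinarith
    have hl1 : 1 / l ≤ 1 := by
      rw [div_le_one hlpos]; linarith
    rw [heps3]
    have h9 : 2 * ((WW t : ℝ) + 1) * (tau t * (1 + 2 * MM t)) ≤ 1 / 5 := by
      calc 2 * ((WW t : ℝ) + 1) * (tau t * (1 + 2 * MM t))
          = 2 * (tau t * (1 + 2 * MM t) * ((WW t : ℝ) + 1)) := by ring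
        _ ≤ _ := by linarith
    have h10 : 3 * tau t * MM t ≤ 3 / 10 := by linarith
    have h11 : 8 * tau t * MM t ≤ 8 / 10 := by linarith
    have h12 : MM t / 2 ≥ 500 * l := by rw [hMM]; nlinarith
    rw [hG0] at hG ⊢
    linarith
  · rw [hth, hMM]
    have h1 : 12000 * l ^ 2 ≤ T ^ 5 := by
      have h2 : (12000:ℝ) ≤ T ^ 3 := by nlinarith [pow_pos hTpos 2]
      have h3 : l ^ 2 ≤ T ^ 2 := by nlinarith
      calc 12000 * l ^ 2 ≤ T ^ 3 * T ^ 2 := by
            apply mul_le_mul h2 h3 (by positivity) (by positivity)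
        _ = T ^ 5 := by ring
    have h4 : (12000:ℝ) * l ^ 2 ≤ (qq t : ℝ) - 1 := h1.trans hq
    rw [div_div, div_mul_eq_mul_div, le_div_iff₀ (by positivity)]
    linarith
  · rw [hth, hMM]
    have hkey : 5 * T ≤ ((1 / 6000 / l ^ 2) ^ 2) * ((qq t : ℝ) - 1) / 4 := by
      have h1 : 5 * T * (4 * (6000 ^ 2 * l ^ 4)) ≤ T ^ 5 := by
        have h2 : 720000000 * l ^ 4 ≤ T ^ 4 := by
          have h3 : (500 * l) ^ 4 ≤ T ^ 4 := by gcongr
          have : (0:ℝ) < l ^ 4 := by positivity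
          nlinarith
        calc 5 * T * (4 * (6000 ^ 2 * l ^ 4)) = T * (720000000 * l ^ 4) := by ring
          _ ≤ T * T ^ 4 := by gcongr
          _ = T ^ 5 := by ring
      have h5 : ((1 / 6000 / l ^ 2) ^ 2) * ((qq t : ℝ) - 1) / 4 =
          ((qq t : ℝ) - 1) / (4 * (6000 ^ 2 * l ^ 4)) := by
        field_simp
      rw [h5, le_div_iff₀ (by positivity)]
      exact h1.trans hq
    have hexp2 : Real.exp (-((1 / 6000 / l ^ 2) ^ 2) * ((qq t : ℝ) - 1) / 4) ≤ 1 / (t:ℝ) ^ 5 := by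
      have h1 : (t:ℝ) ^ 5 = Real.exp (5 * T) := by
        rw [htT, ← Real.exp_nat_mul]; norm_num
      rw [h1, one_div (Real.exp (5 * T)), ← Real.exp_neg]
      apply Real.exp_le_exp.mpr
      have : -((1 / 6000 / l ^ 2) ^ 2) * ((qq t : ℝ) - 1) / 4 =
        -(((1 / 6000 / l ^ 2) ^ 2) * ((qq t : ℝ) - 1) / 4) := by ring
      rw [this]
      linarith
    have h3 : (1:ℝ) ≤ (t:ℝ) ^ 3 := one_le_pow₀ (by linarith)
    calc (2 * (t : ℝ) ^ 3 + 1) * Real.exp (-((1 / 6000 / l ^ 2) ^ 2) * ((qq t : ℝ) - 1) / 4)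
        ≤ (3 * (t:ℝ) ^ 3) * (1 / (t:ℝ) ^ 5) := by
          apply mul_le_mul (by linarith) hexp2 (Real.exp_pos _).le (by positivity)
      _ = 3 / (t:ℝ) ^ 2 := by
          field_simp
      _ < 1 / 6000 / l ^ 2 := by
          rw [div_div, div_lt_div_iff₀ (by positivity) (by positivity)]
          nlinarith

end LR.NumJ
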