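import Pool.Agent.LR.Params

set_option autoImplicit false

open Finset

namespace LR.NumK


open Filter Topology in
theorem nk_TT : Tendsto TT atTop atTop := Real.tendsto_log_atTop.comp tendsto_natCast_atTop_atTop

open Filter Topology in
theorem nk_ll : Tendsto ll atTop atTop := Real.tendsto_log_atTop.comp nk_TT

open Filter Topology in
theorem nk_inv : Tendsto (fun t : ℕ => ((t : ℝ))⁻¹) atTop (𝓝 0) :=
  tendsto_inv_atTop_zero.comp tendsto_natCast_atTop_atTop

open Filter Topology in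
theorem nk_linv : Tendsto (fun t : ℕ => (ll t)⁻¹) atTop (𝓝 0) :=
  tendsto_inv_atTop_zero.comp nk_ll

open Filter Topology in
theorem nk_lt : Tendsto (fun t : ℕ => ll t * ((t : ℝ))⁻¹) atTop (𝓝 0) := by
  have h1 : Tendsto (fun t : ℕ => TT t / (t : ℝ)) atTop (𝓝 0) := by
    have := (Real.tendsto_pow_log_div_mul_add_atTop 1 0 1 one_ne_zero).comp (tendsto_natCast_atTop_atTop (R := ℝ))
    simpa [TT, Function.comp_def] using this
  refine squeeze_zero' ?_ ?_ h1
  · filter_upwards [nk_ll.eventually_ge_atTop 0] with t ht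
    positivity
  · filter_upwards [nk_TT.eventually_gt_atTop 0] with t ht
    rw [div_eq_mul_inv]
    apply mul_le_mul_of_nonneg_right _ (by positivity)
    have := Real.log_le_sub_one_of_pos ht
    unfold ll; linarith

open Filter Topology in
theorem nk_tau : Tendsto tau atTop (𝓝 0) := by
  have h := nk_inv.pow 4
  rw [zero_pow (by norm_num)] at h
  refine h.congr (fun t => ?_)
  unfold tau; rw [one_div, inv_pow]

open Filter Topology in
theorem nk_tauM : Tendsto (fun t => tau t * MM t) atTop (𝓝 0) := by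
  have h := (nk_lt.pow 2).mul (nk_inv.pow 2)
  rw [zero_pow (by norm_num), mul_zero] at h
  refine h.congr (fun t => ?_)
  unfold tau MM; rw [one_div]
  rw [mul_pow]
  have : ((t:ℝ) ^ 4)⁻¹ = (t:ℝ)⁻¹ ^ 2 * (t:ℝ)⁻¹ ^ 2 := by
    rw [← inv_pow]; ring
  rw [this]; ring

open Filter Topology in
theorem nk_tauM2 : Tendsto (fun t => tau t * (MM t) ^ 2) atTop (𝓝 0) := by
  have h := (nk_lt.pow 4)
  rw [zero_pow (by norm_num)] at h
  refine h.congr (fun t => ?_)
  unfold tau MM; rw [one_div, mul_pow, inv_pow]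
  ring

open Filter Topology in
theorem nk_W : Tendsto (fun t => G0 t / ((WW t : ℝ) - 1)) atTop (𝓝 0) := by
  have h1 : Tendsto (fun t => (10 * (ll t)⁻¹ + 12 * (ll t)⁻¹ ^ 2) / (1 - 2 * (ll t)⁻¹ ^ 2)) atTop
      (𝓝 ((10 * 0 + 12 * 0 ^ 2) / (1 - 2 * 0 ^ 2))) := by
    refine ((nk_linv.const_mul 10).add ((nk_linv.pow 2).const_mul 12)).div
      (tendsto_const_nhds.sub ((nk_linv.pow 2).const_mul 2)) (by norm_num)
  have e : ((10 * 0 + 12 * 0 ^ 2) / (1 - 2 * 0 ^ 2) : ℝ) = 0 := by norm_num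
  rw [e] at h1
  refine squeeze_zero' ?_ ?_ h1
  · filter_upwards [nk_ll.eventually_ge_atTop 3] with t ht
    have hW : (2:ℝ) ≤ (WW t : ℝ) := by
      have : 2 ≤ WW t := by
        unfold WW; apply Nat.le_floor; push_cast; nlinarith
      exact_mod_cast this
    unfold G0
    apply div_nonneg <;> linarith
  · filter_upwards [nk_ll.eventually_ge_atTop 3] with t ht
    have hL0 : 0 < ll t := by linarith
    have hW : (ll t) ^ 2 - 1 < (WW t : ℝ) := by
      unfold WW; exact Nat.sub_one_lt_floor _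
    have hd : 0 < (ll t) ^ 2 - 2 := by nlinarith
    have e2 : (10 * (ll t)⁻¹ + 12 * (ll t)⁻¹ ^ 2) / (1 - 2 * (ll t)⁻¹ ^ 2) = (10 * ll t + 12) / ((ll t) ^ 2 - 2) := by
      have hne : 1 - 2 * (ll t)⁻¹ ^ 2 ≠ 0 := by
        have : 1 - 2 * (ll t)⁻¹ ^ 2 = ((ll t) ^ 2 - 2) / (ll t) ^ 2 := by field_simp
        rw [this]; positivity
      rw [div_eq_div_iff hne hd.ne']
      field_simp
    rw [e2]
    unfold G0
    apply div_le_div_of_nonneg_left (by linarith) hd (by linarith)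

open Filter Topology in
theorem nk_eps3 : Tendsto eps3 atTop (𝓝 0) := by
  have h1 : Tendsto (fun t => (ll t)⁻¹ + 2 * (tau t + 3 * (tau t * MM t) + 2 * (tau t * (MM t) ^ 2))) atTop
      (𝓝 (0 + 2 * (0 + 3 * 0 + 2 * 0))) :=
    nk_linv.add (((nk_tau.add (nk_tauM.const_mul 3)).add (nk_tauM2.const_mul 2)).const_mul 2)
  have e : ((0:ℝ) + 2 * (0 + 3 * 0 + 2 * 0)) = 0 := by norm_num
  rw [e] at h1
  refine squeeze_zero' ?_ ?_ h1
  · filter_upwards [nk_ll.eventually_ge_atTop 3, nk_TT.eventually_ge_atTop 1] with t ht hT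
    unfold eps3 gamJ betaP tau MM
    have : 0 ≤ Real.log (1 / Real.exp (-((t:ℝ) / TT t ^ 6))) := by
      rw [one_div, ← Real.exp_neg, neg_neg, Real.log_exp]; positivity
    positivity
  · filter_upwards [nk_ll.eventually_ge_atTop 3, nk_TT.eventually_ge_atTop 1, eventually_ge_atTop 1] with t ht hT ht1
    have hL0 : 0 < ll t := by linarith
    have ht0 : (0:ℝ) < t := by exact_mod_cast ht1
    have hT0 : 0 < TT t := by linarith
    have e1 : gamJ t * Real.log (1 / betaP t) = (ll t)⁻¹ := by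
      unfold gamJ betaP
      rw [one_div, ← Real.exp_neg, neg_neg, Real.log_exp]
      field_simp
    have hW : (WW t : ℝ) ≤ (ll t) ^ 2 := by
      unfold WW; exact Nat.floor_le (by positivity)
    have htau : 0 ≤ tau t * (1 + 2 * MM t) := by unfold tau MM; positivity
    have e2 : 2 * ((WW t : ℝ) + 1) * (tau t * (1 + 2 * MM t)) ≤ 2 * (MM t + 1) * (tau t * (1 + 2 * MM t)) := by
      apply mul_le_mul_of_nonneg_right _ htau
      unfold MM; linarith
    unfold eps3
    rw [e1]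
    nlinarith [e2]

open Filter Topology in
theorem nk_G : Tendsto (fun t => (G0 t + tau t * (1 + 2 * MM t)) / MM t) atTop (𝓝 0) := by
  have h1 : Tendsto (fun t => 10 * (ll t)⁻¹ + 12 * (ll t)⁻¹ ^ 2 + tau t * (ll t)⁻¹ ^ 2 + 2 * tau t) atTop
      (𝓝 (10 * 0 + 12 * 0 ^ 2 + 0 * 0 ^ 2 + 2 * 0)) :=
    (((nk_linv.const_mul 10).add ((nk_linv.pow 2).const_mul 12)).add (nk_tau.mul (nk_linv.pow 2))).add
      (nk_tau.const_mul 2)
  have e : ((10:ℝ) * 0 + 12 * 0 ^ 2 + 0 * 0 ^ 2 + 2 * 0) = 0 := by norm_num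
  rw [e] at h1
  refine h1.congr' ?_
  filter_upwards [nk_ll.eventually_ge_atTop 3] with t ht
  have hL0 : 0 < ll t := by linarith
  unfold G0 MM
  field_simp
  ring

open Filter Topology in
theorem nk_17 : Tendsto (fun t : ℕ => 17 * ((t ^ 3 : ℕ) : ℝ) / (t : ℝ) ^ 6) atTop (𝓝 0) := by
  have h1 := (nk_inv.pow 3).const_mul 17
  rw [zero_pow (by norm_num), mul_zero] at h1
  refine h1.congr' ?_
  filter_upwards [eventually_ge_atTop 1] with t ht
  have ht0 : (0:ℝ) < t := by exact_mod_cast ht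
  push_cast
  field_simp

open Filter Topology in
theorem nk_eps : Tendsto eps atTop (𝓝 0) := by
  refine nk_inv.congr (fun t => ?_)
  unfold eps; rw [one_div]

/-- TARGET -/
theorem num_k : ∀ᶠ t : ℕ in Filter.atTop,
    300 * theta + 17 * ((t ^ 3 : ℕ) : ℝ) / (t : ℝ) ^ 6 +
      152 * ((20 * (eps3 t + G0 t / ((WW t : ℝ) - 1) + 3 * tau t * MM t) + 8 * tau t * MM t +
        2 * tau t + eps t) / theta +
        4 * (20 * (G0 t + tau t * (1 + 2 * MM t))) / MM t) +
      38 * (20 * (eps3 t + G0 t / ((WW t : ℝ) - 1) + 3 * tau t * MM t) + 8 * tau t * MM t +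
        2 * tau t + eps t) ≤ 1 / 10 := by
  have hA : Filter.Tendsto (fun t : ℕ => 20 * (eps3 t + G0 t / ((WW t : ℝ) - 1) + 3 * (tau t * MM t)) + 8 * (tau t * MM t) +
        2 * tau t + eps t) Filter.atTop (nhds (20 * (0 + 0 + 3 * 0) + 8 * 0 + 2 * 0 + 0)) :=
    (((((nk_eps3.add nk_W).add (nk_tauM.const_mul 3)).const_mul 20).add (nk_tauM.const_mul 8)).add
      (nk_tau.const_mul 2)).add nk_eps
  have hB : Filter.Tendsto (fun t : ℕ => 300 * theta + 17 * ((t ^ 3 : ℕ) : ℝ) / (t : ℝ) ^ 6 +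
      152 * ((20 * (eps3 t + G0 t / ((WW t : ℝ) - 1) + 3 * (tau t * MM t)) + 8 * (tau t * MM t) +
        2 * tau t + eps t) / theta + 80 * ((G0 t + tau t * (1 + 2 * MM t)) / MM t)) +
      38 * (20 * (eps3 t + G0 t / ((WW t : ℝ) - 1) + 3 * (tau t * MM t)) + 8 * (tau t * MM t) +
        2 * tau t + eps t)) Filter.atTop
      (nhds (300 * theta + 0 + 152 * ((20 * (0 + 0 + 3 * 0) + 8 * 0 + 2 * 0 + 0) / theta + 80 * 0) +
        38 * (20 * (0 + 0 + 3 * 0) + 8 * 0 + 2 * 0 + 0))) :=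
    ((tendsto_const_nhds.add nk_17).add (((hA.div_const theta).add (nk_G.const_mul 80)).const_mul 152)).add
      (hA.const_mul 38)
  have hlt : (300 * theta + 0 + 152 * ((20 * (0 + 0 + 3 * 0) + 8 * 0 + 2 * 0 + 0) / theta + 80 * 0) +
        38 * (20 * (0 + 0 + 3 * 0) + 8 * 0 + 2 * 0 + 0)) < (1:ℝ) / 10 := by
    unfold theta; norm_num
  filter_upwards [hB.eventually (gt_mem_nhds hlt)] with t ht
  refine le_trans (le_of_eq ?_) ht.le
  ring

end LR.NumK
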