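import Pool.Agent.LR.Main
import Pool.Agent.LR.NumA
import Pool.Agent.LR.NumB
import Pool.Agent.LR.NumC
import Pool.Agent.LR.NumD
import Pool.Agent.LR.NumE
import Pool.Agent.LR.NumF
import Pool.Agent.LR.NumG
import Pool.Agent.LR.NumH
import Pool.Agent.LR.NumI
import Pool.Agent.LR.NumJ
import Pool.Agent.LR.NumK

set_option autoImplicit false

open Finset

namespace LR

theorem no_graph : ∀ᶠ t : ℕ in Filter.atTop, ∀ (V : Type) [Fintype V] [DecidableEq V],
    Real.exp ((t : ℝ) / 2) ≤ (Fintype.card V : ℝ) → ∀ G : SimpleGraph V,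
    (∀ S : Finset V, t ^ 3 ≤ S.card → t ≤ om G S) →
    (∀ S : Finset V, t ^ 3 ≤ S.card → t ≤ om Gᶜ S) → False := by
  filter_upwards [NumA.num_a, NumB.num_b, NumC.num_c, NumD.num_d, NumE.num_e, NumF.num_f, NumG.num_g, NumH.num_h, NumI.num_i, NumJ.num_j, NumK.num_k]
    with t na nb nc nd ne nf ng nh ni nj nk
  intro V _ _ hn G hG hGc
  have hGcc : ∀ S : Finset V, t ^ 3 ≤ S.card → t ≤ om Gᶜᶜ S := by
    intro S hS; rw [compl_compl]; exact hG S hS
  have hcardpos : (0 : ℝ) < (Fintype.card V : ℝ) := lt_of_lt_of_le (Real.exp_pos _) hn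
  have hcard : 0 < Fintype.card V := by exact_mod_cast hcardpos
  haveI : Nonempty V := Fintype.card_pos_iff.1 hcard
  obtain ⟨a1, a2, a3, a4, a5, a6, a7, a8⟩ := id na
  obtain ⟨b1, b2, b3, b4, b5, b6⟩ := id nb
  obtain ⟨f1, f2, f3, f4, f5, f6, f7, f8⟩ := id nf
  obtain ⟨h1, h2, h3, h4, h5, h6⟩ := id nh
  obtain ⟨i1, i2, i3, i4, i5, i6, i7⟩ := id ni
  have hqi : ∀ i ≤ LL t, qq t ^ i < t := by
    intro i hi
    have h : qq t ^ i ≤ qq t ^ LL t := Nat.pow_le_pow_right a2 hi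
    have h0 : 1 ≤ qq t ^ LL t := Nat.one_le_pow _ _ a2
    omega
  obtain ⟨V0, hV0ne, hV0size, hV0st⟩ := exists_V0 (V := V) G (LL t) (qq t) t (gamS t) b5 a2
    (by omega) (fun i hi => ⟨cM_le_cube G t _ (hqi i hi) hG _, cM_le_cube Gᶜ t _ (hqi i hi) hGc _⟩)
  have hV0c : Real.exp (2 / 5 * (t : ℝ)) ≤ V0.card := by
    refine le_trans ?_ hV0size
    calc Real.exp (2 / 5 * (t : ℝ)) = Real.exp ((t : ℝ) / 2) * Real.exp (-((t : ℝ) / 10)) := by
          rw [← Real.exp_add]; congr 1; ring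
      _ ≤ (Fintype.card V : ℝ) * Real.exp (-(6 * ((LL t : ℝ) + 1) * Real.log t / gamS t)) := by
          apply mul_le_mul hn _ (Real.exp_pos _).le hcardpos.le
          apply Real.exp_le_exp.2
          linarith
  have hbV : 1 ≤ beta t * (V0.card : ℝ) :=
    h1.trans (mul_le_mul_of_nonneg_left hV0c f7.le)
  obtain ⟨φ, k0, hlev⟩ := mk_lev t na nb nc ⟨nd.1, nd.2.2.1⟩ ⟨f7, f8⟩ h3 V0 hV0ne hV0c G
    (fun Q hQ hQne i hi => (hV0st Q hQ hQne i hi).1) hG hGc
  obtain ⟨φ', k0', hlev'⟩ := mk_lev t na nb nc ⟨nd.1, nd.2.2.1⟩ ⟨f7, f8⟩ h3 V0 hV0ne hV0c Gᶜ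
    (fun Q hQ hQne i hi => (hV0st Q hQ hQne i hi).2) hGc hGcc
  -- the node
  have hcardL : (Fintype.card (Fin (WW t + 1) ⊕ Fin (WW t + 1)) : ℝ) =
      2 * ((WW t : ℝ) + 1) := by
    simp [Fintype.card_sum]; ring
  have hx : Real.exp (-((Fintype.card (Fin (WW t + 1) ⊕ Fin (WW t + 1)) : ℝ) *
      (MM t + 1 + 2 * Real.log t) / gamJ t)) = Real.exp (-(xV t)) := by
    rw [hcardL]; rfl
  obtain ⟨V', hV'V0, hV'c, hst⟩ := exists_node (V := V)
    (Λ := Fin (WW t + 1) ⊕ Fin (WW t + 1))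
    (Sum.elim (fun _ => G) (fun _ => Gᶜ)) (Sum.elim (fun _ => φ) (fun _ => φ'))
    (Sum.elim (fun i => qq t ^ (i : ℕ) * k0) (fun i => qq t ^ (i : ℕ) * k0')) t
    (MM t) (tau t) (betaP t) (gamJ t) (2 * (beta t * (V0.card : ℝ))) (by omega) (by linarith)
    (by
      rintro (i | i)
      · have := hlev.k0pos
        simp only [Sum.elim_inl]
        exact Nat.one_le_iff_ne_zero.2 (by positivity)
      · have := hlev'.k0pos
        simp only [Sum.elim_inr]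
        exact Nat.one_le_iff_ne_zero.2 (by positivity))
    i6.le (by linarith) f4 f5 f1 (by linarith) V0
    (by
      intro Q hQ hQc l
      rcases l with i | i
      · exact lev_exD hlev a2 hbV Q hQ hQc i (by have := i.2; omega)
      · exact lev_exD hlev' a2 hbV Q hQ hQc i (by have := i.2; omega))
    (by
      rw [hx]
      have hV0pos : (0 : ℝ) < V0.card := lt_of_lt_of_le (Real.exp_pos _) hV0c
      calc 2 * (beta t * (V0.card : ℝ)) = (2 * beta t) * V0.card := by ring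
        _ ≤ (betaP t * Real.exp (-(xV t))) * V0.card := mul_le_mul_of_nonneg_right f2 hV0pos.le
        _ = betaP t * (Real.exp (-(xV t)) * V0.card) := by ring)
  rw [hx] at hV'c
  have heps : gamJ t * Real.log (1 / betaP t) +
      (Fintype.card (Fin (WW t + 1) ⊕ Fin (WW t + 1)) : ℝ) * (tau t * (1 + 2 * MM t)) =
      eps3 t := by
    rw [hcardL]; rfl
  rw [heps] at hst
  have hstG : ∀ i ≤ WW t, StabAt G φ (qq t ^ i * k0) t (MM t) (betaP t) (tau t) (eps3 t) V' :=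
    fun i hi => hst (Sum.inl ⟨i, by omega⟩)
  have hstGc : ∀ i ≤ WW t,
      StabAt Gᶜ φ' (qq t ^ i * k0') t (MM t) (betaP t) (tau t) (eps3 t) V' :=
    fun i hi => hst (Sum.inr ⟨i, by omega⟩)
  have hV'pos : (0 : ℝ) < V'.card := by
    have hV0pos : (0 : ℝ) < V0.card := lt_of_lt_of_le (Real.exp_pos _) hV0c
    exact lt_of_lt_of_le (by positivity) hV'c
  have hV'ne : V'.Nonempty := card_pos.1 (by exact_mod_cast hV'pos)
  haveI : Nonempty (Fin (t ^ 3)) := ⟨⟨0, by positivity⟩⟩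
  exact no_saddle G (t ^ 3) (Nat.one_le_pow _ _ (by omega)) V' hV'ne
    (fun a c h => minimax_fin a c h)
    (fun μ hμ hμ1 => colour t na nd ne nf ng nh ni nj nk V0 V' hV0c hV'V0 hV'c G φ k0 hlev
      hstG hGc μ hμ hμ1)
    (fun μ hμ hμ1 => colour t na nd ne nf ng nh ni nj nk V0 V' hV0c hV'V0 hV'c Gᶜ φ' k0' hlev'
      hstGc hGcc μ hμ hμ1)

end LR
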