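import Pool.Agent.LR.E2

set_option autoImplicit false
set_option linter.unusedSectionVars false

open Finset

namespace LR

variable {V : Type} [Fintype V] [DecidableEq V]

omit [Fintype V] [DecidableEq V] in
theorem lc_real {x y w b : ℝ} (hx : 0 ≤ x) (hy : 0 ≤ y) (hw : 0 < w) (hb : 0 ≤ b)
    (h : Real.log (y + w) - b ≤ Real.log (x + w)) (hwy : w ≤ 16 * y) :
    (1 - 17 * b) * y ≤ x := by
  have hxw : 0 < x + w := by linarith
  have hyw : 0 < y + w := by linarith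
  have h1 := Real.exp_le_exp.2 h
  rw [Real.exp_sub, Real.exp_log hxw, Real.exp_log hyw, div_eq_mul_inv, ← Real.exp_neg] at h1
  have h2 := Real.add_one_le_exp (-b)
  have h3 : (y + w) * (-b + 1) ≤ (y + w) * Real.exp (-b) := mul_le_mul_of_nonneg_left h2 hyw.le
  nlinarith

omit [Fintype V] in
theorem lc_nb (H : SimpleGraph V) (x : V) (P Q : Finset V) : nb H x (P ∩ Q) = nb H x P ∩ Q := by
  ext y
  simp only [mem_nb, mem_inter]
  tauto

/-- TARGET -/
theorem local_complete (H : SimpleGraph V) (t φ k q : ℕ) (Q P : Finset V) (hQ : Q.Nonempty)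
    (D : Finset V → ℝ) (hD : IsD H φ k 4 Q D) (M θ v : ℝ)
    (ht : 1 ≤ t) (hk : 1 ≤ k) (hφ : 1 ≤ φ) (hφt : φ ≤ 2 * t ^ 2) (hM : 1 ≤ M) (hθ : 0 < θ)
    (hθ1 : θ ≤ 1 / 4) (hv : ∀ R, v ≤ Phi H k t M Q D R)
    (hv2 : v ≤ -2 * Real.log t + M / 4)
    (hP : Real.log (((P ∩ Q).card : ℝ) / Q.card + 1 / (t : ℝ) ^ 2) +
      M * (1 - iid H k q D P) ≤ v + θ)
    (hq : 2 ≤ θ / M * ((q : ℝ) - 1))
    (hq2 : ((q : ℝ) * (k * φ : ℕ) + 1) * Real.exp (-((θ / M) ^ 2) * ((q : ℝ) - 1) / 4) < θ / M) :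
    (1 - 300 * θ) * ((P ∩ Q).card : ℝ) ^ 2 ≤ eC H (P ∩ Q) (P ∩ Q) := by
  have hM0 : 0 < M := by linarith
  have hN : (0 : ℝ) < Q.card := by exact_mod_cast hQ.card_pos
  have ht0 : (0 : ℝ) < t := by exact_mod_cast ht
  have hw : 0 < 1 / (t : ℝ) ^ 2 := by positivity
  have hκ : 0 < θ / M := div_pos hθ hM0
  have hκ1 : θ / M ≤ 1 := by rw [div_le_one hM0]; linarith
  have hMκ : M * (θ / M) = θ := by field_simp
  have hν : ∀ S : Finset V, 0 ≤ ((S ∩ Q).card : ℝ) / Q.card := fun S => by positivity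
  have hq1 : 1 ≤ q := by
    by_contra hlt
    have : q = 0 := by omega
    subst this
    push_cast at hq
    nlinarith
  have hI := iid_le_hit H k q hk hq1 D hD.nonneg hD.sum_one P
  have hvP := hv P
  unfold Phi at hvP
  -- κ-closeness
  have hclose : hit H k D P - θ / M ≤ iid H k q D P := by
    have h1 : M * (hit H k D P - iid H k q D P) ≤ θ := by nlinarith
    have h2 : hit H k D P - iid H k q D P ≤ θ / M := by
      rw [le_div_iff₀ hM0]; linarith
    linarith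
  have hcross := cross H k q (k * φ) hk D hD.nonneg hD.sum_one
    (fun A hA => ⟨(hD.supp A hA).2.1, (hD.supp A hA).2.2.le⟩) P (θ / M) hκ hκ1 hclose hq hq2
  -- lower bound for the density of P
  have hlogP : -2 * Real.log t ≤ Real.log (((P ∩ Q).card : ℝ) / Q.card + 1 / (t : ℝ) ^ 2) := by
    have h1 : -2 * Real.log t = Real.log (1 / (t : ℝ) ^ 2) := by
      rw [one_div, Real.log_inv, Real.log_pow]; push_cast; ring
    rw [h1]
    apply Real.log_le_log hw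
    linarith [hν P]
  have hMI : M * (1 - hit H k D P) ≤ M * (1 - iid H k q D P) :=
    mul_le_mul_of_nonneg_left (by linarith) hM0.le
  have hhalf : 1 / 2 ≤ hit H k D P := by
    have h1 : M * (1 - hit H k D P) ≤ M * (1 / 2) := by nlinarith
    have h2 := le_of_mul_le_mul_left h1 hM0
    linarith
  have hden : 1 / (t : ℝ) ^ 2 ≤ 16 * (((P ∩ Q).card : ℝ) / Q.card) := by
    have h1 := hit_le H φ k 4 hk Q hQ D hD P
    have h2 : (φ : ℝ) ≤ 2 * (t : ℝ) ^ 2 := by exact_mod_cast hφt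
    have h3 : 4 * (φ : ℝ) * (((P ∩ Q).card : ℝ) / Q.card) ≤
        4 * (2 * (t : ℝ) ^ 2) * (((P ∩ Q).card : ℝ) / Q.card) := by
      apply mul_le_mul_of_nonneg_right _ (hν P)
      linarith
    rw [div_le_iff₀ (by positivity)]
    nlinarith
  have hbase : Real.log (((P ∩ Q).card : ℝ) / Q.card + 1 / (t : ℝ) ^ 2) - θ ≤
      v - M * (1 - hit H k D P) := by linarith
  -- the general step
  have step : ∀ (S : Finset V) (b : ℝ), 0 ≤ b → hit H k D P - b * (θ / M) ≤ hit H k D S →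
      (1 - 17 * ((b + 1) * θ)) * (((P ∩ Q).card : ℝ) / Q.card) ≤ ((S ∩ Q).card : ℝ) / Q.card := by
    intro S b hb hS
    have h1 := hv S
    unfold Phi at h1
    apply lc_real (hν S) (hν P) hw (by positivity) _ hden
    have h2 : M * (1 - hit H k D S) ≤ M * (1 - hit H k D P) + b * θ := by
      have h3 : M * (1 - hit H k D S) ≤ M * (1 - hit H k D P + b * (θ / M)) :=
        mul_le_mul_of_nonneg_left (by linarith) hM0.le
      have h4 : M * (1 - hit H k D P + b * (θ / M)) = M * (1 - hit H k D P) + b * (M * (θ / M)) := by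
        ring
      rw [h4, hMκ] at h3
      exact h3
    linarith
  have hcP : 0 ≤ ((P ∩ Q).card : ℝ) := by positivity
  by_cases hbig : 1 - 153 * θ < 0
  · have h1 : (1 - 300 * θ) * ((P ∩ Q).card : ℝ) ^ 2 ≤ 0 :=
      mul_nonpos_of_nonpos_of_nonneg (by linarith) (by positivity)
    have h2 : (0 : ℝ) ≤ eC H (P ∩ Q) (P ∩ Q) := by positivity
    linarith
  push Not at hbig
  obtain ⟨R, hR⟩ : ∃ R, R = P.filter
    (fun v => hit H k D P - 8 * (θ / M) < hit H k D (nb H v P)) := ⟨_, rfl⟩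
  rw [← hR] at hcross
  have hRP : R ⊆ P := by rw [hR]; exact filter_subset _ _
  have hRcard : (1 - 85 * θ) * ((P ∩ Q).card : ℝ) ≤ ((R ∩ Q).card : ℝ) := by
    have h1 := step R 4 (by norm_num) hcross
    have h2 : (1 - 17 * ((4 + 1) * θ)) * (((P ∩ Q).card : ℝ) / Q.card) =
      ((1 - 85 * θ) * ((P ∩ Q).card : ℝ)) / Q.card := by ring
    rw [h2, div_le_div_iff_of_pos_right hN] at h1
    exact h1
  have hnb : ∀ x ∈ R, (1 - 153 * θ) * ((P ∩ Q).card : ℝ) ≤ ((nb H x (P ∩ Q)).card : ℝ) := by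
    intro x hx
    rw [hR, mem_filter] at hx
    have h1 := step (nb H x P) 8 (by norm_num) hx.2.le
    have h2 : (1 - 17 * ((8 + 1) * θ)) * (((P ∩ Q).card : ℝ) / Q.card) =
      ((1 - 153 * θ) * ((P ∩ Q).card : ℝ)) / Q.card := by ring
    rw [h2, div_le_div_iff_of_pos_right hN] at h1
    rw [lc_nb]
    exact h1
  have hsum : ((R ∩ Q).card : ℝ) * ((1 - 153 * θ) * ((P ∩ Q).card : ℝ)) ≤
      eC H (P ∩ Q) (P ∩ Q) := by
    rw [eC_eq_sum]
    push_cast
    calc ((R ∩ Q).card : ℝ) * ((1 - 153 * θ) * ((P ∩ Q).card : ℝ))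
        = ∑ x ∈ R ∩ Q, (1 - 153 * θ) * ((P ∩ Q).card : ℝ) := by
          rw [sum_const, nsmul_eq_mul]
      _ ≤ ∑ x ∈ R ∩ Q, ((nb H x (P ∩ Q)).card : ℝ) :=
          sum_le_sum (fun x hx => hnb x (mem_inter.1 hx).1)
      _ ≤ ∑ x ∈ P ∩ Q, ((nb H x (P ∩ Q)).card : ℝ) :=
          sum_le_sum_of_subset_of_nonneg (inter_subset_inter_right hRP)
            (fun _ _ _ => by positivity)
  have h3 : (1 - 85 * θ) * ((P ∩ Q).card : ℝ) * ((1 - 153 * θ) * ((P ∩ Q).card : ℝ)) ≤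
      ((R ∩ Q).card : ℝ) * ((1 - 153 * θ) * ((P ∩ Q).card : ℝ)) :=
    mul_le_mul_of_nonneg_right hRcard (mul_nonneg hbig hcP)
  have h4 : (1 - 300 * θ) * ((P ∩ Q).card : ℝ) ^ 2 ≤
      (1 - 85 * θ) * ((P ∩ Q).card : ℝ) * ((1 - 153 * θ) * ((P ∩ Q).card : ℝ)) := by
    have h5 : (1 - 85 * θ) * ((P ∩ Q).card : ℝ) * ((1 - 153 * θ) * ((P ∩ Q).card : ℝ)) =
      ((1 - 85 * θ) * (1 - 153 * θ)) * ((P ∩ Q).card : ℝ) ^ 2 := by ring
    rw [h5]
    apply mul_le_mul_of_nonneg_right _ (by positivity)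
    nlinarith
  linarith

end LR
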