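import Pool.Agent.LR.W1

set_option autoImplicit false
set_option linter.unusedSectionVars false

open Finset

namespace LR

variable {V : Type} [Fintype V] [DecidableEq V]

/-- TARGET -/
theorem G_core (H : SimpleGraph V) (t φ k q : ℕ) (M τ ε δ : ℝ) (R : Finset V) (hR : R.Nonempty)
    (ht : 1 ≤ t) (hk : 1 ≤ k) (hq : 1 ≤ q) (hφ : 1 ≤ φ) (hM : 1 ≤ M)
    (hτ : 0 < τ) (hτ1 : τ ≤ 1 / 16)
    {ι : Type} [Fintype ι] (w : ι → ℝ) (Qs : ι → Finset V) (Ds : ι → Finset V → ℝ)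
    (hw : ∀ j, 0 ≤ w j) (hw1 : ∑ j, w j = 1)
    (hsub : ∀ j, w j ≠ 0 → Qs j ⊆ R ∧ (Qs j).Nonempty ∧ IsD H φ k 4 (Qs j) (Ds j) ∧
      (q : ℝ) ^ 2 * (4 * ((k : ℝ) * φ)) * ((k : ℝ) * φ) ≤ (τ / 2) * (Qs j).card)
    (hmarg : ∀ x ∈ R, (∑ j, if x ∈ Qs j then w j / ((Qs j).card : ℝ) else 0) ≤
      (1 + τ) / (R.card : ℝ))
    (hD0 : ∃ D, IsD H φ (q * k) 2 R D)
    (hJ : J H φ (q * k) t M R ≤ ∑ j, w j * J H φ k t M (Qs j) + δ) :
    ∃ P ⊆ R, Real.log (∑ j, w j *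
        (((P ∩ Qs j).card : ℝ) / ((Qs j).card : ℝ) + 1 / (t : ℝ) ^ 2)) +
      M * (1 - ∑ j, w j * iid H k q (Ds j) P) ≤
      ∑ j, w j * J H φ k t M (Qs j) + (δ + 8 * τ * M + 2 * τ) := by
  have hkq : 1 ≤ q * k := Nat.mul_pos hq hk
  have hτ1' : τ ≤ 1 := by linarith
  -- the mixed distribution
  have hsub' : ∀ j, w j ≠ 0 → Qs j ⊆ R ∧ (Qs j).Nonempty ∧
      IsD H φ (q * k) (4 * (1 + τ)) (Qs j) (powD q (Ds j)) := by
    intro j hj
    obtain ⟨h1, h2, h3, h4⟩ := hsub j hj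
    exact ⟨h1, h2, powD_isD H φ k q hk hq hφ (Qs j) (Ds j) h3 τ hτ hτ1' h4⟩
  have hmix := mix_isD H φ (q * k) (4 * (1 + τ)) τ (by positivity) hτ.le R hR w Qs
    (fun j => powD q (Ds j)) hw hw1 hsub' hmarg
  have hmix2 : IsD H φ (q * k) (4 * (1 + 3 * τ)) R (fun A => ∑ j, w j * powD q (Ds j) A) := by
    refine ⟨hmix.nonneg, hmix.sum_one, hmix.supp, fun x hx => (hmix.marg x hx).trans ?_⟩
    apply mul_le_mul_of_nonneg_right
    · nlinarith
    · positivity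
  have hlip := J_lip H φ (q * k) t M ht (by linarith) hkq R hR (3 * τ) (by positivity)
    (by linarith) _ hmix2 hD0
  obtain ⟨P, hPR, hP⟩ := exists_min_Phi H (q * k) t M R (fun A => ∑ j, w j * powD q (Ds j) A)
  have hP' := hP (fun A hA => (hmix.supp A hA).1)
  refine ⟨P, hPR, ?_⟩
  have hhit : hit H (q * k) (fun A => ∑ j, w j * powD q (Ds j) A) P ≤
      ∑ j, w j * iid H k q (Ds j) P + τ := by
    rw [hit_mix H (q * k) w (fun j => powD q (Ds j)) P]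
    have h1 : ∀ j ∈ Finset.univ, w j * hit H (q * k) (powD q (Ds j)) P ≤
        w j * iid H k q (Ds j) P + w j * τ := by
      intro j _
      rw [← mul_add]
      by_cases hj : w j = 0
      · simp [hj]
      · apply mul_le_mul_of_nonneg_left _ (hw j)
        obtain ⟨h1, h2, h3, h4⟩ := hsub j hj
        have a1 := powD_hit H φ k q hk hq hφ (Qs j) (Ds j) h3 τ hτ hτ1' h4 P
        have a2 := iid_le_hit H k q hk hq (Ds j) h3.nonneg h3.sum_one P
        have a3 := hit_le_one H φ k 4 hk (Qs j) (Ds j) h3 P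
        nlinarith
    refine (Finset.sum_le_sum h1).trans ?_
    rw [Finset.sum_add_distrib, ← Finset.sum_mul, hw1, one_mul]
  have hlog := log_avg_le R hR w Qs τ hτ.le hw hw1
    (fun j hj => ⟨(hsub j hj).1, (hsub j hj).2.1⟩) hmarg P (1 / (t : ℝ) ^ 2) (by positivity)
  unfold Phi at hP'
  have hM0 : 0 ≤ M := by linarith
  have hmul := mul_le_mul_of_nonneg_left hhit hM0
  have hτM : 0 ≤ τ * M := by positivity
  linarith
end LR
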