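import Pool.Agent.LR.F2

set_option autoImplicit false
set_option linter.unusedSectionVars false

open Finset

namespace LR

variable {V : Type} [Fintype V] [DecidableEq V]

theorem sum_card_filter {N : ℕ} (P : Finset V) (g : V → Fin N) :
    ∑ c, ((P.filter (fun x => g x = c)).card : ℝ) = P.card := by
  have h := Finset.card_eq_sum_card_fiberwise (f := g) (s := P) (t := Finset.univ)
    (fun x _ => Finset.mem_coe.2 (Finset.mem_univ _))
  rw [h]
  push_cast
  rfl

theorem eC_div_le (H : SimpleGraph V) (A : Finset V) :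
    (eC H A A : ℝ) / (A.card : ℝ) ≤ A.card := by
  have h := eC_le H A A
  rcases Nat.eq_zero_or_pos A.card with h0 | h0
  · rw [h0]; simp
  · have h0' : (0 : ℝ) < A.card := by exact_mod_cast h0
    rw [div_le_iff₀ h0']
    exact_mod_cast h

/-- TARGET 1 -/
theorem payP_le {N : ℕ} (H : SimpleGraph V) (P : Finset V) (g : V → Fin N) :
    0 ≤ payP H P g ∧ payP H P g ≤ P.card := by
  refine ⟨?_, ?_⟩
  · unfold payP
    exact Finset.sum_nonneg fun c _ => by positivity
  · rw [← sum_card_filter P g]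
    unfold payP
    exact Finset.sum_le_sum fun c _ => eC_div_le H _

theorem eC_add_compl_le (H : SimpleGraph V) (A : Finset V) :
    eC H A A + eC Hᶜ A A ≤ A.card * A.card := by
  classical
  unfold eC
  rw [← Finset.card_union_of_disjoint]
  · rw [← Finset.card_product]
    refine Finset.card_le_card fun p hp => ?_
    simp only [mem_union, mem_filter] at hp
    rcases hp with h | h
    · exact h.1
    · exact h.1
  · rw [Finset.disjoint_left]
    intro p hp hp'
    simp only [mem_filter, SimpleGraph.compl_adj] at hp hp'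
    exact hp'.2.2 hp.2

theorem eC_add_compl_div_le (H : SimpleGraph V) (A : Finset V) :
    (eC H A A : ℝ) / (A.card : ℝ) + (eC Hᶜ A A : ℝ) / (A.card : ℝ) ≤ A.card := by
  have h := eC_add_compl_le H A
  rcases Nat.eq_zero_or_pos A.card with h0 | h0
  · rw [h0]; simp
  · have h0' : (0 : ℝ) < A.card := by exact_mod_cast h0
    rw [← add_div, div_le_iff₀ h0']
    exact_mod_cast h

/-- TARGET 2 -/
theorem pay_add_le {N : ℕ} (H : SimpleGraph V) (V' : Finset V) (f g : V → Fin N) :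
    pay H V' f g + pay Hᶜ V' g f ≤ V'.card := by
  have h1 : pay Hᶜ V' g f = ∑ b, ∑ c, (eC Hᶜ ((V'.filter (fun x => f x = b)).filter (fun x => g x = c))
      ((V'.filter (fun x => f x = b)).filter (fun x => g x = c)) : ℝ) /
      (((V'.filter (fun x => f x = b)).filter (fun x => g x = c)).card : ℝ) := by
    unfold pay payP
    rw [Finset.sum_comm]
    refine Finset.sum_congr rfl fun b _ => Finset.sum_congr rfl fun c _ => ?_
    have h2 : (V'.filter (fun x => g x = c)).filter (fun x => f x = b) =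
        (V'.filter (fun x => f x = b)).filter (fun x => g x = c) := by
      ext x; simp only [mem_filter]; tauto
    rw [h2]
  rw [h1]
  unfold pay payP
  rw [← Finset.sum_add_distrib]
  rw [← sum_card_filter V' f]
  refine Finset.sum_le_sum fun b _ => ?_
  rw [← Finset.sum_add_distrib, ← sum_card_filter (V'.filter (fun x => f x = b)) g]
  exact Finset.sum_le_sum fun c _ => eC_add_compl_div_le H _

/-- TARGET 3 -/
theorem exists_label (H : SimpleGraph V) (t N s : ℕ) (ht : 1 ≤ t) (hN : 1 ≤ N) (η : ℝ)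
    (hη : 0 ≤ η) (hη1 : η ≤ 1) (V' : Finset V) (hs : 1 ≤ s) (hsV : 2 * s ≤ V'.card)
    (μ : (V → Fin N) → ℝ) (hμ : ∀ g, 0 ≤ μ g)
    (hclaim : ∀ R ⊆ V', s ≤ R.card → s ≤ (V' \ R).card → ∃ P ⊆ R, P.Nonempty ∧
      R.card ≤ 17 * t ^ 2 * P.card ∧ (1 - η) * (P.card : ℝ) ≤ ∑ g, μ g * payP H P g)
    (hNs : 17 * t ^ 2 * V'.card + s ≤ N * s) :
    ∃ f : V → Fin N, (1 - η) * ((V'.card : ℝ) - 2 * s) ≤ ∑ g, μ g * pay H V' f g := by
  classical
  obtain ⟨R0, hR0, hR0c⟩ := exists_subset_card_eq (show s ≤ V'.card by omega)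
  obtain ⟨n, X, hX, hdisj, hrest⟩ := greedy_parts (V' \ R0)
    (fun P => s ≤ 17 * t ^ 2 * P.card ∧ (1 - η) * (P.card : ℝ) ≤ ∑ g, μ g * payP H P g) s
    (by
      intro R hR hRs
      have hRV : R ⊆ V' := hR.trans sdiff_subset
      have h1 : R0 ⊆ V' \ R := by
        intro x hx
        rw [mem_sdiff]
        exact ⟨hR0 hx, fun h => (mem_sdiff.1 (hR h)).2 hx⟩
      obtain ⟨P, hP, hPn, hPc, hPp⟩ := hclaim R hRV hRs (by rw [← hR0c]; exact card_le_card h1)
      exact ⟨P, hP, hPn, hRs.trans hPc, hPp⟩)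
  have hXV : ∀ i, X i ⊆ V' := fun i => (hX i).1.trans sdiff_subset
  have hunion : (Finset.univ.biUnion X).card = ∑ i, (X i).card :=
    card_biUnion fun i _ j _ hij => hdisj i j hij
  have hUW : Finset.univ.biUnion X ⊆ V' \ R0 := by
    intro x hx
    obtain ⟨i, -, hi⟩ := mem_biUnion.1 hx
    exact (hX i).1 hi
  have hsum : n * s ≤ 17 * t ^ 2 * V'.card := by
    calc n * s = ∑ i : Fin n, s := by simp
      _ ≤ ∑ i : Fin n, 17 * t ^ 2 * (X i).card := Finset.sum_le_sum fun i _ => (hX i).2.2.1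
      _ = 17 * t ^ 2 * (Finset.univ.biUnion X).card := by rw [hunion, Finset.mul_sum]
      _ ≤ 17 * t ^ 2 * V'.card := Nat.mul_le_mul_left _ (card_le_card (hUW.trans sdiff_subset))
  have hnN : n + 1 ≤ N := by
    have h1 : (n + 1) * s ≤ N * s := by
      calc (n + 1) * s = n * s + s := by ring
        _ ≤ 17 * t ^ 2 * V'.card + s := Nat.add_le_add_right hsum _
        _ ≤ N * s := hNs
    exact Nat.le_of_mul_le_mul_right h1 (by omega)
  let emb : Fin n → Fin N := fun i => ⟨i.1, by have := i.2; omega⟩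
  have hemb : Function.Injective emb := by
    intro i j hij
    have h : (emb i).1 = (emb j).1 := congrArg Fin.val hij
    exact Fin.ext h
  let f : V → Fin N := fun x => if h : ∃ i, x ∈ X i then emb h.choose else ⟨N - 1, by omega⟩
  have hf : ∀ i x, x ∈ X i → f x = emb i := by
    intro i x hx
    have h : ∃ i, x ∈ X i := ⟨i, hx⟩
    have h2 : f x = emb h.choose := dif_pos h
    rw [h2]
    congr 1
    by_contra hne
    exact (Finset.disjoint_left.1 (hdisj _ _ hne)) h.choose_spec hx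
  have hf' : ∀ x, (¬ ∃ i, x ∈ X i) → ∀ i, f x ≠ emb i := by
    intro x h i hfi
    have h2 : f x = ⟨N - 1, by omega⟩ := dif_neg h
    rw [h2] at hfi
    have h3 : N - 1 = i.1 := congrArg Fin.val hfi
    have := i.2
    omega
  have hcell : ∀ i, V'.filter (fun x => f x = emb i) = X i := by
    intro i
    ext x
    rw [mem_filter]
    constructor
    · rintro ⟨hxV, hfx⟩
      by_cases h : ∃ j, x ∈ X j
      · obtain ⟨j, hj⟩ := h
        have h1 := hf j x hj
        rw [hfx] at h1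
        rw [hemb h1]
        exact hj
      · exact absurd hfx (hf' x h i)
    · intro hx
      exact ⟨hXV i hx, hf i x hx⟩
  refine ⟨f, ?_⟩
  have hswap : ∑ g, μ g * pay H V' f g =
      ∑ b, ∑ g, μ g * payP H (V'.filter (fun x => f x = b)) g := by
    unfold pay
    simp_rw [Finset.mul_sum]
    rw [Finset.sum_comm]
  rw [hswap]
  have hnn : ∀ b, 0 ≤ ∑ g, μ g * payP H (V'.filter (fun x => f x = b)) g := fun b =>
    Finset.sum_nonneg fun g _ => mul_nonneg (hμ g) (payP_le H _ g).1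
  have h1 : ∑ i, ∑ g, μ g * payP H (X i) g ≤
      ∑ b, ∑ g, μ g * payP H (V'.filter (fun x => f x = b)) g := by
    calc ∑ i, ∑ g, μ g * payP H (X i) g
        = ∑ i, ∑ g, μ g * payP H (V'.filter (fun x => f x = emb i)) g := by
          refine Finset.sum_congr rfl fun i _ => ?_
          rw [hcell i]
      _ = ∑ b ∈ Finset.univ.image emb, ∑ g, μ g * payP H (V'.filter (fun x => f x = b)) g := by
          rw [Finset.sum_image fun i _ j _ h => hemb h]
      _ ≤ _ := Finset.sum_le_sum_of_subset_of_nonneg (Finset.subset_univ _) fun b _ _ => hnn b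
  have h2 : (1 - η) * ∑ i, ((X i).card : ℝ) ≤ ∑ i, ∑ g, μ g * payP H (X i) g := by
    rw [Finset.mul_sum]
    exact Finset.sum_le_sum fun i _ => (hX i).2.2.2
  have h3 : (V'.card : ℝ) - 2 * s ≤ ∑ i, ((X i).card : ℝ) := by
    have h4 : (V' \ R0).card = V'.card - s := by
      rw [card_sdiff_of_subset hR0, hR0c]
    have h5 : ((V' \ R0) \ Finset.univ.biUnion X).card =
        (V' \ R0).card - (Finset.univ.biUnion X).card := card_sdiff_of_subset hUW
    have h6 := card_le_card hUW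
    have h7 : V'.card ≤ ∑ i, (X i).card + 2 * s := by
      rw [← hunion]
      omega
    have h8 : (V'.card : ℝ) ≤ ∑ i, ((X i).card : ℝ) + 2 * s := by exact_mod_cast h7
    linarith
  calc (1 - η) * ((V'.card : ℝ) - 2 * s) ≤ (1 - η) * ∑ i, ((X i).card : ℝ) :=
        mul_le_mul_of_nonneg_left h3 (by linarith)
    _ ≤ _ := h2.trans h1

/-- TARGET 4 -/
theorem no_saddle (H : SimpleGraph V) (N : ℕ) (hN : 1 ≤ N) (V' : Finset V) (hV' : V'.Nonempty)
    (hmm : ∀ (a : (V → Fin N) → (V → Fin N) → ℝ) (c : ℝ),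
      (∀ μ : (V → Fin N) → ℝ, (∀ j, 0 ≤ μ j) → ∑ j, μ j = 1 → ∃ i, c ≤ ∑ j, μ j * a i j) →
      ∃ l : (V → Fin N) → ℝ, (∀ i, 0 ≤ l i) ∧ ∑ i, l i = 1 ∧ ∀ j, c ≤ ∑ i, l i * a i j)
    (h1 : ∀ μ : (V → Fin N) → ℝ, (∀ j, 0 ≤ μ j) → ∑ j, μ j = 1 →
      ∃ f : V → Fin N, (2 / 3) * (V'.card : ℝ) ≤ ∑ g, μ g * pay H V' f g)
    (h2 : ∀ μ : (V → Fin N) → ℝ, (∀ j, 0 ≤ μ j) → ∑ j, μ j = 1 →
      ∃ f : V → Fin N, (2 / 3) * (V'.card : ℝ) ≤ ∑ g, μ g * pay Hᶜ V' f g) : False := by
  obtain ⟨l, hl0, hl1, hl⟩ := hmm (fun f g => pay H V' f g) ((2 / 3) * (V'.card : ℝ)) h1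
  obtain ⟨g, hg⟩ := h2 l hl0 hl1
  have h3 := hl g
  have h4 : ∑ f, l f * pay H V' f g + ∑ f, l f * pay Hᶜ V' g f ≤ V'.card := by
    rw [← Finset.sum_add_distrib]
    calc ∑ f, (l f * pay H V' f g + l f * pay Hᶜ V' g f)
        ≤ ∑ f, l f * (V'.card : ℝ) := Finset.sum_le_sum fun f _ => by
          rw [← mul_add]
          exact mul_le_mul_of_nonneg_left (pay_add_le H V' f g) (hl0 f)
      _ = V'.card := by rw [← Finset.sum_mul, hl1, one_mul]
  have h5 : (0 : ℝ) < V'.card := by exact_mod_cast hV'.card_pos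
  linarith

end LR
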