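import Pool.Agent.LR.G3

set_option autoImplicit false
set_option linter.unusedSectionVars false

open Finset

namespace LR

variable {V : Type} [Fintype V] [DecidableEq V]

theorem gc_alg1 (p t : ℝ) (ht : 0 < t) : 17 * t ^ 2 * p / t ^ 8 = 17 / t ^ 6 * p := by
  field_simp

theorem gc_alg2 (r p τ : ℝ) (hr : 0 < r) : r * ((1 + τ) * (p / r)) = (1 + τ) * p := by
  field_simp

theorem gc_filter {N : ℕ} {P R : Finset V} (hP : P ⊆ R) (g : V → Fin N) (c : Fin N) :
    P.filter (fun x => g x = c) = P ∩ part R (g, c) := by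
  ext x
  simp only [part, mem_filter, mem_inter]
  constructor
  · rintro ⟨h1, h2⟩; exact ⟨h1, hP h1, h2⟩
  · rintro ⟨h1, _, h2⟩; exact ⟨h1, h2⟩

theorem gc_sum_mu {N : ℕ} {P R : Finset V} (hP : P ⊆ R) (μ : (V → Fin N) → ℝ)
    (hμ1 : ∑ g, μ g = 1) :
    ∑ j : (V → Fin N) × Fin N, μ j.1 * ((P ∩ part R j).card : ℝ) = P.card := by
  rw [Fintype.sum_prod_type]
  have h1 : ∀ g : V → Fin N, ∑ c, μ g * ((P ∩ part R (g, c)).card : ℝ) = μ g * P.card := by
    intro g
    rw [← mul_sum]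
    congr 1
    have h2 := Finset.card_eq_sum_card_fiberwise (f := g) (s := P) (t := Finset.univ)
      (fun x _ => by simp)
    rw [h2]
    push_cast
    apply sum_congr rfl
    intro c _
    rw [gc_filter hP]
  simp only [h1]
  rw [← sum_mul, hμ1, one_mul]

theorem gc_pay {N : ℕ} (H : SimpleGraph V) {P R : Finset V} (hP : P ⊆ R)
    (μ : (V → Fin N) → ℝ) :
    ∑ g, μ g * payP H P g = ∑ j : (V → Fin N) × Fin N, μ j.1 *
      ((eC H (P ∩ part R j) (P ∩ part R j) : ℝ) / ((P ∩ part R j).card : ℝ)) := by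
  rw [Fintype.sum_prod_type]
  apply sum_congr rfl
  intro g _
  unfold payP
  rw [mul_sum]
  apply sum_congr rfl
  intro c _
  rw [gc_filter hP]

theorem gc_sum_const {N : ℕ} (μ : (V → Fin N) → ℝ) (hμ1 : ∑ g, μ g = 1) (y : ℝ) :
    ∑ j : (V → Fin N) × Fin N, μ j.1 * y = N * y := by
  rw [Fintype.sum_prod_type]
  simp only [sum_const, card_univ, Fintype.card_fin, nsmul_eq_mul]
  rw [← mul_sum, ← sum_mul, hμ1, one_mul]

theorem gc_small {N : ℕ} (t : ℕ) (ht : 1 ≤ t) (R P : Finset V) (hR : R.Nonempty)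
    (μ : (V → Fin N) → ℝ) (hμ : ∀ g, 0 ≤ μ g) (hpos : 0 < totW t R μ)
    (j : (V → Fin N) × Fin N) (hj : nW t R μ j = 0) :
    μ j.1 * ((P ∩ part R j).card : ℝ) ≤ μ j.1 * ((R.card : ℝ) / (t : ℝ) ^ 8) := by
  have hRc : (0 : ℝ) < R.card := by exact_mod_cast hR.card_pos
  have ht0 : (0 : ℝ) < (t : ℝ) ^ 8 := by positivity
  have hle : ((P ∩ part R j).card : ℝ) ≤ ((part R j).card : ℝ) := by
    exact_mod_cast card_le_card inter_subset_right
  have hb : bigW t R μ j = 0 := by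
    unfold nW at hj
    rcases div_eq_zero_iff.1 hj with h | h
    · exact h
    · exact absurd h hpos.ne'
  unfold bigW at hb
  split_ifs at hb with hc
  · have h1 : μ j.1 * ((part R j).card : ℝ) = 0 := by
      rcases div_eq_zero_iff.1 hb with h | h
      · exact h
      · exact absurd h hRc.ne'
    have h2 : μ j.1 * ((P ∩ part R j).card : ℝ) ≤ μ j.1 * ((part R j).card : ℝ) :=
      mul_le_mul_of_nonneg_left hle (hμ _)
    have h3 : 0 ≤ μ j.1 * ((R.card : ℝ) / (t : ℝ) ^ 8) := mul_nonneg (hμ _) (by positivity)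
    linarith
  · apply mul_le_mul_of_nonneg_left _ (hμ _)
    rw [le_div_iff₀ ht0]
    push Not at hc
    have h1 : ((t : ℝ) ^ 8) * ((part R j).card : ℝ) < R.card := by exact_mod_cast hc
    nlinarith

theorem gc_big {N : ℕ} (t : ℕ) (R P : Finset V) (hR : R.Nonempty)
    (μ : (V → Fin N) → ℝ) (hμ : ∀ g, 0 ≤ μ g) (hpos : 0 < totW t R μ) (hle : totW t R μ ≤ 1)
    (j : (V → Fin N) × Fin N) (hj : nW t R μ j ≠ 0) :
    μ j.1 * ((P ∩ part R j).card : ℝ) ≤
      R.card * (nW t R μ j * (((P ∩ part R j).card : ℝ) / ((part R j).card : ℝ))) := by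
  have hRc : (0 : ℝ) < R.card := by exact_mod_cast hR.card_pos
  obtain ⟨h1, h2, h3⟩ := nW_supp t R hR μ j hj
  have hpc : (0 : ℝ) < (part R j).card := by exact_mod_cast h2.card_pos
  have hb : bigW t R μ j = μ j.1 * ((part R j).card : ℝ) / R.card := by
    unfold bigW
    rw [if_pos h3]
  have hb0 : 0 ≤ bigW t R μ j := by
    rw [hb]; exact div_nonneg (mul_nonneg (hμ _) hpc.le) hRc.le
  have hw : bigW t R μ j ≤ nW t R μ j := by
    unfold nW
    rw [le_div_iff₀ hpos]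
    nlinarith
  have h4 : μ j.1 * ((P ∩ part R j).card : ℝ) =
      R.card * (bigW t R μ j * (((P ∩ part R j).card : ℝ) / ((part R j).card : ℝ))) := by
    rw [hb]; field_simp
  rw [h4]
  apply mul_le_mul_of_nonneg_left _ hRc.le
  apply mul_le_mul_of_nonneg_right hw
  positivity

set_option maxHeartbeats 4000000 in
/-- TARGET -/
theorem G_claim (H : SimpleGraph V) (t φ k q N : ℕ) (M τ θ ε δ G η : ℝ) (R : Finset V)
    (hR : R.Nonempty)
    (ht : 2 ≤ t) (hk : 1 ≤ k) (hq1 : 1 ≤ q) (hφ : 1 ≤ φ) (hφt : φ ≤ 2 * t ^ 2) (hM : 1 ≤ M)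
    (hN : 1 ≤ N)
    (hτ : 0 < τ) (hτ1 : τ ≤ 1 / 16) (hθ : 0 < θ) (hθ1 : θ ≤ 1 / 4) (hε : 0 < ε) (hδ : 0 ≤ δ)
    (hG0 : 0 ≤ G)
    (μ : (V → Fin N) → ℝ) (hμ : ∀ g, 0 ≤ μ g) (hμ1 : ∑ g, μ g = 1)
    (hNt : (N : ℝ) / (t : ℝ) ^ 8 ≤ τ / 2)
    (hbig : ∀ Q ⊆ R, R.card ≤ t ^ 8 * Q.card → (∃ D, IsD H φ k 4 Q D) ∧
      (q : ℝ) ^ 2 * (4 * ((k : ℝ) * φ)) * ((k : ℝ) * φ) ≤ (τ / 2) * Q.card)
    (hD0 : ∃ D, IsD H φ (q * k) 2 R D)
    (hJ : J H φ (q * k) t M R ≤ ∑ j, nW t R μ j * J H φ k t M (part R j) + δ)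
    (hG : ∑ j, nW t R μ j * (J H φ k t M (part R j) + 2 * Real.log t) ≤ G)
    (hGM : G + (δ + 8 * τ * M + 2 * τ) ≤ M / 2)
    (hq : 2 ≤ θ / M * ((q : ℝ) - 1))
    (hq2 : ((q : ℝ) * (k * φ : ℕ) + 1) * Real.exp (-((θ / M) ^ 2) * ((q : ℝ) - 1) / 4) < θ / M)
    (hη : 300 * θ + 17 * N / (t : ℝ) ^ 6 +
      152 * ((δ + 8 * τ * M + 2 * τ + ε) / θ + 4 * G / M) +
      38 * (δ + 8 * τ * M + 2 * τ + ε) ≤ η) :
    ∃ P ⊆ R, P.Nonempty ∧ R.card ≤ 17 * t ^ 2 * P.card ∧
      (1 - η) * (P.card : ℝ) ≤ ∑ g, μ g * payP H P g := by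
  have ht1 : 1 ≤ t := by omega
  have hM0 : 0 < M := by linarith
  have htr : (0 : ℝ) < t := by exact_mod_cast ht1
  have hRc : (0 : ℝ) < R.card := by exact_mod_cast hR.card_pos
  have hs : 0 < 1 / (t : ℝ) ^ 2 := by positivity
  obtain ⟨htw1, htw2⟩ := totW_bounds t ht1 R hR μ hμ hμ1
  have hpos : 0 < totW t R μ := by linarith
  obtain ⟨w, hwdef⟩ : ∃ w : (V → Fin N) × Fin N → ℝ, w = nW t R μ := ⟨_, rfl⟩
  have hwj : ∀ j, nW t R μ j = w j := by intro j; rw [hwdef]
  have hw0 : ∀ j, 0 ≤ w j := by intro j; rw [hwdef]; exact nW_nonneg t R μ hμ j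
  have hw1 : ∑ j, w j = 1 := by rw [hwdef]; exact nW_sum t R μ hpos
  have hsupp : ∀ j, w j ≠ 0 → part R j ⊆ R ∧ (part R j).Nonempty ∧
      R.card ≤ t ^ 8 * (part R j).card := by
    intro j hj; rw [hwdef] at hj; exact nW_supp t R hR μ j hj
  have hmarg : ∀ x ∈ R, (∑ j, if x ∈ part R j then w j / ((part R j).card : ℝ) else 0) ≤
      (1 + τ) / (R.card : ℝ) := by
    intro x hx
    rw [hwdef]
    exact nW_marg t ht1 R hR μ hμ hμ1 τ hτ (by linarith) hNt x hx
  simp only [hwj] at hJ hG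
  obtain ⟨K, hK⟩ : ∃ K : (V → Fin N) × Fin N → ℝ, K = fun j => J H φ k t M (part R j) := ⟨_, rfl⟩
  have hKj : ∀ j, J H φ k t M (part R j) = K j := by intro j; rw [hK]
  -- choice of the distributions
  have hDs : ∀ j, ∃ D : Finset V → ℝ, w j ≠ 0 → IsD H φ k 4 (part R j) D ∧
      J H φ k t M (part R j) - ε ≤ valD H k t M (part R j) D := by
    intro j
    by_cases hj : w j = 0
    · exact ⟨fun _ => 0, fun h => absurd hj h⟩
    · obtain ⟨h1, h2, h3⟩ := hsupp j hj
      obtain ⟨D, hD1, hD2⟩ := exists_near_J H φ k t M (part R j) (hbig _ h1 h3).1 ε hε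
      exact ⟨D, fun _ => ⟨hD1, hD2⟩⟩
  choose Ds hDs using hDs
  obtain ⟨P, hPR, hcore⟩ := G_core H t φ k q M τ ε δ R hR ht1 hk hq1 hφ hM hτ hτ1 w (part R) Ds
    hw0 hw1 (fun j hj => ⟨(hsupp j hj).1, (hsupp j hj).2.1, (hDs j hj).1,
      (hbig _ (hsupp j hj).1 (hsupp j hj).2.2).2⟩) hmarg hD0 hJ
  obtain ⟨δ0, hδ0⟩ : ∃ δ0, δ0 = δ + 8 * τ * M + 2 * τ := ⟨_, rfl⟩
  have hδ0pos : 0 ≤ δ0 := by
    rw [hδ0]
    have : 0 ≤ 8 * τ * M := by positivity
    linarith
  rw [← hδ0] at hcore hGM hη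
  obtain ⟨ν, hν⟩ : ∃ ν : (V → Fin N) × Fin N → ℝ,
    ν = fun j => ((P ∩ part R j).card : ℝ) / ((part R j).card : ℝ) := ⟨_, rfl⟩
  have hνj : ∀ j, ((P ∩ part R j).card : ℝ) / ((part R j).card : ℝ) = ν j := by
    intro j; rw [hν]
  have hν0 : ∀ j, 0 ≤ ν j := by
    intro j; rw [← hνj]; exact div_nonneg (Nat.cast_nonneg _) (Nat.cast_nonneg _)
  obtain ⟨u, hu⟩ : ∃ u : (V → Fin N) × Fin N → ℝ, u = fun j => ν j + 1 / (t : ℝ) ^ 2 := ⟨_, rfl⟩
  have huj : ∀ j, ν j + 1 / (t : ℝ) ^ 2 = u j := by intro j; rw [hu]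
  have hu0 : ∀ j, 0 < u j := by intro j; rw [hu]; have := hν0 j; positivity
  obtain ⟨I, hI⟩ : ∃ I : (V → Fin N) × Fin N → ℝ, I = fun j => iid H k q (Ds j) P := ⟨_, rfl⟩
  have hIj : ∀ j, iid H k q (Ds j) P = I j := by intro j; rw [hI]
  simp only [hνj, huj, hIj, hKj] at hcore
  simp only [hKj] at hG
  -- facts for indices in the support
  have hval : ∀ j, w j ≠ 0 → ∀ P', K j - ε ≤ Phi H k t M (part R j) (Ds j) P' := by
    intro j hj P'
    have h1 := (hDs j hj).2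
    rw [hKj] at h1
    exact h1.trans (valD_le_Phi H k t M _ _ _)
  have hIhit : ∀ j, w j ≠ 0 → I j ≤ hit H k (Ds j) P := by
    intro j hj
    rw [← hIj]
    exact iid_le_hit H k q hk hq1 (Ds j) (hDs j hj).1.nonneg (hDs j hj).1.sum_one P
  obtain ⟨b, hb⟩ : ∃ b : (V → Fin N) × Fin N → ℝ,
    b = fun j => Real.log (u j) + M * (1 - I j) - K j := ⟨_, rfl⟩
  have hbj : ∀ j, b j = Real.log (u j) + M * (1 - I j) - K j := by intro j; rw [hb]
  have hb0 : ∀ j, w j ≠ 0 → 0 ≤ b j + ε := by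
    intro j hj
    have h1 := hval j hj P
    unfold Phi at h1
    rw [hνj, huj] at h1
    have h2 : M * (1 - hit H k (Ds j) P) ≤ M * (1 - I j) :=
      mul_le_mul_of_nonneg_left (by linarith [hIhit j hj]) hM0.le
    rw [hbj]
    linarith
  have hK0 : ∀ j, w j ≠ 0 → 0 ≤ K j + 2 * Real.log t := by
    intro j hj
    have h1 := J_ge H φ k t M ht1 hM0.le hk (part R j) ⟨Ds j, (hDs j hj).1⟩
    rw [hKj] at h1
    linarith
  -- Jensen
  have hjensen : ∑ j, w j * Real.log (u j) ≤ Real.log (∑ j, w j * u j) := by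
    have := strictConcaveOn_log_Ioi.concaveOn.le_map_sum (t := Finset.univ) (w := w) (p := u)
      (fun i _ => hw0 i) hw1 (fun i _ => hu0 i)
    simpa [smul_eq_mul] using this
  have hsumb : ∑ j, w j * b j = ∑ j, w j * Real.log (u j) + M * (1 - ∑ j, w j * I j) -
      ∑ j, w j * K j := by
    have h1 : ∀ j, w j * b j = w j * Real.log (u j) + (M * w j - M * (w j * I j)) - w j * K j := by
      intro j; rw [hbj]; ring
    simp only [h1, sum_sub_distrib, sum_add_distrib, ← mul_sum, hw1]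
    ring
  have hA : Real.log (∑ j, w j * u j) - ∑ j, w j * Real.log (u j) + ∑ j, w j * b j ≤ δ0 := by
    rw [hsumb]; linarith
  have hnn1 : 0 ≤ ∑ j, w j * (b j + ε) := by
    apply sum_nonneg
    intro j _
    by_cases hj : w j = 0
    · rw [hj, zero_mul]
    · exact mul_nonneg (hw0 j) (hb0 j hj)
  have hbe : ∑ j, w j * (b j + ε) = ∑ j, w j * b j + ε := by
    simp only [mul_add, sum_add_distrib, ← sum_mul, hw1, one_mul]
  have hB1 : ∑ j, w j * (b j + ε) ≤ δ0 + ε := by rw [hbe]; linarith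
  have hB2 : Real.log (∑ j, w j * u j) - ∑ j, w j * Real.log (u j) ≤ δ0 + ε := by
    linarith
  -- size of P
  have hwu : ∑ j, w j * u j = ∑ j, w j * ν j + 1 / (t : ℝ) ^ 2 := by
    simp only [← huj, mul_add, sum_add_distrib, ← sum_mul, hw1, one_mul]
  have hwν0 : 0 ≤ ∑ j, w j * ν j := sum_nonneg fun j _ => mul_nonneg (hw0 j) (hν0 j)
  have hlogt : Real.log (1 / (t : ℝ) ^ 2) = -2 * Real.log t := by
    rw [one_div, Real.log_inv, Real.log_pow]; push_cast; ring
  have hlogu : -2 * Real.log t ≤ Real.log (∑ j, w j * u j) := by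
    rw [← hlogt]
    apply Real.log_le_log hs
    rw [hwu]; linarith
  have hwK : ∑ j, w j * K j ≤ G - 2 * Real.log t := by
    have h1 : ∑ j, w j * (K j + 2 * Real.log t) = ∑ j, w j * K j + 2 * Real.log t := by
      simp only [mul_add, sum_add_distrib, ← sum_mul, hw1, one_mul]
    rw [h1] at hG
    linarith
  have hhalf : 1 / 2 ≤ ∑ j, w j * I j := by
    have h1 : M * (1 - ∑ j, w j * I j) ≤ M * (1 / 2) := by linarith
    have h2 := le_of_mul_le_mul_left h1 hM0
    linarith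
  have hIν : ∀ j, w j * I j ≤ 8 * (t : ℝ) ^ 2 * (w j * ν j) := by
    intro j
    by_cases hj : w j = 0
    · rw [hj]; simp
    · have h1 := hIhit j hj
      have h2 := hit_le H φ k 4 hk (part R j) (hsupp j hj).2.1 (Ds j) (hDs j hj).1 P
      rw [hνj] at h2
      have h3 : (φ : ℝ) ≤ 2 * (t : ℝ) ^ 2 := by exact_mod_cast hφt
      have h4 : 4 * (φ : ℝ) * ν j ≤ 4 * (2 * (t : ℝ) ^ 2) * ν j := by
        apply mul_le_mul_of_nonneg_right _ (hν0 j)
        linarith
      have h5 : I j ≤ 8 * (t : ℝ) ^ 2 * ν j := by linarith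
      have h6 := mul_le_mul_of_nonneg_left h5 (hw0 j)
      linarith
  have havg : ∑ j, w j * ν j ≤ (1 + τ) * ((P.card : ℝ) / R.card) := by
    have h1 := avg_le R hR w (part R) τ hτ.le hw0
      (fun j hj => ⟨(hsupp j hj).1, (hsupp j hj).2.1⟩) hmarg P
    simp only [hνj] at h1
    rwa [inter_eq_left.2 hPR] at h1
  have hsize : (R.card : ℝ) ≤ 16 * (1 + τ) * (t : ℝ) ^ 2 * P.card := by
    have h1 : ∑ j, w j * I j ≤ 8 * (t : ℝ) ^ 2 * ∑ j, w j * ν j := by
      rw [mul_sum]; exact sum_le_sum fun j _ => hIν j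
    have h2 : 8 * (t : ℝ) ^ 2 * ∑ j, w j * ν j ≤
        8 * (t : ℝ) ^ 2 * ((1 + τ) * ((P.card : ℝ) / R.card)) :=
      mul_le_mul_of_nonneg_left havg (by positivity)
    have h3 : 1 / 2 ≤ 8 * (t : ℝ) ^ 2 * ((1 + τ) * ((P.card : ℝ) / R.card)) := by linarith
    have h4 : 8 * (t : ℝ) ^ 2 * ((1 + τ) * ((P.card : ℝ) / R.card)) =
        (8 * (t : ℝ) ^ 2 * (1 + τ) * P.card) / R.card := by ring
    rw [h4, le_div_iff₀ hRc] at h3
    linarith
  have hPne : P.Nonempty := by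
    rw [nonempty_iff_ne_empty]
    intro h0
    have h1 : (P.card : ℝ) = 0 := by rw [h0, card_empty, Nat.cast_zero]
    rw [h1, mul_zero] at hsize
    linarith
  have hPc : (0 : ℝ) < P.card := by exact_mod_cast hPne.card_pos
  have hsize17 : (R.card : ℝ) ≤ 17 * (t : ℝ) ^ 2 * P.card := by
    have h1 : 16 * (1 + τ) ≤ 17 := by linarith
    have h2 : 16 * (1 + τ) * ((t : ℝ) ^ 2 * P.card) ≤ 17 * ((t : ℝ) ^ 2 * P.card) :=
      mul_le_mul_of_nonneg_right h1 (mul_nonneg (sq_nonneg _) (Nat.cast_nonneg _))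
    linarith
  refine ⟨P, hPR, hPne, by exact_mod_cast hsize17, ?_⟩
  -- the payoff
  obtain ⟨β, hβ⟩ : ∃ β, β = (δ0 + ε) / θ + 4 * G / M := ⟨_, rfl⟩
  have hβ0 : 0 ≤ β := by rw [hβ]; positivity
  rw [← hβ] at hη
  obtain ⟨X, hX⟩ : ∃ X, X = 17 * N / (t : ℝ) ^ 6 + 19 * (8 * β + 2 * (δ0 + ε)) := ⟨_, rfl⟩
  have hX0 : 0 ≤ X := by rw [hX]; positivity
  have hXη : 300 * θ + X ≤ η := by rw [hX]; linarith
  have hpay0 : ∀ j : (V → Fin N) × Fin N, 0 ≤ μ j.1 *
      ((eC H (P ∩ part R j) (P ∩ part R j) : ℝ) / ((P ∩ part R j).card : ℝ)) := by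
    intro j
    exact mul_nonneg (hμ _) (div_nonneg (Nat.cast_nonneg _) (Nat.cast_nonneg _))
  rw [gc_pay H hPR]
  by_cases hneg : 1 - 300 * θ < 0
  · have h1 : (1 - η) * (P.card : ℝ) ≤ 0 := by
      apply mul_nonpos_of_nonpos_of_nonneg _ hPc.le
      linarith
    have h2 := sum_nonneg (s := (Finset.univ : Finset ((V → Fin N) × Fin N)))
      fun j _ => hpay0 j
    linarith
  push Not at hneg
  -- the bad indices
  classical
  obtain ⟨B, hBdef⟩ : ∃ B : Finset ((V → Fin N) × Fin N), B = Finset.univ.filter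
    (fun j => w j ≠ 0 ∧ (θ < b j + ε ∨ M / 4 < K j + 2 * Real.log t)) := ⟨_, rfl⟩
  have hBmem : ∀ j, j ∈ B ↔ (w j ≠ 0 ∧ (θ < b j + ε ∨ M / 4 < K j + 2 * Real.log t)) := by
    intro j; rw [hBdef]; simp
  have hBw : ∑ j ∈ B, w j ≤ β := by
    have hterm : ∀ j, 0 ≤ w j * ((b j + ε) / θ + 4 * (K j + 2 * Real.log t) / M) := by
      intro j
      by_cases hj : w j = 0
      · rw [hj, zero_mul]
      · apply mul_nonneg (hw0 j)
        have := hb0 j hj
        have := hK0 j hj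
        positivity
    calc ∑ j ∈ B, w j ≤ ∑ j ∈ B, w j * ((b j + ε) / θ + 4 * (K j + 2 * Real.log t) / M) := by
          apply sum_le_sum
          intro j hj
          obtain ⟨h1, h2⟩ := (hBmem j).1 hj
          have h3 := hb0 j h1
          have h4 := hK0 j h1
          have h5 : 0 ≤ (b j + ε) / θ := by positivity
          have h6 : 0 ≤ 4 * (K j + 2 * Real.log t) / M := by positivity
          have h7 : 1 ≤ (b j + ε) / θ + 4 * (K j + 2 * Real.log t) / M := by
            rcases h2 with h2 | h2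
            · have : 1 ≤ (b j + ε) / θ := by rw [le_div_iff₀ hθ]; linarith
              linarith
            · have : 1 ≤ 4 * (K j + 2 * Real.log t) / M := by rw [le_div_iff₀ hM0]; linarith
              linarith
          have h8 := mul_le_mul_of_nonneg_left h7 (hw0 j)
          linarith
      _ ≤ ∑ j, w j * ((b j + ε) / θ + 4 * (K j + 2 * Real.log t) / M) :=
          sum_le_sum_of_subset_of_nonneg (subset_univ _) (fun j _ _ => hterm j)
      _ = (∑ j, w j * (b j + ε)) / θ + 4 * (∑ j, w j * (K j + 2 * Real.log t)) / M := by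
          have h1 : ∀ j, w j * ((b j + ε) / θ + 4 * (K j + 2 * Real.log t) / M) =
              (w j * (b j + ε)) / θ + 4 * (w j * (K j + 2 * Real.log t)) / M := by
            intro j; ring
          simp only [h1, sum_add_distrib, ← sum_div, ← mul_sum]
      _ ≤ β := by
          rw [hβ]
          apply add_le_add
          · exact div_le_div_of_nonneg_right hB1 hθ.le
          · apply div_le_div_of_nonneg_right _ hM0.le
            linarith
  have hbad := bad_weight w u hw0 hw1 hu0 (δ0 + ε) β B hBw hB2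
  -- mass of the exceptional indices
  have hexc : ∑ j ∈ Finset.univ.filter (fun j => w j = 0 ∨ j ∈ B),
      μ j.1 * ((P ∩ part R j).card : ℝ) ≤ X * P.card := by
    have hsplit : ∑ j ∈ Finset.univ.filter (fun j => w j = 0 ∨ j ∈ B),
        μ j.1 * ((P ∩ part R j).card : ℝ) ≤
        ∑ j : (V → Fin N) × Fin N, μ j.1 * ((R.card : ℝ) / (t : ℝ) ^ 8) +
          ∑ j ∈ B, (R.card : ℝ) * (w j * u j) := by
      have e1 : Finset.univ.filter (fun j => w j = 0 ∨ j ∈ B) =
          Finset.univ.filter (fun j => w j = 0) ∪ B := by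
        ext j; simp only [mem_filter, mem_univ, true_and, mem_union]
      have hdisj : Disjoint (Finset.univ.filter (fun j => w j = 0)) B := by
        rw [Finset.disjoint_left]
        intro j h1 h2
        rw [mem_filter] at h1
        exact ((hBmem j).1 h2).1 h1.2
      rw [e1, sum_union hdisj]
      apply add_le_add
      · calc ∑ j ∈ Finset.univ.filter (fun j => w j = 0), μ j.1 * ((P ∩ part R j).card : ℝ)
            ≤ ∑ j ∈ Finset.univ.filter (fun j => w j = 0), μ j.1 * ((R.card : ℝ) / (t : ℝ) ^ 8) := by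
              apply sum_le_sum
              intro j hj
              rw [mem_filter] at hj
              apply gc_small t ht1 R P hR μ hμ hpos j
              rw [hwj]; exact hj.2
          _ ≤ _ := sum_le_sum_of_subset_of_nonneg (subset_univ _)
              (fun j _ _ => mul_nonneg (hμ _) (div_nonneg (Nat.cast_nonneg _)
                (pow_nonneg htr.le 8)))
      · apply sum_le_sum
        intro j hj
        have h1 := ((hBmem j).1 hj).1
        have h2 := gc_big t R P hR μ hμ hpos htw2 j (by rw [hwj]; exact h1)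
        rw [hwj, hνj] at h2
        refine h2.trans ?_
        apply mul_le_mul_of_nonneg_left _ hRc.le
        apply mul_le_mul_of_nonneg_left _ (hw0 j)
        rw [← huj]; linarith
    have hfirst : ∑ j : (V → Fin N) × Fin N, μ j.1 * ((R.card : ℝ) / (t : ℝ) ^ 8) ≤
        17 * N / (t : ℝ) ^ 6 * P.card := by
      rw [gc_sum_const μ hμ1]
      have h1 : (R.card : ℝ) / (t : ℝ) ^ 8 ≤ (17 * (t : ℝ) ^ 2 * P.card) / (t : ℝ) ^ 8 :=
        div_le_div_of_nonneg_right hsize17 (by positivity)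
      have h2 : (17 * (t : ℝ) ^ 2 * P.card) / (t : ℝ) ^ 8 = 17 / (t : ℝ) ^ 6 * P.card :=
        gc_alg1 _ _ htr
      rw [h2] at h1
      have h3 := mul_le_mul_of_nonneg_left h1 (Nat.cast_nonneg N : (0 : ℝ) ≤ N)
      have h4 : (N : ℝ) * (17 / (t : ℝ) ^ 6 * P.card) = 17 * N / (t : ℝ) ^ 6 * P.card := by ring
      linarith
    have hsecond : ∑ j ∈ B, (R.card : ℝ) * (w j * u j) ≤
        19 * (8 * β + 2 * (δ0 + ε)) * P.card := by
      rw [← mul_sum]
      have h1 : (R.card : ℝ) * ∑ j, w j * u j ≤ 19 * P.card := by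
        rw [hwu]
        have h2 : (R.card : ℝ) * (∑ j, w j * ν j) ≤ R.card * ((1 + τ) * ((P.card : ℝ) / R.card)) :=
          mul_le_mul_of_nonneg_left havg hRc.le
        have h3 : (R.card : ℝ) * ((1 + τ) * ((P.card : ℝ) / R.card)) = (1 + τ) * P.card :=
          gc_alg2 _ _ _ hRc
        have h4 : (R.card : ℝ) * (1 / (t : ℝ) ^ 2) ≤ 16 * (1 + τ) * P.card := by
          rw [mul_one_div, div_le_iff₀ (by positivity)]
          linarith
        have h5 : (1 + τ) * (P.card : ℝ) ≤ (17 / 16) * P.card :=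
          mul_le_mul_of_nonneg_right (by linarith) hPc.le
        rw [mul_add]
        linarith
      have hc0 : 0 ≤ 8 * β + 2 * (δ0 + ε) := by positivity
      calc (R.card : ℝ) * ∑ j ∈ B, w j * u j
          ≤ R.card * ((8 * β + 2 * (δ0 + ε)) * ∑ j, w j * u j) :=
            mul_le_mul_of_nonneg_left hbad hRc.le
        _ = (8 * β + 2 * (δ0 + ε)) * (R.card * ∑ j, w j * u j) := by ring
        _ ≤ (8 * β + 2 * (δ0 + ε)) * (19 * P.card) := mul_le_mul_of_nonneg_left h1 hc0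
        _ = _ := by ring
    rw [hX, add_mul]
    linarith
  -- good indices
  have hgood : ∀ j, (1 - 300 * θ) * (μ j.1 * ((P ∩ part R j).card : ℝ)) -
      (if w j = 0 ∨ j ∈ B then (1 - 300 * θ) * (μ j.1 * ((P ∩ part R j).card : ℝ)) else 0) ≤
      μ j.1 * ((eC H (P ∩ part R j) (P ∩ part R j) : ℝ) / ((P ∩ part R j).card : ℝ)) := by
    intro j
    split_ifs with hj
    · rw [sub_self]; exact hpay0 j
    · push Not at hj
      obtain ⟨hj1, hj2⟩ := hj
      rw [hBmem] at hj2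
      push Not at hj2
      obtain ⟨g1, g2⟩ := hj2 hj1
      rw [sub_zero]
      rcases Nat.eq_zero_or_pos (P ∩ part R j).card with h0 | h0
      · rw [h0]; simp
      have hc := local_complete H t φ k q (part R j) P (hsupp j hj1).2.1 (Ds j) (hDs j hj1).1 M θ
        (K j - ε) ht1 hk hφ hφt hM hθ hθ1 (hval j hj1) (by linarith) (by
          rw [hνj, huj, hIj]
          have := hbj j
          linarith) hq hq2
      have hn : (0 : ℝ) < (P ∩ part R j).card := by exact_mod_cast h0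
      have h1 : (1 - 300 * θ) * ((P ∩ part R j).card : ℝ) ≤
          (eC H (P ∩ part R j) (P ∩ part R j) : ℝ) / ((P ∩ part R j).card : ℝ) := by
        rw [le_div_iff₀ hn]
        have : (1 - 300 * θ) * ((P ∩ part R j).card : ℝ) * ((P ∩ part R j).card : ℝ) =
          (1 - 300 * θ) * ((P ∩ part R j).card : ℝ) ^ 2 := by ring
        rw [this]; exact hc
      have h2 := mul_le_mul_of_nonneg_left h1 (hμ j.1)
      linarith
  have hsum := sum_le_sum (s := (Finset.univ : Finset ((V → Fin N) × Fin N)))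
    fun j _ => hgood j
  rw [sum_sub_distrib, ← mul_sum, gc_sum_mu hPR μ hμ1, ← sum_filter, ← mul_sum] at hsum
  have h3 := mul_le_mul_of_nonneg_left hexc hneg
  have h4 : (1 - η) * (P.card : ℝ) ≤ (1 - 300 * θ) * P.card - (1 - 300 * θ) * (X * P.card) := by
    have h5 : (1 - 300 * θ) * (P.card : ℝ) - (1 - 300 * θ) * (X * P.card) =
      ((1 - 300 * θ) * (1 - X)) * P.card := by ring
    rw [h5]
    apply mul_le_mul_of_nonneg_right _ hPc.le
    have h6 : 0 ≤ θ * X := mul_nonneg hθ.le hX0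
    have h7 : (1 - 300 * θ) * (1 - X) = 1 - 300 * θ - X + 300 * (θ * X) := by ring
    rw [h7]
    linarith
  linarith

end LR
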