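import Pool.Agent.LR.G4

set_option autoImplicit false
set_option linter.unusedSectionVars false

open Finset

namespace LR

variable {V : Type} [Fintype V] [DecidableEq V]

omit [Fintype V] in
theorem div_aux_9430 {X S e m : ℝ} (hm : 1 / 20 ≤ m) (he : 0 ≤ e) (h : m * X ≤ m * S + e) :
    X ≤ S + 20 * e := by
  have h1 : m * X ≤ m * (S + 20 * e) := by nlinarith
  exact le_of_mul_le_mul_left h1 (by linarith)

theorem isD_mono_9430 {H : SimpleGraph V} {φ k : ℕ} {Q : Finset V} {D : Finset V → ℝ}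
    (h : IsD H φ k 2 Q D) : IsD H φ k 4 Q D := by
  refine ⟨h.nonneg, h.sum_one, h.supp, fun x hx => (h.marg x hx).trans ?_⟩
  have : (0 : ℝ) ≤ (k : ℝ) * φ := by positivity
  linarith

/-- TARGET -/
theorem G_node (H : SimpleGraph V) (t φ k q N s : ℕ) (M τ θ ε δL ε3 β G0 η : ℝ)
    (V' : Finset V) (hV' : V'.Nonempty)
    (ht : 2 ≤ t) (hk : 1 ≤ k) (hq1 : 1 ≤ q) (hφ : 1 ≤ φ) (hφt : φ ≤ 2 * t ^ 2) (hM : 1 ≤ M)
    (hN : 1 ≤ N) (hτ : 0 < τ) (hτ1 : τ ≤ 1 / 16) (hθ : 0 < θ) (hθ1 : θ ≤ 1 / 4) (hε : 0 < ε)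
    (hδL : 0 ≤ δL) (hε3 : 0 ≤ ε3) (hG0 : 0 ≤ G0)
    (hβ : 0 < β) (hβt : β * (20 * (t : ℝ) ^ 8) ≤ 1)
    (hstab : StabAt H φ k t M β τ ε3 V')
    (hex : ∀ Q ⊆ V', β * (V'.card : ℝ) ≤ Q.card →
      (∃ D, IsD H φ k 2 Q D) ∧ (∃ D, IsD H φ (q * k) 2 Q D))
    (hsmall : (q : ℝ) ^ 2 * (4 * ((k : ℝ) * φ)) * ((k : ℝ) * φ) ≤
      (τ / 2) * (β * (V'.card : ℝ)))
    (hL : J H φ (q * k) t M V' ≤ J H φ k t M V' + δL)
    (hG : J H φ k t M V' + 2 * Real.log t ≤ G0)
    (hs1 : 1 ≤ s) (hs : V'.card ≤ 20 * s)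
    (μ : (V → Fin N) → ℝ) (hμ : ∀ g, 0 ≤ μ g) (hμ1 : ∑ g, μ g = 1)
    (hNt : (N : ℝ) / (t : ℝ) ^ 8 ≤ τ / 2)
    (hGM : 20 * (G0 + τ * (1 + 2 * M)) +
      (20 * (ε3 + δL + 3 * τ * M) + 8 * τ * M + 2 * τ) ≤ M / 2)
    (hq : 2 ≤ θ / M * ((q : ℝ) - 1))
    (hq2 : ((q : ℝ) * (k * φ : ℕ) + 1) * Real.exp (-((θ / M) ^ 2) * ((q : ℝ) - 1) / 4) < θ / M)
    (hη : 300 * θ + 17 * N / (t : ℝ) ^ 6 +
      152 * ((20 * (ε3 + δL + 3 * τ * M) + 8 * τ * M + 2 * τ + ε) / θ +
        4 * (20 * (G0 + τ * (1 + 2 * M))) / M) +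
      38 * (20 * (ε3 + δL + 3 * τ * M) + 8 * τ * M + 2 * τ + ε) ≤ η)
    (R : Finset V) (hR : R ⊆ V') (hsR : s ≤ R.card) (hsR' : s ≤ (V' \ R).card) :
    ∃ P ⊆ R, P.Nonempty ∧ R.card ≤ 17 * t ^ 2 * P.card ∧
      (1 - η) * (P.card : ℝ) ≤ ∑ g, μ g * payP H P g := by
  obtain ⟨C, hCdef⟩ : ∃ C : Finset V, C = V' \ R := ⟨_, rfl⟩
  rw [← hCdef] at hsR'
  have hvpos : (0 : ℝ) < (V'.card : ℝ) := by exact_mod_cast hV'.card_pos
  have hRne : R.Nonempty := by
    rw [← Finset.card_pos]; omega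
  have hCne : C.Nonempty := by
    rw [← Finset.card_pos]; omega
  have hrpos : (0 : ℝ) < (R.card : ℝ) := by exact_mod_cast hRne.card_pos
  have hcpos : (0 : ℝ) < (C.card : ℝ) := by exact_mod_cast hCne.card_pos
  have hcard : (C.card : ℝ) = (V'.card : ℝ) - R.card := by
    have h1 : C.card + R.card = V'.card := by
      rw [hCdef]; exact Finset.card_sdiff_add_card_eq_card hR
    rw [← h1]; push_cast; ring
  have hr20 : (V'.card : ℝ) ≤ 20 * R.card := by
    have : V'.card ≤ 20 * R.card := by omega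
    exact_mod_cast this
  have hc20 : (V'.card : ℝ) ≤ 20 * C.card := by
    have : V'.card ≤ 20 * C.card := by omega
    exact_mod_cast this
  obtain ⟨m, hm⟩ : ∃ m : ℝ, m = (R.card : ℝ) / V'.card := ⟨_, rfl⟩
  have hm20 : 1 / 20 ≤ m := by
    rw [hm, div_le_div_iff₀ (by norm_num) hvpos]; linarith
  have hm0 : 0 < m := by linarith
  have hmc : 1 - m = (C.card : ℝ) / V'.card := by
    rw [hm, hcard, sub_div, div_self hvpos.ne']
  have hmc0 : 0 < 1 - m := by rw [hmc]; positivity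
  have hm1 : m ≤ 1 := by linarith
  have ht1 : 1 ≤ t := by omega
  have ht1' : (1 : ℝ) ≤ t := by exact_mod_cast ht1
  have ht8 : (1 : ℝ) ≤ (t : ℝ) ^ 8 := one_le_pow₀ ht1'
  have hβ20 : β * 20 ≤ 1 := by
    refine le_trans ?_ hβt
    have : β * 20 * 1 ≤ β * 20 * (t : ℝ) ^ 8 := mul_le_mul_of_nonneg_left ht8 (by positivity)
    linarith
  have hbig20 : ∀ x : ℝ, (V'.card : ℝ) ≤ 20 * x → β * (V'.card : ℝ) ≤ x := by
    intro x hx
    have h1 : β * (V'.card : ℝ) ≤ β * (20 * x) := mul_le_mul_of_nonneg_left hx hβ.le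
    have hx0 : 0 ≤ x := by linarith
    have h2 : β * 20 * x ≤ 1 * x := mul_le_mul_of_nonneg_right hβ20 hx0
    linarith
  have hβR := hbig20 _ hr20
  have hβC := hbig20 _ hc20
  have hβV := hbig20 (V'.card : ℝ) (by linarith)
  have hpart : ∀ Q : Finset V, R.card ≤ t ^ 8 * Q.card → β * (V'.card : ℝ) ≤ Q.card := by
    intro Q hQ
    have h1 : (R.card : ℝ) ≤ (t : ℝ) ^ 8 * Q.card := by exact_mod_cast hQ
    have h2 : β * (V'.card : ℝ) ≤ β * (20 * ((t : ℝ) ^ 8 * Q.card)) :=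
      mul_le_mul_of_nonneg_left (by linarith) hβ.le
    have h3 : β * (20 * (t : ℝ) ^ 8) * Q.card ≤ 1 * Q.card :=
      mul_le_mul_of_nonneg_right hβt (Nat.cast_nonneg _)
    linarith
  have hCV : C ⊆ V' := by rw [hCdef]; exact Finset.sdiff_subset
  obtain ⟨e1, he1⟩ : ∃ e1 : ℝ, e1 = (q : ℝ) ^ 2 * (4 * ((k : ℝ) * φ)) * ((k : ℝ) * φ) := ⟨_, rfl⟩
  have hsm : ∀ Q : Finset V, β * (V'.card : ℝ) ≤ Q.card →
      (q : ℝ) ^ 2 * (4 * ((k : ℝ) * φ)) * ((k : ℝ) * φ) ≤ (τ / 2) * Q.card := by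
    intro Q hQ
    refine hsmall.trans ?_
    exact mul_le_mul_of_nonneg_left hQ (by positivity)
  have htW := totW_bounds t ht1 R hRne μ hμ hμ1
  have htWpos : 0 < totW t R μ := by linarith [htW.1]
  have hnW := nW_nonneg t R μ hμ
  have hnW1 := nW_sum t R μ htWpos
  have hmarg := nW_marg t ht1 R hRne μ hμ hμ1 τ hτ (by linarith) hNt
  have hqk : 1 ≤ q * k := Nat.mul_pos (by omega) (by omega)
  -- the option family
  obtain ⟨w, hw⟩ : ∃ w : Option ((V → Fin N) × Fin N) → ℝ,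
    w = fun o => match o with
      | none => 1 - m
      | some j => m * nW t R μ j := ⟨_, rfl⟩
  obtain ⟨Qs, hQs⟩ : ∃ Qs : Option ((V → Fin N) × Fin N) → Finset V,
    Qs = fun o => match o with
      | none => C
      | some j => part R j := ⟨_, rfl⟩
  have hwn : w none = 1 - m := by rw [hw]
  have hws : ∀ j, w (some j) = m * nW t R μ j := by intro j; rw [hw]
  have hQn : Qs none = C := by rw [hQs]
  have hQss : ∀ j, Qs (some j) = part R j := by intro j; rw [hQs]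
  have hw0 : ∀ o, 0 ≤ w o := by
    intro o
    cases o with
    | none => rw [hwn]; exact hmc0.le
    | some j => rw [hws]; exact mul_nonneg hm0.le (hnW j)
  have hw1 : ∑ o, w o = 1 := by
    rw [Fintype.sum_option, hwn]
    simp only [hws]
    rw [← Finset.mul_sum, hnW1]; ring
  have hwsub : ∀ o, w o ≠ 0 → Qs o ⊆ V' ∧ (Qs o).Nonempty ∧ β * (V'.card : ℝ) ≤ (Qs o).card := by
    intro o ho
    cases o with
    | none => rw [hQn]; exact ⟨hCV, hCne, hβC⟩
    | some j =>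
      rw [hws] at ho
      rw [hQss]
      obtain ⟨h1, h2, h3⟩ := nW_supp t R hRne μ j (right_ne_zero_of_mul ho)
      exact ⟨h1.trans hR, h2, hpart _ h3⟩
  have hwmarg : ∀ x ∈ V', (∑ o, if x ∈ Qs o then w o / ((Qs o).card : ℝ) else 0) ≤
      (1 + τ) / (V'.card : ℝ) := by
    intro x hx
    rw [Fintype.sum_option, hwn, hQn]
    simp only [hws, hQss]
    by_cases hxR : x ∈ R
    · have hxC : x ∉ C := by rw [hCdef]; simp [hxR]
      rw [if_neg hxC, zero_add]
      have h1 : (∑ j, if x ∈ part R j then m * nW t R μ j / ((part R j).card : ℝ) else 0) =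
          m * ∑ j, if x ∈ part R j then nW t R μ j / ((part R j).card : ℝ) else 0 := by
        rw [Finset.mul_sum]
        apply Finset.sum_congr rfl
        intro j _
        split_ifs
        · ring
        · ring
      rw [h1]
      calc m * ∑ j, (if x ∈ part R j then nW t R μ j / ((part R j).card : ℝ) else 0)
          ≤ m * ((1 + τ) / (R.card : ℝ)) := mul_le_mul_of_nonneg_left (hmarg x hxR) hm0.le
        _ = (1 + τ) / (V'.card : ℝ) := by
          rw [hm]; field_simp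
    · have hxC : x ∈ C := by rw [hCdef]; simp [hx, hxR]
      rw [if_pos hxC]
      have h1 : (∑ j, if x ∈ part R j then m * nW t R μ j / ((part R j).card : ℝ) else 0) = 0 := by
        apply Finset.sum_eq_zero
        intro j _
        rw [if_neg]
        intro h2
        exact hxR (Finset.filter_subset _ _ h2)
      rw [h1, add_zero, hmc]
      have h2 : (C.card : ℝ) / V'.card / C.card = 1 / V'.card := by field_simp
      rw [h2]
      exact div_le_div_of_nonneg_right (by linarith) hvpos.le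
  -- (a)
  have ha := hstab (Option ((V → Fin N) × Fin N)) w Qs hw0 hw1
    (fun o ho => ⟨(hwsub o ho).1, (hwsub o ho).2.2⟩) hwmarg
  rw [Fintype.sum_option, hwn, hQn] at ha
  simp only [hws, hQss] at ha
  -- (e)
  have he := J_super H φ k t M ht1 (by linarith) hk V' hV' w Qs τ hτ.le (by linarith) hw0 hw1
    (fun o ho => ⟨(hwsub o ho).1, (hwsub o ho).2.1, by
      obtain ⟨D, hD⟩ := (hex (Qs o) (hwsub o ho).1 (hwsub o ho).2.2).1
      exact ⟨D, isD_mono_9430 hD⟩⟩) hwmarg (hex V' (Finset.Subset.refl _) hβV).1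
  rw [Fintype.sum_option, hwn, hQn] at he
  simp only [hws, hQss] at he
  have hsum : ∑ j, m * nW t R μ j * J H φ k t M (part R j) =
      m * ∑ j, nW t R μ j * J H φ k t M (part R j) := by
    rw [Finset.mul_sum]
    apply Finset.sum_congr rfl
    intro j _
    ring
  rw [hsum] at ha he
  -- (b)
  have hb := J_super H φ (q * k) t M ht1 (by linarith) hqk V' hV' (ι := Bool)
    (fun b => if b then m else 1 - m) (fun b => if b then R else C) 0 le_rfl (by norm_num)
    (by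
      intro b
      cases b
      · simpa using hmc0.le
      · simpa using hm0.le)
    (by simp)
    (by
      intro b _
      cases b
      · simp only [Bool.false_eq_true, if_false]
        obtain ⟨D, hD⟩ := (hex C hCV hβC).2
        exact ⟨hCV, hCne, D, isD_mono_9430 hD⟩
      · simp only [if_true]
        obtain ⟨D, hD⟩ := (hex R hR hβR).2
        exact ⟨hR, hRne, D, isD_mono_9430 hD⟩)
    (by
      intro x hx
      rw [Fintype.sum_bool]
      simp only [if_true, Bool.false_eq_true, if_false]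
      have hRv : m / R.card = 1 / V'.card := by rw [hm]; field_simp
      have hCv : (1 - m) / C.card = 1 / V'.card := by rw [hmc]; field_simp
      by_cases hxR : x ∈ R
      · have hxC : x ∉ C := by rw [hCdef]; simp [hxR]
        rw [if_pos hxR, if_neg hxC, hRv]
        simp
      · have hxC : x ∈ C := by rw [hCdef]; simp [hx, hxR]
        rw [if_neg hxR, if_pos hxC, hCv]
        simp)
    (hex V' (Finset.Subset.refl _) hβV).2
  rw [Fintype.sum_bool] at hb
  simp only [if_true, Bool.false_eq_true, if_false, zero_mul, add_zero] at hb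
  -- (c)
  have hc := J_level H φ k q t M ht1 (by linarith) hk hq1 hφ C hCne τ hτ (by linarith) (hsm C hβC)
    (by
      obtain ⟨D, hD⟩ := (hex C hCV hβC).1
      exact ⟨D, isD_mono_9430 hD⟩) (hex C hCV hβC).2
  have hτM : 0 ≤ τ * M := by positivity
  obtain ⟨S, hS⟩ : ∃ S : ℝ, S = ∑ j, nW t R μ j * J H φ k t M (part R j) := ⟨_, rfl⟩
  rw [← hS] at ha he
  have hJfin : J H φ (q * k) t M R ≤ S + 20 * (ε3 + δL + 3 * τ * M) := by
    apply div_aux_9430 hm20 (by positivity)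
    have h1 : (1 - m) * J H φ k t M C ≤ (1 - m) * (J H φ (q * k) t M C + 3 * τ * M) :=
      mul_le_mul_of_nonneg_left hc hmc0.le
    have h2 : (1 - m) * (3 * τ * M) ≤ 1 * (3 * τ * M) :=
      mul_le_mul_of_nonneg_right (by linarith) (by positivity)
    linarith
  have hGfin : S + 2 * Real.log t ≤ 20 * (G0 + τ * (1 + 2 * M)) := by
    have h0 : S + 2 * Real.log t ≤ 0 + 20 * (G0 + τ * (1 + 2 * M)) := by
      apply div_aux_9430 hm20 (by positivity)
      have h1 := J_ge H φ k t M ht1 (by linarith) hk C (by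
        obtain ⟨D, hD⟩ := (hex C hCV hβC).1
        exact ⟨D, isD_mono_9430 hD⟩)
      have h2 : 0 ≤ (1 - m) * (J H φ k t M C + 2 * Real.log t) :=
        mul_nonneg hmc0.le (by linarith)
      linarith
    linarith
  have hGfin' : ∑ j, nW t R μ j * (J H φ k t M (part R j) + 2 * Real.log t) ≤
      20 * (G0 + τ * (1 + 2 * M)) := by
    have h1 : ∑ j, nW t R μ j * (J H φ k t M (part R j) + 2 * Real.log t) =
        S + 2 * Real.log t := by
      simp only [mul_add]
      rw [Finset.sum_add_distrib, ← hS, ← Finset.sum_mul, hnW1, one_mul]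
    rw [h1]
    exact hGfin
  rw [hS] at hJfin
  exact G_claim H t φ k q N M τ θ ε (20 * (ε3 + δL + 3 * τ * M)) (20 * (G0 + τ * (1 + 2 * M))) η
    R hRne ht hk hq1 hφ hφt hM hN hτ hτ1 hθ hθ1 hε (by positivity) (by positivity) μ hμ hμ1 hNt
    (by
      intro Q hQ hcardQ
      have h1 := hpart Q hcardQ
      refine ⟨?_, hsm Q h1⟩
      obtain ⟨D, hD⟩ := (hex Q (hQ.trans hR) h1).1
      exact ⟨D, isD_mono_9430 hD⟩)
    (hex R hR hβR).2 hJfin hGfin' hGM hq hq2 hη

end LR
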