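import Pool.Agent.LR.C

set_option autoImplicit false
set_option linter.unusedSectionVars false

open Finset

namespace LR

variable {V : Type} [Fintype V] [DecidableEq V]

theorem K1_bound (q r k φ t : ℕ) (c N : ℝ) (hr : r ≤ q) (hqk : q * k ≤ t) (hk : 1 ≤ k)
    (hφ : φ ≤ 2 * t ^ 2) (hN : 1 ≤ N) (hc : N ≤ c) (ht : 1 ≤ t) :
    ((r : ℝ) * ((q : ℝ) * ((k : ℝ) * φ)) + (r : ℝ) ^ 2 * ((k : ℝ) * φ)) * (4 * ((k : ℝ) * φ) / c)
      ≤ 32 * (t : ℝ) ^ 8 / N := by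
  have hr' : (r : ℝ) ≤ q := by exact_mod_cast hr
  have hqk' : (q : ℝ) * k ≤ t := by exact_mod_cast hqk
  have hk' : (1 : ℝ) ≤ k := by exact_mod_cast hk
  have hφ' : (φ : ℝ) ≤ 2 * (t : ℝ) ^ 2 := by exact_mod_cast hφ
  have ht' : (1 : ℝ) ≤ t := by exact_mod_cast ht
  have hq0 : (0 : ℝ) ≤ q := Nat.cast_nonneg q
  have hr0 : (0 : ℝ) ≤ r := Nat.cast_nonneg r
  have hφ0 : (0 : ℝ) ≤ φ := Nat.cast_nonneg φ
  have hqt : (q : ℝ) ≤ t := by nlinarith
  have hrt : (r : ℝ) ≤ t := hr'.trans hqt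
  have hm0 : 0 ≤ (k : ℝ) * φ := by positivity
  have hqm : (q : ℝ) * ((k : ℝ) * φ) ≤ 2 * (t : ℝ) ^ 3 := by
    have h1 : (q : ℝ) * k * φ ≤ t * (2 * (t : ℝ) ^ 2) :=
      mul_le_mul hqk' hφ' hφ0 (by linarith)
    calc (q : ℝ) * ((k : ℝ) * φ) = (q : ℝ) * k * φ := by ring
      _ ≤ t * (2 * (t : ℝ) ^ 2) := h1
      _ = 2 * (t : ℝ) ^ 3 := by ring
  have hkt : (k : ℝ) * φ ≤ 2 * (t : ℝ) ^ 3 ∨ r = 0 := by
    rcases Nat.eq_zero_or_pos r with h | h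
    · right; exact h
    · left
      have : (1 : ℝ) ≤ q := by
        have : 1 ≤ q := le_trans h hr
        exact_mod_cast this
      nlinarith
  have hN0 : 0 < N := by linarith
  have hc0 : 0 < c := by linarith
  rcases hkt with hkt | hr00
  · have e1 : (r : ℝ) * ((q : ℝ) * ((k : ℝ) * φ)) ≤ t * (2 * (t : ℝ) ^ 3) :=
      mul_le_mul hrt hqm (by positivity) (by linarith)
    have e2 : (r : ℝ) ^ 2 * ((k : ℝ) * φ) ≤ t * (2 * (t : ℝ) ^ 3) := by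
      have : (r : ℝ) ^ 2 * ((k : ℝ) * φ) ≤ (r : ℝ) * ((q : ℝ) * ((k : ℝ) * φ)) := by
        have : (r : ℝ) ^ 2 * ((k : ℝ) * φ) = (r : ℝ) * ((r : ℝ) * ((k : ℝ) * φ)) := by ring
        rw [this]
        exact mul_le_mul_of_nonneg_left (mul_le_mul_of_nonneg_right hr' hm0) hr0
      exact this.trans e1
    have e3 : 4 * ((k : ℝ) * φ) / c ≤ 4 * (2 * (t : ℝ) ^ 3) / N := by
      apply div_le_div₀ (by positivity) (by linarith) hN0 hc
    calc ((r : ℝ) * ((q : ℝ) * ((k : ℝ) * φ)) + (r : ℝ) ^ 2 * ((k : ℝ) * φ)) * (4 * ((k : ℝ) * φ) / c)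
        ≤ (t * (2 * (t : ℝ) ^ 3) + t * (2 * (t : ℝ) ^ 3)) * (4 * (2 * (t : ℝ) ^ 3) / N) :=
          mul_le_mul (add_le_add e1 e2) e3 (by positivity) (by positivity)
      _ = 32 * (t : ℝ) ^ 7 / N := by ring
      _ ≤ 32 * (t : ℝ) ^ 8 / N := by
          apply div_le_div_of_nonneg_right _ hN0.le
          have : (t : ℝ) ^ 7 ≤ (t : ℝ) ^ 8 := pow_le_pow_right₀ ht' (by norm_num)
          linarith
  · subst hr00
    simp
    positivity

theorem K1_pow (q k φ t u : ℕ) (hqk : q * k ≤ t) (hφ : φ ≤ 2 * t ^ 2) :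
    ((q : ℝ) * ((k : ℝ) * φ) + 1) ^ u ≤ (2 * (t : ℝ) ^ 3 + 1) ^ u := by
  apply pow_le_pow_left₀ (by positivity)
  have hqk' : (q : ℝ) * k ≤ t := by exact_mod_cast hqk
  have hφ' : (φ : ℝ) ≤ 2 * (t : ℝ) ^ 2 := by exact_mod_cast hφ
  have h1 : (q : ℝ) * k * φ ≤ t * (2 * (t : ℝ) ^ 2) :=
      mul_le_mul hqk' hφ' (Nat.cast_nonneg φ) (Nat.cast_nonneg t)
  have : (q : ℝ) * ((k : ℝ) * φ) ≤ 2 * (t : ℝ) ^ 3 := by
    calc (q : ℝ) * ((k : ℝ) * φ) = (q : ℝ) * k * φ := by ring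
      _ ≤ t * (2 * (t : ℝ) ^ 2) := h1
      _ = 2 * (t : ℝ) ^ 3 := by ring
  linarith

/-- TARGET -/
theorem K1 (H : SimpleGraph V) (t q W d φ k0 b r u i : ℕ) (M lam γ β : ℝ) (V0 R : Finset V)
    (hlev : Lev H t q W d φ k0 β V0) (hi : i < W) (hRV : R ⊆ V0)
    (hA3 : ∀ Q : Finset V, t ^ 7 ≤ Q.card → ∃ A B : Finset V, A ⊆ Q ∧ B ⊆ Q ∧ Disjoint A B ∧
      Q.card ≤ t ^ 6 * A.card ∧ Q.card ≤ t ^ 6 * B.card ∧
      (eC H A B : ℝ) ≤ (60 * Real.log t / t) * ((A.card : ℝ) * B.card))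
    (ht : 1000 ≤ t) (hq : 1 ≤ q) (hR : t ^ 7 ≤ R.card) (hM : 1 ≤ M)
    (hγ : 0 < γ) (hγ1 : 12 * γ * Real.log t ≤ Real.log 2)
    (hη1 : 60 * Real.log t / t ≤ 1 / 8)
    (hβ : 0 < β) (hS : 1 ≤ β * (V0.card : ℝ))
    (hlam : lam = 30 * (60 * Real.log t / t) * γ * Real.log t) (hlam1 : lam ≤ 1 / 8)
    (hsize : (β * (V0.card : ℝ)) * (16 * (t : ℝ) ^ 2 / γ + 4 / lam + 16 * (t : ℝ) ^ 2) ≤
      Real.exp (-(12 + 10 / γ) * Real.log t) * R.card)
    (hb : 2 * u ≤ b) (hu : 16 * t ^ 2 ≤ 2 ^ u) (hbr : 2 * b * r ≤ q) (hd : 8 * d ≤ q)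
    (hdM : 4 * M * d ≤ (b : ℝ) * r)
    (hnumX : (2 * (t : ℝ) ^ 3 + 1) ^ u * Real.exp (-((1 / (2 * M)) ^ 2) * r / 4) +
      32 * (t : ℝ) ^ 8 / (β * (V0.card : ℝ)) < 1)
    (hnumY : (2 * (t : ℝ) ^ 3 + 1) ^ u * Real.exp (-((1 / 8 : ℝ) ^ 2) * ((q : ℝ) / 2) / 4) +
      32 * (t : ℝ) ^ 8 / (β * (V0.card : ℝ)) < 1) :
    ∃ X ⊆ R, X.Nonempty ∧
      Real.exp (-(12 + 10 / γ) * Real.log t) * R.card ≤ (X.card : ℝ) ∧
      J H φ (q ^ i * k0) t M X ≤ Real.log (lam + 1 / (t : ℝ) ^ 2) + 1 := by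
  have ht0 : (1000 : ℝ) ≤ t := by exact_mod_cast ht
  have hlog : 0 < Real.log t := Real.log_pos (by linarith)
  set N : ℝ := β * (V0.card : ℝ) with hNdef
  set k : ℕ := q ^ i * k0 with hkdef
  have hk1 : 1 ≤ k := by
    rw [hkdef]; exact Nat.mul_pos (Nat.pow_pos hq) hlev.k0pos
  have hqk : q * k ≤ t := by
    have h1 : q * k = q ^ (i + 1) * k0 := by rw [hkdef, pow_succ]; ring
    rw [h1]
    refine le_trans (Nat.mul_le_mul_right _ (Nat.pow_le_pow_right hq ?_)) hlev.ktop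
    omega
  have hη : 0 < 60 * Real.log t / t := by positivity
  have hlam0 : 0 < lam := by rw [hlam]; positivity
  obtain ⟨A0, B0, hA0, hB0, hd0, hA0c, hB0c, he0⟩ := hA3 R hR
  obtain ⟨X, Y, hXR, hYR, hXY, hXc, hYc, hstar⟩ := C_pair H t ht R γ N (60 * Real.log t / t) lam hγ hγ1 hη hη1
    hS A0 B0 hA0 hB0 hd0 hA0c hB0c he0
    (fun A B hA hB hAB h1 h2 => hlev.N3 A B (hA.trans hRV) (hB.trans hRV) hAB h1 h2)
    hlam hlam1 hsize
  -- sizes
  have hE : 16 * N ≤ Real.exp (-(12 + 10 / γ) * Real.log t) * R.card := by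
    refine le_trans ?_ hsize
    have h1 : 0 ≤ 16 * (t : ℝ) ^ 2 / γ := by positivity
    have h2 : 0 ≤ 4 / lam := by positivity
    have h3 : (1 : ℝ) ≤ (t : ℝ) ^ 2 := by nlinarith
    have h4 : (16 : ℝ) ≤ 16 * (t : ℝ) ^ 2 / γ + 4 / lam + 16 * (t : ℝ) ^ 2 := by linarith
    nlinarith
  have hXN : 16 * N ≤ (X.card : ℝ) := hE.trans hXc
  have hYN : 16 * N ≤ (Y.card : ℝ) := hE.trans hYc
  have hXne : X.Nonempty := by
    rw [← Finset.card_pos]
    have : (0 : ℝ) < X.card := by linarith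
    exact_mod_cast this
  have hYne : Y.Nonempty := by
    rw [← Finset.card_pos]
    have : (0 : ℝ) < Y.card := by linarith
    exact_mod_cast this
  have hexD : ∀ Z : Finset V, Z ⊆ R → Z.Nonempty → 16 * N ≤ (Z.card : ℝ) → ∃ D, IsD H φ k 4 Z D := by
    intro Z hZ hZne hZN
    obtain ⟨D, hD⟩ := exists_isD H φ k hk1 hlev.φpos Z hZne (by
      intro Q' hQ' hc
      have hc' : (Z.card : ℝ) ≤ 2 * Q'.card := by exact_mod_cast hc
      exact hlev.N1 Q' ((hQ'.trans hZ).trans hRV) (by linarith) i hi.le)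
    refine ⟨D, hD.nonneg, hD.sum_one, hD.supp, fun x hx => (hD.marg x hx).trans ?_⟩
    have : (0 : ℝ) ≤ (k : ℝ) * φ := by positivity
    linarith
  obtain ⟨D', hD'⟩ := hexD Y hYR hYne hYN
  have hexX := hexD X hXR hXne hXN
  have hu1 : 1 ≤ u := by
    rcases Nat.eq_zero_or_pos u with h | h
    · rw [h] at hu
      simp at hu
      have : 1 ≤ t ^ 2 := Nat.one_le_pow _ _ (by omega)
      omega
    · exact h
  have hrq : r ≤ q := by
    have : r ≤ 2 * b * r := Nat.le_mul_of_pos_left r (by omega)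
    exact this.trans hbr
  refine ⟨X, hXR, hXne, hXc, ?_⟩
  apply J_le H φ k t M (by omega) (by linarith) X hexX
  intro D hD
  obtain ⟨P, hPX, hPc, hPh⟩ := E_step H t φ k q d b r u M lam X Y hXY hXne hYne (by omega) hk1 hlev.φpos
    hlev.φle hM D D' hD hD' hstar
    (by
      intro F hF hFd
      refine hlev.N2 i hi F (fun j => ⟨?_, (hF j).2⟩) hFd
      rcases (hF j).1 with h | h
      · exact (h.trans hXR).trans hRV
      · exact (h.trans hYR).trans hRV)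
    hb hu hbr hd hdM
    (by
      refine lt_of_le_of_lt (add_le_add ?_ ?_) hnumX
      · exact mul_le_mul_of_nonneg_right (K1_pow q k φ t u hqk hlev.φle) (Real.exp_pos _).le
      · exact K1_bound q r k φ t X.card N hrq hqk hk1 hlev.φle hS (by linarith) (by omega))
    (by
      refine lt_of_le_of_lt (add_le_add ?_ ?_) hnumY
      · exact mul_le_mul_of_nonneg_right (K1_pow q k φ t u hqk hlev.φle) (Real.exp_pos _).le
      · exact K1_bound q q k φ t Y.card N le_rfl hqk hk1 hlev.φle hS (by linarith) (by omega))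
  refine (valD_le_Phi H k t M X D P).trans ?_
  unfold Phi
  have hXpos : (0 : ℝ) < X.card := by linarith
  apply add_le_add
  · apply Real.log_le_log
    · have : (0 : ℝ) ≤ ((P ∩ X).card : ℝ) / X.card := by positivity
      have : (0 : ℝ) < 1 / (t : ℝ) ^ 2 := by positivity
      linarith
    · have h1 : ((P ∩ X).card : ℝ) ≤ P.card := by exact_mod_cast Finset.card_le_card Finset.inter_subset_left
      have h2 : ((P ∩ X).card : ℝ) / X.card ≤ lam := by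
        rw [div_le_iff₀ hXpos]; linarith
      linarith
  · have hM0 : 0 < M := by linarith
    have h1 : M * (1 - hit H k D P) ≤ M * (1 / M) := mul_le_mul_of_nonneg_left (by linarith) hM0.le
    have h2 : M * (1 / M) = 1 := by field_simp
    linarith

end LR
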