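import Pool.Agent.LR.K1

set_option autoImplicit false
set_option linter.unusedSectionVars false

open Finset

namespace LR

variable {V : Type} [Fintype V] [DecidableEq V]

omit [Fintype V] in
theorem card_arith_aux (n : ℕ) (hn : 20 ≤ n) :
    1 ≤ (n + 19) / 20 ∧ n ≤ 20 * ((n + 19) / 20) ∧ 10 * ((n + 19) / 20) ≤ n := by
  omega

theorem IsD_mono_aux (H : SimpleGraph V) (φ k : ℕ) (Q : Finset V) (D : Finset V → ℝ)
    (h : IsD H φ k 2 Q D) : IsD H φ k 4 Q D := by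
  refine ⟨h.nonneg, h.sum_one, h.supp, fun x hx => (h.marg x hx).trans ?_⟩
  have : (0:ℝ) ≤ (k:ℝ) * φ := by positivity
  linarith

/-- TARGET -/
theorem K2 (H : SimpleGraph V) (t q W d φ k0 N s1 : ℕ) (M τ θ ε ε3 β β' v G0 : ℝ)
    (V0 V' : Finset V) (hlev : Lev H t q W d φ k0 β V0) (hV' : V' ⊆ V0) (hVne : V'.Nonempty)
    (ht : 2 ≤ t) (hq1 : 1 ≤ q) (hW : 2 ≤ W) (hM : 1 ≤ M) (hN : 1 ≤ N)
    (hτ : 0 < τ) (hτ1 : τ ≤ 1 / 16) (hθ : 0 < θ) (hθ1 : θ ≤ 1 / 4) (hε : 0 < ε)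
    (hε3 : 0 ≤ ε3) (hG0 : 0 ≤ G0) (hβ : 0 < β) (hβ' : 0 < β')
    (hβt : β' * (20 * (t : ℝ) ^ 8) ≤ 1)
    (hββ' : 2 * (β * (V0.card : ℝ)) ≤ β' * (V'.card : ℝ))
    (hstab : ∀ i ≤ W, StabAt H φ (q ^ i * k0) t M β' τ ε3 V')
    (hs1 : 1 ≤ s1) (hs1β : β' * (V'.card : ℝ) ≤ s1) (hs1V : s1 ≤ V'.card)
    (hX : ∀ R ⊆ V', s1 ≤ R.card → ∀ i < W, ∃ X ⊆ R, X.Nonempty ∧
      β' * (V'.card : ℝ) ≤ X.card ∧ J H φ (q ^ i * k0) t M X ≤ v)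
    (hv : v ≤ M + 1) (hv1 : (2 * (s1 : ℝ) / V'.card) * (M + 1 - v) + ε3 ≤ 1)
    (hvG : v + 1 + 2 * Real.log t ≤ G0)
    (hVbig : 20 ≤ V'.card)
    (hsmall : (q : ℝ) ^ 2 * (4 * (2 * (t : ℝ) ^ 3)) * (2 * (t : ℝ) ^ 3) ≤
      (τ / 2) * (β' * (V'.card : ℝ)))
    (hNt : (N : ℝ) / (t : ℝ) ^ 8 ≤ τ / 2) (hN2 : 400 * t ^ 2 ≤ N)
    (hGM : 20 * (G0 + τ * (1 + 2 * M)) +
      (20 * (ε3 + G0 / ((W : ℝ) - 1) + 3 * τ * M) + 8 * τ * M + 2 * τ) ≤ M / 2)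
    (hq : 2 ≤ θ / M * ((q : ℝ) - 1))
    (hq2 : (2 * (t : ℝ) ^ 3 + 1) * Real.exp (-((θ / M) ^ 2) * ((q : ℝ) - 1) / 4) < θ / M)
    (hη : 300 * θ + 17 * N / (t : ℝ) ^ 6 +
      152 * ((20 * (ε3 + G0 / ((W : ℝ) - 1) + 3 * τ * M) + 8 * τ * M + 2 * τ + ε) / θ +
        4 * (20 * (G0 + τ * (1 + 2 * M))) / M) +
      38 * (20 * (ε3 + G0 / ((W : ℝ) - 1) + 3 * τ * M) + 8 * τ * M + 2 * τ + ε) ≤ 1 / 10)
    (μ : (V → Fin N) → ℝ) (hμ : ∀ g, 0 ≤ μ g) (hμ1 : ∑ g, μ g = 1) :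
    ∃ f : V → Fin N, (2 / 3) * (V'.card : ℝ) ≤ ∑ g, μ g * pay H V' f g := by
  obtain ⟨hk0, hφ, hφt, hktop, hN1, -, -⟩ := hlev
  have hq0 : ∀ i, 1 ≤ q ^ i * k0 := fun i => Nat.mul_pos (pow_pos hq1 i) hk0
  have hkle : ∀ i ≤ W, q ^ i * k0 ≤ t := fun i hi =>
    (Nat.mul_le_mul_right k0 (Nat.pow_le_pow_right hq1 hi)).trans hktop
  have hVpos : (0:ℝ) < V'.card := by exact_mod_cast hVne.card_pos
  have hex2 : ∀ Q ⊆ V', β' * (V'.card : ℝ) ≤ Q.card → ∀ i ≤ W,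
      ∃ D, IsD H φ (q ^ i * k0) 2 Q D := by
    intro Q hQ hQc i hi
    have hQpos : (0:ℝ) < Q.card := lt_of_lt_of_le (mul_pos hβ' hVpos) hQc
    have hQne : Q.Nonempty := Finset.card_pos.1 (by exact_mod_cast hQpos)
    apply exists_isD H φ _ (hq0 i) hφ Q hQne
    intro Q' hQ' hQQ'
    have hQQ'' : (Q.card:ℝ) ≤ 2 * Q'.card := by exact_mod_cast hQQ'
    exact hN1 Q' ((hQ'.trans hQ).trans hV') (by linarith) i hi
  have hex4 : ∀ i ≤ W, ∀ Q ⊆ V', β' * (V'.card : ℝ) ≤ Q.card →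
      ∃ D, IsD H φ (q ^ i * k0) 4 Q D := by
    intro i hi Q hQ hQc
    obtain ⟨D, hD⟩ := hex2 Q hQ hQc i hi
    exact ⟨D, IsD_mono_aux _ _ _ _ _ hD⟩
  have hJs : ∀ i < W, J H φ (q ^ i * k0) t M V' ≤ v + 1 := by
    intro i hi
    have := J_small H φ (q ^ i * k0) t M β' τ ε3 v (by omega) (by linarith) (hq0 i) hτ.le hβ' V'
      hVne (hstab i hi.le) (hex4 i hi.le) s1 hs1 hs1β hs1V hv
      (fun R hR hsR => hX R hR hsR i hi)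
    linarith
  have hJ0 : -2 * Real.log t ≤ J H φ (q ^ 0 * k0) t M V' :=
    J_ge H φ _ t M (by omega) (by linarith) (hq0 0) V'
      (hex4 0 (by omega) V' subset_rfl (hs1β.trans (by exact_mod_cast hs1V)))
  have hWpos : (0:ℝ) < (W:ℝ) - 1 := by
    have : (2:ℝ) ≤ W := by exact_mod_cast hW
    linarith
  have hsum : ∑ i ∈ range (W - 1), (J H φ (q ^ (i + 1) * k0) t M V' - J H φ (q ^ i * k0) t M V')
      ≤ ∑ i ∈ range (W - 1), G0 / ((W:ℝ) - 1) := by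
    rw [Finset.sum_range_sub (fun i => J H φ (q ^ i * k0) t M V'), Finset.sum_const, card_range,
      nsmul_eq_mul]
    have hWc : ((W - 1 : ℕ) : ℝ) = (W:ℝ) - 1 := by
      rw [Nat.cast_sub (by omega)]
      simp
    rw [hWc, mul_div_cancel₀ _ hWpos.ne']
    have := hJs (W - 1) (by omega)
    linarith
  have hne : (range (W - 1)).Nonempty := ⟨0, mem_range.2 (by omega)⟩
  obtain ⟨i, hi, hJi⟩ := Finset.exists_le_of_sum_le hne hsum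
  have hiW : i < W - 1 := mem_range.1 hi
  have hqk : q * (q ^ i * k0) = q ^ (i + 1) * k0 := by ring
  obtain ⟨hs, hs20, hs10⟩ := card_arith_aux V'.card hVbig
  have hs10' : (10:ℝ) * (((V'.card + 19) / 20 : ℕ) : ℝ) ≤ V'.card := by exact_mod_cast hs10
  -- numerical bounds
  have hnat1 : (q ^ i * k0) * φ ≤ 2 * t ^ 3 :=
    calc (q ^ i * k0) * φ ≤ t * (2 * t ^ 2) := Nat.mul_le_mul (hkle i (by omega)) hφt
      _ = 2 * t ^ 3 := by ring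
  have hnat2 : q * ((q ^ i * k0) * φ) ≤ 2 * t ^ 3 :=
    calc q * ((q ^ i * k0) * φ) = (q ^ (i + 1) * k0) * φ := by ring
      _ ≤ t * (2 * t ^ 2) := Nat.mul_le_mul (hkle (i + 1) (by omega)) hφt
      _ = 2 * t ^ 3 := by ring
  have hr1 : ((q ^ i * k0 : ℕ) : ℝ) * (φ : ℝ) ≤ 2 * (t : ℝ) ^ 3 := by exact_mod_cast hnat1
  have hr2 : (q : ℝ) * (((q ^ i * k0) * φ : ℕ) : ℝ) ≤ 2 * (t : ℝ) ^ 3 := by exact_mod_cast hnat2
  have hr0 : (0:ℝ) ≤ ((q ^ i * k0 : ℕ) : ℝ) * (φ : ℝ) := by positivity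
  have hsmall' : (q : ℝ) ^ 2 * (4 * (((q ^ i * k0 : ℕ) : ℝ) * φ)) *
      (((q ^ i * k0 : ℕ) : ℝ) * φ) ≤ (τ / 2) * (β' * (V'.card : ℝ)) := by
    refine le_trans ?_ hsmall
    gcongr
  have hq2' : ((q : ℝ) * (((q ^ i * k0) * φ : ℕ) : ℝ) + 1) *
      Real.exp (-((θ / M) ^ 2) * ((q : ℝ) - 1) / 4) < θ / M := by
    refine lt_of_le_of_lt ?_ hq2
    gcongr
  have hclaim : ∀ R ⊆ V', (V'.card + 19) / 20 ≤ R.card → (V'.card + 19) / 20 ≤ (V' \ R).card →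
      ∃ P ⊆ R, P.Nonempty ∧ R.card ≤ 17 * t ^ 2 * P.card ∧
        (1 - 1 / 10) * (P.card : ℝ) ≤ ∑ g, μ g * payP H P g := by
    intro R hR hsR hsR'
    exact G_node H t φ (q ^ i * k0) q N ((V'.card + 19) / 20) M τ θ ε (G0 / ((W:ℝ) - 1)) ε3 β' G0
      (1 / 10) V' hVne ht (hq0 i) hq1 hφ hφt hM hN hτ hτ1 hθ hθ1 hε (by positivity) hε3 hG0
      hβ' hβt (hstab i (by omega))
      (fun Q hQ hQc => ⟨hex2 Q hQ hQc i (by omega), by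
        rw [hqk]
        exact hex2 Q hQ hQc (i + 1) (by omega)⟩)
      hsmall' (by rw [hqk]; linarith)
      (by have := hJs i (by omega); linarith) hs hs20 μ hμ hμ1 hNt hGM hq hq2' hη R hR hsR hsR'
  have hNs : 17 * t ^ 2 * V'.card + (V'.card + 19) / 20 ≤ N * ((V'.card + 19) / 20) := by
    have h1 : 17 * t ^ 2 * V'.card ≤ 17 * t ^ 2 * (20 * ((V'.card + 19) / 20)) :=
      Nat.mul_le_mul_left _ hs20
    have h2 : 340 * t ^ 2 + 1 ≤ N := by nlinarith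
    have h3 : (340 * t ^ 2 + 1) * ((V'.card + 19) / 20) ≤ N * ((V'.card + 19) / 20) :=
      Nat.mul_le_mul_right _ h2
    calc 17 * t ^ 2 * V'.card + (V'.card + 19) / 20
        ≤ 17 * t ^ 2 * (20 * ((V'.card + 19) / 20)) + (V'.card + 19) / 20 :=
          Nat.add_le_add_right h1 _
      _ = (340 * t ^ 2 + 1) * ((V'.card + 19) / 20) := by ring
      _ ≤ _ := h3
  obtain ⟨f, hf⟩ := exists_label H t N ((V'.card + 19) / 20) (by omega) hN (1 / 10) (by norm_num)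
    (by norm_num) V' hs (by omega) μ hμ hclaim hNs
  refine ⟨f, le_trans ?_ hf⟩
  nlinarith

end LR
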