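import Pool.Agent.LR.G6

set_option autoImplicit false
set_option linter.unusedSectionVars false

open Finset

namespace LR


/-- TARGET: von Neumann minimax for finite matrix games -/
theorem minimax_fin {I J : Type} [Fintype I] [Fintype J] [Nonempty I] [Nonempty J]
    (a : I → J → ℝ) (c : ℝ)
    (h : ∀ μ : J → ℝ, (∀ j, 0 ≤ μ j) → ∑ j, μ j = 1 → ∃ i, c ≤ ∑ j, μ j * a i j) :
    ∃ l : I → ℝ, (∀ i, 0 ≤ l i) ∧ ∑ i, l i = 1 ∧ ∀ j, c ≤ ∑ i, l i * a i j := by
  classical
  let f : (J → ℝ) → (I → ℝ) → ℝ := fun μ l => ∑ i, l i * ∑ j, μ j * a i j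
  have hcont : Continuous (fun p : (J → ℝ) × (I → ℝ) => f p.1 p.2) := by
    simp only [f]
    fun_prop
  have hc1 : ∀ l, Continuous (fun μ => f μ l) := fun l => by
    simp only [f]
    fun_prop
  have hc2 : ∀ μ, Continuous (fun l => f μ l) := fun μ => by
    simp only [f]
    fun_prop
  obtain ⟨μ, hμ, l, hl, hs⟩ := Sion.exists_isSaddlePointOn (X := stdSimplex ℝ J)
    (Y := stdSimplex ℝ I) (f := f)
    (by
      obtain ⟨j⟩ := ‹Nonempty J›
      exact ⟨_, single_mem_stdSimplex ℝ j⟩)
    (convex_stdSimplex ℝ J) (isCompact_stdSimplex ℝ J)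
    (fun y _ => (hc1 y).lowerSemicontinuous.lowerSemicontinuousOn _)
    (fun y _ => by
      apply ConvexOn.quasiconvexOn
      refine ⟨convex_stdSimplex ℝ J, ?_⟩
      intro x _ x' _ s t _ _ _
      apply le_of_eq
      simp only [f, Pi.add_apply, Pi.smul_apply, smul_eq_mul, Finset.mul_sum]
      rw [← Finset.sum_add_distrib]
      refine Finset.sum_congr rfl fun i _ => ?_
      rw [← Finset.sum_add_distrib]
      refine Finset.sum_congr rfl fun j _ => ?_
      ring)
    (convex_stdSimplex ℝ I)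
    (by
      obtain ⟨i⟩ := ‹Nonempty I›
      exact ⟨_, single_mem_stdSimplex ℝ i⟩)
    (isCompact_stdSimplex ℝ I)
    (fun x _ => (hc2 x).upperSemicontinuous.upperSemicontinuousOn _)
    (fun x _ => by
      apply ConcaveOn.quasiconcaveOn
      refine ⟨convex_stdSimplex ℝ I, ?_⟩
      intro y _ y' _ s t _ _ _
      apply le_of_eq
      simp only [f, Pi.add_apply, Pi.smul_apply, smul_eq_mul, Finset.mul_sum]
      rw [← Finset.sum_add_distrib]
      refine Finset.sum_congr rfl fun i _ => ?_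
      rw [← Finset.sum_add_distrib]
      refine Finset.sum_congr rfl fun j _ => ?_
      ring)
  obtain ⟨i, hi⟩ := h μ hμ.1 hμ.2
  refine ⟨l, hl.1, hl.2, ?_⟩
  intro j
  have h1 := hs (Pi.single j 1) (single_mem_stdSimplex ℝ j) (Pi.single i 1)
    (single_mem_stdSimplex ℝ i)
  simp only [f, Pi.single_apply, ite_mul, one_mul, zero_mul, Finset.sum_ite_eq',
    Finset.mem_univ, if_true] at h1
  exact le_trans hi h1

end LR
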