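import Mathlib

set_option autoImplicit false

open Finset

namespace LR

/-! parameters, all functions of `t : ℕ` -/
noncomputable def TT (t : ℕ) : ℝ := Real.log t
noncomputable def ll (t : ℕ) : ℝ := Real.log (TT t)
noncomputable def LL (t : ℕ) : ℕ := ⌊(ll t) ^ 9⌋₊
noncomputable def WW (t : ℕ) : ℕ := ⌊(ll t) ^ 2⌋₊
noncomputable def nn (t : ℕ) : ℕ := LL t / WW t
noncomputable def qq (t : ℕ) : ℕ := ⌊Real.exp (TT t / (ll t) ^ 10)⌋₊
noncomputable def MM (t : ℕ) : ℝ := (ll t) ^ 2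
noncomputable def tau (t : ℕ) : ℝ := 1 / (t : ℝ) ^ 4
noncomputable def theta : ℝ := 1 / 6000
noncomputable def eps (t : ℕ) : ℝ := 1 / (t : ℝ)
noncomputable def betaP (t : ℕ) : ℝ := Real.exp (-((t : ℝ) / (TT t) ^ 6))
noncomputable def beta (t : ℕ) : ℝ := Real.exp (-((t : ℝ) / (TT t) ^ 3))
noncomputable def gamS (t : ℕ) : ℝ := 60 * ((LL t : ℝ) + 1) * TT t / t
noncomputable def delS (t : ℕ) : ℝ := gamS t * ((t : ℝ) / (TT t) ^ 3 + Real.log 4)
noncomputable def del1 (t : ℕ) : ℝ := 1 / (ll t) ^ 5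
noncomputable def dd (t : ℕ) : ℕ := ⌈8 * (4 * (WW t : ℝ) * delS t + del1 t) * (qq t : ℝ)⌉₊
noncomputable def gamC (t : ℕ) : ℝ := (TT t) ^ 8 / t
noncomputable def lam (t : ℕ) : ℝ := 30 * (60 * TT t / t) * gamC t * TT t
noncomputable def uu (t : ℕ) : ℕ := ⌈4 * TT t⌉₊
noncomputable def bb (t : ℕ) : ℕ := 2 * uu t
noncomputable def rr (t : ℕ) : ℕ := qq t / (2 * bb t)
noncomputable def jj (t : ℕ) : ℕ := ⌊(t : ℝ) / (20 * TT t)⌋₊
noncomputable def gamJ (t : ℕ) : ℝ := (TT t) ^ 6 / (t * ll t)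
/-- exponent in the size loss for the node -/
noncomputable def xV (t : ℕ) : ℝ :=
  2 * ((WW t : ℝ) + 1) * (MM t + 1 + 2 * TT t) / gamJ t
noncomputable def G0 (t : ℕ) : ℝ := 10 * ll t + 12
noncomputable def eps3 (t : ℕ) : ℝ :=
  gamJ t * Real.log (1 / betaP t) + 2 * ((WW t : ℝ) + 1) * (tau t * (1 + 2 * MM t))
noncomputable def vv (t : ℕ) : ℝ := Real.log (lam t + 1 / (t : ℝ) ^ 2) + 1
/-- exponent in the size loss for the pair -/
noncomputable def xE (t : ℕ) : ℝ := (12 + 10 / gamC t) * TT t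

end LR
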