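import Pool.Agent.LR.K2
import Pool.Agent.LR.Params

set_option autoImplicit false

open Finset

namespace LR

theorem cM_le_cube {V : Type} [Fintype V] [DecidableEq V] (H : SimpleGraph V) (t k : ℕ)
    (hk : k < t) (hH : ∀ S : Finset V, t ^ 3 ≤ S.card → t ≤ om H S) (Q : Finset V) :
    cM H k Q ≤ t ^ 3 := by
  obtain ⟨A, _, ho, hc⟩ := exists_cM H k Q
  by_contra h
  push Not at h
  have h1 := hH A (by omega)
  omega

theorem lev_exD {V : Type} [Fintype V] [DecidableEq V] {H : SimpleGraph V}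
    {t q W d φ k0 : ℕ} {β : ℝ} {V0 : Finset V} (hlev : Lev H t q W d φ k0 β V0) (hq : 1 ≤ q)
    (hβ : 1 ≤ β * (V0.card : ℝ)) (Q : Finset V) (hQ : Q ⊆ V0)
    (hQc : 2 * (β * (V0.card : ℝ)) ≤ Q.card) (i : ℕ) (hi : i ≤ W) :
    ∃ D, IsD H φ (q ^ i * k0) 2 Q D := by
  have hQne : Q.Nonempty := by
    rw [← card_pos]
    have : (0 : ℝ) < (Q.card : ℝ) := by linarith
    exact_mod_cast this
  apply exists_isD H φ (q ^ i * k0) _ hlev.φpos Q hQne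
  · intro Q' hQ' hc
    have : β * (V0.card : ℝ) ≤ Q'.card := by
      have h1 : (Q.card : ℝ) ≤ 2 * Q'.card := by exact_mod_cast hc
      linarith
    exact hlev.N1 Q' (hQ'.trans hQ) this i hi
  · exact Nat.one_le_iff_ne_zero.2 (by
      have := hlev.k0pos
      positivity)

theorem hall_A3 {V : Type} [Fintype V] [DecidableEq V] (H : SimpleGraph V) (t : ℕ)
    (ht : 1000 ≤ t) (hHc : ∀ S : Finset V, t ^ 3 ≤ S.card → t ≤ om Hᶜ S) :
    ∀ Q : Finset V, t ^ 7 ≤ Q.card → ∃ A B : Finset V, A ⊆ Q ∧ B ⊆ Q ∧ Disjoint A B ∧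
      Q.card ≤ t ^ 6 * A.card ∧ Q.card ≤ t ^ 6 * B.card ∧
      (eC H A B : ℝ) ≤ (60 * Real.log t / t) * ((A.card : ℝ) * B.card) := by
  intro Q hQ
  have h3 : t ^ 3 ≤ Q.card := le_trans (Nat.pow_le_pow_right (by omega) (by norm_num)) hQ
  have := A3 Hᶜ t ht Q hQ (A1 Hᶜ t (by omega) hHc Q h3)
  simpa [compl_compl] using this

theorem mk_lev {V : Type} [Fintype V] [DecidableEq V] [Nonempty V] (t : ℕ)
    (na : 1000 ≤ t ∧ 1 ≤ qq t ∧ 3 ≤ WW t ∧ 1 ≤ nn t ∧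
      nn t * WW t ≤ LL t ∧ 8 * (qq t) ^ (LL t) ≤ t ∧ qq t ≤ t ∧ 1 ≤ MM t)
    (nb : 0 < delS t ∧ (LL t : ℝ) * delS t ≤ 1 / 20 ∧
      4 * (WW t : ℝ) * delS t + del1 t ≤ 1 / 20 ∧ 0 < del1 t ∧ 0 < gamS t ∧
      6 * ((LL t : ℝ) + 1) * Real.log t / gamS t ≤ (t : ℝ) / 10)
    (nc : Real.log (3 / 2 * (t : ℝ) ^ 2) - Real.log (((jj t * (t / 2) : ℕ) : ℝ)) +
      LL t * (2 * delS t) ≤ del1 t * nn t ∧
      1 ≤ 4 * (WW t : ℝ) * delS t * ((((jj t * (t / 2) : ℕ) : ℝ)) / 2) ∧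
      1 ≤ ((jj t * (t / 2) : ℕ) : ℝ) ∧
      ((t : ℝ) ^ (6 * jj t + 3)) ≤ Real.exp (2 / 5 * (t : ℝ)))
    (nd : dd t ≤ qq t ∧ 8 * (4 * (WW t : ℝ) * delS t + del1 t) * (qq t : ℝ) ≤ dd t)
    (nf : 0 < beta t ∧ beta t ≤ 1)
    (nh : 8 * (t : ℝ) ^ 4 ≤ Real.exp (2 / 5 * (t : ℝ)))
    (V0 : Finset V) (hV0 : V0.Nonempty) (hV0c : Real.exp (2 / 5 * (t : ℝ)) ≤ V0.card)
    (H : SimpleGraph V)
    (hst : ∀ Q ⊆ V0, Q.Nonempty → ∀ i ≤ LL t,
        (cM H (qq t ^ i) V0 : ℝ) ≤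
          Real.exp (gamS t * (Real.log V0.card - Real.log Q.card)) * cM H (qq t ^ i) Q)
    (hH : ∀ S : Finset V, t ^ 3 ≤ S.card → t ≤ om H S)
    (hHc : ∀ S : Finset V, t ^ 3 ≤ S.card → t ≤ om Hᶜ S) :
    ∃ φ k0, Lev H t (qq t) (WW t) (dd t) φ k0 (beta t) V0 := by
  obtain ⟨a1, a2, a3, a4, a5, a6, a7, a8⟩ := na
  obtain ⟨b1, b2, b3, b4, b5, b6⟩ := nb
  obtain ⟨c1, c2, c3, c4⟩ := nc
  obtain ⟨d1, d2⟩ := nd
  obtain ⟨f1, f2⟩ := nf
  have hVpos : (0 : ℝ) < V0.card := lt_of_lt_of_le (Real.exp_pos _) hV0c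
  apply exists_lev H t (qq t) (LL t) (WW t) (dd t) (nn t) (beta t) (delS t) (del1 t)
    (((jj t * (t / 2) : ℕ) : ℝ)) V0 a1 a2 (by omega) d1 f1 f2 b1 b4 ?_ hH c3 ?_ ?_ a6 a4 a5 b2 c1
    c2 d2 b3
  · intro Q hQ hQc i hi
    have hQpos : (0 : ℝ) < Q.card := lt_of_lt_of_le (by positivity) hQc
    have hQne : Q.Nonempty := card_pos.1 (by exact_mod_cast hQpos)
    have h1 := hst Q hQ hQne i hi
    have h2 : Real.log V0.card - Real.log Q.card ≤ (t : ℝ) / (TT t) ^ 3 + Real.log 4 := by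
      have h3 : Real.log ((beta t / 4) * (V0.card : ℝ)) ≤ Real.log Q.card :=
        Real.log_le_log (by positivity) hQc
      rw [Real.log_mul (by positivity) (by positivity), Real.log_div (by positivity) (by norm_num)]
        at h3
      have h4 : Real.log (beta t) = -((t : ℝ) / (TT t) ^ 3) := by
        unfold beta; exact Real.log_exp _
      rw [h4] at h3
      linarith
    have h5 : Real.exp (gamS t * (Real.log V0.card - Real.log Q.card)) ≤ Real.exp (delS t) := by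
      apply Real.exp_le_exp.2
      unfold delS
      exact mul_le_mul_of_nonneg_left h2 b5.le
    have h6 : (cM H (qq t ^ i) V0 : ℝ) ≤ Real.exp (delS t) * cM H (qq t ^ i) Q :=
      h1.trans (mul_le_mul_of_nonneg_right h5 (Nat.cast_nonneg _))
    have h7 : (1 - delS t) ≤ Real.exp (-(delS t)) := by
      have := Real.add_one_le_exp (-(delS t)); linarith
    calc (1 - delS t) * (cM H (qq t ^ i) V0 : ℝ)
        ≤ Real.exp (-(delS t)) * (cM H (qq t ^ i) V0 : ℝ) :=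
          mul_le_mul_of_nonneg_right h7 (Nat.cast_nonneg _)
      _ ≤ Real.exp (-(delS t)) * (Real.exp (delS t) * cM H (qq t ^ i) Q) :=
          mul_le_mul_of_nonneg_left h6 (Real.exp_pos _).le
      _ = cM H (qq t ^ i) Q := by
          rw [← mul_assoc, ← Real.exp_add]; simp
  · have h1 : t ^ (6 * jj t + 3) ≤ V0.card := by
      exact_mod_cast c4.trans hV0c
    have h2 := A2 Hᶜ t (by omega) (fun Q hQ => A1 Hᶜ t (by omega) hHc Q hQ) (jj t) V0 h1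
    exact_mod_cast h2.trans (om_compl_le H V0)
  · exact_mod_cast nh.trans hV0c


theorem colour {V : Type} [Fintype V] [DecidableEq V] [Nonempty V] (t : ℕ)
    (na : 1000 ≤ t ∧ 1 ≤ qq t ∧ 3 ≤ WW t ∧ 1 ≤ nn t ∧
      nn t * WW t ≤ LL t ∧ 8 * (qq t) ^ (LL t) ≤ t ∧ qq t ≤ t ∧ 1 ≤ MM t)
    (nd : dd t ≤ qq t ∧ 8 * dd t ≤ qq t ∧
      8 * (4 * (WW t : ℝ) * delS t + del1 t) * (qq t : ℝ) ≤ dd t ∧
      4 * MM t * (dd t : ℝ) ≤ (bb t : ℝ) * rr t ∧ 2 * bb t * rr t ≤ qq t ∧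
      16 * t ^ 2 ≤ 2 ^ uu t ∧ 2 * uu t ≤ bb t)
    (ne : (2 * (t : ℝ) ^ 3 + 1) ^ uu t * Real.exp (-((1 / (2 * MM t)) ^ 2) * rr t / 4) ≤ 1 / 2 ∧
      (2 * (t : ℝ) ^ 3 + 1) ^ uu t *
      Real.exp (-((1 / 8 : ℝ) ^ 2) * ((qq t : ℝ) / 2) / 4) ≤ 1 / 2)
    (nf : 0 < gamJ t ∧
      2 * beta t ≤ betaP t * Real.exp (-(xV t)) ∧ xV t ≤ (t : ℝ) / 20 ∧ 0 < betaP t ∧
      betaP t ≤ 1 ∧ betaP t * (20 * (t : ℝ) ^ 8) ≤ 1 ∧ 0 < beta t ∧ beta t ≤ 1)
    (ng : 0 < gamC t ∧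
      12 * gamC t * Real.log t ≤ Real.log 2 ∧
      60 * Real.log t / t ≤ 1 / 8 ∧ 0 < lam t ∧ lam t ≤ 1 / 8 ∧
      beta t * (16 * (t : ℝ) ^ 2 / gamC t + 4 / lam t + 16 * (t : ℝ) ^ 2) ≤
      Real.exp (-(xE t)) * (Real.exp (-(xV t)) / t) ∧
      betaP t ≤ Real.exp (-(xE t)) / t)
    (nh : 1 ≤ beta t * Real.exp (2 / 5 * (t : ℝ)) ∧
      32 * (t : ℝ) ^ 8 / (beta t * Real.exp (2 / 5 * (t : ℝ))) < 1 / 2 ∧
      8 * (t : ℝ) ^ 4 ≤ Real.exp (2 / 5 * (t : ℝ)) ∧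
      (t : ℝ) ^ 7 ≤ Real.exp (-(xV t)) * Real.exp (2 / 5 * (t : ℝ)) / t ∧
      20 ≤ Real.exp (-(xV t)) * Real.exp (2 / 5 * (t : ℝ)) ∧
      (qq t : ℝ) ^ 2 * (4 * (2 * (t : ℝ) ^ 3)) * (2 * (t : ℝ) ^ 3) ≤
      (tau t / 2) * (betaP t * (Real.exp (-(xV t)) * Real.exp (2 / 5 * (t : ℝ)))))
    (ni : vv t ≤ MM t + 1 ∧
      (4 / (t : ℝ)) * (MM t + 1 - vv t) + eps3 t ≤ 1 ∧ vv t + 1 + 2 * Real.log t ≤ G0 t ∧
      0 ≤ G0 t ∧ 0 ≤ eps3 t ∧ 0 < tau t ∧ tau t ≤ 1 / 16)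
    (nj : (((t ^ 3 : ℕ) : ℝ)) / (t : ℝ) ^ 8 ≤ tau t / 2 ∧ 400 * t ^ 2 ≤ t ^ 3 ∧
      20 * (G0 t + tau t * (1 + 2 * MM t)) +
      (20 * (eps3 t + G0 t / ((WW t : ℝ) - 1) + 3 * tau t * MM t) + 8 * tau t * MM t +
        2 * tau t) ≤ MM t / 2 ∧
      2 ≤ theta / MM t * ((qq t : ℝ) - 1) ∧
      (2 * (t : ℝ) ^ 3 + 1) * Real.exp (-((theta / MM t) ^ 2) * ((qq t : ℝ) - 1) / 4) <
      theta / MM t)
    (nk : 300 * theta + 17 * ((t ^ 3 : ℕ) : ℝ) / (t : ℝ) ^ 6 +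
      152 * ((20 * (eps3 t + G0 t / ((WW t : ℝ) - 1) + 3 * tau t * MM t) + 8 * tau t * MM t +
        2 * tau t + eps t) / theta +
        4 * (20 * (G0 t + tau t * (1 + 2 * MM t))) / MM t) +
      38 * (20 * (eps3 t + G0 t / ((WW t : ℝ) - 1) + 3 * tau t * MM t) + 8 * tau t * MM t +
        2 * tau t + eps t) ≤ 1 / 10)
    (V0 V' : Finset V) (hV0c : Real.exp (2 / 5 * (t : ℝ)) ≤ V0.card)
    (hV' : V' ⊆ V0) (hV'c : Real.exp (-(xV t)) * (V0.card : ℝ) ≤ V'.card)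
    (H : SimpleGraph V) (φ k0 : ℕ) (hlev : Lev H t (qq t) (WW t) (dd t) φ k0 (beta t) V0)
    (hstab : ∀ i ≤ WW t, StabAt H φ (qq t ^ i * k0) t (MM t) (betaP t) (tau t) (eps3 t) V')
    (hHc : ∀ S : Finset V, t ^ 3 ≤ S.card → t ≤ om Hᶜ S)
    (μ : (V → Fin (t ^ 3)) → ℝ) (hμ : ∀ g, 0 ≤ μ g) (hμ1 : ∑ g, μ g = 1) :
    ∃ f : V → Fin (t ^ 3), (2 / 3) * (V'.card : ℝ) ≤ ∑ g, μ g * pay H V' f g := by
  obtain ⟨a1, a2, a3, a4, a5, a6, a7, a8⟩ := na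
  obtain ⟨d1, d2, d3, d4, d5, d6, d7⟩ := nd
  obtain ⟨e1, e2⟩ := ne
  obtain ⟨f1, f2, f3, f4, f5, f6, f7, f8⟩ := nf
  obtain ⟨g1, g2, g3, g4, g5, g6, g7⟩ := ng
  obtain ⟨h1, h2, h3, h4, h5, h6⟩ := nh
  obtain ⟨i1, i2, i3, i4, i5, i6, i7⟩ := ni
  obtain ⟨j1, j2, j3, j4, j5⟩ := nj
  have htpos : (0 : ℝ) < t := by
    have : 0 < t := by omega
    exact_mod_cast this
  have ht1 : (1 : ℝ) ≤ t := by
    have : 1 ≤ t := by omega
    exact_mod_cast this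
  have hV0pos : (0 : ℝ) < V0.card := lt_of_lt_of_le (Real.exp_pos _) hV0c
  have hVlow : Real.exp (-(xV t)) * Real.exp (2 / 5 * (t : ℝ)) ≤ V'.card :=
    (mul_le_mul_of_nonneg_left hV0c (Real.exp_pos _).le).trans hV'c
  have hV'pos : (0 : ℝ) < V'.card := lt_of_lt_of_le (by positivity) hVlow
  have hVne : V'.Nonempty := card_pos.1 (by exact_mod_cast hV'pos)
  have hbV : 1 ≤ beta t * (V0.card : ℝ) :=
    h1.trans (mul_le_mul_of_nonneg_left hV0c f7.le)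
  -- s1
  set s1 : ℕ := ⌈(V'.card : ℝ) / t⌉₊ with hs1def
  have hs1a : (V'.card : ℝ) / t ≤ s1 := Nat.le_ceil _
  have hVt : (t : ℝ) ≤ V'.card := by
    have h41 : (t : ℝ) ≤ (t : ℝ) ^ 7 := by
      calc (t : ℝ) = (t : ℝ) ^ 1 := by ring
        _ ≤ (t : ℝ) ^ 7 := pow_le_pow_right₀ ht1 (by norm_num)
    have h42 : Real.exp (-(xV t)) * Real.exp (2 / 5 * (t : ℝ)) / t ≤
        Real.exp (-(xV t)) * Real.exp (2 / 5 * (t : ℝ)) :=
      div_le_self (by positivity) ht1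
    linarith
  have hs1b : (s1 : ℝ) ≤ 2 * ((V'.card : ℝ) / t) := by
    have h : (s1 : ℝ) < (V'.card : ℝ) / t + 1 := Nat.ceil_lt_add_one (by positivity)
    have h' : 1 ≤ (V'.card : ℝ) / t := by rw [le_div_iff₀ htpos]; linarith
    linarith
  have hs1V : s1 ≤ V'.card := by
    apply Nat.ceil_le.2
    exact div_le_self (by positivity) ht1
  have hs1pos : 1 ≤ s1 := by
    have h' : 1 ≤ (V'.card : ℝ) / t := by rw [le_div_iff₀ htpos]; linarith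
    have : (1 : ℝ) ≤ s1 := h'.trans hs1a
    exact_mod_cast this
  have hbt : betaP t ≤ 1 / (t : ℝ) := by
    rw [le_div_iff₀ htpos]
    calc betaP t * t ≤ betaP t * (20 * (t : ℝ) ^ 8) := by
          apply mul_le_mul_of_nonneg_left _ f4.le
          have : (t : ℝ) ≤ (t : ℝ) ^ 8 := by
            calc (t : ℝ) = (t : ℝ) ^ 1 := by ring
              _ ≤ (t : ℝ) ^ 8 := pow_le_pow_right₀ ht1 (by norm_num)
          nlinarith
      _ ≤ 1 := f6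
  have hE : Real.exp (-(12 + 10 / gamC t) * Real.log t) = Real.exp (-(xE t)) := by
    congr 1; unfold xE TT; ring
  have hbetaV : 2 * (beta t * (V0.card : ℝ)) ≤ betaP t * (V'.card : ℝ) := by
    calc 2 * (beta t * (V0.card : ℝ)) = (2 * beta t) * V0.card := by ring
      _ ≤ (betaP t * Real.exp (-(xV t))) * V0.card := mul_le_mul_of_nonneg_right f2 hV0pos.le
      _ = betaP t * (Real.exp (-(xV t)) * V0.card) := by ring
      _ ≤ betaP t * V'.card := mul_le_mul_of_nonneg_left hV'c f4.le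
  have h32 : 32 * (t : ℝ) ^ 8 / (beta t * (V0.card : ℝ)) < 1 / 2 := by
    refine lt_of_le_of_lt ?_ h2
    apply div_le_div_of_nonneg_left (by positivity) (by positivity)
    exact mul_le_mul_of_nonneg_left hV0c f7.le
  have hA3 := hall_A3 H t a1 hHc
  apply K2 H t (qq t) (WW t) (dd t) φ k0 (t ^ 3) s1 (MM t) (tau t) theta (eps t) (eps3 t)
    (beta t) (betaP t) (vv t) (G0 t) V0 V' hlev hV' hVne (by omega) a2 (by omega) a8
    (Nat.one_le_pow _ _ (by omega)) i6 i7 (by unfold theta; norm_num) (by unfold theta; norm_num)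
    (by unfold eps; positivity) i5 i4 f7 f4 f6 hbetaV hstab hs1pos ?_ hs1V ?_ i1 ?_ i3 ?_ ?_ j1 j2 j3
    j4 j5 nk μ hμ hμ1
  · calc betaP t * (V'.card : ℝ) ≤ (1 / (t : ℝ)) * V'.card :=
        mul_le_mul_of_nonneg_right hbt hV'pos.le
      _ = (V'.card : ℝ) / t := by ring
      _ ≤ s1 := hs1a
  · intro R hR hRc i hi
    have hRs : (V'.card : ℝ) / t ≤ R.card := hs1a.trans (by exact_mod_cast hRc)
    have hR7 : t ^ 7 ≤ R.card := by
      have : (t : ℝ) ^ 7 ≤ R.card := by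
        calc (t : ℝ) ^ 7 ≤ Real.exp (-(xV t)) * Real.exp (2 / 5 * (t : ℝ)) / t := h4
          _ ≤ (V'.card : ℝ) / t := by
            apply div_le_div_of_nonneg_right hVlow htpos.le
          _ ≤ R.card := hRs
      exact_mod_cast this
    have hsz : (beta t * (V0.card : ℝ)) *
        (16 * (t : ℝ) ^ 2 / gamC t + 4 / lam t + 16 * (t : ℝ) ^ 2) ≤
        Real.exp (-(12 + 10 / gamC t) * Real.log t) * R.card := by
      rw [hE]
      calc (beta t * (V0.card : ℝ)) *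
            (16 * (t : ℝ) ^ 2 / gamC t + 4 / lam t + 16 * (t : ℝ) ^ 2)
          = (beta t * (16 * (t : ℝ) ^ 2 / gamC t + 4 / lam t + 16 * (t : ℝ) ^ 2)) *
            V0.card := by ring
        _ ≤ (Real.exp (-(xE t)) * (Real.exp (-(xV t)) / t)) * V0.card :=
            mul_le_mul_of_nonneg_right g6 hV0pos.le
        _ = Real.exp (-(xE t)) * ((Real.exp (-(xV t)) * V0.card) / t) := by ring
        _ ≤ Real.exp (-(xE t)) * ((V'.card : ℝ) / t) := by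
            apply mul_le_mul_of_nonneg_left _ (Real.exp_pos _).le
            exact div_le_div_of_nonneg_right hV'c htpos.le
        _ ≤ Real.exp (-(xE t)) * R.card :=
            mul_le_mul_of_nonneg_left hRs (Real.exp_pos _).le
    obtain ⟨X, hXR, hXne, hXc, hXJ⟩ := K1 H t (qq t) (WW t) (dd t) φ k0 (bb t) (rr t) (uu t) i
      (MM t) (lam t) (gamC t) (beta t) V0 R hlev hi (hR.trans hV') hA3 a1 a2 hR7 a8 g1 g2 g3
      f7 hbV (by unfold lam TT; ring) g5 hsz d7 d6 d5 d2 d4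
      (by linarith) (by linarith)
    refine ⟨X, hXR, hXne, ?_, hXJ⟩
    rw [hE] at hXc
    calc betaP t * (V'.card : ℝ) ≤ (Real.exp (-(xE t)) / t) * V'.card :=
          mul_le_mul_of_nonneg_right g7 hV'pos.le
      _ = Real.exp (-(xE t)) * ((V'.card : ℝ) / t) := by ring
      _ ≤ Real.exp (-(xE t)) * R.card := mul_le_mul_of_nonneg_left hRs (Real.exp_pos _).le
      _ ≤ X.card := hXc
  · have h9 : 2 * (s1 : ℝ) / V'.card ≤ 4 / (t : ℝ) := by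
      rw [div_le_div_iff₀ hV'pos htpos]
      have : (s1 : ℝ) * t ≤ 2 * V'.card := by
        calc (s1 : ℝ) * t ≤ (2 * ((V'.card : ℝ) / t)) * t :=
              mul_le_mul_of_nonneg_right hs1b htpos.le
          _ = 2 * V'.card := by field_simp
      linarith
    have h10 : 0 ≤ MM t + 1 - vv t := by linarith
    have := mul_le_mul_of_nonneg_right h9 h10
    linarith
  · have : (20 : ℝ) ≤ V'.card := h5.trans hVlow
    exact_mod_cast this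
  · refine h6.trans ?_
    apply mul_le_mul_of_nonneg_left _ (by linarith)
    exact mul_le_mul_of_nonneg_left hVlow f4.le

end LR
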