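import Pool.Agent.LR.D2

set_option autoImplicit false
set_option linter.unusedSectionVars false

open Finset

namespace LR

variable {V : Type} [Fintype V] [DecidableEq V]

theorem powD_gen (q : ℕ) (f : Fin q → Finset V → ℝ) :
    ∑ a : Fin q → Finset V, ∏ i, f i (a i) = ∏ i, ∑ A, f i A := by
  classical
  have := Finset.prod_univ_sum (fun _ : Fin q => (Finset.univ : Finset (Finset V))) f
  rw [this, Fintype.piFinset_univ]

theorem powD_F0 (q : ℕ) (D : Finset V → ℝ) (h1 : ∑ A, D A = 1) :
    ∑ a : Fin q → Finset V, ∏ i, D (a i) = 1 := by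
  rw [powD_gen q (fun _ => D)]
  simp [h1]

theorem powD_F1 (q : ℕ) (D : Finset V → ℝ) (h1 : ∑ A, D A = 1) (g : Finset V → ℝ) (i : Fin q) :
    ∑ a : Fin q → Finset V, (∏ l, D (a l)) * g (a i) = ∑ A, D A * g A := by
  classical
  have e1 : ∀ a : Fin q → Finset V, (∏ l, D (a l)) * g (a i) =
      ∏ l, (D (a l) * (if l = i then g (a l) else 1)) := by
    intro a
    rw [Finset.prod_mul_distrib]
    congr 1
    rw [Finset.prod_ite_eq' Finset.univ i (fun l => g (a l))]
    simp
  rw [Finset.sum_congr rfl (fun a _ => e1 a),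
    powD_gen q (fun l A => D A * (if l = i then g A else 1))]
  have e2 : ∀ l : Fin q, ∑ A, D A * (if l = i then g A else 1) =
      (if l = i then ∑ A, D A * g A else 1) := by
    intro l
    by_cases h : l = i
    · simp [h]
    · simp [h, h1]
  rw [Finset.prod_congr rfl (fun l _ => e2 l), Finset.prod_ite_eq' Finset.univ i]
  simp

theorem powD_F2 (q : ℕ) (D : Finset V → ℝ) (h1 : ∑ A, D A = 1) (g h : Finset V → ℝ)
    (i j : Fin q) (hij : i ≠ j) :
    ∑ a : Fin q → Finset V, (∏ l, D (a l)) * (g (a i) * h (a j)) =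
      (∑ A, D A * g A) * (∑ A, D A * h A) := by
  classical
  have e1 : ∀ a : Fin q → Finset V, (∏ l, D (a l)) * (g (a i) * h (a j)) =
      ∏ l, (D (a l) * ((if l = i then g (a l) else 1) * (if l = j then h (a l) else 1))) := by
    intro a
    rw [Finset.prod_mul_distrib, Finset.prod_mul_distrib]
    congr 1
    rw [Finset.prod_ite_eq' Finset.univ i (fun l => g (a l)),
      Finset.prod_ite_eq' Finset.univ j (fun l => h (a l))]
    simp
  rw [Finset.sum_congr rfl (fun a _ => e1 a),
    powD_gen q (fun l A => D A * ((if l = i then g A else 1) * (if l = j then h A else 1)))]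
  have e2 : ∀ l : Fin q, ∑ A, D A * ((if l = i then g A else 1) * (if l = j then h A else 1)) =
      (if l = i then ∑ A, D A * g A else 1) * (if l = j then ∑ A, D A * h A else 1) := by
    intro l
    by_cases h' : l = i
    · have h'' : l ≠ j := by rw [h']; exact hij
      simp [h', hij]
    · by_cases h'' : l = j
      · have : j ≠ i := fun hh => hij hh.symm
        simp [h'', this]
      · simp [h', h'', h1]
  rw [Finset.prod_congr rfl (fun l _ => e2 l), Finset.prod_mul_distrib,
    Finset.prod_ite_eq' Finset.univ i, Finset.prod_ite_eq' Finset.univ j]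
  simp

theorem powD_w_nonneg (q : ℕ) (D : Finset V → ℝ) (hD : ∀ A, 0 ≤ D A) (a : Fin q → Finset V) :
    0 ≤ ∏ i, D (a i) := Finset.prod_nonneg (fun i _ => hD (a i))

/-- TARGET 1 -/
theorem iid_le_hit (H : SimpleGraph V) (k q : ℕ) (hk : 1 ≤ k) (hq : 1 ≤ q) (D : Finset V → ℝ)
    (hD : ∀ A, 0 ≤ D A) (h1 : ∑ A, D A = 1) (P : Finset V) :
    iid H k q D P ≤ hit H k D P := by
  classical
  have hk0 : (0 : ℝ) < k := by exact_mod_cast hk
  have hq0 : (0 : ℝ) < q := by exact_mod_cast hq
  have e1 : ∀ a : Fin q → Finset V,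
      (∏ i, D (a i)) * (om H (P ∩ Finset.univ.biUnion a) : ℝ) ≤
      ∑ i, (∏ l, D (a l)) * (om H (a i ∩ P) : ℝ) := by
    intro a
    rw [← Finset.mul_sum]
    apply mul_le_mul_of_nonneg_left _ (powD_w_nonneg q D hD a)
    have e2 : P ∩ Finset.univ.biUnion a = Finset.univ.biUnion (fun i => a i ∩ P) := by
      ext x
      simp only [Finset.mem_inter, Finset.mem_biUnion, Finset.mem_univ, true_and]
      constructor
      · rintro ⟨h1, i, h2⟩; exact ⟨i, h2, h1⟩
      · rintro ⟨i, h2, h1⟩; exact ⟨h1, i, h2⟩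
    rw [e2]
    exact_mod_cast om_biUnion_le H Finset.univ (fun i => a i ∩ P)
  have e3 : ∑ a : Fin q → Finset V,
      (∏ i, D (a i)) * (om H (P ∩ Finset.univ.biUnion a) : ℝ) ≤
      q * ∑ A, D A * (om H (A ∩ P) : ℝ) := by
    calc _ ≤ ∑ a : Fin q → Finset V, ∑ i, (∏ l, D (a l)) * (om H (a i ∩ P) : ℝ) :=
          Finset.sum_le_sum (fun a _ => e1 a)
      _ = ∑ i : Fin q, ∑ a : Fin q → Finset V, (∏ l, D (a l)) * (om H (a i ∩ P) : ℝ) :=
          Finset.sum_comm
      _ = ∑ _i : Fin q, ∑ A, D A * (om H (A ∩ P) : ℝ) :=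
          Finset.sum_congr rfl (fun i _ => powD_F1 q D h1 (fun A => (om H (A ∩ P) : ℝ)) i)
      _ = q * ∑ A, D A * (om H (A ∩ P) : ℝ) := by
          rw [Finset.sum_const, Finset.card_univ, Fintype.card_fin, nsmul_eq_mul]
  unfold iid hit
  rw [div_le_div_iff₀ (by positivity) hk0]
  calc _ ≤ (q * ∑ A, D A * (om H (A ∩ P) : ℝ)) * k := mul_le_mul_of_nonneg_right e3 hk0.le
    _ = _ := by ring

open Classical in
/-- normalising constant -/
noncomputable def powD_Z (q : ℕ) (D : Finset V → ℝ) : ℝ :=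
  ∑ a : Fin q → Finset V, if (∀ i j, i ≠ j → Disjoint (a i) (a j)) then ∏ i, D (a i) else 0

open Classical in
theorem powD_sum (q : ℕ) (D : Finset V → ℝ) (g : Finset V → ℝ) :
    ∑ U, powD q D U * g U = (∑ a : Fin q → Finset V,
      if (∀ i j, i ≠ j → Disjoint (a i) (a j)) then
        (∏ i, D (a i)) * g (Finset.univ.biUnion a) else 0) / powD_Z q D := by
  unfold powD
  have e0 : (∑ a : Fin q → Finset V, if (∀ i j, i ≠ j → Disjoint (a i) (a j)) then
      ∏ i, D (a i) else 0) = powD_Z q D := rfl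
  rw [e0]
  have e1 : ∀ U : Finset V, (∑ a : Fin q → Finset V,
      if (∀ i j, i ≠ j → Disjoint (a i) (a j)) ∧ Finset.univ.biUnion a = U then
        ∏ i, D (a i) else 0) / powD_Z q D * g U = (∑ a : Fin q → Finset V,
      if (∀ i j, i ≠ j → Disjoint (a i) (a j)) ∧ Finset.univ.biUnion a = U then
        (∏ i, D (a i)) * g (Finset.univ.biUnion a) else 0) / powD_Z q D := by
    intro U
    rw [div_mul_eq_mul_div, Finset.sum_mul]
    congr 1
    refine Finset.sum_congr rfl (fun a _ => ?_)
    by_cases h : (∀ i j, i ≠ j → Disjoint (a i) (a j)) ∧ Finset.univ.biUnion a = U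
    · rw [if_pos h, if_pos h, h.2]
    · rw [if_neg h, if_neg h, zero_mul]
  rw [Finset.sum_congr rfl (fun U _ => e1 U), ← Finset.sum_div, Finset.sum_comm]
  congr 1
  refine Finset.sum_congr rfl (fun a _ => ?_)
  by_cases h : (∀ i j, i ≠ j → Disjoint (a i) (a j))
  · rw [if_pos h]
    have : ∀ U : Finset V, (if (∀ i j, i ≠ j → Disjoint (a i) (a j)) ∧
        Finset.univ.biUnion a = U then (∏ i, D (a i)) * g (Finset.univ.biUnion a) else 0) =
        (if Finset.univ.biUnion a = U then (∏ i, D (a i)) * g (Finset.univ.biUnion a) else 0) := by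
      intro U
      by_cases h2 : Finset.univ.biUnion a = U
      · rw [if_pos ⟨h, h2⟩, if_pos h2]
      · rw [if_neg (fun hh => h2 hh.2), if_neg h2]
    rw [Finset.sum_congr rfl (fun U _ => this U), Finset.sum_ite_eq]
    simp
  · rw [if_neg h]
    apply Finset.sum_eq_zero
    intro U _
    rw [if_neg (fun hh => h hh.1)]

open Classical in
/-- marginal -/
noncomputable def powD_p (D : Finset V → ℝ) (x : V) : ℝ := ∑ A, D A * (if x ∈ A then 1 else 0)

open Classical in
theorem powD_p_eq (D : Finset V → ℝ) (x : V) :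
    powD_p D x = ∑ A, if x ∈ A then D A else 0 := by
  unfold powD_p
  refine Finset.sum_congr rfl (fun A _ => ?_)
  split_ifs <;> simp

theorem powD_p_nonneg (D : Finset V → ℝ) (hD : ∀ A, 0 ≤ D A) (x : V) : 0 ≤ powD_p D x := by
  classical
  unfold powD_p
  apply Finset.sum_nonneg
  intro A _
  apply mul_nonneg (hD A)
  split_ifs <;> norm_num

theorem powD_Zbound (H : SimpleGraph V) (φ k q : ℕ) (hk : 1 ≤ k) (hφ : 1 ≤ φ)
    (Q : Finset V) (D : Finset V → ℝ) (hD : IsD H φ k 4 Q D) (τ : ℝ)
    (hsmall : (q : ℝ) ^ 2 * (4 * ((k : ℝ) * φ)) * ((k : ℝ) * φ) ≤ (τ / 2) * Q.card) :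
    1 - τ / 2 ≤ powD_Z q D := by
  classical
  have hkφ : (0 : ℝ) < (k : ℝ) * φ := by
    have h1 : (0 : ℝ) < k := by exact_mod_cast hk
    have h2 : (0 : ℝ) < φ := by exact_mod_cast hφ
    positivity
  -- Q nonempty
  have hQ : 0 < Q.card := by
    obtain ⟨A, hA⟩ : ∃ A, D A ≠ 0 := by
      by_contra hcon
      push Not at hcon
      have := hD.sum_one
      rw [Finset.sum_eq_zero (fun A _ => hcon A)] at this
      exact zero_ne_one this
    obtain ⟨h1, _, h3⟩ := hD.supp A hA
    have h4 := Finset.card_le_card h1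
    rw [h3] at h4
    have : 1 ≤ k * φ := Nat.one_le_iff_ne_zero.mpr (by positivity)
    omega
  have hQ' : (0 : ℝ) < Q.card := by exact_mod_cast hQ
  have hsump : ∑ x, powD_p D x = (k : ℝ) * φ := by
    unfold powD_p
    rw [Finset.sum_comm]
    have : ∀ A : Finset V, ∑ x, D A * (if x ∈ A then (1:ℝ) else 0) = D A * ((k : ℝ) * φ) := by
      intro A
      rw [← Finset.mul_sum]
      by_cases h : D A = 0
      · rw [h, zero_mul, zero_mul]
      · obtain ⟨_, _, h3⟩ := hD.supp A h
        congr 1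
        rw [Finset.sum_boole]
        simp [h3]
    rw [Finset.sum_congr rfl (fun A _ => this A), ← Finset.sum_mul, hD.sum_one, one_mul]
  have hpx : ∀ x, powD_p D x * Q.card ≤ 4 * ((k : ℝ) * φ) := by
    intro x
    by_cases hx : x ∈ Q
    · rw [powD_p_eq]
      convert hD.marg x hx using 2
    · have : powD_p D x = 0 := by
        unfold powD_p
        apply Finset.sum_eq_zero
        intro A _
        by_cases h : D A = 0
        · rw [h, zero_mul]
        · obtain ⟨h1, _, _⟩ := hD.supp A h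
          rw [if_neg (fun hh => hx (h1 hh)), mul_zero]
      rw [this, zero_mul]
      positivity
  have hsq : (∑ x, powD_p D x * powD_p D x) * Q.card ≤ (4 * ((k : ℝ) * φ)) * ((k : ℝ) * φ) := by
    rw [← hsump, Finset.mul_sum, Finset.sum_mul]
    apply Finset.sum_le_sum
    intro x _
    rw [hsump]
    have := mul_le_mul_of_nonneg_right (hpx x) (powD_p_nonneg D hD.nonneg x)
    linarith
  have hbad : 1 - powD_Z q D ≤ ∑ i : Fin q, ∑ j : Fin q,
      (if i ≠ j then ∑ x, powD_p D x * powD_p D x else 0) := by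
    have e1 : 1 - powD_Z q D = ∑ a : Fin q → Finset V,
        (if (∀ i j, i ≠ j → Disjoint (a i) (a j)) then 0 else ∏ i, D (a i)) := by
      rw [← powD_F0 q D hD.sum_one]
      unfold powD_Z
      rw [← Finset.sum_sub_distrib]
      refine Finset.sum_congr rfl (fun a _ => ?_)
      split_ifs <;> ring
    rw [e1]
    have e2 : ∀ a : Fin q → Finset V,
        (if (∀ i j, i ≠ j → Disjoint (a i) (a j)) then 0 else ∏ i, D (a i)) ≤
        ∑ i : Fin q, ∑ j : Fin q, (if i ≠ j then ∑ x, (∏ l, D (a l)) *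
          ((if x ∈ a i then (1:ℝ) else 0) * (if x ∈ a j then (1:ℝ) else 0)) else 0) := by
      intro a
      have hw := powD_w_nonneg q D hD.nonneg a
      have hx0 : ∀ (i j : Fin q) (x : V), 0 ≤ (∏ l, D (a l)) *
          ((if x ∈ a i then (1:ℝ) else 0) * (if x ∈ a j then (1:ℝ) else 0)) := by
        intro i j x
        apply mul_nonneg hw
        apply mul_nonneg <;> split_ifs <;> norm_num
      have hnn : ∀ i j : Fin q, 0 ≤ (if i ≠ j then ∑ x, (∏ l, D (a l)) *
          ((if x ∈ a i then (1:ℝ) else 0) * (if x ∈ a j then (1:ℝ) else 0)) else 0) := by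
        intro i j
        split_ifs
        · exact Finset.sum_nonneg (fun x _ => hx0 i j x)
        · exact le_rfl
      by_cases h : (∀ i j, i ≠ j → Disjoint (a i) (a j))
      · rw [if_pos h]
        exact Finset.sum_nonneg (fun i _ => Finset.sum_nonneg (fun j _ => hnn i j))
      · rw [if_neg h]
        push Not at h
        obtain ⟨i, j, hij, hdis⟩ := h
        rw [Finset.not_disjoint_iff] at hdis
        obtain ⟨x, hxi, hxj⟩ := hdis
        have h1 : (∏ l, D (a l)) ≤ ∑ x, (∏ l, D (a l)) *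
          ((if x ∈ a i then (1:ℝ) else 0) * (if x ∈ a j then (1:ℝ) else 0)) := by
          have := Finset.single_le_sum (f := fun x => (∏ l, D (a l)) *
            ((if x ∈ a i then (1:ℝ) else 0) * (if x ∈ a j then (1:ℝ) else 0)))
            (fun x _ => hx0 i j x) (Finset.mem_univ x)
          simp only [if_pos hxi, if_pos hxj, mul_one] at this
          exact this
        have h2 : (∏ l, D (a l)) ≤ (if i ≠ j then ∑ x, (∏ l, D (a l)) *
          ((if x ∈ a i then (1:ℝ) else 0) * (if x ∈ a j then (1:ℝ) else 0)) else 0) := by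
          rw [if_pos hij]; exact h1
        have h3 := Finset.single_le_sum (f := fun j => (if i ≠ j then ∑ x, (∏ l, D (a l)) *
          ((if x ∈ a i then (1:ℝ) else 0) * (if x ∈ a j then (1:ℝ) else 0)) else 0))
          (fun j _ => hnn i j) (Finset.mem_univ j)
        have h4 := Finset.single_le_sum (f := fun i => ∑ j : Fin q,
          (if i ≠ j then ∑ x, (∏ l, D (a l)) *
          ((if x ∈ a i then (1:ℝ) else 0) * (if x ∈ a j then (1:ℝ) else 0)) else 0))
          (fun i _ => Finset.sum_nonneg (fun j _ => hnn i j)) (Finset.mem_univ i)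
        exact h2.trans (h3.trans h4)
    calc _ ≤ ∑ a : Fin q → Finset V, ∑ i : Fin q, ∑ j : Fin q,
          (if i ≠ j then ∑ x, (∏ l, D (a l)) *
          ((if x ∈ a i then (1:ℝ) else 0) * (if x ∈ a j then (1:ℝ) else 0)) else 0) :=
          Finset.sum_le_sum (fun a _ => e2 a)
      _ = ∑ i : Fin q, ∑ j : Fin q, ∑ a : Fin q → Finset V,
          (if i ≠ j then ∑ x, (∏ l, D (a l)) *
          ((if x ∈ a i then (1:ℝ) else 0) * (if x ∈ a j then (1:ℝ) else 0)) else 0) := by
          rw [Finset.sum_comm]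
          refine Finset.sum_congr rfl (fun i _ => ?_)
          rw [Finset.sum_comm]
      _ = _ := by
          refine Finset.sum_congr rfl (fun i _ => Finset.sum_congr rfl (fun j _ => ?_))
          by_cases hij : i ≠ j
          · simp only [if_pos hij]
            rw [Finset.sum_comm]
            refine Finset.sum_congr rfl (fun x _ => ?_)
            exact powD_F2 q D hD.sum_one (fun A => if x ∈ A then (1:ℝ) else 0)
              (fun A => if x ∈ A then (1:ℝ) else 0) i j hij
          · simp only [if_neg hij]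
            simp
  have hS0 : 0 ≤ ∑ x, powD_p D x * powD_p D x :=
    Finset.sum_nonneg (fun x _ => mul_self_nonneg _)
  have hbad2 : ∑ i : Fin q, ∑ j : Fin q,
      (if i ≠ j then ∑ x, powD_p D x * powD_p D x else 0) ≤
      (q : ℝ) ^ 2 * ∑ x, powD_p D x * powD_p D x := by
    calc _ ≤ ∑ i : Fin q, ∑ j : Fin q, ∑ x, powD_p D x * powD_p D x := by
          refine Finset.sum_le_sum (fun i _ => Finset.sum_le_sum (fun j _ => ?_))
          split_ifs
          · exact le_rfl
          · exact hS0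
      _ = _ := by
          simp only [Finset.sum_const, Finset.card_univ, Fintype.card_fin, nsmul_eq_mul]
          ring
  have hfin : (q : ℝ) ^ 2 * (∑ x, powD_p D x * powD_p D x) ≤ τ / 2 := by
    have h5 : ((q : ℝ) ^ 2 * (∑ x, powD_p D x * powD_p D x)) * Q.card ≤ (τ / 2) * Q.card := by
      calc _ = (q : ℝ) ^ 2 * ((∑ x, powD_p D x * powD_p D x) * Q.card) := by ring
        _ ≤ (q : ℝ) ^ 2 * ((4 * ((k : ℝ) * φ)) * ((k : ℝ) * φ)) :=
            mul_le_mul_of_nonneg_left hsq (by positivity)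
        _ = (q : ℝ) ^ 2 * (4 * ((k : ℝ) * φ)) * ((k : ℝ) * φ) := by ring
        _ ≤ _ := hsmall
    exact le_of_mul_le_mul_right h5 hQ'
  linarith

theorem powD_Zinv {Z τ : ℝ} (hτ : 0 < τ) (hτ1 : τ ≤ 1) (hZ : 1 - τ / 2 ≤ Z) :
    0 < Z ∧ 1 ≤ (1 + τ) * Z := by
  have h0 : 0 < Z := by linarith
  refine ⟨h0, ?_⟩
  have : (1 + τ) * (1 - τ / 2) ≤ (1 + τ) * Z := mul_le_mul_of_nonneg_left hZ (by linarith)
  nlinarith

theorem powD_div_le {Z τ X Y : ℝ} (hτ : 0 < τ) (hτ1 : τ ≤ 1) (hZ : 1 - τ / 2 ≤ Z)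
    (hY : 0 ≤ Y) (hXY : X ≤ Y) : X / Z ≤ (1 + τ) * Y := by
  obtain ⟨h0, h1⟩ := powD_Zinv hτ hτ1 hZ
  rw [div_le_iff₀ h0]
  calc X ≤ Y := hXY
    _ = 1 * Y := (one_mul Y).symm
    _ ≤ ((1 + τ) * Z) * Y := mul_le_mul_of_nonneg_right h1 hY
    _ = (1 + τ) * Y * Z := by ring

/-- TARGET 2 -/
theorem powD_isD (H : SimpleGraph V) (φ k q : ℕ) (hk : 1 ≤ k) (hq : 1 ≤ q) (hφ : 1 ≤ φ)
    (Q : Finset V) (D : Finset V → ℝ) (hD : IsD H φ k 4 Q D) (τ : ℝ) (hτ : 0 < τ) (hτ1 : τ ≤ 1)
    (hsmall : (q : ℝ) ^ 2 * (4 * ((k : ℝ) * φ)) * ((k : ℝ) * φ) ≤ (τ / 2) * Q.card) :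
    IsD H φ (q * k) (4 * (1 + τ)) Q (powD q D) := by
  classical
  have hZ := powD_Zbound H φ k q hk hφ Q D hD τ hsmall
  obtain ⟨hZ0, hZ1⟩ := powD_Zinv hτ hτ1 hZ
  refine ⟨?_, ?_, ?_, ?_⟩
  · intro U
    unfold powD
    apply div_nonneg
    · apply Finset.sum_nonneg
      intro a _
      split_ifs
      · exact powD_w_nonneg q D hD.nonneg a
      · exact le_rfl
    · exact hZ0.le
  · have h := powD_sum q D (fun _ => 1)
    simp only [mul_one] at h
    rw [h]
    exact div_self hZ0.ne'
  · intro U hU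
    have hne : (∑ a : Fin q → Finset V, if (∀ i j, i ≠ j → Disjoint (a i) (a j)) ∧
      Finset.univ.biUnion a = U then ∏ i, D (a i) else 0) ≠ 0 := by
      intro h0
      apply hU
      unfold powD
      rw [h0, zero_div]
    obtain ⟨a, _, ha⟩ := Finset.exists_ne_zero_of_sum_ne_zero hne
    by_cases hc : (∀ i j, i ≠ j → Disjoint (a i) (a j)) ∧ Finset.univ.biUnion a = U
    · rw [if_pos hc] at ha
      obtain ⟨hdis, hUn⟩ := hc
      have hai : ∀ i, D (a i) ≠ 0 := by
        intro i h0
        exact ha (Finset.prod_eq_zero (Finset.mem_univ i) h0)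
      refine ⟨?_, ?_, ?_⟩
      · rw [← hUn]
        intro x hx
        rw [Finset.mem_biUnion] at hx
        obtain ⟨i, _, hi⟩ := hx
        exact (hD.supp _ (hai i)).1 hi
      · rw [← hUn]
        refine (om_biUnion_le H Finset.univ a).trans ?_
        calc ∑ i, om H (a i) ≤ ∑ _i : Fin q, k :=
              Finset.sum_le_sum (fun i _ => (hD.supp _ (hai i)).2.1)
          _ = q * k := by rw [Finset.sum_const, Finset.card_univ, Fintype.card_fin, smul_eq_mul]
      · rw [← hUn, Finset.card_biUnion (fun i _ j _ hij => hdis i j hij)]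
        rw [Finset.sum_congr rfl (fun i _ => (hD.supp _ (hai i)).2.2)]
        rw [Finset.sum_const, Finset.card_univ, Fintype.card_fin, smul_eq_mul, mul_assoc]
    · rw [if_neg hc] at ha
      exact absurd rfl ha
  · intro x hx
    have h := powD_sum q D (fun U => if x ∈ U then (1:ℝ) else 0)
    have e1 : (∑ U, if x ∈ U then powD q D U else 0) =
        ∑ U, powD q D U * (if x ∈ U then (1:ℝ) else 0) := by
      refine Finset.sum_congr rfl (fun U _ => ?_)
      split_ifs <;> simp
    rw [e1, h]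
    have e2 : (∑ a : Fin q → Finset V, if (∀ i j, i ≠ j → Disjoint (a i) (a j)) then
        (∏ i, D (a i)) * (if x ∈ Finset.univ.biUnion a then (1:ℝ) else 0) else 0) ≤
        q * powD_p D x := by
      calc _ ≤ ∑ a : Fin q → Finset V, ∑ i, (∏ l, D (a l)) *
            (if x ∈ a i then (1:ℝ) else 0) := by
            apply Finset.sum_le_sum
            intro a _
            have hw := powD_w_nonneg q D hD.nonneg a
            have hx0 : ∀ i : Fin q, 0 ≤ (∏ l, D (a l)) * (if x ∈ a i then (1:ℝ) else 0) := by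
              intro i
              apply mul_nonneg hw
              split_ifs <;> norm_num
            by_cases h1 : (∀ i j, i ≠ j → Disjoint (a i) (a j))
            · rw [if_pos h1]
              by_cases h2 : x ∈ Finset.univ.biUnion a
              · rw [if_pos h2, mul_one]
                rw [Finset.mem_biUnion] at h2
                obtain ⟨i, _, hi⟩ := h2
                have := Finset.single_le_sum (f := fun i => (∏ l, D (a l)) *
                  (if x ∈ a i then (1:ℝ) else 0)) (fun i _ => hx0 i) (Finset.mem_univ i)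
                simp only [if_pos hi, mul_one] at this
                exact this
              · rw [if_neg h2, mul_zero]
                exact Finset.sum_nonneg (fun i _ => hx0 i)
            · rw [if_neg h1]
              exact Finset.sum_nonneg (fun i _ => hx0 i)
        _ = ∑ i : Fin q, ∑ a : Fin q → Finset V, (∏ l, D (a l)) *
            (if x ∈ a i then (1:ℝ) else 0) := Finset.sum_comm
        _ = ∑ _i : Fin q, powD_p D x :=
            Finset.sum_congr rfl (fun i _ => powD_F1 q D hD.sum_one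
              (fun A => if x ∈ A then (1:ℝ) else 0) i)
        _ = q * powD_p D x := by
            rw [Finset.sum_const, Finset.card_univ, Fintype.card_fin, nsmul_eq_mul]
    have hpn := powD_p_nonneg D hD.nonneg x
    have hq0 : (0 : ℝ) ≤ q := Nat.cast_nonneg q
    have e3 := powD_div_le hτ hτ1 hZ (mul_nonneg hq0 hpn) e2
    have hm : powD_p D x * Q.card ≤ 4 * ((k : ℝ) * φ) := by
      rw [powD_p_eq]
      convert hD.marg x hx using 2
    have hQ0 : (0 : ℝ) ≤ Q.card := Nat.cast_nonneg _
    have e4 := mul_le_mul_of_nonneg_right e3 hQ0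
    refine e4.trans ?_
    push_cast
    calc (1 + τ) * (q * powD_p D x) * Q.card = ((1 + τ) * q) * (powD_p D x * Q.card) := by ring
      _ ≤ ((1 + τ) * q) * (4 * ((k : ℝ) * φ)) :=
          mul_le_mul_of_nonneg_left hm (by positivity)
      _ = _ := by ring

/-- TARGET 3 -/
theorem powD_hit (H : SimpleGraph V) (φ k q : ℕ) (hk : 1 ≤ k) (hq : 1 ≤ q) (hφ : 1 ≤ φ)
    (Q : Finset V) (D : Finset V → ℝ) (hD : IsD H φ k 4 Q D) (τ : ℝ) (hτ : 0 < τ) (hτ1 : τ ≤ 1)
    (hsmall : (q : ℝ) ^ 2 * (4 * ((k : ℝ) * φ)) * ((k : ℝ) * φ) ≤ (τ / 2) * Q.card)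
    (P : Finset V) :
    hit H (q * k) (powD q D) P ≤ (1 + τ) * iid H k q D P := by
  classical
  have hZ := powD_Zbound H φ k q hk hφ Q D hD τ hsmall
  unfold hit iid
  rw [powD_sum q D (fun U => (om H (U ∩ P) : ℝ))]
  have hk0 : (0 : ℝ) < k := by exact_mod_cast hk
  have hq0 : (0 : ℝ) < q := by exact_mod_cast hq
  have e0 : ∀ a : Fin q → Finset V, 0 ≤ (∏ i, D (a i)) *
      (om H (P ∩ Finset.univ.biUnion a) : ℝ) := fun a =>
    mul_nonneg (powD_w_nonneg q D hD.nonneg a) (Nat.cast_nonneg _)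
  have e1 : (∑ a : Fin q → Finset V, if (∀ i j, i ≠ j → Disjoint (a i) (a j)) then
      (∏ i, D (a i)) * (om H (Finset.univ.biUnion a ∩ P) : ℝ) else 0) ≤
      ∑ a : Fin q → Finset V, (∏ i, D (a i)) * (om H (P ∩ Finset.univ.biUnion a) : ℝ) := by
    apply Finset.sum_le_sum
    intro a _
    split_ifs
    · rw [Finset.inter_comm]
    · exact e0 a
  have e2 := powD_div_le hτ hτ1 hZ (Finset.sum_nonneg (fun a _ => e0 a)) e1
  push_cast
  rw [← mul_div_assoc]
  exact div_le_div_of_nonneg_right e2 (by positivity)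

end LR
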