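import Pool.Agent.LR.P1

set_option autoImplicit false
set_option linter.unusedSectionVars false

open Finset

namespace LR

variable {V : Type} [Fintype V] [DecidableEq V]

/-- TARGET 1 -/
theorem mix_isD (H : SimpleGraph V) (φ k : ℕ) (a τ : ℝ) (ha : 0 ≤ a) (hτ : 0 ≤ τ)
    (Q : Finset V) (hQ : Q.Nonempty) {ι : Type} [Fintype ι] (w : ι → ℝ) (Qs : ι → Finset V)
    (Ds : ι → Finset V → ℝ) (hw : ∀ j, 0 ≤ w j) (hw1 : ∑ j, w j = 1)
    (hsub : ∀ j, w j ≠ 0 → Qs j ⊆ Q ∧ (Qs j).Nonempty ∧ IsD H φ k a (Qs j) (Ds j))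
    (hmarg : ∀ x ∈ Q, (∑ j, if x ∈ Qs j then w j / ((Qs j).card : ℝ) else 0) ≤
      (1 + τ) / (Q.card : ℝ)) :
    IsD H φ k (a * (1 + τ)) Q (fun A => ∑ j, w j * Ds j A) := by
  have hQc : (0 : ℝ) < Q.card := by exact_mod_cast hQ.card_pos
  refine ⟨?_, ?_, ?_, ?_⟩
  · intro A
    refine Finset.sum_nonneg fun j _ => ?_
    by_cases h : w j = 0
    · rw [h, zero_mul]
    · exact mul_nonneg (hw j) ((hsub j h).2.2.nonneg A)
  · show ∑ A, ∑ j, w j * Ds j A = 1
    rw [Finset.sum_comm, ← hw1]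
    refine Finset.sum_congr rfl fun j _ => ?_
    rw [← Finset.mul_sum]
    by_cases h : w j = 0
    · rw [h, zero_mul]
    · rw [(hsub j h).2.2.sum_one, mul_one]
  · intro A hA
    obtain ⟨j, _, hj⟩ := Finset.exists_ne_zero_of_sum_ne_zero hA
    have h1 : w j ≠ 0 := left_ne_zero_of_mul hj
    have h2 : Ds j A ≠ 0 := right_ne_zero_of_mul hj
    obtain ⟨h3, h4, h5⟩ := (hsub j h1).2.2.supp A h2
    exact ⟨h3.trans (hsub j h1).1, h4, h5⟩
  · intro x hx
    have hsw : (∑ A, if x ∈ A then ∑ j, w j * Ds j A else 0) =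
        ∑ j, w j * ∑ A, (if x ∈ A then Ds j A else 0) := by
      have h1 : ∀ A : Finset V, (if x ∈ A then ∑ j, w j * Ds j A else 0) =
          ∑ j, w j * (if x ∈ A then Ds j A else 0) := by
        intro A
        split_ifs with h
        · rfl
        · simp
      simp only [h1]
      rw [Finset.sum_comm]
      refine Finset.sum_congr rfl fun j _ => ?_
      rw [Finset.mul_sum]
    show (∑ A, if x ∈ A then ∑ j, w j * Ds j A else 0) * (Q.card : ℝ) ≤ _
    rw [hsw]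
    have hkφ : (0 : ℝ) ≤ (k : ℝ) * φ := by positivity
    have hterm : ∀ j, w j * ∑ A, (if x ∈ A then Ds j A else 0) ≤
        (if x ∈ Qs j then w j / ((Qs j).card : ℝ) else 0) * (a * ((k : ℝ) * φ)) := by
      intro j
      by_cases h : w j = 0
      · rw [h]; simp
      · obtain ⟨h1, h2, h3⟩ := hsub j h
        have hc : (0 : ℝ) < (Qs j).card := by exact_mod_cast h2.card_pos
        by_cases hxj : x ∈ Qs j
        · rw [if_pos hxj]
          have h4 := h3.marg x hxj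
          rw [← le_div_iff₀ hc] at h4
          calc w j * ∑ A, (if x ∈ A then Ds j A else 0) ≤ w j * (a * ((k : ℝ) * φ) / (Qs j).card) :=
                mul_le_mul_of_nonneg_left h4 (hw j)
            _ = _ := by ring
        · rw [if_neg hxj, zero_mul]
          have h5 : ∑ A, (if x ∈ A then Ds j A else 0) = 0 := by
            refine Finset.sum_eq_zero fun A _ => ?_
            split_ifs with hxA
            · by_contra hne
              exact hxj ((h3.supp A hne).1 hxA)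
            · rfl
          rw [h5, mul_zero]
    calc (∑ j, w j * ∑ A, (if x ∈ A then Ds j A else 0)) * (Q.card : ℝ) ≤
          (∑ j, (if x ∈ Qs j then w j / ((Qs j).card : ℝ) else 0) * (a * ((k : ℝ) * φ))) * Q.card :=
          mul_le_mul_of_nonneg_right (Finset.sum_le_sum fun j _ => hterm j) hQc.le
      _ = (∑ j, (if x ∈ Qs j then w j / ((Qs j).card : ℝ) else 0)) * (a * ((k : ℝ) * φ)) * Q.card := by
          congr 1
          rw [Finset.sum_mul]
      _ ≤ ((1 + τ) / (Q.card : ℝ)) * (a * ((k : ℝ) * φ)) * Q.card := by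
          refine mul_le_mul_of_nonneg_right ?_ hQc.le
          exact mul_le_mul_of_nonneg_right (hmarg x hx) (mul_nonneg ha hkφ)
      _ = _ := by field_simp

/-- TARGET 2 -/
theorem hit_mix (H : SimpleGraph V) (k : ℕ) {ι : Type} [Fintype ι] (w : ι → ℝ)
    (Ds : ι → Finset V → ℝ) (P : Finset V) :
    hit H k (fun A => ∑ j, w j * Ds j A) P = ∑ j, w j * hit H k (Ds j) P := by
  unfold hit
  have h1 : ∑ A, (∑ j, w j * Ds j A) * (om H (A ∩ P) : ℝ) =
      ∑ j, w j * ∑ A, Ds j A * (om H (A ∩ P) : ℝ) := by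
    simp only [Finset.sum_mul, Finset.mul_sum]
    rw [Finset.sum_comm]
    exact Finset.sum_congr rfl fun j _ => Finset.sum_congr rfl fun A _ => by ring
  rw [h1, Finset.sum_div]
  exact Finset.sum_congr rfl fun j _ => by ring

/-- TARGET 3 -/
theorem J_lip (H : SimpleGraph V) (φ k t : ℕ) (M : ℝ) (ht : 1 ≤ t) (hM : 0 ≤ M) (hk : 1 ≤ k)
    (Q : Finset V) (hQ : Q.Nonempty) (τ : ℝ) (hτ : 0 ≤ τ) (hτ1 : τ ≤ 1 / 2)
    (D' : Finset V → ℝ) (hD' : IsD H φ k (4 * (1 + τ)) Q D')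
    (hD0 : ∃ D, IsD H φ k 2 Q D) :
    valD H k t M Q D' - 2 * τ * M ≤ J H φ k t M Q := by
  obtain ⟨D0, hD0⟩ := hD0
  have hkφ : (0 : ℝ) ≤ (k : ℝ) * φ := by positivity
  have hc1 : (0 : ℝ) ≤ 1 - 2 * τ := by linarith
  have hc2 : (0 : ℝ) ≤ 2 * τ := by linarith
  have hD : IsD H φ k 4 Q (fun A => (1 - 2 * τ) * D' A + 2 * τ * D0 A) := by
    refine ⟨?_, ?_, ?_, ?_⟩
    · intro A
      exact add_nonneg (mul_nonneg hc1 (hD'.nonneg A)) (mul_nonneg hc2 (hD0.nonneg A))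
    · show ∑ A, ((1 - 2 * τ) * D' A + 2 * τ * D0 A) = 1
      rw [Finset.sum_add_distrib, ← Finset.mul_sum, ← Finset.mul_sum, hD'.sum_one, hD0.sum_one]
      ring
    · intro A hA
      by_cases h : D' A = 0
      · by_cases h0 : D0 A = 0
        · exfalso; apply hA; simp [h, h0]
        · exact hD0.supp A h0
      · exact hD'.supp A h
    · intro x hx
      have h1 := hD'.marg x hx
      have h2 := hD0.marg x hx
      have h3 : (∑ A, if x ∈ A then (1 - 2 * τ) * D' A + 2 * τ * D0 A else 0) =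
          (1 - 2 * τ) * (∑ A, if x ∈ A then D' A else 0) +
            2 * τ * (∑ A, if x ∈ A then D0 A else 0) := by
        rw [Finset.mul_sum, Finset.mul_sum, ← Finset.sum_add_distrib]
        refine Finset.sum_congr rfl fun A _ => ?_
        split_ifs <;> ring
      show (∑ A, if x ∈ A then (1 - 2 * τ) * D' A + 2 * τ * D0 A else 0) * (Q.card : ℝ) ≤ _
      rw [h3]
      calc _ = (1 - 2 * τ) * ((∑ A, if x ∈ A then D' A else 0) * (Q.card : ℝ)) +
            2 * τ * ((∑ A, if x ∈ A then D0 A else 0) * (Q.card : ℝ)) := by ring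
        _ ≤ (1 - 2 * τ) * (4 * (1 + τ) * ((k : ℝ) * φ)) + 2 * τ * (2 * ((k : ℝ) * φ)) :=
            add_le_add (mul_le_mul_of_nonneg_left h1 hc1) (mul_le_mul_of_nonneg_left h2 hc2)
        _ = (4 - 8 * τ ^ 2) * ((k : ℝ) * φ) := by ring
        _ ≤ 4 * ((k : ℝ) * φ) := by
            apply mul_le_mul_of_nonneg_right _ hkφ
            nlinarith [sq_nonneg τ]
  refine le_trans ?_ (valD_le_J H φ k t M ht hM Q _ hD)
  unfold valD
  refine Finset.le_inf' _ _ fun P _ => ?_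
  have h1 : valD H k t M Q D' ≤ Phi H k t M Q D' P := valD_le_Phi H k t M Q D' P
  have hhit : hit H k (fun A => (1 - 2 * τ) * D' A + 2 * τ * D0 A) P =
      (1 - 2 * τ) * hit H k D' P + 2 * τ * hit H k D0 P := by
    unfold hit
    have : ∑ A, ((1 - 2 * τ) * D' A + 2 * τ * D0 A) * (om H (A ∩ P) : ℝ) =
        (1 - 2 * τ) * (∑ A, D' A * (om H (A ∩ P) : ℝ)) + 2 * τ * (∑ A, D0 A * (om H (A ∩ P) : ℝ)) := by
      rw [Finset.mul_sum, Finset.mul_sum, ← Finset.sum_add_distrib]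
      exact Finset.sum_congr rfl fun A _ => by ring
    rw [this]; ring
  have hn := hit_nonneg H k D' hD'.nonneg P
  have ho := hit_le_one H φ k 2 hk Q D0 hD0 P
  have hle : hit H k (fun A => (1 - 2 * τ) * D' A + 2 * τ * D0 A) P ≤ hit H k D' P + 2 * τ := by
    rw [hhit]
    nlinarith [mul_nonneg hc2 hn, mul_le_mul_of_nonneg_left ho hc2]
  have h2 : Phi H k t M Q D' P - 2 * τ * M ≤
      Phi H k t M Q (fun A => (1 - 2 * τ) * D' A + 2 * τ * D0 A) P := by
    unfold Phi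
    have := mul_le_mul_of_nonneg_left hle hM
    nlinarith [this]
  have h3 : (Finset.univ : Finset (Finset V)).inf' Finset.univ_nonempty
      (fun P => Phi H k t M Q D' P) ≤ Phi H k t M Q D' P := h1
  linarith

/-- TARGET 4 -/
theorem avg_le (Q : Finset V) (hQ : Q.Nonempty) {ι : Type} [Fintype ι] (w : ι → ℝ)
    (Qs : ι → Finset V) (τ : ℝ) (hτ : 0 ≤ τ) (hw : ∀ j, 0 ≤ w j)
    (hsub : ∀ j, w j ≠ 0 → Qs j ⊆ Q ∧ (Qs j).Nonempty)
    (hmarg : ∀ x ∈ Q, (∑ j, if x ∈ Qs j then w j / ((Qs j).card : ℝ) else 0) ≤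
      (1 + τ) / (Q.card : ℝ)) (P : Finset V) :
    ∑ j, w j * (((P ∩ Qs j).card : ℝ) / ((Qs j).card : ℝ)) ≤
      (1 + τ) * (((P ∩ Q).card : ℝ) / (Q.card : ℝ)) := by
  have h1 : ∀ j, w j * (((P ∩ Qs j).card : ℝ) / ((Qs j).card : ℝ)) =
      ∑ x ∈ P ∩ Q, (if x ∈ Qs j then w j / ((Qs j).card : ℝ) else 0) := by
    intro j
    by_cases h : w j = 0
    · rw [h]; simp
    · have hs := (hsub j h).1
      rw [← Finset.sum_filter, Finset.sum_const, nsmul_eq_mul]
      have : (P ∩ Q).filter (fun x => x ∈ Qs j) = P ∩ Qs j := by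
        ext x
        simp only [mem_filter, mem_inter]
        constructor
        · rintro ⟨⟨a, _⟩, b⟩; exact ⟨a, b⟩
        · rintro ⟨a, b⟩; exact ⟨⟨a, hs b⟩, b⟩
      rw [this]; ring
  simp only [h1]
  rw [Finset.sum_comm]
  calc _ ≤ ∑ x ∈ P ∩ Q, (1 + τ) / (Q.card : ℝ) :=
        Finset.sum_le_sum fun x hx => hmarg x (mem_inter.mp hx).2
    _ = _ := by rw [Finset.sum_const, nsmul_eq_mul]; ring

/-- TARGET 5 -/
theorem log_avg_le (Q : Finset V) (hQ : Q.Nonempty) {ι : Type} [Fintype ι] (w : ι → ℝ)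
    (Qs : ι → Finset V) (τ : ℝ) (hτ : 0 ≤ τ) (hw : ∀ j, 0 ≤ w j) (hw1 : ∑ j, w j = 1)
    (hsub : ∀ j, w j ≠ 0 → Qs j ⊆ Q ∧ (Qs j).Nonempty)
    (hmarg : ∀ x ∈ Q, (∑ j, if x ∈ Qs j then w j / ((Qs j).card : ℝ) else 0) ≤
      (1 + τ) / (Q.card : ℝ)) (P : Finset V) (s : ℝ) (hs : 0 < s) :
    Real.log (∑ j, w j * (((P ∩ Qs j).card : ℝ) / ((Qs j).card : ℝ) + s)) - τ ≤
      Real.log (((P ∩ Q).card : ℝ) / (Q.card : ℝ) + s) := by
  have h1 := avg_le Q hQ w Qs τ hτ hw hsub hmarg P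
  have h2 : ∑ j, w j * (((P ∩ Qs j).card : ℝ) / ((Qs j).card : ℝ) + s) =
      ∑ j, w j * (((P ∩ Qs j).card : ℝ) / ((Qs j).card : ℝ)) + s := by
    simp only [mul_add]
    rw [Finset.sum_add_distrib, ← Finset.sum_mul, hw1, one_mul]
  have h3 : 0 ≤ ∑ j, w j * (((P ∩ Qs j).card : ℝ) / ((Qs j).card : ℝ)) :=
    Finset.sum_nonneg fun j _ => mul_nonneg (hw j) (by positivity)
  have hU : (0 : ℝ) ≤ ((P ∩ Q).card : ℝ) / (Q.card : ℝ) := by positivity
  rw [h2]
  have h4 : ∑ j, w j * (((P ∩ Qs j).card : ℝ) / ((Qs j).card : ℝ)) + s ≤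
      (1 + τ) * (((P ∩ Q).card : ℝ) / (Q.card : ℝ) + s) := by
    nlinarith [mul_nonneg hτ hs.le]
  have h5 := Real.log_le_log (by linarith) h4
  rw [Real.log_mul (by linarith) (by linarith)] at h5
  have h6 : Real.log (1 + τ) ≤ τ := by
    have := Real.log_le_sub_one_of_pos (show (0 : ℝ) < 1 + τ by linarith)
    linarith
  linarith

/-- TARGET 6 -/
theorem J_super (H : SimpleGraph V) (φ k t : ℕ) (M : ℝ) (ht : 1 ≤ t) (hM : 0 ≤ M) (hk : 1 ≤ k)
    (Q : Finset V) (hQ : Q.Nonempty) {ι : Type} [Fintype ι] (w : ι → ℝ) (Qs : ι → Finset V)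
    (τ : ℝ) (hτ : 0 ≤ τ) (hτ1 : τ ≤ 1 / 2) (hw : ∀ j, 0 ≤ w j) (hw1 : ∑ j, w j = 1)
    (hsub : ∀ j, w j ≠ 0 → Qs j ⊆ Q ∧ (Qs j).Nonempty ∧ ∃ D, IsD H φ k 4 (Qs j) D)
    (hmarg : ∀ x ∈ Q, (∑ j, if x ∈ Qs j then w j / ((Qs j).card : ℝ) else 0) ≤
      (1 + τ) / (Q.card : ℝ))
    (hD0 : ∃ D, IsD H φ k 2 Q D) :
    ∑ j, w j * J H φ k t M (Qs j) ≤ J H φ k t M Q + τ * (1 + 2 * M) := by
  have htpos : (0 : ℝ) < t := by exact_mod_cast ht
  have hs : (0 : ℝ) < 1 / (t : ℝ) ^ 2 := by positivity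
  refine le_of_forall_pos_le_add fun ε hε => ?_
  have hch : ∀ j, ∃ D : Finset V → ℝ, w j ≠ 0 →
      (IsD H φ k 4 (Qs j) D ∧ J H φ k t M (Qs j) - ε ≤ valD H k t M (Qs j) D) := by
    intro j
    by_cases h : w j = 0
    · exact ⟨0, fun h' => absurd h h'⟩
    · obtain ⟨D, hD1, hD2⟩ := exists_near_J H φ k t M (Qs j) (hsub j h).2.2 ε hε
      exact ⟨D, fun _ => ⟨hD1, hD2⟩⟩
  choose Ds hDs using hch
  have hmix := mix_isD H φ k 4 τ (by norm_num) hτ Q hQ w Qs Ds hw hw1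
    (fun j hj => ⟨(hsub j hj).1, (hsub j hj).2.1, (hDs j hj).1⟩) hmarg
  have hlip := J_lip H φ k t M ht hM hk Q hQ τ hτ hτ1 _ hmix hD0
  have hval : ∑ j, w j * J H φ k t M (Qs j) - ε - τ ≤
      valD H k t M Q (fun A => ∑ j, w j * Ds j A) := by
    unfold valD
    refine Finset.le_inf' _ _ fun P _ => ?_
    have hlog := log_avg_le Q hQ w Qs τ hτ hw hw1 (fun j hj => ⟨(hsub j hj).1, (hsub j hj).2.1⟩)
      hmarg P (1 / (t : ℝ) ^ 2) hs
    have hconc : ∑ j, w j * Real.log (((P ∩ Qs j).card : ℝ) / ((Qs j).card : ℝ) + 1 / (t : ℝ) ^ 2) ≤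
        Real.log (∑ j, w j * (((P ∩ Qs j).card : ℝ) / ((Qs j).card : ℝ) + 1 / (t : ℝ) ^ 2)) := by
      have := strictConcaveOn_log_Ioi.concaveOn.le_map_sum (t := Finset.univ) (w := w)
        (p := fun j => ((P ∩ Qs j).card : ℝ) / ((Qs j).card : ℝ) + 1 / (t : ℝ) ^ 2)
        (fun j _ => hw j) hw1 (fun j _ => by
          show (0 : ℝ) < _
          positivity)
      simpa [smul_eq_mul] using this
    have hphi : Phi H k t M Q (fun A => ∑ j, w j * Ds j A) P =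
        Real.log (((P ∩ Q).card : ℝ) / Q.card + 1 / (t : ℝ) ^ 2) +
          M * (1 - ∑ j, w j * hit H k (Ds j) P) := by
      unfold Phi
      rw [hit_mix]
    have hone : M * (1 - ∑ j, w j * hit H k (Ds j) P) =
        ∑ j, w j * (M * (1 - hit H k (Ds j) P)) := by
      have : ∑ j, w j * (M * (1 - hit H k (Ds j) P)) =
          M * (∑ j, w j - ∑ j, w j * hit H k (Ds j) P) := by
        rw [← Finset.sum_sub_distrib, Finset.mul_sum]
        exact Finset.sum_congr rfl fun j _ => by ring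
      rw [this, hw1]
    have hsum : ∑ j, w j * (J H φ k t M (Qs j) - ε) ≤
        ∑ j, w j * (Real.log (((P ∩ Qs j).card : ℝ) / ((Qs j).card : ℝ) + 1 / (t : ℝ) ^ 2) +
          M * (1 - hit H k (Ds j) P)) := by
      refine Finset.sum_le_sum fun j _ => ?_
      by_cases h : w j = 0
      · rw [h, zero_mul, zero_mul]
      · refine mul_le_mul_of_nonneg_left ?_ (hw j)
        exact (hDs j h).2.trans (valD_le_Phi H k t M (Qs j) (Ds j) P)
    have he : ∑ j, w j * (J H φ k t M (Qs j) - ε) = ∑ j, w j * J H φ k t M (Qs j) - ε := by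
      simp only [mul_sub]
      rw [Finset.sum_sub_distrib, ← Finset.sum_mul, hw1, one_mul]
    have hsp : ∑ j, w j * (Real.log (((P ∩ Qs j).card : ℝ) / ((Qs j).card : ℝ) + 1 / (t : ℝ) ^ 2) +
          M * (1 - hit H k (Ds j) P)) =
        ∑ j, w j * Real.log (((P ∩ Qs j).card : ℝ) / ((Qs j).card : ℝ) + 1 / (t : ℝ) ^ 2) +
          ∑ j, w j * (M * (1 - hit H k (Ds j) P)) := by
      simp only [mul_add]
      rw [Finset.sum_add_distrib]
    rw [hphi, hone]
    linarith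
  nlinarith [hval, hlip]

end LR
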