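import Pool.Agent.LR.S1

set_option autoImplicit false
set_option linter.unusedSectionVars false

open Finset

namespace LR

variable {V : Type} [Fintype V] [DecidableEq V]

/-- TARGET -/
theorem J_level (H : SimpleGraph V) (φ k q t : ℕ) (M : ℝ) (ht : 1 ≤ t) (hM : 0 ≤ M) (hk : 1 ≤ k)
    (hq : 1 ≤ q) (hφ : 1 ≤ φ) (Q : Finset V) (hQ : Q.Nonempty) (τ : ℝ) (hτ : 0 < τ)
    (hτ1 : τ ≤ 1 / 2)
    (hsmall : (q : ℝ) ^ 2 * (4 * ((k : ℝ) * φ)) * ((k : ℝ) * φ) ≤ (τ / 2) * Q.card)
    (hne : ∃ D, IsD H φ k 4 Q D) (hD0 : ∃ D, IsD H φ (q * k) 2 Q D) :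
    J H φ k t M Q ≤ J H φ (q * k) t M Q + 3 * τ * M := by
  have hkq : 1 ≤ q * k := Nat.mul_pos hq hk
  apply le_of_forall_pos_le_add
  intro ε hε
  obtain ⟨D, hD, hJ⟩ := exists_near_J H φ k t M Q hne ε hε
  have hτ' : τ ≤ 1 := by linarith
  have hpow := powD_isD H φ k q hk hq hφ Q D hD τ hτ hτ' hsmall
  have hP : valD H k t M Q D - τ * M ≤ valD H (q * k) t M Q (powD q D) := by
    have h0 : ∀ P : Finset V, valD H k t M Q D - τ * M ≤ Phi H (q * k) t M Q (powD q D) P := by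
      intro P
      have h1 := valD_le_Phi H k t M Q D P
      have h2 := powD_hit H φ k q hk hq hφ Q D hD τ hτ hτ' hsmall P
      have h3 := iid_le_hit H k q hk hq D hD.nonneg hD.sum_one P
      have h4 := hit_le_one H φ k 4 hk Q D hD P
      unfold Phi at h1 ⊢
      have h5 : τ * iid H k q D P ≤ τ := by nlinarith
      have h6 : hit H (q * k) (powD q D) P ≤ hit H k D P + τ := by linarith
      have h7 : M * hit H (q * k) (powD q D) P ≤ M * (hit H k D P + τ) := mul_le_mul_of_nonneg_left h6 hM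
      nlinarith
    have h8 : valD H (q * k) t M Q (powD q D) = (Finset.univ : Finset (Finset V)).inf' Finset.univ_nonempty
        (fun P => Phi H (q * k) t M Q (powD q D) P) := rfl
    rw [h8]
    exact Finset.le_inf' _ _ (fun P _ => h0 P)
  have hlip := J_lip H φ (q * k) t M ht hM hkq Q hQ τ hτ.le hτ1 (powD q D) hpow hD0
  nlinarith

end LR
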