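import Pool.Agent.LR.G1

set_option autoImplicit false
set_option linter.unusedSectionVars false

open Finset

namespace LR

variable {V : Type} [Fintype V] [DecidableEq V]

/-- TARGET 1 -/
theorem bad_weight {ι : Type} [Fintype ι] (w u : ι → ℝ) (hw : ∀ j, 0 ≤ w j) (hw1 : ∑ j, w j = 1)
    (hu : ∀ j, 0 < u j) (δ β : ℝ) (B : Finset ι) (hB : ∑ j ∈ B, w j ≤ β)
    (h : Real.log (∑ j, w j * u j) - ∑ j, w j * Real.log (u j) ≤ δ) :
    ∑ j ∈ B, w j * u j ≤ (8 * β + 2 * δ) * ∑ j, w j * u j := by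
  have hex : ∃ j, 0 < w j := by
    by_contra hcon
    push Not at hcon
    have : ∑ j, w j ≤ 0 := Finset.sum_nonpos (fun j _ => hcon j)
    linarith
  obtain ⟨j0, hj0⟩ := hex
  obtain ⟨m, hm⟩ : ∃ m, m = ∑ j, w j * u j := ⟨_, rfl⟩
  have hmpos : 0 < m := by
    rw [hm]
    exact Finset.sum_pos' (fun j _ => mul_nonneg (hw j) (hu j).le)
      ⟨j0, mem_univ _, mul_pos hj0 (hu j0)⟩
  rw [← hm] at h ⊢
  have hf0 : ∀ j, 0 ≤ u j / m - 1 - Real.log (u j / m) := by
    intro j
    have := Real.log_le_sub_one_of_pos (div_pos (hu j) hmpos)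
    linarith
  have hfv : ∀ j, u j / m ≤ 8 + 2 * (u j / m - 1 - Real.log (u j / m)) := by
    intro j
    have hv : 0 < u j / m := div_pos (hu j) hmpos
    have h1 := Real.log_le_sub_one_of_pos (div_pos hv (by norm_num : (0 : ℝ) < 2))
    rw [Real.log_div hv.ne' (by norm_num)] at h1
    have h2 : Real.log 2 < 1 := by
      have := Real.log_two_lt_d9
      linarith
    linarith
  have hsumf : ∑ j, w j * (u j / m - 1 - Real.log (u j / m)) ≤ δ := by
    have h1 : ∑ j, w j * (u j / m - 1 - Real.log (u j / m)) =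
        (∑ j, w j * u j) / m - ∑ j, w j - ∑ j, w j * Real.log (u j) + Real.log m * ∑ j, w j := by
      rw [Finset.sum_div, Finset.mul_sum, ← Finset.sum_sub_distrib, ← Finset.sum_sub_distrib,
        ← Finset.sum_add_distrib]
      refine Finset.sum_congr rfl (fun j _ => ?_)
      rw [Real.log_div (hu j).ne' hmpos.ne']
      ring
    rw [h1, ← hm, hw1, div_self hmpos.ne']
    linarith
  have hB2 : ∑ j ∈ B, w j * (u j / m - 1 - Real.log (u j / m)) ≤ δ :=
    le_trans (Finset.sum_le_sum_of_subset_of_nonneg (subset_univ B)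
      (fun j _ _ => mul_nonneg (hw j) (hf0 j))) hsumf
  have h3 : ∑ j ∈ B, w j * (u j / m) ≤ 8 * β + 2 * δ := by
    calc ∑ j ∈ B, w j * (u j / m)
        ≤ ∑ j ∈ B, (8 * w j + 2 * (w j * (u j / m - 1 - Real.log (u j / m)))) := by
          refine Finset.sum_le_sum (fun j _ => ?_)
          have := mul_le_mul_of_nonneg_left (hfv j) (hw j)
          linarith
      _ = 8 * ∑ j ∈ B, w j + 2 * ∑ j ∈ B, w j * (u j / m - 1 - Real.log (u j / m)) := by
          rw [Finset.sum_add_distrib, Finset.mul_sum, Finset.mul_sum]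
      _ ≤ 8 * β + 2 * δ := by linarith
  have h4 : ∑ j ∈ B, w j * u j = (∑ j ∈ B, w j * (u j / m)) * m := by
    rw [Finset.sum_mul]
    refine Finset.sum_congr rfl (fun j _ => ?_)
    field_simp
  rw [h4]
  exact mul_le_mul_of_nonneg_right h3 hmpos.le

theorem part_sum_w1 {N : ℕ} (R : Finset V) (g : V → Fin N) :
    ∑ c : Fin N, ((part R (g, c)).card : ℝ) = R.card := by
  have h := Finset.card_eq_sum_card_fiberwise (s := R) (t := (univ : Finset (Fin N))) (f := g)
    (fun x _ => mem_coe.2 (mem_univ _))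
  rw [h]
  push_cast
  rfl

theorem bigW_nonneg_w1 {N : ℕ} (t : ℕ) (R : Finset V) (μ : (V → Fin N) → ℝ) (hμ : ∀ g, 0 ≤ μ g)
    (j : (V → Fin N) × Fin N) : 0 ≤ bigW t R μ j := by
  unfold bigW
  split_ifs
  · exact div_nonneg (mul_nonneg (hμ _) (Nat.cast_nonneg _)) (Nat.cast_nonneg _)
  · exact le_refl _

theorem full_sum_w1 {N : ℕ} (R : Finset V) (hR : R.Nonempty)
    (μ : (V → Fin N) → ℝ) (hμ1 : ∑ g, μ g = 1) :
    ∑ j : (V → Fin N) × Fin N, μ j.1 * ((part R j).card : ℝ) / R.card = 1 := by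
  have hRc : (0 : ℝ) < R.card := by exact_mod_cast hR.card_pos
  rw [Fintype.sum_prod_type]
  rw [← hμ1]
  refine Finset.sum_congr rfl (fun g _ => ?_)
  have : ∑ c : Fin N, μ g * ((part R (g, c)).card : ℝ) / R.card =
      μ g * (∑ c : Fin N, ((part R (g, c)).card : ℝ)) / R.card := by
    rw [Finset.mul_sum, Finset.sum_div]
  show ∑ c : Fin N, μ g * ((part R (g, c)).card : ℝ) / R.card = μ g
  rw [this, part_sum_w1]
  field_simp

/-- TARGET 2 -/
theorem totW_bounds {N : ℕ} (t : ℕ) (ht : 1 ≤ t) (R : Finset V) (hR : R.Nonempty)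
    (μ : (V → Fin N) → ℝ) (hμ : ∀ g, 0 ≤ μ g) (hμ1 : ∑ g, μ g = 1) :
    1 - (N : ℝ) / (t : ℝ) ^ 8 ≤ totW t R μ ∧ totW t R μ ≤ 1 := by
  have hRc : (0 : ℝ) < R.card := by exact_mod_cast hR.card_pos
  have ht0 : (0 : ℝ) < (t : ℝ) ^ 8 := by
    have : (0 : ℝ) < t := by exact_mod_cast ht
    positivity
  have hfull := full_sum_w1 R hR μ hμ1
  constructor
  · have h1 : ∑ j : (V → Fin N) × Fin N, (μ j.1 * ((part R j).card : ℝ) / R.card - bigW t R μ j) ≤
        ∑ j : (V → Fin N) × Fin N, μ j.1 / (t : ℝ) ^ 8 := by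
      refine Finset.sum_le_sum (fun j _ => ?_)
      unfold bigW
      split_ifs with hb
      · rw [sub_self]
        exact div_nonneg (hμ _) ht0.le
      · rw [sub_zero, mul_div_assoc, div_eq_mul_inv (μ j.1)]
        refine mul_le_mul_of_nonneg_left ?_ (hμ _)
        push Not at hb
        have hb' : (t : ℝ) ^ 8 * ((part R j).card : ℝ) < R.card := by exact_mod_cast hb
        rw [div_le_iff₀ hRc, inv_mul_eq_div, le_div_iff₀ ht0]
        linarith [mul_comm ((t : ℝ) ^ 8) ((part R j).card : ℝ)]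
    have h2 : ∑ j : (V → Fin N) × Fin N, μ j.1 / (t : ℝ) ^ 8 = N / (t : ℝ) ^ 8 := by
      rw [Fintype.sum_prod_type]
      simp only [Finset.sum_const, Finset.card_univ, Fintype.card_fin, nsmul_eq_mul]
      rw [← Finset.mul_sum, ← Finset.sum_div, hμ1]
      ring
    rw [Finset.sum_sub_distrib, hfull, h2] at h1
    unfold totW
    linarith
  · rw [← hfull]
    unfold totW
    refine Finset.sum_le_sum (fun j _ => ?_)
    unfold bigW
    split_ifs
    · exact le_refl _
    · exact div_nonneg (mul_nonneg (hμ _) (Nat.cast_nonneg _)) (Nat.cast_nonneg _)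

/-- TARGET 3 -/
theorem nW_nonneg {N : ℕ} (t : ℕ) (R : Finset V) (μ : (V → Fin N) → ℝ) (hμ : ∀ g, 0 ≤ μ g)
    (j : (V → Fin N) × Fin N) : 0 ≤ nW t R μ j := by
  exact div_nonneg (bigW_nonneg_w1 t R μ hμ j)
    (Finset.sum_nonneg (fun i _ => bigW_nonneg_w1 t R μ hμ i))

/-- TARGET 4 -/
theorem nW_sum {N : ℕ} (t : ℕ) (R : Finset V) (μ : (V → Fin N) → ℝ) (hpos : 0 < totW t R μ) :
    ∑ j, nW t R μ j = 1 := by
  unfold nW
  rw [← Finset.sum_div]
  exact div_self hpos.ne'

/-- TARGET 5 -/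
theorem nW_supp {N : ℕ} (t : ℕ) (R : Finset V) (hR : R.Nonempty) (μ : (V → Fin N) → ℝ)
    (j : (V → Fin N) × Fin N) (h : nW t R μ j ≠ 0) :
    part R j ⊆ R ∧ (part R j).Nonempty ∧ R.card ≤ t ^ 8 * (part R j).card := by
  have h1 : bigW t R μ j ≠ 0 := by
    intro h0
    apply h
    unfold nW
    rw [h0, zero_div]
  unfold bigW at h1
  split_ifs at h1 with hb
  · refine ⟨filter_subset _ _, ?_, hb⟩
    rw [Finset.nonempty_iff_ne_empty]
    intro he
    apply h1
    rw [he]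
    simp
  · exact absurd rfl h1

/-- TARGET 6 -/
theorem nW_marg {N : ℕ} (t : ℕ) (ht : 1 ≤ t) (R : Finset V) (hR : R.Nonempty)
    (μ : (V → Fin N) → ℝ) (hμ : ∀ g, 0 ≤ μ g) (hμ1 : ∑ g, μ g = 1) (τ : ℝ) (hτ : 0 < τ)
    (hτ1 : τ ≤ 1) (hN : (N : ℝ) / (t : ℝ) ^ 8 ≤ τ / 2) (x : V) (hx : x ∈ R) :
    (∑ j, if x ∈ part R j then nW t R μ j / ((part R j).card : ℝ) else 0) ≤
      (1 + τ) / (R.card : ℝ) := by
  have hRc : (0 : ℝ) < R.card := by exact_mod_cast hR.card_pos
  have hT := (totW_bounds t ht R hR μ hμ hμ1).1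
  have hT2 : 1 - τ / 2 ≤ totW t R μ := by linarith
  have hTpos : 0 < totW t R μ := by linarith
  have h1 : (∑ j, if x ∈ part R j then nW t R μ j / ((part R j).card : ℝ) else 0) ≤
      ∑ j : (V → Fin N) × Fin N, if j.1 x = j.2 then μ j.1 / (R.card * totW t R μ) else 0 := by
    refine Finset.sum_le_sum (fun j _ => ?_)
    have hmem : x ∈ part R j ↔ j.1 x = j.2 := by
      unfold part
      rw [mem_filter]
      exact ⟨fun h => h.2, fun h => ⟨hx, h⟩⟩
    by_cases hj : j.1 x = j.2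
    · rw [if_pos (hmem.2 hj), if_pos hj]
      have hpc : (0 : ℝ) < (part R j).card := by
        have : (part R j).Nonempty := ⟨x, hmem.2 hj⟩
        exact_mod_cast this.card_pos
      unfold nW bigW
      split_ifs
      · apply le_of_eq
        field_simp
      · simp only [zero_div]
        exact div_nonneg (hμ _) (mul_pos hRc hTpos).le
    · rw [if_neg (fun h => hj (hmem.1 h)), if_neg hj]
  refine h1.trans ?_
  rw [Fintype.sum_prod_type]
  have h2 : ∀ g : V → Fin N, (∑ c : Fin N, if g x = c then μ g / (R.card * totW t R μ) else 0) =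
      μ g / (R.card * totW t R μ) := by
    intro g
    rw [Finset.sum_ite_eq]
    simp
  show ∑ g : V → Fin N, (∑ c : Fin N, if g x = c then μ g / (R.card * totW t R μ) else 0) ≤ _
  rw [Finset.sum_congr rfl (fun g _ => h2 g), ← Finset.sum_div, hμ1, div_le_div_iff₀ (mul_pos hRc hTpos) hRc]
  have h3 : 1 ≤ (1 + τ) * totW t R μ := by nlinarith
  nlinarith

end LR
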