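import Pool.Agent.LR.Defs2

set_option autoImplicit false
set_option linter.unusedSectionVars false

open Finset

namespace LR


theorem exp_quad8885 {y : ℝ} (h : |y| ≤ 1) : Real.exp y ≤ 1 + y + y ^ 2 := by
  have := Real.abs_exp_sub_one_sub_id_le h
  have := (abs_le.mp this).2
  linarith

theorem mgf8885 {α : Type} [Fintype α] (D : α → ℝ) (hD : ∀ a, 0 ≤ D a)
    (h1 : ∑ a, D a = 1) (g : α → ℝ) (hg : ∀ a, 0 ≤ g a ∧ g a ≤ 1) (κ : ℝ) (hκ : 0 ≤ κ)
    (hκ1 : κ ≤ 1) :
    ∑ a, D a * Real.exp (κ / 2 * (g a - (∑ a, D a * g a + κ))) ≤ Real.exp (-(κ ^ 2) / 4) := by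
  set μ := ∑ a, D a * g a with hμ
  have hμ0 : 0 ≤ μ := Finset.sum_nonneg fun a _ => mul_nonneg (hD a) (hg a).1
  have hμ1 : μ ≤ 1 := by
    rw [← h1]
    exact Finset.sum_le_sum fun a _ => mul_le_of_le_one_right (hD a) (hg a).2
  have key : ∀ a, D a * Real.exp (κ / 2 * (g a - (μ + κ))) ≤
      (D a + κ / 2 * (D a * g a) - κ / 2 * μ * D a + (κ / 2) ^ 2 * D a) *
        Real.exp (-(κ / 2 * κ)) := by
    intro a
    have e : κ / 2 * (g a - (μ + κ)) = κ / 2 * (g a - μ) + -(κ / 2 * κ) := by ring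
    rw [e, Real.exp_add, ← mul_assoc]
    apply mul_le_mul_of_nonneg_right _ (Real.exp_pos _).le
    have hb : |g a - μ| ≤ 1 := by
      rw [abs_le]
      constructor <;> linarith [(hg a).1, (hg a).2]
    have hy : |κ / 2 * (g a - μ)| ≤ 1 := by
      rw [abs_mul, abs_of_nonneg (by linarith : 0 ≤ κ / 2)]
      nlinarith [abs_nonneg (g a - μ)]
    have h2 := exp_quad8885 hy
    have h3 : (g a - μ) ^ 2 ≤ 1 := by
      rw [← sq_abs]; nlinarith [abs_nonneg (g a - μ)]
    calc D a * Real.exp (κ / 2 * (g a - μ)) ≤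
        D a * (1 + κ / 2 * (g a - μ) + (κ / 2 * (g a - μ)) ^ 2) :=
          mul_le_mul_of_nonneg_left h2 (hD a)
      _ ≤ D a * (1 + κ / 2 * (g a - μ) + (κ / 2) ^ 2) := by
          apply mul_le_mul_of_nonneg_left _ (hD a)
          have : (κ / 2 * (g a - μ)) ^ 2 = (κ / 2) ^ 2 * (g a - μ) ^ 2 := by ring
          rw [this]
          nlinarith [sq_nonneg (κ / 2)]
      _ = _ := by ring
  calc ∑ a, D a * Real.exp (κ / 2 * (g a - (μ + κ))) ≤
      ∑ a, (D a + κ / 2 * (D a * g a) - κ / 2 * μ * D a + (κ / 2) ^ 2 * D a) *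
        Real.exp (-(κ / 2 * κ)) := Finset.sum_le_sum fun a _ => key a
    _ = (1 + (κ / 2) ^ 2) * Real.exp (-(κ / 2 * κ)) := by
        rw [← Finset.sum_mul, Finset.sum_add_distrib, Finset.sum_sub_distrib,
          Finset.sum_add_distrib, ← Finset.mul_sum, ← Finset.mul_sum, ← Finset.mul_sum, h1, ← hμ]
        ring
    _ ≤ Real.exp ((κ / 2) ^ 2) * Real.exp (-(κ / 2 * κ)) := by
        apply mul_le_mul_of_nonneg_right _ (Real.exp_pos _).le
        have := Real.add_one_le_exp ((κ / 2) ^ 2)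
        linarith
    _ = Real.exp (-(κ ^ 2) / 4) := by
        rw [← Real.exp_add]
        congr 1
        ring

theorem ind_le8885 {ι : Type} (s : Finset ι) (u : ι → ℝ) (n c l : ℝ) (hl : 0 ≤ l)
    (hn : n = s.card) :
    (if n * c ≤ ∑ i ∈ s, u i then (1 : ℝ) else 0) ≤ ∏ i ∈ s, Real.exp (l * (u i - c)) := by
  rw [← Real.exp_sum]
  split_ifs with h
  · apply Real.one_le_exp
    rw [← Finset.mul_sum, Finset.sum_sub_distrib, Finset.sum_const, nsmul_eq_mul, ← hn]
    exact mul_nonneg hl (by linarith)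
  · exact (Real.exp_pos _).le

/-- TARGET: Chernoff bound for product weights -/
theorem chernoff {α : Type} [Fintype α] (q : ℕ) (D : α → ℝ) (hD : ∀ a, 0 ≤ D a)
    (h1 : ∑ a, D a = 1) (g : α → ℝ) (hg : ∀ a, 0 ≤ g a ∧ g a ≤ 1) (κ : ℝ) (hκ : 0 ≤ κ)
    (hκ1 : κ ≤ 1) :
    ∑ x : Fin q → α, (∏ i, D (x i)) *
      (if (q : ℝ) * (∑ a, D a * g a + κ) ≤ ∑ i, g (x i) then (1 : ℝ) else 0)
      ≤ Real.exp (-(κ ^ 2) * q / 4) := by
  classical
  set μ := ∑ a, D a * g a with hμ
  calc ∑ x : Fin q → α, (∏ i, D (x i)) *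
      (if (q : ℝ) * (μ + κ) ≤ ∑ i, g (x i) then (1 : ℝ) else 0)
      ≤ ∑ x : Fin q → α, ∏ i, (D (x i) * Real.exp (κ / 2 * (g (x i) - (μ + κ)))) := by
        apply Finset.sum_le_sum
        intro x _
        rw [Finset.prod_mul_distrib]
        apply mul_le_mul_of_nonneg_left _ (Finset.prod_nonneg fun i _ => hD _)
        exact ind_le8885 Finset.univ (fun i => g (x i)) q (μ + κ) (κ / 2) (by linarith) (by simp)
    _ = ∏ _i : Fin q, ∑ a, D a * Real.exp (κ / 2 * (g a - (μ + κ))) := by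
        rw [Finset.prod_univ_sum, Fintype.piFinset_univ]
    _ = (∑ a, D a * Real.exp (κ / 2 * (g a - (μ + κ)))) ^ q := by
        rw [Finset.prod_const, Finset.card_univ, Fintype.card_fin]
    _ ≤ (Real.exp (-(κ ^ 2) / 4)) ^ q := by
        apply pow_le_pow_left₀ (Finset.sum_nonneg fun a _ => mul_nonneg (hD a) (Real.exp_pos _).le)
        exact mgf8885 D hD h1 g hg κ hκ hκ1
    _ = Real.exp (-(κ ^ 2) * q / 4) := by
        rw [← Real.exp_nat_mul]
        congr 1
        ring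

/-- TARGET: version with a distinguished
coordinate -/
theorem chernoff' {α : Type} [Fintype α] (q : ℕ) (i0 : Fin q) (D : α → ℝ) (hD : ∀ a, 0 ≤ D a)
    (h1 : ∑ a, D a = 1) (g : α → ℝ) (hg : ∀ a, 0 ≤ g a ∧ g a ≤ 1) (f : α → ℝ)
    (hf : ∀ a, 0 ≤ f a) (κ : ℝ) (hκ : 0 ≤ κ) (hκ1 : κ ≤ 1) :
    ∑ x : Fin q → α, (∏ i, D (x i)) * (f (x i0) *
      (if ((q : ℝ) - 1) * (∑ a, D a * g a + κ) ≤ ∑ i ∈ Finset.univ.erase i0, g (x i)
        then (1 : ℝ) else 0))
      ≤ (∑ a, D a * f a) * Real.exp (-(κ ^ 2) * ((q : ℝ) - 1) / 4) := by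
  classical
  set μ := ∑ a, D a * g a with hμ
  have hq : 1 ≤ q := by have := i0.2; omega
  have hcard : ((Finset.univ.erase i0).card : ℝ) = (q : ℝ) - 1 := by
    rw [Finset.card_erase_of_mem (Finset.mem_univ _), Finset.card_univ, Fintype.card_fin]
    push_cast [Nat.cast_sub hq]
    ring
  have hcard' : (Finset.univ.erase i0).card = q - 1 := by
    rw [Finset.card_erase_of_mem (Finset.mem_univ _), Finset.card_univ, Fintype.card_fin]
  let F : Fin q → α → ℝ := fun i a =>
    if i = i0 then D a * f a else D a * Real.exp (κ / 2 * (g a - (μ + κ)))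
  have hF0 : ∀ a, F i0 a = D a * f a := fun a => by simp [F]
  have hF1 : ∀ i, i ≠ i0 → ∀ a, F i a = D a * Real.exp (κ / 2 * (g a - (μ + κ))) :=
    fun i hi a => by simp [F, hi]
  calc ∑ x : Fin q → α, (∏ i, D (x i)) * (f (x i0) *
      (if ((q : ℝ) - 1) * (μ + κ) ≤ ∑ i ∈ Finset.univ.erase i0, g (x i)
        then (1 : ℝ) else 0))
      ≤ ∑ x : Fin q → α, ∏ i, F i (x i) := by
        apply Finset.sum_le_sum
        intro x _
        rw [← Finset.mul_prod_erase Finset.univ _ (Finset.mem_univ i0),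
          ← Finset.mul_prod_erase Finset.univ (fun i => F i (x i)) (Finset.mem_univ i0), hF0]
        have e : ∏ i ∈ Finset.univ.erase i0, F i (x i) =
            (∏ i ∈ Finset.univ.erase i0, D (x i)) *
              ∏ i ∈ Finset.univ.erase i0, Real.exp (κ / 2 * (g (x i) - (μ + κ))) := by
          rw [← Finset.prod_mul_distrib]
          apply Finset.prod_congr rfl
          intro i hi
          exact hF1 i (Finset.ne_of_mem_erase hi) _
        rw [e]
        have h2 := ind_le8885 (Finset.univ.erase i0) (fun i => g (x i)) ((q : ℝ) - 1) (μ + κ)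
          (κ / 2) (by linarith) hcard.symm
        have h3 : 0 ≤ D (x i0) * f (x i0) * ∏ i ∈ Finset.univ.erase i0, D (x i) :=
          mul_nonneg (mul_nonneg (hD _) (hf _)) (Finset.prod_nonneg fun i _ => hD _)
        calc _ = (D (x i0) * f (x i0) * ∏ i ∈ Finset.univ.erase i0, D (x i)) *
            (if ((q : ℝ) - 1) * (μ + κ) ≤ ∑ i ∈ Finset.univ.erase i0, g (x i)
              then (1 : ℝ) else 0) := by ring
          _ ≤ (D (x i0) * f (x i0) * ∏ i ∈ Finset.univ.erase i0, D (x i)) * _ :=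
              mul_le_mul_of_nonneg_left h2 h3
          _ = _ := by ring
    _ = ∏ i : Fin q, ∑ a, F i a := by
        rw [Finset.prod_univ_sum, Fintype.piFinset_univ]
    _ = (∑ a, D a * f a) * (∑ a, D a * Real.exp (κ / 2 * (g a - (μ + κ)))) ^ (q - 1) := by
        rw [← Finset.mul_prod_erase Finset.univ _ (Finset.mem_univ i0)]
        congr 1
        · exact Finset.sum_congr rfl fun a _ => hF0 a
        · rw [← hcard', ← Finset.prod_const]
          apply Finset.prod_congr rfl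
          intro i hi
          exact Finset.sum_congr rfl fun a _ => hF1 i (Finset.ne_of_mem_erase hi) a
    _ ≤ (∑ a, D a * f a) * (Real.exp (-(κ ^ 2) / 4)) ^ (q - 1) := by
        apply mul_le_mul_of_nonneg_left _ (Finset.sum_nonneg fun a _ => mul_nonneg (hD a) (hf a))
        apply pow_le_pow_left₀ (Finset.sum_nonneg fun a _ => mul_nonneg (hD a) (Real.exp_pos _).le)
        exact mgf8885 D hD h1 g hg κ hκ hκ1
    _ = (∑ a, D a * f a) * Real.exp (-(κ ^ 2) * ((q : ℝ) - 1) / 4) := by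
        rw [← Real.exp_nat_mul]
        congr 2
        push_cast [Nat.cast_sub hq]
        ring

end LR

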