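import Pool.Agent.LR.S2

set_option autoImplicit false
set_option linter.unusedSectionVars false

open Finset

namespace LR

variable {V : Type} [Fintype V] [DecidableEq V]

/-- normalised clique number of the part in `S` -/
noncomputable def cg (H : SimpleGraph V) (k : ℕ) (D : Finset V → ℝ) (S : Finset V)
    (A : Finset V) : ℝ := if D A = 0 then 0 else (om H (A ∩ S) : ℝ) / k

theorem cg_bd (H : SimpleGraph V) (k m : ℕ) (hk : 1 ≤ k) (D : Finset V → ℝ)
    (hsupp : ∀ A, D A ≠ 0 → om H A ≤ k ∧ A.card ≤ m) (S A : Finset V) :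
    0 ≤ cg H k D S A ∧ cg H k D S A ≤ 1 := by
  have hkR : (0 : ℝ) < k := by exact_mod_cast hk
  unfold cg
  split_ifs with h
  · exact ⟨le_rfl, zero_le_one⟩
  · refine ⟨by positivity, ?_⟩
    rw [div_le_one hkR]
    exact_mod_cast (om_mono inter_subset_left).trans (hsupp A h).1

theorem cg_sum (H : SimpleGraph V) (k : ℕ) (D : Finset V → ℝ) (S : Finset V) :
    ∑ A, D A * cg H k D S A = hit H k D S := by
  unfold hit
  rw [Finset.sum_div]
  refine Finset.sum_congr rfl fun A _ => ?_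
  unfold cg
  split_ifs with h
  · rw [h]; simp
  · rw [mul_div_assoc]

theorem cg_mul (H : SimpleGraph V) (k : ℕ) (hk : 1 ≤ k) (D : Finset V → ℝ) (S A : Finset V)
    (h : D A ≠ 0) : (k : ℝ) * cg H k D S A = (om H (A ∩ S) : ℝ) := by
  have hkR : (k : ℝ) ≠ 0 := by
    have : k ≠ 0 := by omega
    exact_mod_cast this
  unfold cg
  rw [if_neg h, mul_div_cancel₀ _ hkR]

theorem cross_claim (H : SimpleGraph V) (k q m : ℕ) (hk : 1 ≤ k) (D : Finset V → ℝ)
    (hsupp : ∀ A, D A ≠ 0 → om H A ≤ k ∧ A.card ≤ m) (P R : Finset V) (κ h z : ℝ) (hκ : 0 < κ)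
    (hR : R = P.filter (fun v => h - 8 * κ < hit H k D (nb H v P)))
    (hz : z < h - 4 * κ) (hh : 4 * κ < h)
    (hq : 2 ≤ κ * ((q : ℝ) - 1)) (a : Fin q → Finset V) (ha : ∀ i, D (a i) ≠ 0)
    (hX : (h - 2 * κ) * ((q : ℝ) * k) ≤ (om H (P ∩ Finset.univ.biUnion a) : ℝ)) :
    ((q : ℝ) * (z + κ) ≤ ∑ i, cg H k D R (a i)) ∨
    ∃ i, ∃ v ∈ a i, ((q : ℝ) - 1) * (hit H k D (nb H v P) + κ) ≤
      ∑ j ∈ Finset.univ.erase i, cg H k D (nb H v P) (a j) := by
  have hkR : (0 : ℝ) < k := by exact_mod_cast hk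
  have hk1 : (1 : ℝ) ≤ k := by exact_mod_cast hk
  have hqpos : 0 < (q : ℝ) - 1 := by
    by_contra hcon
    push Not at hcon
    nlinarith
  obtain ⟨C, hCs, hCc, hCo⟩ := exists_om H (P ∩ Finset.univ.biUnion a)
  rw [← hCo] at hX
  by_cases hCR : C ⊆ R
  · left
    have h1 : C ⊆ Finset.univ.biUnion (fun i => a i ∩ R) := by
      intro x hx
      have h2 := hCs hx
      rw [mem_inter, mem_biUnion] at h2
      obtain ⟨i, hi, h3⟩ := h2.2
      rw [mem_biUnion]
      exact ⟨i, hi, mem_inter.2 ⟨h3, hCR hx⟩⟩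
    have h2 : C.card ≤ ∑ i, om H (a i ∩ R) := (le_om h1 hCc).trans (om_biUnion_le H _ _)
    have h3 : (C.card : ℝ) ≤ ∑ i, (k : ℝ) * cg H k D R (a i) := by
      calc (C.card : ℝ) ≤ ((∑ i, om H (a i ∩ R) : ℕ) : ℝ) := by exact_mod_cast h2
        _ = ∑ i, (om H (a i ∩ R) : ℝ) := by push_cast; rfl
        _ = _ := Finset.sum_congr rfl fun i _ => (cg_mul H k hk D R (a i) (ha i)).symm
    rw [← Finset.mul_sum] at h3
    have h4 : (k : ℝ) * ((q : ℝ) * (z + κ)) ≤ (k : ℝ) * ∑ i, cg H k D R (a i) := by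
      refine le_trans ?_ h3
      refine le_trans ?_ hX
      have h5 : z + κ ≤ h - 2 * κ := by linarith
      have h6 : (q : ℝ) * k * (z + κ) ≤ (q : ℝ) * k * (h - 2 * κ) :=
        mul_le_mul_of_nonneg_left h5 (by positivity)
      linarith
    exact le_of_mul_le_mul_left h4 hkR
  · right
    obtain ⟨v, hvC, hvR⟩ := not_subset.1 hCR
    have h2 := hCs hvC
    rw [mem_inter, mem_biUnion] at h2
    obtain ⟨hvP, i, -, hvi⟩ := h2
    refine ⟨i, v, hvi, ?_⟩
    have hvB : hit H k D (nb H v P) ≤ h - 8 * κ := by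
      by_contra hcon
      push Not at hcon
      apply hvR
      rw [hR, mem_filter]
      exact ⟨hvP, hcon⟩
    have h3 : C.erase v ⊆ Finset.univ.biUnion (fun j => a j ∩ nb H v P) := by
      intro x hx
      rw [mem_erase] at hx
      have h4 := hCs hx.2
      rw [mem_inter, mem_biUnion] at h4
      obtain ⟨hxP, j, hj, hxj⟩ := h4
      rw [mem_biUnion]
      refine ⟨j, hj, mem_inter.2 ⟨hxj, mem_nb.2 ⟨hxP, ?_⟩⟩⟩
      exact hCc (mem_coe.2 hvC) (mem_coe.2 hx.2) (Ne.symm hx.1)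
    have h4 : (C.erase v).card ≤ ∑ j, om H (a j ∩ nb H v P) := by
      refine (le_om h3 (hCc.subset ?_)).trans (om_biUnion_le H _ _)
      exact_mod_cast erase_subset v C
    have h5 : C.card ≤ 1 + ∑ j, om H (a j ∩ nb H v P) := by
      have := Finset.card_erase_add_one hvC
      omega
    have h6 : ∑ j, om H (a j ∩ nb H v P) ≤ k + ∑ j ∈ Finset.univ.erase i, om H (a j ∩ nb H v P) := by
      rw [← Finset.add_sum_erase _ _ (Finset.mem_univ i)]
      exact Nat.add_le_add_right ((om_mono inter_subset_left).trans (hsupp (a i) (ha i)).1) _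
    have h7 : (C.card : ℝ) ≤ 1 + k + (k : ℝ) * ∑ j ∈ Finset.univ.erase i, cg H k D (nb H v P) (a j) := by
      rw [Finset.mul_sum]
      have h8 : ∑ j ∈ Finset.univ.erase i, (k : ℝ) * cg H k D (nb H v P) (a j) =
          ∑ j ∈ Finset.univ.erase i, (om H (a j ∩ nb H v P) : ℝ) :=
        Finset.sum_congr rfl fun j _ => cg_mul H k hk D _ (a j) (ha j)
      rw [h8]
      have h9 : C.card ≤ 1 + k + ∑ j ∈ Finset.univ.erase i, om H (a j ∩ nb H v P) := by omega
      exact_mod_cast h9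
    set S := ∑ j ∈ Finset.univ.erase i, cg H k D (nb H v P) (a j) with hS
    have h8 : (k : ℝ) * (((q : ℝ) - 1) * (hit H k D (nb H v P) + κ)) ≤ (k : ℝ) * S := by
      have h9 : ((q : ℝ) - 1) * (hit H k D (nb H v P) + κ) ≤ ((q : ℝ) - 1) * (h - 7 * κ) :=
        mul_le_mul_of_nonneg_left (by linarith) hqpos.le
      have h10 : ((q : ℝ) - 1) * (h - 7 * κ) ≤ (h - 2 * κ) * q - 2 := by nlinarith
      have h11 : (k : ℝ) * (((q : ℝ) - 1) * (hit H k D (nb H v P) + κ)) ≤
          (k : ℝ) * ((h - 2 * κ) * q - 2) := mul_le_mul_of_nonneg_left (h9.trans h10) hkR.le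
      nlinarith
    exact le_of_mul_le_mul_left h8 hkR

theorem hit_nonneg' (H : SimpleGraph V) (k : ℕ) (D : Finset V → ℝ)
    (hD : ∀ A, 0 ≤ D A) (S : Finset V) : 0 ≤ hit H k D S := by
  unfold hit
  refine div_nonneg (Finset.sum_nonneg fun A _ => mul_nonneg (hD A) (Nat.cast_nonneg _))
    (Nat.cast_nonneg _)

/-- TARGET cross -/
theorem cross (H : SimpleGraph V) (k q m : ℕ) (hk : 1 ≤ k) (D : Finset V → ℝ)
    (hD : ∀ A, 0 ≤ D A) (h1 : ∑ A, D A = 1)
    (hsupp : ∀ A, D A ≠ 0 → om H A ≤ k ∧ A.card ≤ m) (P : Finset V) (κ : ℝ) (hκ : 0 < κ)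
    (hκ1 : κ ≤ 1)
    (hiid : hit H k D P - κ ≤ (∑ a : Fin q → Finset V, (∏ i, D (a i)) *
      (om H (P ∩ Finset.univ.biUnion a) : ℝ)) / ((q : ℝ) * k))
    (hq : 2 ≤ κ * ((q : ℝ) - 1))
    (hq2 : ((q : ℝ) * m + 1) * Real.exp (-(κ ^ 2) * ((q : ℝ) - 1) / 4) < κ) :
    hit H k D P - 4 * κ ≤
      hit H k D (P.filter (fun v => hit H k D P - 8 * κ < hit H k D (nb H v P))) := by
  by_contra hcon
  push Not at hcon
  set R := P.filter (fun v => hit H k D P - 8 * κ < hit H k D (nb H v P)) with hR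
  set h := hit H k D P with hh
  set z := hit H k D R with hz
  have hkR : (0 : ℝ) < k := by exact_mod_cast hk
  have hz0 : 0 ≤ z := hit_nonneg' H k D hD R
  have hh4 : 4 * κ < h := by linarith
  have hqpos : 0 < (q : ℝ) - 1 := by
    by_contra hcon
    push Not at hcon
    nlinarith
  have hqR : 0 < (q : ℝ) := by linarith
  have hqk : 0 < (q : ℝ) * k := mul_pos hqR hkR
  -- indicators
  set I1 : (Fin q → Finset V) → ℝ := fun a =>
    if (q : ℝ) * (∑ A, D A * cg H k D R A + κ) ≤ ∑ i, cg H k D R (a i) then (1 : ℝ) else 0 with hI1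
  set f : V → Finset V → ℝ := fun v A => if v ∈ A then 1 else 0 with hf
  set I2 : Fin q → V → (Fin q → Finset V) → ℝ := fun i v a =>
    if ((q : ℝ) - 1) * (∑ A, D A * cg H k D (nb H v P) A + κ) ≤
      ∑ j ∈ Finset.univ.erase i, cg H k D (nb H v P) (a j) then (1 : ℝ) else 0 with hI2
  have hI1n : ∀ a, 0 ≤ I1 a := fun a => by simp only [hI1]; split_ifs <;> norm_num
  have hI2n : ∀ i v a, 0 ≤ I2 i v a := fun i v a => by simp only [hI2]; split_ifs <;> norm_num
  have hfn : ∀ v A, 0 ≤ f v A := fun v A => by simp only [hf]; split_ifs <;> norm_num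
  have hw : ∀ a : Fin q → Finset V, 0 ≤ ∏ i, D (a i) := fun a =>
    Finset.prod_nonneg fun i _ => hD _
  have hpt : ∀ a : Fin q → Finset V,
      (∏ i, D (a i)) * ((om H (P ∩ Finset.univ.biUnion a) : ℝ) / ((q : ℝ) * k)) ≤
      (∏ i, D (a i)) * (h - 2 * κ) + ((∏ i, D (a i)) * I1 a +
        ∑ i, ∑ v, (∏ i, D (a i)) * (f v (a i) * I2 i v a)) := by
    intro a
    have hsn : 0 ≤ ∑ i, ∑ v, (f v (a i) * I2 i v a) :=
      Finset.sum_nonneg fun i _ => Finset.sum_nonneg fun v _ => mul_nonneg (hfn _ _) (hI2n _ _ _)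
    have hrw : (∏ i, D (a i)) * (h - 2 * κ) + ((∏ i, D (a i)) * I1 a +
        ∑ i, ∑ v, (∏ i, D (a i)) * (f v (a i) * I2 i v a)) =
        (∏ i, D (a i)) * ((h - 2 * κ) + (I1 a + ∑ i, ∑ v, (f v (a i) * I2 i v a))) := by
      simp only [← Finset.mul_sum]
      ring
    rw [hrw]
    by_cases h0 : ∏ i, D (a i) = 0
    · rw [h0]; simp
    have ha : ∀ i, D (a i) ≠ 0 := fun i hi => h0 (Finset.prod_eq_zero (Finset.mem_univ i) hi)
    refine mul_le_mul_of_nonneg_left ?_ (hw a)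
    have hXle : (om H (P ∩ Finset.univ.biUnion a) : ℝ) / ((q : ℝ) * k) ≤ 1 := by
      rw [div_le_one hqk]
      have h2 : om H (P ∩ Finset.univ.biUnion a) ≤ q * k := by
        refine (om_mono inter_subset_right).trans ((om_biUnion_le H _ _).trans ?_)
        calc ∑ i, om H (a i) ≤ ∑ i : Fin q, k := Finset.sum_le_sum fun i _ => (hsupp _ (ha i)).1
          _ = q * k := by simp
      exact_mod_cast h2
    by_cases hX : (h - 2 * κ) ≤ (om H (P ∩ Finset.univ.biUnion a) : ℝ) / ((q : ℝ) * k)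
    · rw [le_div_iff₀ hqk] at hX
      have hclaim := cross_claim H k q m hk D hsupp P R κ h z hκ hR hcon hh4 hq a ha hX
      rcases hclaim with h1 | ⟨i, v, hvi, h1⟩
      · have h2 : I1 a = 1 := by
          simp only [hI1]
          rw [cg_sum, if_pos h1]
        rw [h2]
        linarith
      · have h2 : I2 i v a = 1 := by
          simp only [hI2]
          rw [cg_sum, if_pos h1]
        have h3 : f v (a i) = 1 := by
          simp only [hf]
          rw [if_pos hvi]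
        have h4 : (1 : ℝ) ≤ ∑ i, ∑ v, (f v (a i) * I2 i v a) := by
          calc (1 : ℝ) = f v (a i) * I2 i v a := by rw [h2, h3]; norm_num
            _ ≤ ∑ v, (f v (a i) * I2 i v a) :=
              Finset.single_le_sum (f := fun v => f v (a i) * I2 i v a)
                (fun v _ => mul_nonneg (hfn _ _) (hI2n _ _ _)) (Finset.mem_univ v)
            _ ≤ _ := Finset.single_le_sum (f := fun i => ∑ v, (f v (a i) * I2 i v a))
                (fun i _ => Finset.sum_nonneg fun v _ => mul_nonneg (hfn _ _) (hI2n _ _ _))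
                (Finset.mem_univ i)
        have := hI1n a
        linarith
    · push Not at hX
      have := hI1n a
      linarith
  have hsum := Finset.sum_le_sum fun (a : Fin q → Finset V) (_ : a ∈ Finset.univ) => hpt a
  rw [Finset.sum_add_distrib, Finset.sum_add_distrib, ← Finset.sum_mul] at hsum
  have hone : ∑ a : Fin q → Finset V, ∏ i, D (a i) = 1 := by
    rw [← Fintype.sum_pow, h1, one_pow]
  rw [hone, one_mul] at hsum
  have hlhs : ∑ a : Fin q → Finset V,
      (∏ i, D (a i)) * ((om H (P ∩ Finset.univ.biUnion a) : ℝ) / ((q : ℝ) * k)) =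
      (∑ a : Fin q → Finset V, (∏ i, D (a i)) *
        (om H (P ∩ Finset.univ.biUnion a) : ℝ)) / ((q : ℝ) * k) := by
    rw [Finset.sum_div]
    exact Finset.sum_congr rfl fun a _ => (mul_div_assoc _ _ _).symm
  rw [hlhs] at hsum
  have hc1 : ∑ a : Fin q → Finset V, (∏ i, D (a i)) * I1 a ≤ Real.exp (-(κ ^ 2) * q / 4) :=
    chernoff q D hD h1 (fun A => cg H k D R A) (fun A => cg_bd H k m hk D hsupp R A) κ hκ.le hκ1
  have hc2 : ∀ i v, ∑ a : Fin q → Finset V, (∏ i, D (a i)) * (f v (a i) * I2 i v a) ≤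
      (∑ A, D A * f v A) * Real.exp (-(κ ^ 2) * ((q : ℝ) - 1) / 4) := fun i v =>
    chernoff' q i D hD h1 (fun A => cg H k D (nb H v P) A)
      (fun A => cg_bd H k m hk D hsupp (nb H v P) A) (f v) (hfn v) κ hκ.le hκ1
  have hswap : ∑ a : Fin q → Finset V, ∑ i, ∑ v, (∏ i, D (a i)) * (f v (a i) * I2 i v a) =
      ∑ i, ∑ v, ∑ a : Fin q → Finset V, (∏ i, D (a i)) * (f v (a i) * I2 i v a) := by
    rw [Finset.sum_comm]
    refine Finset.sum_congr rfl fun i _ => ?_
    rw [Finset.sum_comm]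
  have hc3 : ∑ i : Fin q, ∑ v, ∑ a : Fin q → Finset V, (∏ i, D (a i)) * (f v (a i) * I2 i v a) ≤
      ((q : ℝ) * m) * Real.exp (-(κ ^ 2) * ((q : ℝ) - 1) / 4) := by
    have hcard : ∑ v, ∑ A, D A * f v A ≤ m := by
      rw [Finset.sum_comm]
      calc ∑ A, ∑ v, D A * f v A ≤ ∑ A, D A * m := by
            refine Finset.sum_le_sum fun A _ => ?_
            rw [← Finset.mul_sum]
            by_cases hA : D A = 0
            · rw [hA]; simp
            refine mul_le_mul_of_nonneg_left ?_ (hD A)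
            have : ∑ v, f v A = (A.card : ℝ) := by
              simp only [hf]
              rw [Finset.sum_ite_mem]
              simp
            rw [this]
            exact_mod_cast (hsupp A hA).2
        _ = m := by rw [← Finset.sum_mul, h1, one_mul]
    calc ∑ i : Fin q, ∑ v, ∑ a : Fin q → Finset V, (∏ i, D (a i)) * (f v (a i) * I2 i v a)
        ≤ ∑ i : Fin q, ∑ v, (∑ A, D A * f v A) * Real.exp (-(κ ^ 2) * ((q : ℝ) - 1) / 4) :=
          Finset.sum_le_sum fun i _ => Finset.sum_le_sum fun v _ => hc2 i v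
      _ = (q : ℝ) * ((∑ v, ∑ A, D A * f v A) * Real.exp (-(κ ^ 2) * ((q : ℝ) - 1) / 4)) := by
          rw [Finset.sum_const, Finset.card_univ, Fintype.card_fin, nsmul_eq_mul, Finset.sum_mul]
      _ ≤ (q : ℝ) * (m * Real.exp (-(κ ^ 2) * ((q : ℝ) - 1) / 4)) :=
          mul_le_mul_of_nonneg_left (mul_le_mul_of_nonneg_right hcard (Real.exp_pos _).le) hqR.le
      _ = _ := by ring
  have hexp : Real.exp (-(κ ^ 2) * q / 4) ≤ Real.exp (-(κ ^ 2) * ((q : ℝ) - 1) / 4) := by
    apply Real.exp_le_exp.mpr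
    nlinarith [sq_nonneg κ]
  rw [hswap] at hsum
  linarith

end LR
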